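import Mathlib
import Pool.Agent.Helper16.BT.RankTwo
import Pool.Agent.Helper16.BT.Backward

/-!
BT3: definitions for the stable second Brauer-Thrall conjecture in rank three.

`k` is a field, `A` a finite dimensional `k`-algebra, `e : Fin n → A` idempotents such that the
dimensions of the spaces `e i M` determine all weights (`Crd`).  Vectors `x : Fin n → ℤ` are
weights; `vd k e x M = ∑ x i * dim (e i M)` is the value of the weight `x` on the module `M`.
Stability convention: `M` is `x`-stable if its weight is zero and all proper nonzero submodules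
have negative weight (this is `BT.St`).
-/

namespace BT3

open Module Function BT

section val

variable {A : Type} [Ring A] {n : ℕ}

/-- the value of the weight `x` on the module `M` -/
noncomputable def vd (k : Type) [Field k] [Algebra k A] (e : Fin n → A) (x : Fin n → ℤ)
    (M : Type) [AddCommGroup M] [Module A M] [Module k M] [IsScalarTower k A M] : ℤ :=
  ∑ i, x i * (ed k (e i) M : ℤ)

/-- coordinates for the weights: the values `dim (e i M)` vanish only for `M = 0`, every weight is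
a combination of them, and there are simple modules dual to them -/
structure Crd (k : Type) [Field k] [Algebra k A] (e : Fin n → A) : Prop where
  idem : ∀ i, IsIdempotentElem (e i)
  zero : ∀ (M : Type) [AddCommGroup M] [Module A M] [Module k M] [IsScalarTower k A M]
    [Module.Finite k M], (∀ i, ed k (e i) M = 0) → Subsingleton M
  wt : ∀ (P Q : Type) [AddCommGroup P] [Module A P] [Module k P] [IsScalarTower k A P]
    [Module.Finite k P] [Module.Projective A P] [AddCommGroup Q] [Module A Q] [Module k Q]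
    [IsScalarTower k A Q] [Module.Finite k Q] [Module.Projective A Q],
    ∃ x : Fin n → ℤ, ∀ (M : Type) [AddCommGroup M] [Module A M] [Module k M]
      [IsScalarTower k A M] [Module.Finite k M], Th k A P Q M = vd k e x M
  simple : ∀ i, ∃ S : FM k A, ∀ j, ed k (e j) S.X = if j = i then 1 else 0

/-- all quotients have nonnegative weight -/
def Tb (k : Type) [Field k] [Algebra k A] (e : Fin n → A) (x : Fin n → ℤ)
    (M : Type) [AddCommGroup M] [Module A M] [Module k M] [IsScalarTower k A M] : Prop :=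
  ∀ N : Submodule A M, 0 ≤ vd k e x (M ⧸ N)

/-- all submodules have nonpositive weight -/
def Fb (k : Type) [Field k] [Algebra k A] (e : Fin n → A) (x : Fin n → ℤ)
    (M : Type) [AddCommGroup M] [Module A M] [Module k M] [IsScalarTower k A M] : Prop :=
  ∀ N : Submodule A M, vd k e x N ≤ 0

/-- all nonzero quotients have positive weight -/
def Tt (k : Type) [Field k] [Algebra k A] (e : Fin n → A) (x : Fin n → ℤ)
    (M : Type) [AddCommGroup M] [Module A M] [Module k M] [IsScalarTower k A M] : Prop :=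
  ∀ N : Submodule A M, N ≠ ⊤ → 0 < vd k e x (M ⧸ N)

/-- all nonzero submodules have negative weight -/
def Ff (k : Type) [Field k] [Algebra k A] (e : Fin n → A) (x : Fin n → ℤ)
    (M : Type) [AddCommGroup M] [Module A M] [Module k M] [IsScalarTower k A M] : Prop :=
  ∀ N : Submodule A M, N ≠ ⊥ → vd k e x N < 0

/-- semistable modules -/
def Ws (k : Type) [Field k] [Algebra k A] (e : Fin n → A) (x : Fin n → ℤ)
    (M : Type) [AddCommGroup M] [Module A M] [Module k M] [IsScalarTower k A M] : Prop :=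
  Tb k e x M ∧ Fb k e x M

/-- stable modules -/
def Sta (k : Type) [Field k] [Algebra k A] (e : Fin n → A) (x : Fin n → ℤ)
    (M : Type) [AddCommGroup M] [Module A M] [Module k M] [IsScalarTower k A M] : Prop :=
  Nontrivial M ∧ vd k e x M = 0 ∧ ∀ U : Submodule A M, U ≠ ⊥ → U ≠ ⊤ → vd k e x U < 0

/-- the presentation `X` has weight `x` -/
def HW {k : Type} [Field k] [Algebra k A] (e : Fin n → A) (X : Pr k A) (x : Fin n → ℤ) : Prop :=
  ∀ (M : Type) [AddCommGroup M] [Module A M] [Module k M] [IsScalarTower k A M]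
    [Module.Finite k M], Th k A X.P X.Q M = vd k e x M

/-- compatible weights -/
def Cmp (k : Type) [Field k] [Algebra k A] (e : Fin n → A) (x y : Fin n → ℤ) : Prop :=
  ∀ (M : Type) [AddCommGroup M] [Module A M] [Module k M] [IsScalarTower k A M]
    [Module.Finite k M], (Tt k e x M → Tb k e y M) ∧ (Tt k e y M → Tb k e x M)

/-- indecomposable weights -/
def Ind (k : Type) [Field k] [Algebra k A] (e : Fin n → A) (u : Fin n → ℤ) : Prop :=
  u ≠ 0 ∧ ∀ x y, Cmp k e x y → x + y = u → x = 0 ∨ y = 0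

end val

section pres

variable {k A : Type} [Field k] [Ring A] [Algebra k A] {n : ℕ}

/-- `dim Hom(f_X, C_Y[1])` -/
noncomputable def ee (X Y : Pr k A) : ℕ := ex k X.f Y.C

/-- source and target of `X` are direct sums of the modules `A (e i)` -/
def Std (e : Fin n → A) (X : Pr k A) : Prop :=
  ∃ a b : Fin n → ℕ, Nonempty (X.P ≃ₗ[A] PP e a) ∧ Nonempty (X.Q ≃ₗ[A] PP e b)

/-- direct sum of presentations -/
def Pr.add (X Y : Pr k A) (h1 : EE X.f Y.f) (h2 : EE Y.f X.f) : Pr k A where
  P := X.P × Y.P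
  Q := X.Q × Y.Q
  f := LinearMap.prodMap X.f Y.f
  rig := by
    intro g
    obtain ⟨u1, v1, e1⟩ := X.rig (LinearMap.fst A X.Q Y.Q ∘ₗ g ∘ₗ LinearMap.inl A X.P Y.P)
    obtain ⟨u2, v2, e2⟩ := Y.rig (LinearMap.snd A X.Q Y.Q ∘ₗ g ∘ₗ LinearMap.inr A X.P Y.P)
    obtain ⟨u3, v3, e3⟩ := h1 (LinearMap.snd A X.Q Y.Q ∘ₗ g ∘ₗ LinearMap.inl A X.P Y.P)
    obtain ⟨u4, v4, e4⟩ := h2 (LinearMap.fst A X.Q Y.Q ∘ₗ g ∘ₗ LinearMap.inr A X.P Y.P)
    refine ⟨LinearMap.prod (u1 ∘ₗ LinearMap.fst A _ _ + u4 ∘ₗ LinearMap.snd A _ _)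
      (u3 ∘ₗ LinearMap.fst A _ _ + u2 ∘ₗ LinearMap.snd A _ _),
      LinearMap.prod (v1 ∘ₗ LinearMap.fst A _ _ + v4 ∘ₗ LinearMap.snd A _ _)
      (v3 ∘ₗ LinearMap.fst A _ _ + v2 ∘ₗ LinearMap.snd A _ _), ?_⟩
    refine LinearMap.ext (fun z => ?_)
    have hz : g z = g (z.1, 0) + g (0, z.2) := by
      rw [← map_add]
      congr 1
      exact Prod.ext (add_zero _).symm (zero_add _).symm
    have E1 : (g (z.1, 0)).1 = u1 (X.f z.1) + X.f (v1 z.1) := LinearMap.congr_fun e1 z.1
    have E2 : (g (0, z.2)).2 = u2 (Y.f z.2) + Y.f (v2 z.2) := LinearMap.congr_fun e2 z.2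
    have E3 : (g (z.1, 0)).2 = u3 (X.f z.1) + Y.f (v3 z.1) := LinearMap.congr_fun e3 z.1
    have E4 : (g (0, z.2)).1 = u4 (Y.f z.2) + X.f (v4 z.2) := LinearMap.congr_fun e4 z.2
    refine Prod.ext ?_ ?_
    · rw [hz]
      change (g (z.1, 0)).1 + (g (0, z.2)).1 =
        (u1 (X.f z.1) + u4 (Y.f z.2)) + X.f (v1 z.1 + v4 z.2)
      rw [E1, E4, map_add]
      abel
    · rw [hz]
      change (g (z.1, 0)).2 + (g (0, z.2)).2 =
        (u3 (X.f z.1) + u2 (Y.f z.2)) + Y.f (v3 z.1 + v2 z.2)
      rw [E2, E3, map_add]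
      abel

/-- morphisms of presentations -/
structure Mp (X Y : Pr k A) where
  a : X.P →ₗ[A] Y.P
  b : X.Q →ₗ[A] Y.Q
  comm : ∀ x, b (X.f x) = Y.f (a x)

/-- composition, first `φ` then `ψ` -/
def Mp.comp {X Y Z : Pr k A} (ψ : Mp Y Z) (φ : Mp X Y) : Mp X Z where
  a := ψ.a ∘ₗ φ.a
  b := ψ.b ∘ₗ φ.b
  comm x := by
    change ψ.b (φ.b (X.f x)) = Z.f (ψ.a (φ.a x))
    rw [φ.comm, ψ.comm]

/-- the identity -/
def Mp.id (X : Pr k A) : Mp X X where
  a := LinearMap.id
  b := LinearMap.id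
  comm _ := rfl

/-- the zero morphism -/
def Mp.zero (X Y : Pr k A) : Mp X Y where
  a := 0
  b := 0
  comm _ := (map_zero Y.f).symm

/-- homotopic morphisms -/
def Hmt {X Y : Pr k A} (φ ψ : Mp X Y) : Prop :=
  ∃ h : X.Q →ₗ[A] Y.P, (∀ x, φ.a x = ψ.a x + h (X.f x)) ∧ ∀ y, φ.b y = ψ.b y + Y.f (h y)

/-- `X` is a homotopy retract of `Y` -/
def HtRet (X Y : Pr k A) : Prop := ∃ (i : Mp X Y) (p : Mp Y X), Hmt (p.comp i) (Mp.id X)

/-- homotopy equivalent presentations -/
def HtEq (X Y : Pr k A) : Prop :=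
  ∃ (i : Mp X Y) (p : Mp Y X), Hmt (p.comp i) (Mp.id X) ∧ Hmt (i.comp p) (Mp.id Y)

/-- powers of an endomorphism -/
def Mp.pow {X : Pr k A} (φ : Mp X X) (m : ℕ) : Mp X X where
  a := φ.a ^ m
  b := φ.b ^ m
  comm := by
    induction m with
    | zero => intro x; rfl
    | succ m ih =>
      intro x
      rw [pow_succ', pow_succ']
      change φ.b ((φ.b ^ m) (X.f x)) = X.f (φ.a ((φ.a ^ m) x))
      rw [ih, φ.comm]

end pres

section selfext

variable {k A : Type} [Field k] [Ring A] [Algebra k A] {n : ℕ}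

/-- self-extensions of `β` split -/
def NSE (k A : Type) [Field k] [Ring A] [Algebra k A] (β : Type) [AddCommGroup β] [Module A β]
    [Module k β] [IsScalarTower k A β] : Prop :=
  ∀ (E : Type) [AddCommGroup E] [Module A E] [Module k E] [IsScalarTower k A E]
    [Module.Finite k E] (i : β →ₗ[A] E) (p : E →ₗ[A] β), Injective i → Surjective p →
    LinearMap.range i = LinearMap.ker p → ∃ s : β →ₗ[A] E, p ∘ₗ s = LinearMap.id

/-- there is a stable module with a nonsplit self-extension -/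
def SelfExt (k A : Type) [Field k] [Ring A] [Algebra k A] : Prop :=
  ∃ (n : ℕ) (e : Fin n → A) (θ : Fin n → ℤ) (M E : FM k A) (i : M.X →ₗ[A] E.X)
    (p : E.X →ₗ[A] M.X), CompleteOrthogonalIdempotents e ∧ Nontrivial M.X ∧
    (∑ i, θ i * (finrank k (LinearMap.range (DistribMulAction.toLinearMap k M.X (e i))) : ℤ)) = 0 ∧
    (∀ P : Submodule A M.X, P ≠ ⊥ → P ≠ ⊤ →
      0 < ∑ i, θ i * (finrank k (Submodule.map (DistribMulAction.toLinearMap k M.X (e i))
        (P.restrictScalars k)) : ℤ)) ∧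
    Injective i ∧ Surjective p ∧ LinearMap.range i = LinearMap.ker p ∧
    ¬ ∃ s : M.X →ₗ[A] E.X, p ∘ₗ s = LinearMap.id

end selfext

end BT3
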