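import Mathlib
import Pool.Agent.BT3.Def

/-!
BT3.Wts: elementary properties of the value `vd k e x M = ∑ x i * dim (e i M)`.

Proofs. `vd_add`, `vd_neg`, `vd_smul`, `vd_nsmul`, `vd_zero`: unfold `vd`, `Finset.sum_add_distrib`,
`Finset.mul_sum`.  `vd_congr`: `BT.ed_congr`.  `vd_ses`: `BT.ed_ses` (idempotents by `hC.idem`).
`vd_quot`: `vd_ses` for `U.subtype`, `U.mkQ`.  `vd_of_subsingleton`: `BT.ed_of_subsingleton`.
`vd_one_pos`: `vd k e 1 M = ∑ ed (e i) M` is a sum of naturals, and if it vanished all `ed` would
vanish, so `M` would be zero by `hC.zero`.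
`vd_abs_le`: `|x i * ed| ≤ |x i| * ed` and `ed (e i) M ≤ finrank k M` (dimension of a range).
`wt_unique`: apply the hypothesis to the simple modules of `hC.simple`: `vd k e x (S i) = x i`.
`vd_prod`: `vd_ses` for `inl`, `snd`.  `vd_pi`: induction or `vd_prod`; or by the finrank of
`range (e i)` on a product.
`finite_sub`: `Module.Finite.of_injective (U.subtype.restrictScalars k)`.
-/

namespace BT3

open Module Function BT

variable {k A : Type} [Field k] [Ring A] [Algebra k A] {n : ℕ} {e : Fin n → A}

theorem finite_sub {M : Type} [AddCommGroup M] [Module A M] [Module k M] [IsScalarTower k A M]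
    [Module.Finite k M] (U : Submodule A M) : Module.Finite k U := by
  exact Module.Finite.of_injective (U.subtype.restrictScalars k) Subtype.val_injective

section lin

variable (M : Type) [AddCommGroup M] [Module A M] [Module k M] [IsScalarTower k A M]

theorem vd_zero : vd k e 0 M = 0 := by
  simp [vd]

theorem vd_add (x y : Fin n → ℤ) : vd k e (x + y) M = vd k e x M + vd k e y M := by
  simp only [vd, Pi.add_apply, add_mul, Finset.sum_add_distrib]

theorem vd_neg (x : Fin n → ℤ) : vd k e (-x) M = - vd k e x M := by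
  simp only [vd, Pi.neg_apply, neg_mul, Finset.sum_neg_distrib]

theorem vd_sub (x y : Fin n → ℤ) : vd k e (x - y) M = vd k e x M - vd k e y M := by
  simp only [vd, Pi.sub_apply, sub_mul, Finset.sum_sub_distrib]

theorem vd_smul (c : ℤ) (x : Fin n → ℤ) : vd k e (c • x) M = c * vd k e x M := by
  simp only [vd, Pi.smul_apply, smul_eq_mul, Finset.mul_sum, mul_assoc]

theorem vd_nsmul (c : ℕ) (x : Fin n → ℤ) : vd k e (c • x) M = c * vd k e x M := by
  simp only [vd, Pi.smul_apply, nsmul_eq_mul, Finset.mul_sum, mul_assoc]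

theorem vd_of_subsingleton [Subsingleton M] (x : Fin n → ℤ) : vd k e x M = 0 := by
  simp [vd, BT.ed_of_subsingleton]

variable {M} in
theorem vd_congr {M' : Type} [AddCommGroup M'] [Module A M'] [Module k M'] [IsScalarTower k A M']
    (x : Fin n → ℤ) (f : M ≃ₗ[A] M') : vd k e x M = vd k e x M' := by
  unfold vd
  exact Finset.sum_congr rfl fun i _ => by rw [BT.ed_congr (k := k) (e := e i) f]

theorem vd_abs_le [Module.Finite k M] (x : Fin n → ℤ) :
    |vd k e x M| ≤ (∑ i, |x i|) * (finrank k M : ℤ) := by
  unfold vd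
  refine (Finset.abs_sum_le_sum_abs _ _).trans ?_
  rw [Finset.sum_mul]
  refine Finset.sum_le_sum fun i _ => ?_
  rw [abs_mul, Nat.abs_cast]
  refine mul_le_mul_of_nonneg_left ?_ (abs_nonneg _)
  exact_mod_cast Submodule.finrank_le _

theorem vd_one_pos (hC : Crd k e) [Module.Finite k M] [Nontrivial M] : 0 < vd k e 1 M := by
  have h0 : 0 ≤ vd k e 1 M := by
    unfold vd
    refine Finset.sum_nonneg fun i _ => ?_
    rw [Pi.one_apply, one_mul]
    exact Int.natCast_nonneg _
  rcases h0.eq_or_lt with h | h
  · exfalso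
    unfold vd at h
    have h1 := (Finset.sum_eq_zero_iff_of_nonneg (fun i _ => by
      rw [Pi.one_apply, one_mul]
      exact Int.natCast_nonneg _)).1 h.symm
    have h2 : ∀ i, ed k (e i) M = 0 := by
      intro i
      have h3 := h1 i (Finset.mem_univ i)
      rw [Pi.one_apply, one_mul] at h3
      exact_mod_cast h3
    exact not_subsingleton M (hC.zero M h2)
  · exact h

theorem vd_one_nonneg : 0 ≤ vd k e 1 M := by
  unfold vd
  refine Finset.sum_nonneg fun i _ => ?_
  rw [Pi.one_apply, one_mul]
  exact Int.natCast_nonneg _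

end lin

theorem wt_unique (hC : Crd k e) {x y : Fin n → ℤ}
    (h : ∀ (M : Type) [AddCommGroup M] [Module A M] [Module k M] [IsScalarTower k A M]
      [Module.Finite k M], vd k e x M = vd k e y M) : x = y := by
  funext i
  obtain ⟨S, hS⟩ := hC.simple i
  have h1 := h S.X
  unfold vd at h1
  simpa [hS] using h1

theorem HW.unique (hC : Crd k e) {X : Pr k A} {x y : Fin n → ℤ} (hx : HW e X x) (hy : HW e X y) :
    x = y := by
  exact wt_unique hC fun M => (hx M).symm.trans (hy M)

variable [Module.Finite k A]

section ses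

variable {X Y Z : Type} [AddCommGroup X] [Module A X] [Module k X] [IsScalarTower k A X]
  [AddCommGroup Y] [Module A Y] [Module k Y] [IsScalarTower k A Y]
  [AddCommGroup Z] [Module A Z] [Module k Z] [IsScalarTower k A Z]

theorem vd_ses (hC : Crd k e) [Module.Finite k Y] (x : Fin n → ℤ) (i : X →ₗ[A] Y) (p : Y →ₗ[A] Z)
    (hi : Injective i) (hp : Surjective p) (hex : LinearMap.range i = LinearMap.ker p) :
    vd k e x Y = vd k e x X + vd k e x Z := by
  unfold vd
  rw [← Finset.sum_add_distrib]
  refine Finset.sum_congr rfl fun j _ => ?_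
  rw [BT.ed_ses (hC.idem j) i p hi hp hex]
  push_cast
  ring

theorem vd_quot (hC : Crd k e) [Module.Finite k X] (x : Fin n → ℤ) (U : Submodule A X) :
    vd k e x X = vd k e x U + vd k e x (X ⧸ U) := by
  exact vd_ses hC x U.subtype U.mkQ Subtype.val_injective U.mkQ_surjective
    (by rw [Submodule.range_subtype, Submodule.ker_mkQ])

theorem vd_ker_range (hC : Crd k e) [Module.Finite k X] (x : Fin n → ℤ) (g : X →ₗ[A] Y) :
    vd k e x X = vd k e x (LinearMap.ker g) + vd k e x (LinearMap.range g) := by
  exact vd_ses hC x (LinearMap.ker g).subtype g.rangeRestrict Subtype.val_injective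
    g.surjective_rangeRestrict (by rw [Submodule.range_subtype, LinearMap.ker_rangeRestrict])

theorem vd_prod (hC : Crd k e) [Module.Finite k X] [Module.Finite k Y] (x : Fin n → ℤ) :
    vd k e x (X × Y) = vd k e x X + vd k e x Y := by
  exact vd_ses hC x (LinearMap.inl A X Y) (LinearMap.snd A X Y) LinearMap.inl_injective
    LinearMap.snd_surjective (LinearMap.range_inl A X Y)

end ses

end BT3
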