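import Mathlib
import Pool.Agent.BT3.Wts

/-!
BT3.Cls: closure properties of the classes `Tb, Tt, Fb, Ff, Ws`, by additivity of `vd` only.

All proofs use `vd_quot`, `vd_congr` and the isomorphism theorems.
* `of_surj`: for `p : M → M'` onto and `N ≤ M'`, `M' ⧸ N ≅ M ⧸ (comap p N)`
  (`Submodule.mkQ N ∘ p` is onto with kernel `comap p N`; `LinearMap.quotKerEquivOfSurjective`).
* `of_inj`: for `i : M' → M` injective and `N ≤ M'`, `N ≅ map i N` (`Submodule.equivMapOfInjective`).
* `ext`: `U ≤ M`.  For `N ≤ M` consider `g : U → M ⧸ N`; its range `R` is a quotient of `U` and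
  `(M ⧸ N) ⧸ R` is a quotient of `M ⧸ U`; `vd (M ⧸ N) = vd R + vd ((M ⧸ N) ⧸ R)`.  For `Tt` and
  `N ≠ ⊤` one of the two pieces is nonzero.  For the `F` classes and `N ≤ M`: kernel and range of
  `N → M ⧸ U`; the kernel embeds in `U`, the range in `M ⧸ U`.
* `hom_zero`: the range of `g` is a quotient of `M` and a submodule of `M'`, so its weight is
  positive (nonnegative) and nonpositive (negative) unless the range is zero.
* `range_val`: weight `≥ 0` as quotient of `M`, `≤ 0` as submodule of `M'`.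
* `ker_Tb`: `N ≤ ker g`, view it as `N' = map (ker g).subtype N ≤ M`; `M ⧸ N'` has the submodule
  `ker g ⧸ N` with quotient `M ⧸ ker g ≅ range g` of weight zero, so
  `vd (ker g ⧸ N) = vd (M ⧸ N') ≥ 0`.
* `quot_Fb`: `U ≤ M`, `V' ≤ M ⧸ U`, `V = comap mkQ V'`; `V ≥ U`, `V ⧸ U ≅ V'`,
  `vd V' = vd V - vd U ≤ 0` because `vd V ≤ 0` and `vd U ≥ 0` (`Tb` for `U` with `N = ⊥`).
* `Ws.sub`: `vd U = 0`, `U ≤ M` and `M` semistable: `U ⧸ N` has weight `- vd N ≥ 0` (as `N` embeds in
  `M`), and submodules of `U` are submodules of `M`.  `Ws.quot`: `vd (V ⧸ U) = vd V ≤ 0`.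
* `pi`, `prod`: extension of the factors, by induction on `m` for `Fin m → M`.
-/

namespace BT3

open Module Function BT

variable {k A : Type} [Field k] [Ring A] [Algebra k A] {n : ℕ} {e : Fin n → A}
  [Module.Finite k A]

section one

variable {x : Fin n → ℤ}
variable {M : Type} [AddCommGroup M] [Module A M] [Module k M] [IsScalarTower k A M]
  [Module.Finite k M]
variable {M' : Type} [AddCommGroup M'] [Module A M'] [Module k M'] [IsScalarTower k A M']
  [Module.Finite k M']

private theorem cls_finQ (U : Submodule A M) : Module.Finite k (M ⧸ U) :=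
  Module.Finite.of_surjective (U.mkQ.restrictScalars k) U.mkQ_surjective

omit [Module.Finite k A] [Module.Finite k M] [Module.Finite k M'] in
private theorem cls_Tb_surj (h : Tb k e x M) (p : M →ₗ[A] M') (hp : Surjective p) :
    0 ≤ vd k e x M' := by
  rw [← vd_congr x (p.quotKerEquivOfSurjective hp)]
  exact h _

omit [Module.Finite k A] [Module.Finite k M] [Module.Finite k M'] in
private theorem cls_Tt_surj (h : Tt k e x M) (p : M →ₗ[A] M') (hp : Surjective p)
    (hn : Nontrivial M') : 0 < vd k e x M' := by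
  rw [← vd_congr x (p.quotKerEquivOfSurjective hp)]
  refine h _ fun hk => ?_
  obtain ⟨a, b, hab⟩ := hn
  obtain ⟨a', rfl⟩ := hp a
  obtain ⟨b', rfl⟩ := hp b
  have h1 : ∀ m, p m = 0 := fun m => by
    have h2 : m ∈ LinearMap.ker p := by
      rw [hk]
      exact Submodule.mem_top
    exact LinearMap.mem_ker.1 h2
  exact hab (by rw [h1, h1])

omit [Module.Finite k A] [Module.Finite k M] [Module.Finite k M'] in
private theorem cls_Fb_inj (h : Fb k e x M) (i : M' →ₗ[A] M) (hi : Injective i) :
    vd k e x M' ≤ 0 := by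
  rw [vd_congr x (LinearEquiv.ofInjective i hi)]
  exact h _

omit [Module.Finite k A] [Module.Finite k M] [Module.Finite k M'] in
private theorem cls_Ff_inj (h : Ff k e x M) (i : M' →ₗ[A] M) (hi : Injective i)
    (hn : Nontrivial M') : vd k e x M' < 0 := by
  rw [vd_congr x (LinearEquiv.ofInjective i hi)]
  refine h _ fun hk => ?_
  obtain ⟨a, b, hab⟩ := hn
  have h1 : ∀ m, i m = 0 := fun m => by
    have h2 : i m ∈ LinearMap.range i := LinearMap.mem_range_self i m
    rw [hk] at h2
    exact (Submodule.mem_bot A).1 h2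
  exact hab (hi (by rw [h1, h1]))

theorem Tb.val (h : Tb k e x M) : 0 ≤ vd k e x M := by
  exact cls_Tb_surj h LinearMap.id Function.surjective_id

theorem Tt.val [Nontrivial M] (h : Tt k e x M) : 0 < vd k e x M := by
  exact cls_Tt_surj h LinearMap.id Function.surjective_id ‹_›

theorem Fb.val (h : Fb k e x M) : vd k e x M ≤ 0 := by
  exact cls_Fb_inj h LinearMap.id Function.injective_id

theorem Ff.val [Nontrivial M] (h : Ff k e x M) : vd k e x M < 0 := by
  exact cls_Ff_inj h LinearMap.id Function.injective_id ‹_›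

theorem Ws.val (h : Ws k e x M) : vd k e x M = 0 := by
  exact le_antisymm (Fb.val h.2) (Tb.val h.1)

theorem Tt.tb (h : Tt k e x M) : Tb k e x M := by
  intro N
  by_cases hN : N = ⊤
  · subst hN
    exact (vd_of_subsingleton (M ⧸ (⊤ : Submodule A M)) x).ge
  · exact (h N hN).le

theorem Ff.fb (h : Ff k e x M) : Fb k e x M := by
  intro N
  by_cases hN : N = ⊥
  · subst hN
    exact (vd_of_subsingleton (⊥ : Submodule A M) x).le
  · exact (h N hN).le

theorem Tb.of_subsingleton [Subsingleton M] : Tb k e x M := by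
  intro N
  have h1 : Subsingleton (M ⧸ N) := N.mkQ_surjective.subsingleton
  exact (vd_of_subsingleton (M ⧸ N) x).ge

theorem Tt.of_subsingleton [Subsingleton M] : Tt k e x M := by
  intro N hN
  exact absurd (Subsingleton.elim N ⊤) hN

theorem Fb.of_subsingleton [Subsingleton M] : Fb k e x M := by
  intro N
  exact (vd_of_subsingleton N x).le

theorem Tb.of_surj (hC : Crd k e) (h : Tb k e x M) (p : M →ₗ[A] M') (hp : Surjective p) :
    Tb k e x M' := by
  intro N
  exact cls_Tb_surj h (N.mkQ ∘ₗ p) (N.mkQ_surjective.comp hp)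

theorem Tt.of_surj (hC : Crd k e) (h : Tt k e x M) (p : M →ₗ[A] M') (hp : Surjective p) :
    Tt k e x M' := by
  intro N hN
  exact cls_Tt_surj h (N.mkQ ∘ₗ p) (N.mkQ_surjective.comp hp)
    (Submodule.Quotient.nontrivial_iff.2 hN)

theorem Fb.of_inj (hC : Crd k e) (h : Fb k e x M) (i : M' →ₗ[A] M) (hi : Injective i) :
    Fb k e x M' := by
  intro N
  exact cls_Fb_inj h (i ∘ₗ N.subtype) (hi.comp N.injective_subtype)

theorem Ff.of_inj (hC : Crd k e) (h : Ff k e x M) (i : M' →ₗ[A] M) (hi : Injective i) :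
    Ff k e x M' := by
  intro N hN
  exact cls_Ff_inj h (i ∘ₗ N.subtype) (hi.comp N.injective_subtype)
    ((Submodule.nontrivial_iff_ne_bot).2 hN)

theorem Ws.congr (hC : Crd k e) (h : Ws k e x M) (f : M ≃ₗ[A] M') : Ws k e x M' := by
  exact ⟨Tb.of_surj hC h.1 f.toLinearMap f.surjective,
    Fb.of_inj hC h.2 f.symm.toLinearMap f.symm.injective⟩

theorem Sta.congr (hC : Crd k e) (h : Sta k e x M) (f : M ≃ₗ[A] M') : Sta k e x M' := by
  obtain ⟨h1, h2, h3⟩ := h
  refine ⟨f.symm.toEquiv.nontrivial, by rw [← vd_congr x f]; exact h2, ?_⟩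
  intro U hU hU'
  rw [← vd_congr x (f.ofSubmodule' U)]
  refine h3 _ ?_ ?_
  · intro hb
    apply hU
    rw [Submodule.eq_bot_iff]
    intro u hu
    have h4 : f.symm u ∈ Submodule.comap (f : M →ₗ[A] M') U := by
      rw [Submodule.mem_comap]
      simpa using hu
    rw [hb, Submodule.mem_bot] at h4
    simpa using h4
  · intro ht
    apply hU'
    rw [Submodule.eq_top_iff']
    intro u
    have h4 : f.symm u ∈ Submodule.comap (f : M →ₗ[A] M') U := by
      rw [ht]
      exact Submodule.mem_top
    rw [Submodule.mem_comap] at h4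
    simpa using h4

/-- a stable module is semistable -/
theorem Sta.ws (hC : Crd k e) (h : Sta k e x M) : Ws k e x M := by
  obtain ⟨h1, h2, h3⟩ := h
  refine ⟨fun N => ?_, fun N => ?_⟩
  · have h4 := vd_quot hC x N
    by_cases hb : N = ⊥
    · subst hb
      have h5 := vd_of_subsingleton (k := k) (e := e) (⊥ : Submodule A M) x
      linarith
    · by_cases ht : N = ⊤
      · subst ht
        exact (vd_of_subsingleton (M ⧸ (⊤ : Submodule A M)) x).ge
      · have h5 := h3 N hb ht
        linarith
  · by_cases hb : N = ⊥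
    · subst hb
      exact (vd_of_subsingleton (⊥ : Submodule A M) x).le
    · by_cases ht : N = ⊤
      · subst ht
        rw [vd_congr x (Submodule.topEquiv (R := A) (M := M))]
        exact h2.le
      · exact (h3 N hb ht).le

/-- the induced map on the second piece of an extension -/
private theorem cls_pieces (U N : Submodule A M) : ∃ (R : Submodule A (M ⧸ N)) (f : U →ₗ[A] R)
    (g : (M ⧸ U) →ₗ[A] ((M ⧸ N) ⧸ R)), Surjective f ∧ Surjective g := by
  refine ⟨LinearMap.range (N.mkQ ∘ₗ U.subtype), (N.mkQ ∘ₗ U.subtype).rangeRestrict,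
    U.liftQ ((LinearMap.range (N.mkQ ∘ₗ U.subtype)).mkQ ∘ₗ N.mkQ) ?_,
    LinearMap.surjective_rangeRestrict _, ?_⟩
  · intro u hu
    rw [LinearMap.mem_ker]
    show (LinearMap.range (N.mkQ ∘ₗ U.subtype)).mkQ (N.mkQ u) = 0
    rw [Submodule.mkQ_apply, Submodule.Quotient.mk_eq_zero]
    exact ⟨⟨u, hu⟩, rfl⟩
  · intro z
    obtain ⟨y, rfl⟩ := Submodule.mkQ_surjective _ z
    obtain ⟨m, rfl⟩ := Submodule.mkQ_surjective _ y
    exact ⟨U.mkQ m, by rw [Submodule.mkQ_apply, Submodule.liftQ_apply]; rfl⟩

/-- the pieces of a submodule of an extension -/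
private theorem cls_subpieces (U N : Submodule A M) : ∃ (R : Submodule A N) (f : R →ₗ[A] U)
    (g : (N ⧸ R) →ₗ[A] (M ⧸ U)), Injective f ∧ Injective g := by
  refine ⟨Submodule.comap N.subtype U, ?_⟩
  have h1 : ∀ r : Submodule.comap N.subtype U, (N.subtype ∘ₗ (Submodule.comap N.subtype U).subtype) r ∈ U :=
    fun r => r.2
  refine ⟨LinearMap.codRestrict U (N.subtype ∘ₗ (Submodule.comap N.subtype U).subtype) h1,
    Submodule.mapQ _ _ N.subtype le_rfl, ?_, ?_⟩
  · intro a b hab
    have h2 : ((a : N) : M) = ((b : N) : M) := congrArg (fun z : U => (z : M)) hab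
    exact Subtype.ext (Subtype.ext h2)
  · rw [← LinearMap.ker_eq_bot, Submodule.ker_mapQ, Submodule.mkQ_map_self]

theorem Tb.ext (hC : Crd k e) (U : Submodule A M) (h1 : Tb k e x U) (h2 : Tb k e x (M ⧸ U)) :
    Tb k e x M := by
  intro N
  have hf := cls_finQ (k := k) N
  obtain ⟨R, f, g, hfs, hgs⟩ := cls_pieces U N
  rw [vd_quot hC x R]
  have h3 := cls_Tb_surj h1 f hfs
  have h4 := cls_Tb_surj h2 g hgs
  linarith

theorem Tt.ext (hC : Crd k e) (U : Submodule A M) (h1 : Tt k e x U) (h2 : Tt k e x (M ⧸ U)) :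
    Tt k e x M := by
  intro N hN
  have hf := cls_finQ (k := k) N
  have hfU := finite_sub (k := k) U
  have hfQ := cls_finQ (k := k) U
  obtain ⟨R, f, g, hfs, hgs⟩ := cls_pieces U N
  rw [vd_quot hC x R]
  have h4 := cls_Tb_surj (Tt.tb h2) g hgs
  by_cases hR : R = ⊥
  · have h5 : Nontrivial ((M ⧸ N) ⧸ R) := by
      rw [Submodule.Quotient.nontrivial_iff, hR]
      have h6 : Nontrivial (M ⧸ N) := Submodule.Quotient.nontrivial_iff.2 hN
      exact bot_ne_top
    have h6 := cls_Tt_surj h2 g hgs h5
    have h7 : Subsingleton R := by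
      rw [hR]
      infer_instance
    have h8 := vd_of_subsingleton (k := k) (e := e) R x
    linarith
  · have h5 := cls_Tt_surj h1 f hfs ((Submodule.nontrivial_iff_ne_bot).2 hR)
    linarith

theorem Fb.ext (hC : Crd k e) (U : Submodule A M) (h1 : Fb k e x U) (h2 : Fb k e x (M ⧸ U)) :
    Fb k e x M := by
  intro N
  have hf := finite_sub (k := k) N
  obtain ⟨R, f, g, hfs, hgs⟩ := cls_subpieces U N
  rw [vd_quot hC x R]
  have h3 := cls_Fb_inj h1 f hfs
  have h4 := cls_Fb_inj h2 g hgs
  linarith

theorem Ff.ext (hC : Crd k e) (U : Submodule A M) (h1 : Ff k e x U) (h2 : Ff k e x (M ⧸ U)) :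
    Ff k e x M := by
  intro N hN
  have hf := finite_sub (k := k) N
  have hfU := finite_sub (k := k) U
  have hfQ := cls_finQ (k := k) U
  obtain ⟨R, f, g, hfs, hgs⟩ := cls_subpieces U N
  rw [vd_quot hC x R]
  have h4 := cls_Fb_inj (Ff.fb h2) g hgs
  by_cases hR : R = ⊥
  · have h5 : Nontrivial (N ⧸ R) := by
      rw [Submodule.Quotient.nontrivial_iff, hR]
      have h6 : Nontrivial N := (Submodule.nontrivial_iff_ne_bot).2 hN
      exact bot_ne_top
    have h6 := cls_Ff_inj h2 g hgs h5
    have h7 : Subsingleton R := by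
      rw [hR]
      infer_instance
    have h8 := vd_of_subsingleton (k := k) (e := e) R x
    linarith
  · have h5 := cls_Ff_inj h1 f hfs ((Submodule.nontrivial_iff_ne_bot).2 hR)
    linarith

/-- extension along an exact sequence -/
theorem Ws.ses (hC : Crd k e) {Z : Type} [AddCommGroup Z] [Module A Z] [Module k Z]
    [IsScalarTower k A Z] [Module.Finite k Z] (i : M →ₗ[A] M') (p : M' →ₗ[A] Z)
    (hi : Injective i) (hp : Surjective p) (hex : LinearMap.range i = LinearMap.ker p)
    (h1 : Ws k e x M) (h2 : Ws k e x Z) : Ws k e x M' := by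
  have hfR := finite_sub (k := k) (LinearMap.range i)
  have hfQ := cls_finQ (k := k) (LinearMap.range i)
  have h3 := Ws.congr hC h1 (LinearEquiv.ofInjective i hi)
  have h4 := Ws.congr hC h2
    ((Submodule.quotEquivOfEq _ _ hex).trans (p.quotKerEquivOfSurjective hp)).symm
  exact ⟨Tb.ext hC _ h3.1 h4.1, Fb.ext hC _ h3.2 h4.2⟩

theorem Tb.ses (hC : Crd k e) {Z : Type} [AddCommGroup Z] [Module A Z] [Module k Z]
    [IsScalarTower k A Z] [Module.Finite k Z] (i : M →ₗ[A] M') (p : M' →ₗ[A] Z)
    (hi : Injective i) (hp : Surjective p) (hex : LinearMap.range i = LinearMap.ker p)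
    (h1 : Tb k e x M) (h2 : Tb k e x Z) : Tb k e x M' := by
  have hfR := finite_sub (k := k) (LinearMap.range i)
  have hfQ := cls_finQ (k := k) (LinearMap.range i)
  have h3 := Tb.of_surj hC h1 (LinearEquiv.ofInjective i hi).toLinearMap
    (LinearEquiv.ofInjective i hi).surjective
  have h4 := Tb.of_surj hC h2
    ((Submodule.quotEquivOfEq _ _ hex).trans (p.quotKerEquivOfSurjective hp)).symm.toLinearMap
    ((Submodule.quotEquivOfEq _ _ hex).trans (p.quotKerEquivOfSurjective hp)).symm.surjective
  exact Tb.ext hC _ h3 h4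

private theorem cls_Tt_ses (hC : Crd k e) {Z : Type} [AddCommGroup Z] [Module A Z] [Module k Z]
    [IsScalarTower k A Z] [Module.Finite k Z] (i : M →ₗ[A] M') (p : M' →ₗ[A] Z)
    (hi : Injective i) (hp : Surjective p) (hex : LinearMap.range i = LinearMap.ker p)
    (h1 : Tt k e x M) (h2 : Tt k e x Z) : Tt k e x M' := by
  have hfR := finite_sub (k := k) (LinearMap.range i)
  have hfQ := cls_finQ (k := k) (LinearMap.range i)
  have h3 := Tt.of_surj hC h1 (LinearEquiv.ofInjective i hi).toLinearMap
    (LinearEquiv.ofInjective i hi).surjective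
  have h4 := Tt.of_surj hC h2
    ((Submodule.quotEquivOfEq _ _ hex).trans (p.quotKerEquivOfSurjective hp)).symm.toLinearMap
    ((Submodule.quotEquivOfEq _ _ hex).trans (p.quotKerEquivOfSurjective hp)).symm.surjective
  exact Tt.ext hC _ h3 h4

theorem Ws.prod (hC : Crd k e) (h1 : Ws k e x M) (h2 : Ws k e x M') : Ws k e x (M × M') := by
  exact Ws.ses hC (LinearMap.inl A M M') (LinearMap.snd A M M') LinearMap.inl_injective
    LinearMap.snd_surjective (LinearMap.range_inl A M M') h1 h2

theorem Ws.pi (hC : Crd k e) (h1 : Ws k e x M) (m : ℕ) : Ws k e x (Fin m → M) := by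
  induction m with
  | zero => exact ⟨Tb.of_subsingleton, Fb.of_subsingleton⟩
  | succ m ih => exact Ws.congr hC (Ws.prod hC h1 ih) (Fin.consLinearEquiv A fun _ => M)

theorem Tb.pi (hC : Crd k e) (h1 : Tb k e x M) (m : ℕ) : Tb k e x (Fin m → M) := by
  induction m with
  | zero => exact Tb.of_subsingleton
  | succ m ih =>
    have h2 : Tb k e x (M × (Fin m → M)) := Tb.ses hC (LinearMap.inl A M (Fin m → M))
      (LinearMap.snd A M (Fin m → M)) LinearMap.inl_injective LinearMap.snd_surjective
      (LinearMap.range_inl A M (Fin m → M)) h1 ih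
    exact Tb.of_surj hC h2 (Fin.consLinearEquiv A fun _ => M).toLinearMap
      (Fin.consLinearEquiv A fun _ => M).surjective

theorem Tt.pi (hC : Crd k e) (h1 : Tt k e x M) (m : ℕ) : Tt k e x (Fin m → M) := by
  induction m with
  | zero => exact Tt.of_subsingleton
  | succ m ih =>
    have h2 : Tt k e x (M × (Fin m → M)) := cls_Tt_ses hC (LinearMap.inl A M (Fin m → M))
      (LinearMap.snd A M (Fin m → M)) LinearMap.inl_injective LinearMap.snd_surjective
      (LinearMap.range_inl A M (Fin m → M)) h1 ih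
    exact Tt.of_surj hC h2 (Fin.consLinearEquiv A fun _ => M).toLinearMap
      (Fin.consLinearEquiv A fun _ => M).surjective

private theorem cls_range_nontrivial {g : M →ₗ[A] M'} (hg : g ≠ 0) :
    Nontrivial (LinearMap.range g) := by
  rw [Submodule.nontrivial_iff_ne_bot]
  intro h
  exact hg (LinearMap.range_eq_bot.1 h)

/-- `Hom(T, F̄) = 0` -/
theorem hom_zero (hC : Crd k e) (h1 : Tt k e x M) (h2 : Fb k e x M') (g : M →ₗ[A] M') : g = 0 := by
  by_contra hg
  have h3 := cls_Tt_surj h1 g.rangeRestrict g.surjective_rangeRestrict (cls_range_nontrivial hg)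
  have h4 := h2 (LinearMap.range g)
  linarith

/-- `Hom(T̄, F) = 0` -/
theorem hom_zero' (hC : Crd k e) (h1 : Tb k e x M) (h2 : Ff k e x M') (g : M →ₗ[A] M') :
    g = 0 := by
  by_contra hg
  have h3 := cls_Tb_surj h1 g.rangeRestrict g.surjective_rangeRestrict
  have h4 := h2 (LinearMap.range g) (fun h => hg (LinearMap.range_eq_bot.1 h))
  linarith

theorem range_val (hC : Crd k e) (h1 : Tb k e x M) (h2 : Fb k e x M') (g : M →ₗ[A] M') :
    vd k e x (LinearMap.range g) = 0 := by
  have h3 := cls_Tb_surj h1 g.rangeRestrict g.surjective_rangeRestrict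
  have h4 := h2 (LinearMap.range g)
  linarith

theorem range_Ws (hC : Crd k e) (h1 : Tb k e x M) (h2 : Fb k e x M') (g : M →ₗ[A] M') :
    Ws k e x (LinearMap.range g) := by
  have hf := finite_sub (k := k) (LinearMap.range g)
  exact ⟨Tb.of_surj hC h1 g.rangeRestrict g.surjective_rangeRestrict,
    Fb.of_inj hC h2 (LinearMap.range g).subtype (LinearMap.range g).injective_subtype⟩

theorem ker_Tb (hC : Crd k e) (h1 : Tb k e x M) (h2 : Fb k e x M') (g : M →ₗ[A] M') :
    Tb k e x (LinearMap.ker g) := by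
  intro N
  have hf := finite_sub (k := k) (LinearMap.ker g)
  have h3 := vd_quot hC x (N.map (LinearMap.ker g).subtype)
  have h4 := vd_ker_range hC x g
  have h5 := vd_quot hC x N
  have h6 := vd_congr (k := k) (e := e) x
    (Submodule.equivMapOfInjective (LinearMap.ker g).subtype
      (LinearMap.ker g).injective_subtype N)
  have h7 := range_val hC h1 h2 g
  have h8 := h1 (N.map (LinearMap.ker g).subtype)
  linarith

/-- the value of a preimage -/
private theorem cls_comap (hC : Crd k e) (x : Fin n → ℤ) (U : Submodule A M)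
    (V : Submodule A (M ⧸ U)) :
    vd k e x (Submodule.comap U.mkQ V) = vd k e x U + vd k e x V := by
  have hUV : U ≤ Submodule.comap U.mkQ V := Submodule.le_comap_mkQ U V
  have hf := finite_sub (k := k) (Submodule.comap U.mkQ V)
  refine vd_ses hC x (Submodule.inclusion hUV)
    (U.mkQ.restrict (p := Submodule.comap U.mkQ V) (q := V) fun m hm => hm)
    (Submodule.inclusion_injective hUV) ?_ ?_
  · rintro ⟨z, hz⟩
    obtain ⟨m, rfl⟩ := U.mkQ_surjective z
    exact ⟨⟨m, hz⟩, rfl⟩
  · ext ⟨m, hm⟩
    rw [LinearMap.mem_range, LinearMap.mem_ker]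
    constructor
    · rintro ⟨u, hu⟩
      have h1 : (u : M) = m := congrArg Subtype.val hu
      refine Subtype.ext ?_
      show U.mkQ m = 0
      rw [← h1, Submodule.mkQ_apply, Submodule.Quotient.mk_eq_zero]
      exact u.2
    · intro h
      have h1 : U.mkQ m = 0 := congrArg Subtype.val h
      rw [Submodule.mkQ_apply, Submodule.Quotient.mk_eq_zero] at h1
      exact ⟨⟨m, h1⟩, rfl⟩

theorem quot_Fb (hC : Crd k e) (U : Submodule A M) (h1 : Fb k e x M) (h2 : Tb k e x U) :
    Fb k e x (M ⧸ U) := by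
  intro V
  have hf := finite_sub (k := k) U
  have h3 := cls_comap hC x U V
  have h4 := h1 (Submodule.comap U.mkQ V)
  have h5 := Tb.val h2
  linarith

theorem Ws.sub (hC : Crd k e) (h : Ws k e x M) (U : Submodule A M) (hU : vd k e x U = 0) :
    Ws k e x U := by
  have hf := finite_sub (k := k) U
  have h1 : Fb k e x U := Fb.of_inj hC h.2 U.subtype U.injective_subtype
  refine ⟨fun N => ?_, h1⟩
  have h2 := vd_quot hC x N
  have h3 := h1 N
  linarith

theorem Ws.quot (hC : Crd k e) (h : Ws k e x M) (U : Submodule A M) (hU : vd k e x U = 0) :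
    Ws k e x (M ⧸ U) := by
  have hf := cls_finQ (k := k) U
  refine ⟨Tb.of_surj hC h.1 U.mkQ U.mkQ_surjective, fun V => ?_⟩
  have h3 := cls_comap hC x U V
  have h4 := h.2 (Submodule.comap U.mkQ V)
  linarith

private theorem exists_min_aux {α : Type*} (P : α → Prop) (f : α → ℕ) (h : ∃ a, P a) :
    ∃ a, P a ∧ ∀ b, P b → f a ≤ f b := by
  obtain ⟨m, hm, h2⟩ := (measure f).wf.has_min {a | P a} h
  exact ⟨m, hm, fun b hb => not_lt.1 (h2 b hb)⟩

private theorem exists_max_aux {α : Type*} (P : α → Prop) (f : α → ℕ) (B : ℕ)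
    (hB : ∀ a, f a ≤ B) (h : ∃ a, P a) :
    ∃ a, P a ∧ ∀ b, P b → f b ≤ f a := by
  obtain ⟨m, hm, h2⟩ := exists_min_aux P (fun a => B - f a) h
  refine ⟨m, hm, fun b hb => ?_⟩
  have h3 : B - f m ≤ B - f b := h2 b hb
  have h4 := hB b
  have h5 := hB m
  omega

omit [Module.Finite k A] in
private theorem frk_lt {U V : Submodule A M} (h : U < V) : finrank k U < finrank k V :=
  Submodule.finrank_lt_finrank_of_lt (s := U.restrictScalars k) (t := V.restrictScalars k) h

omit [Module.Finite k A] in
private theorem frk_le (U : Submodule A M) : finrank k U ≤ finrank k M :=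
  Submodule.finrank_le (U.restrictScalars k)

omit [Module.Finite k A] [Module.Finite k M] in
private theorem vd_map_aux (U : Submodule A M) (V : Submodule A U) :
    vd k e x (V.map U.subtype) = vd k e x V :=
  (vd_congr x (Submodule.equivMapOfInjective U.subtype Subtype.val_injective V)).symm

/-- the map from the preimage of `V` to `V` -/
private def pj (U : Submodule A M) (V : Submodule A (M ⧸ U)) : V.comap U.mkQ →ₗ[A] V :=
  U.mkQ.restrict (fun _ h => h)

/-- the inclusion of `U` in the preimage of `V` -/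
private def inj (U : Submodule A M) (V : Submodule A (M ⧸ U)) : U →ₗ[A] V.comap U.mkQ :=
  Submodule.inclusion (Submodule.le_comap_mkQ U V)

omit [Module.Finite k A] [Module.Finite k M] [Algebra k A] [Module k M] [IsScalarTower k A M] in
private theorem pj_surj (U : Submodule A M) (V : Submodule A (M ⧸ U)) : Surjective (pj U V) := by
  rintro ⟨v, hv⟩
  obtain ⟨m, rfl⟩ := Submodule.mkQ_surjective U v
  exact ⟨⟨m, hv⟩, rfl⟩

omit [Module.Finite k A] [Module.Finite k M] [Algebra k A] [Module k M] [IsScalarTower k A M] in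
private theorem inj_inj (U : Submodule A M) (V : Submodule A (M ⧸ U)) : Injective (inj U V) :=
  Submodule.inclusion_injective _

omit [Module.Finite k A] [Module.Finite k M] [Algebra k A] [Module k M] [IsScalarTower k A M] in
private theorem inj_pj (U : Submodule A M) (V : Submodule A (M ⧸ U)) :
    LinearMap.range (inj U V) = LinearMap.ker (pj U V) := by
  ext ⟨m, hm⟩
  rw [LinearMap.mem_range, LinearMap.mem_ker]
  constructor
  · rintro ⟨u, hu⟩
    apply Subtype.ext
    have h1 : (u : M) = m := congrArg Subtype.val hu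
    change U.mkQ m = 0
    rw [← h1, Submodule.mkQ_apply, Submodule.Quotient.mk_eq_zero]
    exact u.2
  · intro h
    have h1 : U.mkQ m = 0 := congrArg Subtype.val h
    rw [Submodule.mkQ_apply, Submodule.Quotient.mk_eq_zero] at h1
    exact ⟨⟨m, h1⟩, rfl⟩

private theorem vd_comap_aux (hC : Crd k e) (U : Submodule A M) (V : Submodule A (M ⧸ U)) :
    vd k e x (V.comap U.mkQ) = vd k e x U + vd k e x V := by
  have := finite_sub (k := k) (V.comap U.mkQ)
  exact vd_ses hC x (inj U V) (pj U V) (inj_inj U V) (pj_surj U V) (inj_pj U V)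

omit [Module.Finite k A] [Module.Finite k M] [Algebra k A] [Module k M] [IsScalarTower k A M] in
private theorem lt_comap_aux (U : Submodule A M) (V : Submodule A (M ⧸ U)) (hV : V ≠ ⊥) :
    U < V.comap U.mkQ := by
  refine lt_of_le_of_ne (Submodule.le_comap_mkQ U V) (fun h => hV ?_)
  rw [Submodule.eq_bot_iff]
  intro v hv
  obtain ⟨m, rfl⟩ := Submodule.mkQ_surjective U v
  have h1 : m ∈ V.comap U.mkQ := hv
  rw [← h] at h1
  rw [Submodule.mkQ_apply, Submodule.Quotient.mk_eq_zero]
  exact h1

/-- every nonzero semistable module has a stable submodule with semistable quotient: take a nonzero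
submodule of weight zero of minimal dimension -/
theorem Ws.exists_sub (hC : Crd k e) (h : Ws k e x M) [Nontrivial M] :
    ∃ U : Submodule A M, U ≠ ⊥ ∧ Sta k e x U ∧ Ws k e x (M ⧸ U) := by
  obtain ⟨U, ⟨hU0, hU1⟩, hmin⟩ := exists_min_aux
    (fun U : Submodule A M => U ≠ ⊥ ∧ vd k e x U = 0) (fun U => finrank k U)
    ⟨⊤, top_ne_bot, by rw [vd_congr x (Submodule.topEquiv (R := A) (M := M))]; exact h.val⟩
  refine ⟨U, hU0, ⟨(Submodule.nontrivial_iff_ne_bot).2 hU0, hU1, ?_⟩, h.quot hC U hU1⟩
  intro V hV0 hV1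
  have h1 : V.map U.subtype < U := by
    refine lt_of_le_of_ne (Submodule.map_subtype_le U V) (fun h2 => hV1 ?_)
    rw [eq_top_iff]
    intro u _
    have h3 : (u : M) ∈ V.map U.subtype := by
      rw [h2]
      exact u.2
    obtain ⟨v, hv, hvu⟩ := Submodule.mem_map.1 h3
    rwa [← Subtype.ext hvu]
  have h2 : V.map U.subtype ≠ ⊥ := by
    intro h3
    apply hV0
    rw [Submodule.eq_bot_iff]
    intro v hv
    have h4 : (v : M) ∈ V.map U.subtype := Submodule.mem_map.2 ⟨v, hv, rfl⟩
    rw [h3, Submodule.mem_bot] at h4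
    exact Subtype.ext h4
  have h3 : vd k e x (V.map U.subtype) ≤ 0 := h.2 _
  rw [vd_map_aux] at h3
  refine lt_of_le_of_ne h3 (fun h4 => ?_)
  have h5 := hmin (V.map U.subtype) ⟨h2, by rw [vd_map_aux]; exact h4⟩
  have h6 := frk_lt (k := k) h1
  exact absurd h5 (not_le.2 h6)

/-- every nonzero semistable module has a stable quotient with semistable kernel: take a proper
submodule of weight zero of maximal dimension -/
theorem Ws.exists_quot (hC : Crd k e) (h : Ws k e x M) [Nontrivial M] :
    ∃ U : Submodule A M, U ≠ ⊤ ∧ Sta k e x (M ⧸ U) ∧ Ws k e x U := by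
  obtain ⟨U, ⟨hU0, hU1⟩, hmax⟩ := exists_max_aux
    (fun U : Submodule A M => U ≠ ⊤ ∧ vd k e x U = 0) (fun U => finrank k U) (finrank k M)
    (fun U => frk_le (k := k) U) ⟨⊥, bot_ne_top, vd_of_subsingleton _ x⟩
  refine ⟨U, hU0, ⟨Submodule.Quotient.nontrivial_iff.2 hU0, ?_, ?_⟩, h.sub hC U hU1⟩
  · have h1 := vd_quot hC x U
    have h2 := h.val
    omega
  · intro V hV0 hV1
    have h1 := lt_comap_aux U V hV0
    have h2 : V.comap U.mkQ ≠ ⊤ := by
      intro h3
      apply hV1
      rw [eq_top_iff]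
      intro v _
      obtain ⟨m, rfl⟩ := Submodule.mkQ_surjective U v
      have h4 : m ∈ V.comap U.mkQ := by
        rw [h3]
        trivial
      exact h4
    have h3 : vd k e x (V.comap U.mkQ) ≤ 0 := h.2 _
    have h4 := vd_comap_aux (x := x) hC U V
    refine lt_of_le_of_ne (by omega) (fun h5 => ?_)
    have h6 := hmax (V.comap U.mkQ) ⟨h2, by omega⟩
    exact absurd h6 (not_le.2 (frk_lt (k := k) h1))

/-- a nonzero map from a module of `T̄` to a stable module is onto -/
theorem Sta.surj (hC : Crd k e) (h1 : Tb k e x M) (h2 : Sta k e x M') (g : M →ₗ[A] M')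
    (hg : g ≠ 0) : Surjective g := by
  have h3 := range_val hC h1 (h2.ws hC).2 g
  rw [← LinearMap.range_eq_top]
  by_contra h4
  have h5 := h2.2.2 (LinearMap.range g) (fun h6 => hg (LinearMap.range_eq_bot.1 h6)) h4
  omega

/-- a nonzero map from a stable module to a module of `F̄` is injective -/
theorem Sta.inj (hC : Crd k e) (h1 : Sta k e x M) (h2 : Fb k e x M') (g : M →ₗ[A] M')
    (hg : g ≠ 0) : Injective g := by
  have h3 := range_val hC (h1.ws hC).1 h2 g
  have h4 := vd_ker_range hC x g
  have h5 := h1.2.1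
  rw [← LinearMap.ker_eq_bot]
  by_contra h6
  have h7 := h1.2.2 (LinearMap.ker g) h6 (fun h8 => hg (LinearMap.ker_eq_top.1 h8))
  omega

theorem Sta.bij (hC : Crd k e) (h1 : Sta k e x M) (h2 : Sta k e x M') (g : M →ₗ[A] M')
    (hg : g ≠ 0) : Bijective g :=
  ⟨Sta.inj hC h1 (h2.ws hC).2 g hg, Sta.surj hC (h1.ws hC).1 h2 g hg⟩

/-- Schur's lemma: over an algebraically closed field the endomorphisms of a stable module are
scalars (an eigenvalue `c` of `g` exists, `g - c` is not injective, so it is zero) -/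
theorem Sta.schur (hC : Crd k e) [IsAlgClosed k] (h : Sta k e x M) (g : M →ₗ[A] M) :
    ∃ c : k, ∀ m, g m = c • m := by
  have := h.1
  obtain ⟨c, hc⟩ := Module.End.exists_eigenvalue (g.restrictScalars k : Module.End k M)
  refine ⟨c, fun m => ?_⟩
  obtain ⟨v, hv⟩ := hc.exists_hasEigenvector
  have hv1 : g v = c • v := hv.apply_eq_smul
  have hv2 : v ≠ 0 := hv.2
  have h1 : g - c • LinearMap.id = 0 := by
    by_contra h2
    have h3 := Sta.inj hC h (h.ws hC).2 (g - c • LinearMap.id) h2
    apply hv2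
    apply h3
    rw [map_zero, LinearMap.sub_apply, LinearMap.smul_apply, LinearMap.id_apply, hv1, sub_self]
  have h2 := LinearMap.congr_fun h1 m
  rw [LinearMap.sub_apply, LinearMap.smul_apply, LinearMap.id_apply, LinearMap.zero_apply,
    sub_eq_zero] at h2
  exact h2

/-- `F̄` contains `M` as soon as all submodules in `T` vanish (negation: a submodule of positive
weight of minimal dimension has all nonzero quotients of positive weight) -/
theorem exists_Tt_sub (hC : Crd k e) (h : ¬ Fb k e x M) :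
    ∃ U : Submodule A M, U ≠ ⊥ ∧ Tt k e x U := by
  have h' : ∃ N : Submodule A M, 0 < vd k e x N := by
    by_contra hcon
    push Not at hcon
    exact h hcon
  obtain ⟨U, hU, hmin⟩ := exists_min_aux
    (fun U : Submodule A M => 0 < vd k e x U) (fun U => finrank k U) h'
  refine ⟨U, ?_, ?_⟩
  · rintro rfl
    rw [vd_of_subsingleton] at hU
    exact lt_irrefl _ hU
  · intro V hV
    have := finite_sub (k := k) U
    have h1 : V.map U.subtype < U := by
      refine lt_of_le_of_ne (Submodule.map_subtype_le U V) (fun h2 => hV ?_)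
      rw [eq_top_iff]
      intro u _
      have h3 : (u : M) ∈ V.map U.subtype := by
        rw [h2]
        exact u.2
      obtain ⟨v, hv, hvu⟩ := Submodule.mem_map.1 h3
      rwa [← Subtype.ext hvu]
    have h2 : vd k e x V ≤ 0 := by
      by_contra h3
      have h4 := hmin (V.map U.subtype) (by rw [vd_map_aux]; omega)
      exact absurd h4 (not_le.2 (frk_lt (k := k) h1))
    have h3 := vd_quot hC x V
    have h4 : 0 < vd k e x U := hU
    omega

/-- a module outside `T̄` has a nonzero quotient in `F`: a quotient of negative weight of minimal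
dimension -/
theorem exists_Ff_quot (hC : Crd k e) (h : ¬ Tb k e x M) :
    ∃ U : Submodule A M, U ≠ ⊤ ∧ Ff k e x (M ⧸ U) := by
  have h' : ∃ N : Submodule A M, vd k e x (M ⧸ N) < 0 := by
    by_contra hcon
    push Not at hcon
    exact h hcon
  obtain ⟨U, hU, hmax⟩ := exists_max_aux
    (fun U : Submodule A M => vd k e x (M ⧸ U) < 0) (fun U => finrank k U) (finrank k M)
    (fun U => frk_le (k := k) U) h'
  refine ⟨U, ?_, ?_⟩
  · rintro rfl
    have : Subsingleton (M ⧸ (⊤ : Submodule A M)) :=
      Submodule.Quotient.subsingleton_iff.2 rfl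
    rw [vd_of_subsingleton] at hU
    exact lt_irrefl _ hU
  · intro V hV
    have h1 := lt_comap_aux U V hV
    have h2 : 0 ≤ vd k e x (M ⧸ V.comap U.mkQ) := by
      by_contra h3
      have h4 := hmax (V.comap U.mkQ) (not_le.1 h3)
      exact absurd h4 (not_le.2 (frk_lt (k := k) h1))
    have h3 := vd_comap_aux (x := x) hC U V
    have h4 := vd_quot hC x U
    have h5 := vd_quot hC x (V.comap U.mkQ)
    have h6 : vd k e x (M ⧸ U) < 0 := hU
    omega

/-- the torsion submodule: a submodule `t` of `M` with `t` in `T` and `M ⧸ t` in `F̄`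
(take `t` in `T` of maximal dimension; if `M ⧸ t` is not in `F̄` then it has a nonzero submodule in
`T` by `exists_Tt_sub` and its preimage is in `T` by `Tt.ext`) -/
theorem exists_tors (hC : Crd k e) (x : Fin n → ℤ) (M : Type) [AddCommGroup M] [Module A M]
    [Module k M] [IsScalarTower k A M] [Module.Finite k M] :
    ∃ t : Submodule A M, Tt k e x t ∧ Fb k e x (M ⧸ t) := by
  obtain ⟨t, ht, hmax⟩ := exists_max_aux
    (fun U : Submodule A M => Tt k e x U) (fun U => finrank k U) (finrank k M)
    (fun U => frk_le (k := k) U) ⟨⊥, by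
      have := finite_sub (k := k) (⊥ : Submodule A M)
      exact Tt.of_subsingleton⟩
  refine ⟨t, ht, ?_⟩
  by_contra hcon
  obtain ⟨V, hV0, hV⟩ := exists_Tt_sub hC hcon
  have h1 := lt_comap_aux t V hV0
  have := finite_sub (k := k) (V.comap t.mkQ)
  have := finite_sub (k := k) t
  have := finite_sub (k := k) V
  have := finite_sub (k := k) (LinearMap.ker (pj t V))
  have h2 : Tt k e x (V.comap t.mkQ) := by
    refine Tt.ext hC (LinearMap.ker (pj t V)) ?_ ?_
    · refine Tt.of_surj hC ht (LinearMap.codRestrict (LinearMap.ker (pj t V)) (inj t V) ?_) ?_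
      · intro u
        rw [← inj_pj]
        exact ⟨u, rfl⟩
      · rintro ⟨v, hv⟩
        rw [← inj_pj] at hv
        obtain ⟨u, hu⟩ := hv
        exact ⟨u, Subtype.ext hu⟩
    · exact Tt.of_surj hC hV
        ((LinearMap.quotKerEquivOfSurjective (pj t V) (pj_surj t V)).symm.toLinearMap)
        (LinearEquiv.surjective _)
  exact absurd (hmax (V.comap t.mkQ) h2) (not_le.2 (frk_lt (k := k) h1))

/-- a module all whose quotients in `F̄` vanish is in `T` -/
theorem Tt_of (hC : Crd k e) (h : ∀ N : Submodule A M, Fb k e x (M ⧸ N) → N = ⊤) :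
    Tt k e x M := by
  obtain ⟨t, ht1, ht2⟩ := exists_tors hC x M
  have := finite_sub (k := k) t
  obtain rfl := h t ht2
  exact Tt.of_surj hC ht1 (Submodule.topEquiv (R := A) (M := M)).toLinearMap
    (LinearEquiv.surjective _)

end one

end BT3
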