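import Mathlib
import Pool.Agent.BT3.Cls

/-!
BT3.Bridge: the classes defined by weights and the classes defined by a rigid presentation.

`X : Pr k A` has weight `x` (`HW e X x`), `C = X.C` its cokernel.
* `hd_C`: the map `pre k f M : Hom(Q, M) → Hom(P, M)` has kernel `Hom(C, M)` and cokernel of dimension
  `ex k f M`; rank-nullity: `Th P Q M = hd C M - ex f M`; and `Th = vd x M`.
* `E0_iff_ex`: `ex = 0` iff the quotient is zero iff `pre` is onto.
* `H0_iff_hom`: maps `Q → M` killing `f` are maps `C → M` (`BT.exists_bar`).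
* `ex_mono`: `p : M → M'` onto induces a surjection of obstruction spaces (`P` projective).
* `ex_ses`: `U ≤ M` with `ex f U = 0`: `ex f M = ex f (M ⧸ U)` (surjective by the previous item;
  injective: if `φ : P → M` becomes `ψ ∘ f` in `M ⧸ U`, lift `ψ` to `Q → M` and correct by a map to `U`).
* `H0_iff`: (→) a submodule `U` has `H0` (`H0.sub`), so `vd U = hd C U - ex U = - ex U ≤ 0`.
  (←) a nonzero `g : C → M` has range `U ≠ ⊥`, a quotient of `C`; `E0 f C` (`Rigid.E0_coker`), so `E0 f U`
  (`E0.quot`) and `vd U = hd C U > 0`.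
* `TT_iff`: `TT f M` says that quotients of `M` with `H0` vanish; by `H0_iff` this is `Tt_of`; conversely
  a quotient in both `T` and `F̄` has weight `> 0` and `≤ 0` unless it vanishes.
* `E0_iff`: (→) quotients have `E0`, so `vd = hd ≥ 0`.  (←) let `t` be the torsion submodule
  (`exists_tors`): `t` is in `T`, so `TT f t` and `E0 f t` (`TT.E0'`); `M ⧸ t` is in `T̄` and `F̄`, so its
  weight is zero, `hd C (M ⧸ t) = 0` by `H0_iff`, so `ex = 0`; now `E0.ext`.
* `St_iff`: rewriting of weights.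
* `lift`: `p : M → M'` onto with `E0 f (ker p)`.  For `g : C → M'` lift `g ∘ mkQ : Q → M'` to
  `h : Q → M`; `h ∘ f` has values in `ker p`, so `h ∘ f = ψ ∘ f` with `ψ : Q → ker p`; `h - ψ` kills `f`.
* `exists_hom`: `hd C M ≥ vd x M > 0`.
* `gen`: `TT.gen`.  `Tt_of_gen`: `TT_of_gen`.  `trace`: `exists_trace`.
* `exists_pr`: `a i = (-x i).toNat`, `b i = (x i).toNat`, `P = PP e a`, `Q = PP e b`, `RR` with `f0 = 0`,
  `W = ⊤`.  Weight: `hd_pi`, `hd_Pe`, so `hd k A (PP e a) M = ∑ i, a i * ed (e i) M`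
  (`Fintype.sum_sigma`).  `HW.of_std`: the same computation, `hd` is invariant under isomorphisms of
  the first argument.
-/

namespace BT3

open Module Function BT

variable {k A : Type} [Field k] [Ring A] [Algebra k A] {n : ℕ} {e : Fin n → A}
  [Module.Finite k A]

instance Pr.finC (X : Pr k A) : Module.Finite k X.C := finite_quot _

section one

variable {X : Pr k A} {x : Fin n → ℤ}
variable {M : Type} [AddCommGroup M] [Module A M] [Module k M] [IsScalarTower k A M]
  [Module.Finite k M]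
variable {M' : Type} [AddCommGroup M'] [Module A M'] [Module k M'] [IsScalarTower k A M']
  [Module.Finite k M']

theorem hd_C (hX : HW e X x) (M : Type) [AddCommGroup M] [Module A M] [Module k M]
    [IsScalarTower k A M] [Module.Finite k M] :
    (hd k A X.C M : ℤ) = vd k e x M + (ex k X.f M : ℤ) := by
  have _ := finite_hom (k := k) (A := A) (P := X.P) (X := M)
  have _ := finite_hom (k := k) (A := A) (P := X.Q) (X := M)
  have h1 := LinearMap.finrank_range_add_finrank_ker (pre k X.f M)
  have h2 := Submodule.finrank_quotient_add_finrank (LinearMap.range (pre k X.f M))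
  have h3 : LinearMap.ker (pre k X.f M) =
      LinearMap.range (pre k (LinearMap.range X.f).mkQ M) := by
    ext h
    rw [LinearMap.mem_ker, LinearMap.mem_range]
    constructor
    · intro hh
      exact exists_bar h hh
    · rintro ⟨g, rfl⟩
      change (g ∘ₗ (LinearMap.range X.f).mkQ) ∘ₗ X.f = 0
      rw [LinearMap.comp_assoc, mkQ_comp, LinearMap.comp_zero]
  have h4 : Injective (pre k (LinearMap.range X.f).mkQ M) := by
    intro g g' h
    ext y
    exact LinearMap.congr_fun h y
  rw [h3, LinearMap.finrank_range_of_inj h4] at h1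
  have h5 := hX M
  have h6 : hd k A X.C M = finrank k (X.C →ₗ[A] M) := rfl
  have h7 : ex k X.f M = finrank k ((X.P →ₗ[A] M) ⧸ LinearMap.range (pre k X.f M)) := rfl
  have h8 : hd k A X.P M = finrank k (X.P →ₗ[A] M) := rfl
  have h9 : hd k A X.Q M = finrank k (X.Q →ₗ[A] M) := rfl
  rw [← h5, Th, h6, h7, h8, h9]
  have h10 : finrank k (X.C →ₗ[A] M) =
    finrank k ((X.Q ⧸ LinearMap.range X.f) →ₗ[A] M) := rfl
  rw [h10]
  omega

theorem E0_iff_ex (X : Pr k A) (M : Type) [AddCommGroup M] [Module A M] [Module k M]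
    [IsScalarTower k A M] [Module.Finite k M] : E0 X.f M ↔ ex k X.f M = 0 := by
  refine ⟨fun h => ?_, fun h => E0_of_ex h⟩
  have h1 : LinearMap.range (pre k X.f M) = ⊤ := by
    rw [LinearMap.range_eq_top]
    intro φ
    obtain ⟨ψ, hψ⟩ := h φ
    exact ⟨ψ, hψ.symm⟩
  have h2 : Subsingleton (EQ k X.f M) := Submodule.Quotient.subsingleton_iff.2 h1
  exact Module.finrank_zero_of_subsingleton

theorem H0_iff_hom (X : Pr k A) (M : Type) [AddCommGroup M] [Module A M] :
    H0 X.f M ↔ ∀ g : X.C →ₗ[A] M, g = 0 := by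
  constructor
  · intro h g
    have h1 := h (g ∘ₗ (LinearMap.range X.f).mkQ) (by
      rw [LinearMap.comp_assoc, mkQ_comp, LinearMap.comp_zero])
    ext y
    exact LinearMap.congr_fun h1 y
  · intro h g hg
    obtain ⟨g', hg'⟩ := exists_bar g hg
    rw [← hg', h g', LinearMap.zero_comp]

theorem hd_zero_iff (X : Pr k A) (M : Type) [AddCommGroup M] [Module A M] [Module k M]
    [IsScalarTower k A M] [Module.Finite k M] : hd k A X.C M = 0 ↔ ∀ g : X.C →ₗ[A] M, g = 0 := by
  have _ := finite_hom (k := k) (A := A) (P := X.C) (X := M)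
  constructor
  · intro h g
    have h1 : Subsingleton (X.C →ₗ[A] M) := Module.finrank_zero_iff.mp h
    exact Subsingleton.elim _ _
  · intro h
    have h1 : Subsingleton (X.C →ₗ[A] M) := ⟨fun a b => by rw [h a, h b]⟩
    exact Module.finrank_zero_of_subsingleton

omit [Module.Finite k A] [Module.Finite k M] [Module.Finite k M'] in
private theorem post_range (X : Pr k A) (p : M →ₗ[A] M') :
    LinearMap.range (pre k X.f M) ≤ (LinearMap.range (pre k X.f M')).comap (post k X.P p) := by
  rintro _ ⟨ψ, rfl⟩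
  exact ⟨p ∘ₗ ψ, rfl⟩

omit [Module.Finite k A] [Module.Finite k M] [Module.Finite k M'] in
private theorem mapQ_surj (X : Pr k A) (p : M →ₗ[A] M') (hp : Surjective p) :
    Surjective (Submodule.mapQ (LinearMap.range (pre k X.f M)) (LinearMap.range (pre k X.f M'))
      (post k X.P p) (post_range X p)) := by
  intro y
  obtain ⟨φ, rfl⟩ := Submodule.mkQ_surjective _ y
  obtain ⟨χ, hχ⟩ := Module.projective_lifting_property p φ hp
  refine ⟨(LinearMap.range (pre k X.f M)).mkQ χ, ?_⟩
  rw [Submodule.mkQ_apply, Submodule.mapQ_apply, post_apply, hχ]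
  rfl

theorem ex_mono (X : Pr k A) (p : M →ₗ[A] M') (hp : Surjective p) :
    ex k X.f M' ≤ ex k X.f M := by
  have _ := finite_hom (k := k) (A := A) (P := X.P) (X := M)
  exact LinearMap.finrank_le_finrank_of_surjective (mapQ_surj X p hp)

theorem ex_ses (X : Pr k A) (U : Submodule A M) (hU : E0 X.f U) :
    ex k X.f M = ex k X.f (M ⧸ U) := by
  have h1 := mapQ_surj X U.mkQ (Submodule.mkQ_surjective U)
  have h2 : Injective (Submodule.mapQ (LinearMap.range (pre k X.f M))
      (LinearMap.range (pre k X.f (M ⧸ U))) (post k X.P U.mkQ) (post_range X U.mkQ)) := by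
    rw [← LinearMap.ker_eq_bot, Submodule.eq_bot_iff]
    intro y hy
    obtain ⟨φ, rfl⟩ := Submodule.mkQ_surjective _ y
    rw [LinearMap.mem_ker, Submodule.mkQ_apply, Submodule.mapQ_apply,
      Submodule.Quotient.mk_eq_zero, post_apply] at hy
    obtain ⟨ψ, hψ⟩ := hy
    obtain ⟨χ, hχ⟩ := Module.projective_lifting_property U.mkQ ψ (Submodule.mkQ_surjective U)
    have h3 : ∀ y, φ y - χ (X.f y) ∈ U := by
      intro y
      rw [← Submodule.Quotient.mk_eq_zero, Submodule.Quotient.mk_sub, sub_eq_zero]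
      have h4 := LinearMap.congr_fun hψ y
      have h5 := LinearMap.congr_fun hχ (X.f y)
      exact h4.symm.trans h5.symm
    obtain ⟨κ, hκ⟩ := hU ((φ - χ ∘ₗ X.f).codRestrict U h3)
    rw [Submodule.mkQ_apply, Submodule.Quotient.mk_eq_zero]
    refine ⟨χ + U.subtype ∘ₗ κ, ?_⟩
    ext y
    have h6 := congrArg Subtype.val (LinearMap.congr_fun hκ y)
    change φ y - χ (X.f y) = κ (X.f y) at h6
    change χ (X.f y) + κ (X.f y) = φ y
    rw [← h6]
    abel
  exact (LinearEquiv.ofBijective _ ⟨h2, h1⟩).finrank_eq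

theorem H0_iff (hC : Crd k e) (hX : HW e X x) : H0 X.f M ↔ Fb k e x M := by
  constructor
  · intro h N
    have _ := finite_sub (k := k) N
    have h1 := h.sub N.subtype Subtype.val_injective
    have h2 := (hd_zero_iff (k := k) X N).2 ((H0_iff_hom X N).1 h1)
    have h3 := hd_C hX N
    omega
  · intro h
    rw [H0_iff_hom]
    intro g
    by_contra hg
    have _ := finite_sub (k := k) (LinearMap.range g)
    have h1 : E0 X.f (LinearMap.range g) :=
      (X.rig.E0_coker).quot g.rangeRestrict g.surjective_rangeRestrict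
    have h2 := (E0_iff_ex X (LinearMap.range g)).1 h1
    have h3 := hd_C hX (LinearMap.range g)
    have h4 : hd k A X.C (LinearMap.range g) ≠ 0 := by
      intro h5
      have h6 := (hd_zero_iff (k := k) X (LinearMap.range g)).1 h5 g.rangeRestrict
      apply hg
      ext y
      exact congrArg Subtype.val (LinearMap.congr_fun h6 ((LinearMap.range X.f).mkQ y))
    have h5 := h (LinearMap.range g)
    omega

theorem TT_iff (hC : Crd k e) (hX : HW e X x) : TT X.f M ↔ Tt k e x M := by
  constructor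
  · intro h
    exact Tt_of hC (fun N hN => h N ((H0_iff hC hX).2 hN))
  · intro h N hN
    by_contra hne
    have h1 := h N hne
    have h2 := ((H0_iff hC hX).1 hN).val
    omega

theorem E0_iff (hC : Crd k e) (hX : HW e X x) : E0 X.f M ↔ Tb k e x M := by
  constructor
  · intro h N
    have h1 := h.quot N.mkQ (Submodule.mkQ_surjective N)
    have h2 := (E0_iff_ex (k := k) X (M ⧸ N)).1 h1
    have h3 := hd_C hX (M ⧸ N)
    omega
  · intro h
    obtain ⟨t, ht1, ht2⟩ := exists_tors hC x M
    have _ := finite_sub (k := k) t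
    have h1 : E0 X.f t := TT.E0' k X.rig ((TT_iff hC hX).2 ht1)
    have h2 : Ws k e x (M ⧸ t) :=
      ⟨Tb.of_surj hC h t.mkQ (Submodule.mkQ_surjective t), ht2⟩
    have h3 := h2.val
    have h4 := (hd_zero_iff (k := k) X (M ⧸ t)).2
      ((H0_iff_hom X (M ⧸ t)).1 ((H0_iff hC hX).2 ht2))
    have h5 := hd_C hX (M ⧸ t)
    have h6 : E0 X.f (M ⧸ t) := (E0_iff_ex (k := k) X (M ⧸ t)).2 (by omega)
    exact E0.ext t h1 h6

theorem St_iff (hX : HW e X x) : St k A X.P X.Q M ↔ Sta k e x M := by
  unfold St Sta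
  rw [hX M]
  refine and_congr_right (fun _ => and_congr_right (fun _ => forall_congr' (fun U => ?_)))
  have _ := finite_sub (k := k) U
  rw [hX U]

theorem C_Tt (hC : Crd k e) (hX : HW e X x) : Tt k e x X.C :=
  (TT_iff hC hX).1 (TT_coker X.f)

theorem lift (X : Pr k A) (p : M →ₗ[A] M') (hp : Surjective p) (hK : E0 X.f (LinearMap.ker p))
    (g : X.C →ₗ[A] M') : ∃ φ : X.C →ₗ[A] M, p ∘ₗ φ = g := by
  obtain ⟨h, hh⟩ := Module.projective_lifting_property p (g ∘ₗ (LinearMap.range X.f).mkQ) hp
  have h1 : ∀ y, (h ∘ₗ X.f) y ∈ LinearMap.ker p := by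
    intro y
    rw [LinearMap.mem_ker]
    have h2 := LinearMap.congr_fun hh (X.f y)
    change p (h (X.f y)) = g ((LinearMap.range X.f).mkQ (X.f y)) at h2
    change p (h (X.f y)) = 0
    have h3 := LinearMap.congr_fun (mkQ_comp X.f) y
    change (LinearMap.range X.f).mkQ (X.f y) = 0 at h3
    rw [h2, h3, map_zero]
  obtain ⟨ψ, hψ⟩ := hK ((h ∘ₗ X.f).codRestrict _ h1)
  obtain ⟨φ, hφ⟩ := exists_bar (f := X.f) (h - (LinearMap.ker p).subtype ∘ₗ ψ) (by
    ext y
    have h2 := congrArg Subtype.val (LinearMap.congr_fun hψ y)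
    change h (X.f y) = ψ (X.f y) at h2
    change h (X.f y) - ψ (X.f y) = 0
    rw [h2, sub_self])
  refine ⟨φ, ?_⟩
  ext y
  have h2 := LinearMap.congr_fun hφ y
  change φ ((LinearMap.range X.f).mkQ y) = h y - ψ y at h2
  change p (φ ((LinearMap.range X.f).mkQ y)) = g ((LinearMap.range X.f).mkQ y)
  have h3 : p (ψ y) = 0 := (ψ y).2
  have h4 := LinearMap.congr_fun hh y
  change p (h y) = g ((LinearMap.range X.f).mkQ y) at h4
  rw [h2, map_sub, h3, sub_zero, h4]

theorem exists_hom (hX : HW e X x) (h : 0 < vd k e x M) : ∃ g : X.C →ₗ[A] M, g ≠ 0 := by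
  by_contra hcon
  push Not at hcon
  have h1 := (hd_zero_iff (k := k) X M).2 hcon
  have h2 := hd_C hX M
  omega

theorem gen (hC : Crd k e) (hX : HW e X x) (h : Tt k e x M) :
    ∃ (m : ℕ) (H : (Fin m → X.C) →ₗ[A] M), Surjective H :=
  TT.gen k X.rig ((TT_iff hC hX).2 h)

theorem Tt_of_gen (hC : Crd k e) (hX : HW e X x) {m : ℕ} (H : (Fin m → X.C) →ₗ[A] M)
    (hH : Surjective H) : Tt k e x M :=
  (TT_iff hC hX).1 (TT_of_gen H hH)

theorem trace (hC : Crd k e) (hX : HW e X x) (M : Type) [AddCommGroup M] [Module A M]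
    [Module k M] [IsScalarTower k A M] [Module.Finite k M] :
    ∃ (m : ℕ) (H : (Fin m → X.C) →ₗ[A] M), Fb k e x (M ⧸ LinearMap.range H) := by
  obtain ⟨m, H, h1, _⟩ := exists_trace k X.rig M
  exact ⟨m, H, (H0_iff hC hX).1 h1⟩

end one

omit [Module.Finite k A] in
private theorem hd_pre {P P' M : Type} [AddCommGroup P] [Module A P] [AddCommGroup P'] [Module A P']
    [AddCommGroup M] [Module A M] [Module k M] [IsScalarTower k A M] (h : P ≃ₗ[A] P') :
    hd k A P M = hd k A P' M := by
  let r : (P' →ₗ[A] M) ≃ₗ[k] (P →ₗ[A] M) :=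
    { pre k h.toLinearMap M with
      invFun := fun g => g ∘ₗ h.symm.toLinearMap
      left_inv := fun g => by
        ext x
        change g (h (h.symm x)) = g x
        rw [h.apply_symm_apply]
      right_inv := fun g => by
        ext x
        change g (h.symm (h x)) = g x
        rw [h.symm_apply_apply] }
  exact r.finrank_eq.symm

private theorem hd_PP (hC : Crd k e) (c : Fin n → ℕ) (M : Type) [AddCommGroup M] [Module A M]
    [Module k M] [IsScalarTower k A M] [Module.Finite k M] :
    hd k A (PP e c) M = ∑ i, c i * ed k (e i) M := by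
  have hfe : ∀ i, Module.Finite A (Pe (e i)) := fun i => finite_Pe (e i)
  have hfk : ∀ i, Module.Finite k (Pe (e i)) := fun i => Module.Finite.trans A (Pe (e i))
  rw [hd_pi (k := k) (A := A) (fun p : (Σ i : Fin n, Fin (c i)) => Pe (e p.1)) M,
    Fintype.sum_sigma]
  refine Finset.sum_congr rfl (fun i _ => ?_)
  simp only [hd_Pe (k := k) (hC.idem i), Finset.sum_const, Finset.card_univ, Fintype.card_fin,
    smul_eq_mul]

theorem HW.of_std (hC : Crd k e) {X : Pr k A} {a b : Fin n → ℕ} (h1 : X.P ≃ₗ[A] PP e a)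
    (h2 : X.Q ≃ₗ[A] PP e b) : HW e X (fun i => (b i : ℤ) - (a i : ℤ)) := by
  intro M _ _ _ _ _
  rw [Th, hd_pre (k := k) (M := M) h1, hd_pre (k := k) (M := M) h2, hd_PP hC, hd_PP hC, vd,
    Nat.cast_sum, Nat.cast_sum, ← Finset.sum_sub_distrib]
  refine Finset.sum_congr rfl (fun i _ => ?_)
  push_cast
  ring

theorem exists_pr (hC : Crd k e) (hR : RR k A) (x : Fin n → ℤ) :
    ∃ X : Pr k A, HW e X x ∧ Std e X := by
  classical
  have hpe : ∀ i, Module.Projective A (Pe (e i)) := fun i => projective_Pe (hC.idem i)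
  have hfe : ∀ i, Module.Finite A (Pe (e i)) := fun i => finite_Pe (e i)
  have hfk : ∀ i, Module.Finite k (Pe (e i)) := fun i => Module.Finite.trans A (Pe (e i))
  have hpp : ∀ c : Fin n → ℕ, Module.Projective A (PP e c) := fun c =>
    projective_pi (fun p : (Σ i : Fin n, Fin (c i)) => Pe (e p.1))
  let a : Fin n → ℕ := fun i => (-x i).toNat
  let b : Fin n → ℕ := fun i => (x i).toNat
  have _ := hpp a
  have _ := hpp b
  obtain ⟨w, _, hw⟩ := hR (PP e a) (PP e b) 0 ⊤ (fun w _ g =>
    ⟨0, 0, g, Submodule.mem_top, by rw [LinearMap.zero_comp, LinearMap.comp_zero]; simp⟩)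
  let X : Pr k A := { P := PP e a, Q := PP e b, f := 0 + w, rig := hw }
  refine ⟨X, ?_, a, b, ⟨LinearEquiv.refl A _⟩, ⟨LinearEquiv.refl A _⟩⟩
  have h := HW.of_std hC (X := X) (a := a) (b := b) (LinearEquiv.refl A _) (LinearEquiv.refl A _)
  have hx : (fun i => ((b i : ℕ) : ℤ) - ((a i : ℕ) : ℤ)) = x := by
    funext i
    change (((x i).toNat : ℕ) : ℤ) - (((-x i).toNat : ℕ) : ℤ) = x i
    rcases le_total 0 (x i) with h | h
    · rw [Int.toNat_of_nonneg h, Int.toNat_of_nonpos (by omega)]
      simp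
    · rw [Int.toNat_of_nonpos h, Int.toNat_of_nonneg (by omega)]
      simp
  rw [hx] at h
  exact h

end BT3
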