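import Mathlib
import Pool.Agent.BT3.Bridge

/-!
BT3.Nak: the Nakayama module `N` of a presentation `f : P → Q`: `dim Hom(M, N) = ex f M` for all `M`,
and all nonzero submodules of `N` have negative weight.

Construction of `N` (`exists_nak0`).  The space `Hom_A(P, A)` is a right `A`-module by
`(φ · a) p = φ p * a`.  Let `N` be the space of linear forms `ξ : (P →ₗ[A] A) →ₗ[k] k` which vanish on
all `χ ∘ f`, `χ : Q →ₗ[A] A`, with the left action `(a ξ)(φ) = ξ(φ · a)` (`φ · a` is
`(LinearMap.toSpanSingleton A A a) ∘ φ`, since `LinearMap.toSpanSingleton A A a : b ↦ b * a` is left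
`A`-linear).  It is a finite dimensional left `A`-module, with `k` acting on the values, compatible
with `A` (one may take for the carrier the submodule `(LinearMap.range (pre k f A)).dualAnnihilator`, or
`Module.Dual k (EQ k f A)`, and put the `A`-action by `Module.compHom` or by hand on a new structure).
For a finite dimensional `M` the map
`Hom_A(M, N) ← {ζ : (P →ₗ[A] M) →ₗ[k] k | ζ (ψ ∘ f) = 0 for all ψ : Q → M}` (the dual space of `EQ k f M`,
of dimension `ex k f M`), `h_ζ(m)(φ) = ζ(p ↦ φ p • m)`, is a `k`-linear bijection: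
 - `h_ζ(a m)(φ) = ζ(p ↦ φ p • a • m) = h_ζ(m)(φ · a)`, so `h_ζ` is `A`-linear, and
   `h_ζ(m)(χ ∘ f) = ζ((q ↦ χ q • m) ∘ f) = 0`;
 - `P` is a direct summand of some `A ^ r`: there are `p_i ∈ P`, `φ_i : P → A` with `p = ∑ φ_i p • p_i`
   (`Module.Projective` and `Module.Finite A P`; e.g. `Module.finite_projective...` / lift the identity
   through a surjection `(Fin r → A) → P`).  So `g = ∑ (p ↦ φ_i p • g p_i)` for `g : P → M`; hence
   `h_ζ = 0` implies `ζ = 0`;
 - surjective: given `h`, put `ζ g = ∑ i, h (g p_i) φ_i`; then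
   `h_ζ(m)(φ) = ∑ h(φ p_i • m)(φ_i) = h(m)(∑ φ_i · (φ p_i)) = h(m)(φ)` as
   `∑ φ_i p * φ p_i = φ (∑ φ_i p • p_i) = φ p`; and `ζ` kills `ψ ∘ f`: write `ψ = ∑ (q ↦ χ_j q • m_j)` (the
   same for `Q`), and `ζ (p ↦ (χ (f p)) • m) = h(m)(χ ∘ f) = 0` by the formula just proved.

`exists_nak`: `Ff x N`.  First `Fb x N`: otherwise there is `0 ≠ V ≤ N` with `Tt x V` (`exists_Tt_sub`),
so `E0 f V`, `ex f V = 0`, `hd V N = 0`, but the inclusion is a nonzero map.  Now let `0 ≠ U ≤ N`;
`vd U ≤ 0`.  If `vd U = 0` then by `hd_C` `hd C U = ex f U = hd U N ≥ 1`, so there is a nonzero map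
`C → U → N`, impossible by `hom_zero` (`C_Tt`, `Fb x N`).
-/

namespace BT3

open Module Function BT

section em

variable {k A : Type} [Field k] [Ring A] [Algebra k A]
variable {P Q : Type} [AddCommGroup P] [Module A P] [AddCommGroup Q] [Module A Q]
variable {Y Z W : Type}
variable [AddCommGroup Y] [Module A Y] [Module k Y] [IsScalarTower k A Y]
variable [AddCommGroup Z] [Module A Z] [Module k Z] [IsScalarTower k A Z]
variable [AddCommGroup W] [Module A W] [Module k W] [IsScalarTower k A W]

/-- the map of obstruction spaces induced by a homomorphism -/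
def em (k : Type) [Field k] [Algebra k A] {Y Z : Type} [AddCommGroup Y] [Module A Y] [Module k Y]
    [IsScalarTower k A Y] [AddCommGroup Z] [Module A Z] [Module k Z] [IsScalarTower k A Z]
    (f : P →ₗ[A] Q) (g : Y →ₗ[A] Z) : EQ k f Y →ₗ[k] EQ k f Z :=
  Submodule.mapQ _ _ (post k P g) (by
    rintro _ ⟨ψ, rfl⟩
    exact ⟨g ∘ₗ ψ, rfl⟩)

theorem em_mk (f : P →ₗ[A] Q) (g : Y →ₗ[A] Z) (φ : P →ₗ[A] Y) :
    em k f g (Submodule.mkQ _ φ) = Submodule.mkQ _ (g ∘ₗ φ) := rfl

theorem em_comp (f : P →ₗ[A] Q) (g : Y →ₗ[A] Z) (h : Z →ₗ[A] W) (v : EQ k f Y) :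
    em k f (h ∘ₗ g) v = em k f h (em k f g v) := by
  obtain ⟨φ, rfl⟩ := Submodule.mkQ_surjective _ v
  rfl

theorem em_add (f : P →ₗ[A] Q) (g h : Y →ₗ[A] Z) (v : EQ k f Y) :
    em k f (g + h) v = em k f g v + em k f h v := by
  obtain ⟨φ, rfl⟩ := Submodule.mkQ_surjective _ v
  rw [em_mk, em_mk, em_mk, ← map_add]
  rfl

theorem em_ts_smul (f : P →ₗ[A] Q) (c : k) (m : Y) (v : EQ k f A) :
    em k f (LinearMap.toSpanSingleton A Y (c • m)) v
      = c • em k f (LinearMap.toSpanSingleton A Y m) v := by
  obtain ⟨φ, rfl⟩ := Submodule.mkQ_surjective _ v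
  rw [em_mk, em_mk, ← map_smul]
  congr 1
  refine LinearMap.ext (fun x => ?_)
  change φ x • c • m = c • φ x • m
  rw [← algebraMap_smul A c m, ← algebraMap_smul A c (φ x • m), smul_smul, smul_smul,
    Algebra.commutes]

theorem em_id (f : P →ₗ[A] Q) (v : EQ k f Y) : em k f (LinearMap.id : Y →ₗ[A] Y) v = v := by
  obtain ⟨φ, rfl⟩ := Submodule.mkQ_surjective _ v
  rfl

theorem em_zero (f : P →ₗ[A] Q) (v : EQ k f Y) : em k f (0 : Y →ₗ[A] Z) v = 0 := by
  obtain ⟨φ, rfl⟩ := Submodule.mkQ_surjective _ v
  rw [em_mk, LinearMap.zero_comp, map_zero]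

/-- the left module structure on the dual of the obstruction space of `A` -/
@[reducible] def nakMod (k : Type) [Field k] [Algebra k A] (f : P →ₗ[A] Q) :
    Module A (Module.Dual k (EQ k f A)) where
  smul a ξ := ξ ∘ₗ em k f (LinearMap.toSpanSingleton A A a)
  one_smul ξ := by
    refine LinearMap.ext (fun v => ?_)
    change ξ (em k f (LinearMap.toSpanSingleton A A (1 : A)) v) = ξ v
    have h : LinearMap.toSpanSingleton A A (1 : A) = LinearMap.id := by
      refine LinearMap.ext (fun x => ?_)
      change x • (1 : A) = x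
      rw [smul_eq_mul, mul_one]
    rw [h, em_id]
  mul_smul a b ξ := by
    refine LinearMap.ext (fun v => ?_)
    change ξ (em k f (LinearMap.toSpanSingleton A A (a * b)) v)
      = ξ (em k f (LinearMap.toSpanSingleton A A b) (em k f (LinearMap.toSpanSingleton A A a) v))
    have h : LinearMap.toSpanSingleton A A (a * b)
        = LinearMap.toSpanSingleton A A b ∘ₗ LinearMap.toSpanSingleton A A a := by
      refine LinearMap.ext (fun x => ?_)
      change x • (a * b) = (x • a) • b
      rw [smul_eq_mul, smul_eq_mul, smul_eq_mul, mul_assoc]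
    rw [h, em_comp]
  smul_zero a := by
    refine LinearMap.ext (fun v => ?_)
    rfl
  smul_add a ξ η := by
    refine LinearMap.ext (fun v => ?_)
    rfl
  add_smul a b ξ := by
    refine LinearMap.ext (fun v => ?_)
    change ξ (em k f (LinearMap.toSpanSingleton A A (a + b)) v)
      = ξ (em k f (LinearMap.toSpanSingleton A A a) v)
        + ξ (em k f (LinearMap.toSpanSingleton A A b) v)
    have h : LinearMap.toSpanSingleton A A (a + b)
        = LinearMap.toSpanSingleton A A a + LinearMap.toSpanSingleton A A b := by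
      refine LinearMap.ext (fun x => ?_)
      change x • (a + b) = x • a + x • b
      rw [smul_add]
    rw [h, em_add, map_add]
  zero_smul ξ := by
    refine LinearMap.ext (fun v => ?_)
    change ξ (em k f (LinearMap.toSpanSingleton A A (0 : A)) v) = 0
    have h : LinearMap.toSpanSingleton A A (0 : A) = 0 := by
      refine LinearMap.ext (fun x => ?_)
      change x • (0 : A) = 0
      rw [smul_zero]
    rw [h, em_zero, map_zero]

/-- a dual basis of a finitely generated projective module -/
theorem exists_dual_basis [Module.Finite A P] [Module.Projective A P] :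
    ∃ (r : ℕ) (p : Fin r → P) (φ : Fin r → (P →ₗ[A] A)), ∀ x, ∑ i, φ i x • p i = x := by
  obtain ⟨r, g, hg⟩ := Module.Finite.exists_fin' A P
  obtain ⟨h, hh⟩ := Module.projective_lifting_property g (LinearMap.id : P →ₗ[A] P) hg
  refine ⟨r, fun i => g (Pi.single i 1), fun i => LinearMap.proj i ∘ₗ h, fun x => ?_⟩
  have h1 := LinearMap.congr_fun hh x
  change g (h x) = x at h1
  conv_rhs => rw [← h1]
  have h2 : h x = ∑ i, (h x i) • (Pi.single i 1 : Fin r → A) := by
    ext j
    rw [Finset.sum_apply, Finset.sum_eq_single j]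
    · simp
    · intro i _ hij
      simp [Pi.single_apply, Ne.symm hij]
    · simp
  conv_rhs => rw [h2, map_sum]
  refine Finset.sum_congr rfl (fun i _ => ?_)
  rw [map_smul]
  rfl

theorem hom_dual_basis {r : ℕ} {p : Fin r → P} {φ : Fin r → (P →ₗ[A] A)}
    (h : ∀ x, ∑ i, φ i x • p i = x) (g : P →ₗ[A] Y) :
    g = ∑ i, LinearMap.toSpanSingleton A Y (g (p i)) ∘ₗ φ i := by
  refine LinearMap.ext (fun x => ?_)
  rw [LinearMap.sum_apply]
  conv_lhs => rw [← h x, map_sum]
  refine Finset.sum_congr rfl (fun i _ => ?_)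
  rw [map_smul]
  rfl

end em

variable {k A : Type} [Field k] [Ring A] [Algebra k A] {n : ℕ} {e : Fin n → A}
  [Module.Finite k A]

theorem exists_nak0 (X : Pr k A) : ∃ N : FM k A, ∀ (M : Type) [AddCommGroup M] [Module A M]
    [Module k M] [IsScalarTower k A M] [Module.Finite k M],
    hd k A M N.X = ex k X.f M := by
  let f := X.f
  have hPf : Module.Finite A X.P := Module.Finite.of_restrictScalars_finite k A X.P
  have hQf : Module.Finite A X.Q := Module.Finite.of_restrictScalars_finite k A X.Q
  obtain ⟨r, p, φ, hφ⟩ := exists_dual_basis (A := A) (P := X.P)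
  obtain ⟨s, q, χ, hχ⟩ := exists_dual_basis (A := A) (P := X.Q)
  have hfA : Module.Finite k (X.P →ₗ[A] A) := finite_hom
  have hfE : Module.Finite k (EQ k f A) := inferInstance
  let iA : Module A (Module.Dual k (EQ k f A)) := nakMod k f
  have hsmul : ∀ (a : A) (ξ : Module.Dual k (EQ k f A)) (v : EQ k f A),
      (a • ξ) v = ξ (em k f (LinearMap.toSpanSingleton A A a) v) := fun a ξ v => rfl
  have iT : IsScalarTower k A (Module.Dual k (EQ k f A)) := by
    refine ⟨fun c a ξ => ?_⟩
    refine LinearMap.ext (fun v => ?_)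
    rw [hsmul, em_ts_smul, map_smul, LinearMap.smul_apply, hsmul]
  let N : FM k A := ⟨Module.Dual k (EQ k f A)⟩
  refine ⟨N, ?_⟩
  intro M _ _ _ _ _
  have hfM : Module.Finite k (X.P →ₗ[A] M) := finite_hom
  have hfEM : Module.Finite k (EQ k f M) := inferInstance
  let Φ : Module.Dual k (EQ k f M) →ₗ[k] (M →ₗ[A] Module.Dual k (EQ k f A)) :=
    { toFun := fun ζ =>
        { toFun := fun m => ζ ∘ₗ em k f (LinearMap.toSpanSingleton A M m)
          map_add' := by
            intro m m'
            refine LinearMap.ext (fun v => ?_)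
            have h : LinearMap.toSpanSingleton A M (m + m')
                = LinearMap.toSpanSingleton A M m + LinearMap.toSpanSingleton A M m' := by
              refine LinearMap.ext (fun x => ?_)
              change x • (m + m') = x • m + x • m'
              rw [smul_add]
            rw [h]
            change ζ (em k f (LinearMap.toSpanSingleton A M m
              + LinearMap.toSpanSingleton A M m') v) = ζ (em k f (LinearMap.toSpanSingleton A M m) v)
                + ζ (em k f (LinearMap.toSpanSingleton A M m') v)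
            rw [em_add, map_add]
          map_smul' := by
            intro a m
            refine LinearMap.ext (fun v => ?_)
            have h : LinearMap.toSpanSingleton A M (a • m)
                = LinearMap.toSpanSingleton A M m ∘ₗ LinearMap.toSpanSingleton A A a := by
              refine LinearMap.ext (fun x => ?_)
              change x • a • m = (x • a) • m
              rw [smul_eq_mul, mul_smul]
            rw [h]
            change ζ (em k f (LinearMap.toSpanSingleton A M m
              ∘ₗ LinearMap.toSpanSingleton A A a) v) = ζ (em k f (LinearMap.toSpanSingleton A M m)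
                (em k f (LinearMap.toSpanSingleton A A a) v))
            rw [em_comp] }
      map_add' := fun ζ ζ' => by
        refine LinearMap.ext (fun m => ?_)
        rfl
      map_smul' := fun c ζ => by
        refine LinearMap.ext (fun m => ?_)
        rfl }
  have hΦ : ∀ (ζ : Module.Dual k (EQ k f M)) (m : M) (θ : X.P →ₗ[A] A),
      (Φ ζ m) (Submodule.mkQ _ θ)
        = ζ (Submodule.mkQ _ (LinearMap.toSpanSingleton A M m ∘ₗ θ)) := fun ζ m θ => rfl
  have hinj : Injective Φ := by
    refine (injective_iff_map_eq_zero Φ).2 (fun ζ hζ => ?_)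
    refine LinearMap.ext (fun v => ?_)
    obtain ⟨g, rfl⟩ := Submodule.mkQ_surjective _ v
    rw [hom_dual_basis hφ g, map_sum, map_sum]
    rw [LinearMap.zero_apply]
    refine Finset.sum_eq_zero (fun i _ => ?_)
    rw [← hΦ, hζ]
    rfl
  have hsurj : Surjective Φ := by
    intro h
    let ζ0 : (X.P →ₗ[A] M) →ₗ[k] k :=
      { toFun := fun g => ∑ i, (h (g (p i))) (Submodule.mkQ _ (φ i))
        map_add' := fun g g' => by
          rw [← Finset.sum_add_distrib]
          refine Finset.sum_congr rfl (fun i _ => ?_)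
          rw [LinearMap.add_apply, map_add]
          rfl
        map_smul' := fun c g => by
          rw [RingHom.id_apply, Finset.smul_sum]
          refine Finset.sum_congr rfl (fun i _ => ?_)
          have h1 : (c • g) (p i) = algebraMap k A c • g (p i) := by
            rw [algebraMap_smul]
            rfl
          rw [h1, map_smul, algebraMap_smul]
          rfl }
    have hζ0 : ∀ (m : M) (θ : X.P →ₗ[A] A),
        ζ0 (LinearMap.toSpanSingleton A M m ∘ₗ θ) = (h m) (Submodule.mkQ _ θ) := by
      intro m θ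
      change ∑ i, (h (θ (p i) • m)) (Submodule.mkQ _ (φ i)) = _
      have h1 : ∀ i, (h (θ (p i) • m)) (Submodule.mkQ (LinearMap.range (pre k f A)) (φ i))
          = (h m) (Submodule.mkQ (LinearMap.range (pre k f A))
            (LinearMap.toSpanSingleton A A (θ (p i)) ∘ₗ φ i)) := by
        intro i
        rw [map_smul, hsmul, em_mk]
      rw [Finset.sum_congr rfl (fun i _ => h1 i), ← map_sum, ← map_sum, ← hom_dual_basis hφ θ]
    have hk : LinearMap.range (pre k f M) ≤ LinearMap.ker ζ0 := by
      rintro _ ⟨ψ, rfl⟩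
      rw [LinearMap.mem_ker, pre_apply]
      have h2 : ψ ∘ₗ f = ∑ j, LinearMap.toSpanSingleton A M (ψ (q j)) ∘ₗ (χ j ∘ₗ f) := by
        conv_lhs => rw [hom_dual_basis hχ ψ]
        refine LinearMap.ext (fun z => ?_)
        rw [LinearMap.comp_apply, LinearMap.sum_apply, LinearMap.sum_apply]
        rfl
      rw [h2, map_sum]
      refine Finset.sum_eq_zero (fun j _ => ?_)
      rw [hζ0]
      have h3 : Submodule.mkQ (LinearMap.range (pre k f A)) (χ j ∘ₗ f) = 0 :=
        (Submodule.Quotient.mk_eq_zero _).mpr ⟨χ j, rfl⟩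
      rw [h3, map_zero]
    refine ⟨(LinearMap.range (pre k f M)).liftQ ζ0 hk, ?_⟩
    refine LinearMap.ext (fun m => ?_)
    refine LinearMap.ext (fun v => ?_)
    obtain ⟨θ, rfl⟩ := Submodule.mkQ_surjective _ v
    rw [hΦ]
    exact hζ0 m θ
  have h1 := (LinearEquiv.ofBijective Φ ⟨hinj, hsurj⟩).finrank_eq
  change finrank k (M →ₗ[A] Module.Dual k (EQ k f A)) = finrank k (EQ k f M)
  rw [← h1]
  exact Subspace.dual_finrank_eq

theorem exists_nak (hC : Crd k e) {X : Pr k A} {x : Fin n → ℤ} (hX : HW e X x) :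
    ∃ N : FM k A, Ff k e x N.X ∧ ∀ (M : Type) [AddCommGroup M] [Module A M]
    [Module k M] [IsScalarTower k A M] [Module.Finite k M],
    hd k A M N.X = ex k X.f M := by
  obtain ⟨N, hN⟩ := exists_nak0 X
  refine ⟨N, ?_, hN⟩
  have hincl : ∀ U : Submodule A N.X, U ≠ ⊥ → ex k X.f U ≠ 0 := by
    intro U hU h0
    have hf := finite_sub (k := k) U
    rw [← hN U] at h0
    have hfin : Module.Finite k (U →ₗ[A] N.X) := finite_hom
    have h1 : Subsingleton (U →ₗ[A] N.X) := Module.finrank_zero_iff.mp h0
    apply hU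
    rw [Submodule.eq_bot_iff]
    intro z hz
    have h2 := LinearMap.congr_fun (Subsingleton.elim U.subtype 0) ⟨z, hz⟩
    exact h2
  have hFb : Fb k e x N.X := by
    by_contra hcon
    obtain ⟨U, hU, hT⟩ := exists_Tt_sub hC hcon
    have hf := finite_sub (k := k) U
    exact hincl U hU ((E0_iff_ex X U).1 ((E0_iff hC hX).2 hT.tb))
  intro U hU
  have hf := finite_sub (k := k) U
  rcases lt_or_eq_of_le (hFb U) with h | h
  · exact h
  exfalso
  have h1 := hd_C hX U
  rw [h, zero_add] at h1
  have h2 : hd k A X.C U ≠ 0 := by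
    intro h3
    rw [h3] at h1
    exact hincl U hU (by exact_mod_cast h1.symm)
  apply h2
  rw [hd_zero_iff]
  intro g
  have h3 := hom_zero hC (C_Tt hC hX) hFb (U.subtype ∘ₗ g)
  refine LinearMap.ext (fun z => ?_)
  exact Subtype.ext (LinearMap.congr_fun h3 z)

end BT3
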