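import Mathlib
import Pool.Agent.BT3.Nak

/-!
BT3.Ev: the values of `ee X Y = ex f_X C_Y` in terms of weights only.

* `ex_ge`: `- vd x (M ⧸ N) ≤ ex f (M ⧸ N) ≤ ex f M` by `hd_C` and `ex_mono`.
* `ex_eq`: `N = t` the torsion submodule of `M` for `x` (`exists_tors`): `E0 f t` (`Tt.tb`, `E0_iff`), so
  `ex f M = ex f (M ⧸ t)` (`ex_ses`), and `hd C (M ⧸ t) = 0` as `M ⧸ t` is in `F̄`; use `hd_C`.
* `hd_ge`: `vd y U ≤ hd C_Y U ≤ hd C_Y M` (`post` of the inclusion is injective).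
* `hd_eq`: `U = t` the torsion submodule for `y`: maps `C_Y → M` have values in `t` because
  `Hom(C_Y, M ⧸ t) = 0`, so `hd C_Y M = hd C_Y t = vd y t + ex f_Y t = vd y t`.
* For `X` fix the Nakayama module `N` (`exists_nak`); `ee X Y = hd C_Y N`.  By `hd_ge`, `hd_eq`:
  `ee X Y = max {vd y U | U ≤ N}`, and by `ex_ge`, `ex_eq`: `ee X Y = max {- vd x (C_Y ⧸ V)}`.
* `ee_congr`: the first formula depends only on `N` and `y`, the second only on `x` and `C_Y`; so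
  `ee X Y = ee X Y' = ee X' Y'`.
* `ee_drop_right` (`Z` of weight `x + y`): `ee X Z = vd (x + y) U` for some `U ≤ N`; if it is not zero then
  `U ≠ ⊥` (`vd_of_subsingleton`), so `vd x U < 0` (`Ff x N`), so `ee X Z < vd y U ≤ ee X Y`.
* `ee_drop_left`: `ee Z Y = - vd (x + y) (C_Y ⧸ V)`; if nonzero then `V ≠ ⊤` and `vd y (C_Y ⧸ V) > 0`
  (`C_Tt`), so `ee Z Y < - vd x (C_Y ⧸ V) ≤ ee X Y`.
* `ee_add_right_le`: `vd (y + y') U = vd y U + vd y' U ≤ ee X Y + ee X Y'`.  `ee_add_left_le`: similarly.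
* `EE_iff`: `EE.E0`, `EE.of_E0`, `E0_iff_ex`.
* `cmp_iff`: `ee X Y = 0` iff `E0 f_X C_Y` iff `Tb x C_Y` iff (`Tt y M → Tb x M` for all `M`): if `Tb x C_Y`
  and `Tt y M` then `M` is a quotient of some `C_Y ^ m` (`gen`, `Tb.pi`, `Tb.of_surj`); the converse is
  `C_Tt`.
-/

namespace BT3

open Module Function BT

variable {k A : Type} [Field k] [Ring A] [Algebra k A] {n : ℕ} {e : Fin n → A}
  [Module.Finite k A]

section one

variable {X Y Z X' Y' : Pr k A} {x y x' y' : Fin n → ℤ}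
variable {M : Type} [AddCommGroup M] [Module A M] [Module k M] [IsScalarTower k A M]
  [Module.Finite k M]

theorem ex_ge (hC : Crd k e) (hX : HW e X x) (N : Submodule A M) :
    - vd k e x (M ⧸ N) ≤ (ex k X.f M : ℤ) := by
  have hf : Module.Finite k (M ⧸ N) := finite_quot N
  have h1 := hd_C hX (M ⧸ N)
  have h2 := ex_mono X N.mkQ N.mkQ_surjective
  have h3 : (ex k X.f (M ⧸ N) : ℤ) ≤ (ex k X.f M : ℤ) := by exact_mod_cast h2
  have h4 : (0 : ℤ) ≤ (hd k A X.C (M ⧸ N) : ℤ) := Int.natCast_nonneg _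
  linarith

theorem ex_eq (hC : Crd k e) (hX : HW e X x) (M : Type) [AddCommGroup M] [Module A M]
    [Module k M] [IsScalarTower k A M] [Module.Finite k M] :
    ∃ N : Submodule A M, (ex k X.f M : ℤ) = - vd k e x (M ⧸ N) := by
  obtain ⟨t, ht, hq⟩ := exists_tors hC x M
  have hf : Module.Finite k (M ⧸ t) := finite_quot t
  have hft := finite_sub (k := k) t
  refine ⟨t, ?_⟩
  have h1 := ex_ses X t ((E0_iff hC hX).2 ht.tb)
  have h2 := hd_C hX (M ⧸ t)
  have h3 : hd k A X.C (M ⧸ t) = 0 :=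
    (hd_zero_iff X (M ⧸ t)).2 fun g => hom_zero hC (C_Tt hC hX) hq g
  rw [h3] at h2
  rw [h1]
  push_cast at h2
  linarith

omit [Module.Finite k A] [Module.Finite k M] in
private theorem post_inj (C : Type) [AddCommGroup C] [Module A C] (U : Submodule A M) :
    Injective (post k C U.subtype) := by
  intro g g' h
  refine LinearMap.ext fun c => Subtype.ext ?_
  exact LinearMap.congr_fun h c

theorem hd_ge (hC : Crd k e) (hY : HW e Y y) (U : Submodule A M) :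
    vd k e y U ≤ (hd k A Y.C M : ℤ) := by
  have hfU := finite_sub (k := k) U
  have hfh : Module.Finite k (Y.C →ₗ[A] M) := finite_hom
  have h1 := hd_C hY U
  have h2 : hd k A Y.C U ≤ hd k A Y.C M :=
    LinearMap.finrank_le_finrank_of_injective (post_inj Y.C U)
  have h3 : (hd k A Y.C U : ℤ) ≤ (hd k A Y.C M : ℤ) := by exact_mod_cast h2
  have h4 : (0 : ℤ) ≤ (ex k Y.f U : ℤ) := Int.natCast_nonneg _
  linarith

theorem hd_eq (hC : Crd k e) (hY : HW e Y y) (M : Type) [AddCommGroup M] [Module A M]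
    [Module k M] [IsScalarTower k A M] [Module.Finite k M] :
    ∃ U : Submodule A M, (hd k A Y.C M : ℤ) = vd k e y U := by
  obtain ⟨t, ht, hq⟩ := exists_tors hC y M
  have hf : Module.Finite k (M ⧸ t) := finite_quot t
  have hft := finite_sub (k := k) t
  refine ⟨t, ?_⟩
  have hs : Surjective (post k Y.C t.subtype) := by
    intro g
    have h1 := hom_zero hC (C_Tt hC hY) hq (t.mkQ ∘ₗ g)
    have h2 : ∀ c, g c ∈ t := fun c =>
      (Submodule.Quotient.mk_eq_zero t).1 (LinearMap.congr_fun h1 c)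
    exact ⟨g.codRestrict t h2, LinearMap.ext fun c => rfl⟩
  have h1 : hd k A Y.C t = hd k A Y.C M :=
    (LinearEquiv.ofBijective (post k Y.C t.subtype) ⟨post_inj Y.C t, hs⟩).finrank_eq
  have h2 := hd_C hY t
  have h3 : ex k Y.f t = 0 := (E0_iff_ex Y t).1 ((E0_iff hC hY).2 ht.tb)
  rw [h3, h1] at h2
  rw [h2]
  push_cast
  ring

private theorem hd_le_of_wt (hC : Crd k e) (hY : HW e Y y) (hY' : HW e Y' y) (M : Type)
    [AddCommGroup M] [Module A M] [Module k M] [IsScalarTower k A M] [Module.Finite k M] :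
    hd k A Y.C M ≤ hd k A Y'.C M := by
  obtain ⟨U, hU⟩ := hd_eq hC hY M
  have h1 := hd_ge hC hY' U
  rw [← hU] at h1
  exact_mod_cast h1

private theorem ex_le_of_wt (hC : Crd k e) (hX : HW e X x) (hX' : HW e X' x) (M : Type)
    [AddCommGroup M] [Module A M] [Module k M] [IsScalarTower k A M] [Module.Finite k M] :
    ex k X.f M ≤ ex k X'.f M := by
  obtain ⟨N, hN⟩ := ex_eq hC hX M
  have h1 := ex_ge hC hX' N
  rw [← hN] at h1
  exact_mod_cast h1

theorem ee_congr (hC : Crd k e) (hX : HW e X x) (hX' : HW e X' x) (hY : HW e Y y)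
    (hY' : HW e Y' y) : ee X' Y' = ee X Y := by
  obtain ⟨N, hN, hN'⟩ := exists_nak hC hX
  have h1 : ee X Y' = ee X Y := by
    unfold ee
    rw [← hN' Y'.C, ← hN' Y.C]
    exact le_antisymm (hd_le_of_wt hC hY' hY N.X) (hd_le_of_wt hC hY hY' N.X)
  rw [← h1]
  exact le_antisymm (ex_le_of_wt hC hX' hX Y'.C) (ex_le_of_wt hC hX hX' Y'.C)

theorem ee_drop_right (hC : Crd k e) (hX : HW e X x) (hY : HW e Y y) (hZ : HW e Z (x + y)) :
    ee X Z < ee X Y ∨ ee X Z = 0 := by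
  obtain ⟨N, hN, hN'⟩ := exists_nak hC hX
  have e1 : hd k A Z.C N.X = ee X Z := hN' Z.C
  have e2 : hd k A Y.C N.X = ee X Y := hN' Y.C
  obtain ⟨U, hU⟩ := hd_eq hC hZ N.X
  rw [e1] at hU
  by_cases hb : U = ⊥
  · right
    subst hb
    rw [vd_of_subsingleton (k := k) (e := e) (⊥ : Submodule A N.X) (x + y)] at hU
    exact_mod_cast hU
  · left
    have h1 := hN U hb
    have h2 := hd_ge hC hY U
    rw [e2] at h2
    rw [vd_add] at hU
    have h3 : (ee X Z : ℤ) < (ee X Y : ℤ) := by linarith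
    exact_mod_cast h3

theorem ee_drop_left (hC : Crd k e) (hX : HW e X x) (hY : HW e Y y) (hZ : HW e Z (x + y)) :
    ee Z Y < ee X Y ∨ ee Z Y = 0 := by
  obtain ⟨V, hV⟩ := ex_eq hC hZ Y.C
  have e1 : ex k Z.f Y.C = ee Z Y := rfl
  have e2 : ex k X.f Y.C = ee X Y := rfl
  rw [e1] at hV
  by_cases ht : V = ⊤
  · right
    subst ht
    rw [vd_of_subsingleton (k := k) (e := e) (Y.C ⧸ (⊤ : Submodule A Y.C)) (x + y)] at hV
    omega
  · left
    have h1 := C_Tt hC hY V ht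
    have h2 := ex_ge hC hX V
    rw [e2] at h2
    rw [vd_add] at hV
    have h3 : (ee Z Y : ℤ) < (ee X Y : ℤ) := by linarith
    exact_mod_cast h3

theorem ee_add_right_le (hC : Crd k e) (hX : HW e X x) (hY : HW e Y y) (hY' : HW e Y' y')
    (hZ : HW e Z (y + y')) : ee X Z ≤ ee X Y + ee X Y' := by
  obtain ⟨N, hN, hN'⟩ := exists_nak hC hX
  have e1 : hd k A Z.C N.X = ee X Z := hN' Z.C
  have e2 : hd k A Y.C N.X = ee X Y := hN' Y.C
  have e3 : hd k A Y'.C N.X = ee X Y' := hN' Y'.C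
  obtain ⟨U, hU⟩ := hd_eq hC hZ N.X
  rw [e1, vd_add] at hU
  have h2 := hd_ge hC hY U
  have h3 := hd_ge hC hY' U
  rw [e2] at h2
  rw [e3] at h3
  have h4 : (ee X Z : ℤ) ≤ (ee X Y : ℤ) + (ee X Y' : ℤ) := by linarith
  exact_mod_cast h4

theorem ee_add_left_le (hC : Crd k e) (hX : HW e X x) (hX' : HW e X' x') (hY : HW e Y y)
    (hZ : HW e Z (x + x')) : ee Z Y ≤ ee X Y + ee X' Y := by
  obtain ⟨V, hV⟩ := ex_eq hC hZ Y.C
  have e1 : ex k Z.f Y.C = ee Z Y := rfl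
  have e2 : ex k X.f Y.C = ee X Y := rfl
  have e3 : ex k X'.f Y.C = ee X' Y := rfl
  rw [e1, vd_add] at hV
  have h2 := ex_ge hC hX V
  have h3 := ex_ge hC hX' V
  rw [e2] at h2
  rw [e3] at h3
  have h4 : (ee Z Y : ℤ) ≤ (ee X Y : ℤ) + (ee X' Y : ℤ) := by linarith
  exact_mod_cast h4

theorem ee_self (X : Pr k A) : ee X X = 0 := by
  exact (E0_iff_ex X X.C).1 X.rig.E0_coker

theorem EE_iff (X Y : Pr k A) : EE X.f Y.f ↔ ee X Y = 0 := by
  constructor
  · intro h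
    exact (E0_iff_ex X Y.C).1 (EE.E0 h)
  · intro h
    exact EE.of_E0 ((E0_iff_ex X Y.C).2 h)

theorem cmp_iff (hC : Crd k e) (hX : HW e X x) (hY : HW e Y y) :
    Cmp k e x y ↔ ee X Y = 0 ∧ ee Y X = 0 := by
  constructor
  · intro h
    exact ⟨(E0_iff_ex X Y.C).1 ((E0_iff hC hX).2 ((h Y.C).2 (C_Tt hC hY))),
      (E0_iff_ex Y X.C).1 ((E0_iff hC hY).2 ((h X.C).1 (C_Tt hC hX)))⟩
  · rintro ⟨h1, h2⟩ M _ _ _ _ _
    have h3 : Tb k e x Y.C := (E0_iff hC hX).1 ((E0_iff_ex X Y.C).2 h1)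
    have h4 : Tb k e y X.C := (E0_iff hC hY).1 ((E0_iff_ex Y X.C).2 h2)
    constructor
    · intro hM
      obtain ⟨m, H, hH⟩ := gen hC hX hM
      exact Tb.of_surj hC (Tb.pi hC h4 m) H hH
    · intro hM
      obtain ⟨m, H, hH⟩ := gen hC hY hM
      exact Tb.of_surj hC (Tb.pi hC h3 m) H hH

end one

end BT3
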