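import Mathlib
import Pool.Agent.BT3.Ev

/-!
BT3.Sm: direct sums of presentations (`Pr.add`, `f = prodMap f_X f_Y`) and compatible weights.

* `E0_add`: a map `P × P' → M` is a pair; extensions are found componentwise.  `H0_add`: the same.
* `ex_add`: `Hom(P × P', M) = Hom(P, M) × Hom(P', M)` and the range of `pre` is the product of the ranges;
  `finrank (V ⧸ S) = finrank V - finrank S` and `finrank` of a product (or an explicit isomorphism of the
  quotients).
* `HW.add`: `Th_prod`.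
* `C_add`: `(Q × Q') ⧸ range (prodMap f f') ≃ (Q ⧸ range f) × (Q' ⧸ range f')`
  (`LinearMap.range_prodMap`, `Submodule.quotientProd...` or by hand with `LinearEquiv.ofLinear`).
* `ee_add_left`: `ex_add`.  `ee_add_right`: `ex k X.f (M × M') = ex M + ex M'`, invariance of `ex` under
  isomorphisms of the module.
* `Std.add`: `PP e a × PP e a' ≃ PP e (a + a')`.
* `Cmp.coh`: let `S` be the module with `ed (e j) S = δ_ij` (`hC.simple`).  By `hC.zero` every submodule
  of `S` is `⊥` or `⊤` (`ed` is additive).  If `x i > 0` then `Tt x S` (nonzero quotients are `S`, weight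
  `x i`); then `Tb y S`, so `y i ≥ 0`.  If `x i < 0` and `y i > 0`: symmetric.
* `Cmp.Tb_add`: choose presentations `X`, `Y` (`exists_pr`), `cmp_iff`, `EE_iff` give `EE` both ways, then
  `E0_iff` for `X`, `Y` and `Pr.add X Y`, and `E0_add`.  `Cmp.Fb_add`: the same with `H0`.
* `Cmp.add_iff`: by `cmp_iff` and `ee_add_left`, `ee_add_right` for presentations.
* `Cmp.nsmul`: induction with `Cmp.add_iff` (`Cmp.self`, `Cmp.zero`).
-/

namespace BT3

open Module Function BT

variable {k A : Type} [Field k] [Ring A] [Algebra k A] {n : ℕ} {e : Fin n → A}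
  [Module.Finite k A]

/-! ### auxiliary lemmas -/

/-- quotient by the range of a product map -/
private noncomputable def smq {R : Type*} [Ring R] {M N M' N' : Type*} [AddCommGroup M] [Module R M]
    [AddCommGroup N] [Module R N] [AddCommGroup M'] [Module R M'] [AddCommGroup N'] [Module R N']
    (f : M →ₗ[R] N) (g : M' →ₗ[R] N') :
    ((N × N') ⧸ LinearMap.range (LinearMap.prodMap f g)) ≃ₗ[R]
      (N ⧸ LinearMap.range f) × (N' ⧸ LinearMap.range g) :=
  (Submodule.quotEquivOfEq _ _ (by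
    rw [LinearMap.range_prodMap, LinearMap.ker_prodMap, Submodule.ker_mkQ, Submodule.ker_mkQ])).trans
    ((LinearMap.prodMap (LinearMap.range f).mkQ (LinearMap.range g).mkQ).quotKerEquivOfSurjective
      (Function.Surjective.prodMap (Submodule.mkQ_surjective _) (Submodule.mkQ_surjective _)))

private theorem smex {V V' S S' : Type*} [AddCommGroup V] [Module k V] [AddCommGroup V'] [Module k V']
    [AddCommGroup S] [Module k S] [AddCommGroup S'] [Module k S'] {W T : Type*} [AddCommGroup W]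
    [Module k W] [AddCommGroup T] [Module k T]
    [Module.Finite k V] [Module.Finite k V'] (f : S →ₗ[k] V) (g : S' →ₗ[k] V') (F : T →ₗ[k] W)
    (c : (V × V') ≃ₗ[k] W) (h1 : ∀ t, ∃ s : S × S', F t = c (f s.1, g s.2)) (h2 : ∀ s s', ∃ t, F t = c (f s, g s')) :
    finrank k (W ⧸ LinearMap.range F) =
      finrank k (V ⧸ LinearMap.range f) + finrank k (V' ⧸ LinearMap.range g) := by
  have h3 : (LinearMap.range (LinearMap.prodMap f g)).map (c : (V × V') →ₗ[k] W)
      = LinearMap.range F := by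
    ext w
    simp only [Submodule.mem_map, LinearMap.mem_range]
    constructor
    · rintro ⟨v, ⟨s, rfl⟩, rfl⟩
      obtain ⟨t, ht⟩ := h2 s.1 s.2
      exact ⟨t, ht⟩
    · rintro ⟨t, rfl⟩
      obtain ⟨s, hs⟩ := h1 t
      exact ⟨(f s.1, g s.2), ⟨s, rfl⟩, hs.symm⟩
  have e1 := (Submodule.Quotient.equiv _ _ c h3).finrank_eq
  rw [← e1, (smq f g).finrank_eq, Module.finrank_prod]

section pres

variable {X Y Z : Pr k A} {x y w : Fin n → ℤ} (h1 : EE X.f Y.f) (h2 : EE Y.f X.f)
variable (M : Type) [AddCommGroup M] [Module A M] [Module k M] [IsScalarTower k A M]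
  [Module.Finite k M]

theorem E0_add : E0 (Pr.add X Y h1 h2).f M ↔ E0 X.f M ∧ E0 Y.f M := by
  change E0 (LinearMap.prodMap X.f Y.f) M ↔ _
  constructor
  · intro h
    refine ⟨fun φ => ?_, fun φ => ?_⟩
    · obtain ⟨ψ, hψ⟩ := h (φ ∘ₗ LinearMap.fst A X.P Y.P)
      refine ⟨ψ ∘ₗ LinearMap.inl A X.Q Y.Q, LinearMap.ext fun p => ?_⟩
      have h3 := LinearMap.congr_fun hψ (p, 0)
      simpa using h3
    · obtain ⟨ψ, hψ⟩ := h (φ ∘ₗ LinearMap.snd A X.P Y.P)
      refine ⟨ψ ∘ₗ LinearMap.inr A X.Q Y.Q, LinearMap.ext fun p => ?_⟩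
      have h3 := LinearMap.congr_fun hψ (0, p)
      simpa using h3
  · rintro ⟨hX, hY⟩ φ
    obtain ⟨ψ, hψ⟩ := hX (φ ∘ₗ LinearMap.inl A X.P Y.P)
    obtain ⟨ψ', hψ'⟩ := hY (φ ∘ₗ LinearMap.inr A X.P Y.P)
    refine ⟨LinearMap.coprod ψ ψ', LinearMap.prod_ext ?_ ?_⟩
    · rw [hψ]
      ext p
      simp
    · rw [hψ']
      ext p
      simp

theorem H0_add : H0 (Pr.add X Y h1 h2).f M ↔ H0 X.f M ∧ H0 Y.f M := by
  change H0 (LinearMap.prodMap X.f Y.f) M ↔ _
  constructor
  · intro h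
    refine ⟨fun φ hφ => ?_, fun φ hφ => ?_⟩
    · have h3 := h (φ ∘ₗ LinearMap.fst A X.Q Y.Q) (by
        ext p
        · exact LinearMap.congr_fun hφ p
        · simp)
      ext q
      exact LinearMap.congr_fun h3 (q, 0)
    · have h3 := h (φ ∘ₗ LinearMap.snd A X.Q Y.Q) (by
        ext p
        · simp
        · exact LinearMap.congr_fun hφ p)
      ext q
      exact LinearMap.congr_fun h3 (0, q)
  · rintro ⟨hX, hY⟩ φ hφ
    have e1 := hX (φ ∘ₗ LinearMap.inl A X.Q Y.Q) (by
      ext p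
      have h3 := LinearMap.congr_fun hφ (p, 0)
      simpa using h3)
    have e2 := hY (φ ∘ₗ LinearMap.inr A X.Q Y.Q) (by
      ext p
      have h3 := LinearMap.congr_fun hφ (0, p)
      simpa using h3)
    exact LinearMap.prod_ext e1 e2

theorem ex_add : ex k (Pr.add X Y h1 h2).f M = ex k X.f M + ex k Y.f M := by
  have i1 := finite_hom (k := k) (A := A) (P := X.P) (X := M)
  have i2 := finite_hom (k := k) (A := A) (P := Y.P) (X := M)
  refine smex (pre k X.f M) (pre k Y.f M) (pre k (LinearMap.prodMap X.f Y.f) M)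
    (LinearMap.coprodEquiv k) (fun t => ?_) (fun s s' => ?_)
  · refine ⟨(t ∘ₗ LinearMap.inl A X.Q Y.Q, t ∘ₗ LinearMap.inr A X.Q Y.Q), ?_⟩
    change t ∘ₗ LinearMap.prodMap X.f Y.f = LinearMap.coprod
      ((t ∘ₗ LinearMap.inl A X.Q Y.Q) ∘ₗ X.f) ((t ∘ₗ LinearMap.inr A X.Q Y.Q) ∘ₗ Y.f)
    refine LinearMap.prod_ext ?_ ?_ <;> · ext p; simp
  · refine ⟨LinearMap.coprod s s', ?_⟩
    change LinearMap.coprod s s' ∘ₗ LinearMap.prodMap X.f Y.f = LinearMap.coprod
      (s ∘ₗ X.f) (s' ∘ₗ Y.f)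
    refine LinearMap.prod_ext ?_ ?_ <;> · ext p; simp

theorem HW.add (hX : HW e X x) (hY : HW e Y y) : HW e (Pr.add X Y h1 h2) (x + y) := by
  intro M _ _ _ _ _
  change Th k A (X.P × Y.P) (X.Q × Y.Q) M = _
  rw [Th_prod, hX M, hY M, vd_add]

theorem C_add : Nonempty ((Pr.add X Y h1 h2).C ≃ₗ[A] (X.C × Y.C)) :=
  ⟨smq X.f Y.f⟩

private theorem ex_prod_right (Z : Pr k A) (M M' : Type) [AddCommGroup M] [Module A M] [Module k M]
    [IsScalarTower k A M] [Module.Finite k M] [AddCommGroup M'] [Module A M'] [Module k M']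
    [IsScalarTower k A M'] [Module.Finite k M'] :
    ex k Z.f (M × M') = ex k Z.f M + ex k Z.f M' := by
  have i1 := finite_hom (k := k) (A := A) (P := Z.P) (X := M)
  have i2 := finite_hom (k := k) (A := A) (P := Z.P) (X := M')
  refine smex (pre k Z.f M) (pre k Z.f M') (pre k Z.f (M × M'))
    (LinearMap.prodEquiv k) (fun t => ?_) (fun s s' => ?_)
  · refine ⟨(LinearMap.fst A M M' ∘ₗ t, LinearMap.snd A M M' ∘ₗ t), ?_⟩
    rfl
  · exact ⟨LinearMap.prod s s', rfl⟩

private theorem ex_congr (Z : Pr k A) {M M' : Type} [AddCommGroup M] [Module A M] [Module k M]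
    [IsScalarTower k A M] [Module.Finite k M] [AddCommGroup M'] [Module A M'] [Module k M']
    [IsScalarTower k A M'] [Module.Finite k M'] (c : M ≃ₗ[A] M') :
    ex k Z.f M = ex k Z.f M' := by
  have h1 := ex_mono Z c.toLinearMap c.surjective
  have h2 := ex_mono Z c.symm.toLinearMap c.symm.surjective
  exact le_antisymm h2 h1

theorem ee_add_left (Z : Pr k A) : ee (Pr.add X Y h1 h2) Z = ee X Z + ee Y Z := by
  exact ex_add h1 h2 Z.C

theorem ee_add_right (Z : Pr k A) : ee Z (Pr.add X Y h1 h2) = ee Z X + ee Z Y := by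
  obtain ⟨c⟩ := C_add h1 h2
  have e1 := ex_congr Z c
  exact e1.trans (ex_prod_right Z X.C Y.C)

private def smPP (e : Fin n → A) (a b : Fin n → ℕ) : (PP e a × PP e b) ≃ₗ[A] PP e (a + b) where
  toFun p := fun z => Fin.addCases (motive := fun _ => Pe (e z.1)) (fun j => p.1 ⟨z.1, j⟩)
    (fun j => p.2 ⟨z.1, j⟩) z.2
  map_add' p q := by
    funext z
    obtain ⟨i, j⟩ := z
    change Fin (a i + b i) at j
    induction j using Fin.addCases with
    | left j => simp
    | right j => simp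
  map_smul' c p := by
    funext z
    obtain ⟨i, j⟩ := z
    change Fin (a i + b i) at j
    induction j using Fin.addCases with
    | left j => simp
    | right j => simp
  invFun r := (fun z => r ⟨z.1, Fin.castAdd _ z.2⟩, fun z => r ⟨z.1, Fin.natAdd _ z.2⟩)
  left_inv p := by
    refine Prod.ext ?_ ?_
    · funext z
      simp
    · funext z
      simp
  right_inv r := by
    funext z
    obtain ⟨i, j⟩ := z
    change Fin (a i + b i) at j
    induction j using Fin.addCases with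
    | left j => simp
    | right j => simp

theorem Std.add (hX : Std e X) (hY : Std e Y) : Std e (Pr.add X Y h1 h2) := by
  obtain ⟨a, b, ⟨u⟩, ⟨v⟩⟩ := hX
  obtain ⟨a', b', ⟨u'⟩, ⟨v'⟩⟩ := hY
  exact ⟨a + a', b + b', ⟨(LinearEquiv.prodCongr u u').trans (smPP e a a')⟩,
    ⟨(LinearEquiv.prodCongr v v').trans (smPP e b b')⟩⟩

end pres

section cmp

variable {x y w : Fin n → ℤ}

theorem Cmp.symm (h : Cmp k e x y) : Cmp k e y x := by
  intro M _ _ _ _ _
  exact ⟨(h M).2, (h M).1⟩

theorem Cmp.self (x : Fin n → ℤ) : Cmp k e x x := by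
  intro M _ _ _ _ _
  exact ⟨Tt.tb, Tt.tb⟩

theorem Cmp.zero (hC : Crd k e) (x : Fin n → ℤ) : Cmp k e x 0 := by
  intro M _ _ _ _ _
  refine ⟨fun _ N => (vd_zero (M ⧸ N)).ge, fun h => ?_⟩
  have h1 : Subsingleton M := by
    rw [← Submodule.subsingleton_iff A]
    rw [← subsingleton_iff_bot_eq_top]
    by_contra hne
    have h2 := h ⊥ hne
    rw [vd_zero] at h2
    exact lt_irrefl _ h2
  exact Tb.of_subsingleton

private theorem sm_simple (hC : Crd k e) {S : FM k A} {i : Fin n}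
    (hS : ∀ j, ed k (e j) S.X = if j = i then 1 else 0) (U : Submodule A S.X) : U = ⊥ ∨ U = ⊤ := by
  have iU := finite_sub (k := k) U
  have iQ : Module.Finite k (S.X ⧸ U) := finite_quot U
  have h1 : ∀ j, ed k (e j) S.X = ed k (e j) U + ed k (e j) (S.X ⧸ U) := fun j =>
    ed_ses (hC.idem j) U.subtype U.mkQ Subtype.val_injective U.mkQ_surjective
      (by rw [Submodule.range_subtype, Submodule.ker_mkQ])
  have h2 : ∀ j, j ≠ i → ed k (e j) U = 0 ∧ ed k (e j) (S.X ⧸ U) = 0 := by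
    intro j hj
    have h3 := h1 j
    rw [hS j, if_neg hj] at h3
    omega
  have h3 := h1 i
  rw [hS i, if_pos rfl] at h3
  by_cases h4 : ed k (e i) U = 0
  · left
    have h5 : Subsingleton U := hC.zero U fun j => by
      by_cases hj : j = i
      · rw [hj]
        exact h4
      · exact (h2 j hj).1
    exact (Submodule.subsingleton_iff_eq_bot).1 h5
  · right
    have h5 : Subsingleton (S.X ⧸ U) := hC.zero _ fun j => by
      by_cases hj : j = i
      · rw [hj]
        omega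
      · exact (h2 j hj).2
    exact Submodule.Quotient.subsingleton_iff.1 h5

private theorem sm_vd {S : FM k A} {i : Fin n}
    (hS : ∀ j, ed k (e j) S.X = if j = i then 1 else 0) (x : Fin n → ℤ) : vd k e x S.X = x i := by
  unfold vd
  rw [Finset.sum_eq_single i]
  · rw [hS i, if_pos rfl]
    simp
  · intro j _ hj
    rw [hS j, if_neg hj]
    simp
  · intro h
    exact absurd (Finset.mem_univ i) h

private theorem sm_Tt (hC : Crd k e) {S : FM k A} {i : Fin n}
    (hS : ∀ j, ed k (e j) S.X = if j = i then 1 else 0) (x : Fin n → ℤ) (hx : 0 < x i) :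
    Tt k e x S.X := by
  intro N hN
  rcases sm_simple hC hS N with h | h
  · have h1 := vd_quot hC x N
    rw [sm_vd hS] at h1
    have h2 : vd k e x N = 0 := by
      subst h
      exact vd_of_subsingleton _ x
    omega
  · exact absurd h hN

theorem Cmp.coh (hC : Crd k e) (h : Cmp k e x y) (i : Fin n) : 0 ≤ x i * y i := by
  obtain ⟨S, hS⟩ := hC.simple i
  rcases lt_trichotomy (x i) 0 with hx | hx | hx
  · rcases le_or_gt (y i) 0 with hy | hy
    · exact mul_nonneg_of_nonpos_of_nonpos hx.le hy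
    · have h1 := ((h S.X).2 (sm_Tt hC hS y hy)).val
      rw [sm_vd hS] at h1
      omega
  · rw [hx, zero_mul]
  · have h1 := ((h S.X).1 (sm_Tt hC hS x hx)).val
    rw [sm_vd hS] at h1
    exact mul_nonneg hx.le h1

theorem Cmp.EE (hC : Crd k e) {X Y : Pr k A} (hX : HW e X x) (hY : HW e Y y)
    (h : Cmp k e x y) : EE X.f Y.f ∧ EE Y.f X.f := by
  obtain ⟨h1, h2⟩ := (cmp_iff hC hX hY).1 h
  exact ⟨(EE_iff X Y).2 h1, (EE_iff Y X).2 h2⟩

variable (M : Type) [AddCommGroup M] [Module A M] [Module k M] [IsScalarTower k A M]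
  [Module.Finite k M]

theorem Cmp.Tb_add (hC : Crd k e) (hR : RR k A) (h : Cmp k e x y) :
    Tb k e (x + y) M ↔ Tb k e x M ∧ Tb k e y M := by
  obtain ⟨X, hX, -⟩ := exists_pr hC hR x
  obtain ⟨Y, hY, -⟩ := exists_pr hC hR y
  obtain ⟨h1, h2⟩ := Cmp.EE hC hX hY h
  rw [← E0_iff hC (HW.add h1 h2 hX hY), ← E0_iff hC hX, ← E0_iff hC hY, E0_add]

theorem Cmp.Fb_add (hC : Crd k e) (hR : RR k A) (h : Cmp k e x y) :
    Fb k e (x + y) M ↔ Fb k e x M ∧ Fb k e y M := by
  obtain ⟨X, hX, -⟩ := exists_pr hC hR x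
  obtain ⟨Y, hY, -⟩ := exists_pr hC hR y
  obtain ⟨h1, h2⟩ := Cmp.EE hC hX hY h
  rw [← H0_iff hC (HW.add h1 h2 hX hY), ← H0_iff hC hX, ← H0_iff hC hY, H0_add]

theorem Cmp.Ws_add (hC : Crd k e) (hR : RR k A) (h : Cmp k e x y) :
    Ws k e (x + y) M ↔ Ws k e x M ∧ Ws k e y M := by
  unfold Ws
  rw [Cmp.Tb_add M hC hR h, Cmp.Fb_add M hC hR h]
  tauto

theorem Cmp.add_iff (hC : Crd k e) (hR : RR k A) (h : Cmp k e x y) :
    Cmp k e (x + y) w ↔ Cmp k e x w ∧ Cmp k e y w := by
  obtain ⟨X, hX, -⟩ := exists_pr hC hR x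
  obtain ⟨Y, hY, -⟩ := exists_pr hC hR y
  obtain ⟨W, hW, -⟩ := exists_pr hC hR w
  obtain ⟨h1, h2⟩ := Cmp.EE hC hX hY h
  rw [cmp_iff hC (HW.add h1 h2 hX hY) hW, cmp_iff hC hX hW, cmp_iff hC hY hW,
    ee_add_left, ee_add_right]
  omega

theorem Cmp.nsmul (hC : Crd k e) (hR : RR k A) (h : Cmp k e x y) (m : ℕ) :
    Cmp k e (m • x) y := by
  have key : ∀ m : ℕ, ∀ y, Cmp k e x y → Cmp k e (m • x) y := by
    intro m
    induction m with
    | zero =>
      intro y _
      rw [zero_smul]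
      exact (Cmp.zero hC y).symm
    | succ m ih =>
      intro y hy
      rw [succ_nsmul]
      exact (Cmp.add_iff hC hR (ih x (Cmp.self x))).2 ⟨ih y hy, hy⟩
  exact key m y h

end cmp

end BT3
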