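import Mathlib
import Pool.Agent.BT3.Sm

/-!
BT3.Cm: the star of a weight, and the chambers next to a weight.  `1` is the constant weight.

* `star`.  Let `X` be a presentation of weight `z`, `C = X.C`, `N` its Nakayama module,
  `c = ∑ |w i|`, and let `N0 = c * (dim C + dim N)`.  Let `m ≥ N0`.
  (a) `Tt z M → Tb (m z + w) M`: `M` is a quotient of `C ^ r` (`gen`), so `M = C` suffices; a quotient `D ≠ 0`
  of `C` has `z(D) ≥ 1` and `|w(D)| ≤ c dim D ≤ c dim C` (`vd_abs_le`).
  (b) `Tt (m z + w) M → Tb z M`: `Tb z M` iff `ex f M = 0` iff `Hom(M, N) = 0`.  If `g : M → N` is nonzero, its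
  range `U ≠ ⊥` has `z(U) ≤ -1`, so `(m z + w)(U) ≤ - m + c dim N ≤ 0`, but `U` is a nonzero quotient of `M`.
* `plus`.  `N0` from `star` for `w = 1`; let `m ≥ N0 + 1`, `c' = m z + 1 = ((m-1) z + 1) + z`, the two
  summands are compatible.
  `Tb z M → Tt c' M`: a quotient `D ≠ 0` has `z(D) ≥ 0` and `1(D) > 0` (`vd_one_pos`).
  `Tb c' M → Tb z M`: `Cmp.Tb_add`.  So `Tt c'`, `Tb z`, `Tb c'` coincide.
  `Ff z M → Fb c' M`: otherwise there is `0 ≠ U ≤ M` with `Tt c' U` (`exists_Tt_sub`), so `Tb z U`,
  `z(U) ≥ 0`, contradiction.  `Fb c' M → Ff z M`: otherwise let `0 ≠ U ≤ M` with `z(U) ≥ 0` be of minimal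
  dimension; all nonzero proper submodules `V` of `U` have `z(V) < 0`, so the quotients of `U` have
  `z ≥ 0`, `Tb z U`, so `Tt c' U` and `c'(U) > 0`, contradiction.
* `minus`.  `N0` from `star` for `w = -1`; `m ≥ N0 + 1`, `c' = m z - 1 = ((m-1) z - 1) + z`.
  `Fb z M → Ff c' M`: a submodule `U ≠ 0` has `m z(U) - 1(U) < 0`.  `Fb c' M → Fb z M`: `Cmp.Fb_add`.  So
  `Ff c'`, `Fb c'`, `Fb z` coincide.
  `Tb c' M → Tt z M` by `Tt_of`: if `D = M ⧸ N` satisfies `Fb z D` then `Ff c' D`, and `Tb c' D`
  (`Tb.of_surj`), so `D = 0`.  `Tt z M → Tt c' M` by `Tt_of`: `Fb c' D → Fb z D`, `Tt z D`, so `D = 0`.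
* `cham`: if `Ws z M → M = 0` then `Tb z M → Tt z M`: the torsion submodule `t` for `z` has
  `Ws z (M ⧸ t)`, so `t = ⊤`.  Then `Tt y M → Tb z M → Tt z M → Tb y' M`, and symmetrically.
-/

namespace BT3

open Module Function BT

variable {k A : Type} [Field k] [Ring A] [Algebra k A] {n : ℕ} {e : Fin n → A}
  [Module.Finite k A]

omit [Module.Finite k A] in
private theorem cm_sub_quot_top (x : Fin n → ℤ) (M : Type) [AddCommGroup M] [Module A M] [Module k M]
    [IsScalarTower k A M] : vd k e x (M ⧸ (⊤ : Submodule A M)) = 0 := by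
  have : Subsingleton (M ⧸ (⊤ : Submodule A M)) := Submodule.Quotient.subsingleton_iff.2 rfl
  exact vd_of_subsingleton _ _

omit [Module.Finite k A] in
private theorem cm_dim_quot {M : Type} [AddCommGroup M] [Module A M] [Module k M]
    [IsScalarTower k A M] [Module.Finite k M] (D : Submodule A M) :
    finrank k (M ⧸ D) ≤ finrank k M := by
  have h := dim_ses (k := k) D.subtype D.mkQ Subtype.val_injective
    (Submodule.mkQ_surjective D) (by rw [Submodule.range_subtype, Submodule.ker_mkQ])
  omega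

omit [Module.Finite k A] in
private theorem cm_frk_lt {M : Type} [AddCommGroup M] [Module A M] [Module k M]
    [IsScalarTower k A M] [Module.Finite k M] {U V : Submodule A M} (h : U < V) :
    finrank k U < finrank k V :=
  Submodule.finrank_lt_finrank_of_lt (s := U.restrictScalars k) (t := V.restrictScalars k) h

theorem star (hC : Crd k e) (hR : RR k A) (z w : Fin n → ℤ) :
    ∃ N0 : ℕ, ∀ N ≥ N0, Cmp k e z (N • z + w) := by
  obtain ⟨X, hX, _⟩ := exists_pr hC hR z
  obtain ⟨K, hK1, hK2⟩ := exists_nak hC hX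
  refine ⟨((∑ i, |w i|) * ((finrank k X.C : ℤ) + (finrank k K.X : ℤ))).toNat, fun m hm => ?_⟩
  have hm' : (∑ i, |w i|) * ((finrank k X.C : ℤ) + (finrank k K.X : ℤ)) ≤ m :=
    Int.toNat_le.1 hm
  have hc : 0 ≤ ∑ i, |w i| := Finset.sum_nonneg fun i _ => abs_nonneg _
  have hA : 0 ≤ (∑ i, |w i|) * (finrank k X.C : ℤ) := mul_nonneg hc (Int.natCast_nonneg _)
  have hB : 0 ≤ (∑ i, |w i|) * (finrank k K.X : ℤ) := mul_nonneg hc (Int.natCast_nonneg _)
  rw [mul_add] at hm'
  have hm0 : (0 : ℤ) ≤ m := Int.natCast_nonneg _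
  intro M _ _ _ _ _
  constructor
  · intro h
    obtain ⟨r, H, hH⟩ := gen hC hX h
    have h1 : Tb k e (m • z + w) X.C := by
      intro D
      rcases eq_or_ne D ⊤ with rfl | hD
      · rw [cm_sub_quot_top]
      · have h2 : 0 < vd k e z (X.C ⧸ D) := C_Tt hC hX D hD
        rw [vd_add, vd_nsmul]
        have h3 := (abs_le.1 (vd_abs_le (k := k) (e := e) (X.C ⧸ D) w)).1
        have h4 : (finrank k (X.C ⧸ D) : ℤ) ≤ (finrank k X.C : ℤ) := by
          exact_mod_cast cm_dim_quot (k := k) D
        have h5 := mul_le_mul_of_nonneg_left h4 hc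
        have h7 : (m : ℤ) * 1 ≤ m * vd k e z (X.C ⧸ D) :=
          mul_le_mul_of_nonneg_left (by omega) hm0
        linarith
    exact Tb.of_surj hC (Tb.pi hC h1 r) H hH
  · intro h
    rw [← E0_iff hC hX, E0_iff_ex, ← hK2 M, hd]
    have hz : ∀ g : M →ₗ[A] K.X, g = 0 := by
      intro g
      by_contra hg
      have h1 : LinearMap.range g ≠ ⊥ := fun h6 => hg (LinearMap.range_eq_bot.1 h6)
      have h2 : LinearMap.ker g ≠ ⊤ := fun h6 => hg (LinearMap.ker_eq_top.1 h6)
      have h3 : vd k e z (LinearMap.range g) < 0 := hK1 _ h1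
      have h4 := h _ h2
      rw [vd_congr _ g.quotKerEquivRange, vd_add, vd_nsmul] at h4
      have _ := finite_sub (k := k) (LinearMap.range g)
      have h5 := (abs_le.1 (vd_abs_le (k := k) (e := e) (LinearMap.range g) w)).2
      have h6 : (finrank k (LinearMap.range g) : ℤ) ≤ (finrank k K.X : ℤ) := by
        exact_mod_cast Submodule.finrank_le ((LinearMap.range g).restrictScalars k)
      have h7 := mul_le_mul_of_nonneg_left h6 hc
      have h8 : (m : ℤ) * vd k e z (LinearMap.range g) ≤ m * (-1) :=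
        mul_le_mul_of_nonneg_left (by omega) hm0
      linarith
    have : Subsingleton (M →ₗ[A] K.X) := ⟨fun g g' => (hz g).trans (hz g').symm⟩
    exact Module.finrank_zero_of_subsingleton

theorem plus (hC : Crd k e) (hR : RR k A) (z : Fin n → ℤ) :
    ∃ N0 : ℕ, ∀ N ≥ N0, Cmp k e z (N • z + 1) ∧
      ∀ (M : Type) [AddCommGroup M] [Module A M] [Module k M] [IsScalarTower k A M]
        [Module.Finite k M], (Tt k e (N • z + 1) M ↔ Tb k e z M) ∧
        (Tb k e (N • z + 1) M ↔ Tb k e z M) ∧ (Fb k e (N • z + 1) M ↔ Ff k e z M) := by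
  obtain ⟨N0, hN⟩ := star hC hR z 1
  refine ⟨N0 + 1, fun N hN1 => ⟨hN N (by omega), ?_⟩⟩
  obtain ⟨p, rfl⟩ : ∃ p, N = p + 1 := ⟨N - 1, by omega⟩
  have hcmp : Cmp k e (p • z + 1) z := (hN p (by omega)).symm
  have hz : (p + 1) • z + 1 = (p • z + 1) + z := by
    rw [add_smul, one_smul]
    abel
  intro M _ _ _ _ _
  have e1 : ∀ (M : Type) [AddCommGroup M] [Module A M] [Module k M] [IsScalarTower k A M]
      [Module.Finite k M], Tb k e z M → Tt k e ((p + 1) • z + 1) M := by
    intro M _ _ _ _ _ h D hD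
    have : Nontrivial (M ⧸ D) := Submodule.Quotient.nontrivial_iff.mpr hD
    have h1 := h D
    have h2 : 0 < vd k e 1 (M ⧸ D) := vd_one_pos (k := k) (e := e) (M ⧸ D) hC
    rw [vd_add, vd_nsmul]
    have h3 : 0 ≤ ((p + 1 : ℕ) : ℤ) * vd k e z (M ⧸ D) := mul_nonneg (Int.natCast_nonneg _) h1
    linarith
  have e2 : ∀ (M : Type) [AddCommGroup M] [Module A M] [Module k M] [IsScalarTower k A M]
      [Module.Finite k M], Tb k e ((p + 1) • z + 1) M → Tb k e z M := by
    intro M _ _ _ _ _ h
    rw [hz] at h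
    exact ((Cmp.Tb_add M hC hR hcmp).1 h).2
  refine ⟨⟨fun h => e2 M h.tb, e1 M⟩, ⟨e2 M, fun h => (e1 M h).tb⟩, ?_, ?_⟩
  · intro h U hU
    have _ := finite_sub (k := k) U
    have key : ∀ d : ℕ, ∀ U : Submodule A M, finrank k U = d → U ≠ ⊥ → vd k e z U < 0 := by
      intro d
      induction d using Nat.strong_induction_on with
      | _ d ih =>
        intro U hd hU
        by_contra hcon
        push Not at hcon
        have _ := finite_sub (k := k) U
        have hTb : Tb k e z U := by
          intro V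
          have _ := finite_sub (k := k) V
          have h1 := vd_quot hC z V
          rcases eq_or_ne V ⊥ with rfl | hV
          · have h2 : vd k e z (⊥ : Submodule A U) = 0 := vd_of_subsingleton _ _
            omega
          · rcases eq_or_ne V ⊤ with rfl | hV'
            · rw [cm_sub_quot_top]
            · have h2 : V.map U.subtype < U := by
                refine lt_of_le_of_ne (Submodule.map_subtype_le U V) (fun h2 => hV' ?_)
                rw [eq_top_iff]
                intro u _
                have h3 : (u : M) ∈ V.map U.subtype := by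
                  rw [h2]
                  exact u.2
                obtain ⟨v, hv, hvu⟩ := Submodule.mem_map.1 h3
                rwa [← Subtype.ext hvu]
              have h3 : V.map U.subtype ≠ ⊥ := by
                intro h3
                apply hV
                rw [Submodule.eq_bot_iff]
                intro v hv
                have h4 : (v : M) ∈ V.map U.subtype := Submodule.mem_map.2 ⟨v, hv, rfl⟩
                rw [h3, Submodule.mem_bot] at h4
                exact Subtype.ext h4
              have h4 := ih _ (by rw [← hd]; exact cm_frk_lt (k := k) h2) _ rfl h3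
              have h5 : vd k e z (V.map U.subtype) = vd k e z V :=
                (vd_congr z (Submodule.equivMapOfInjective U.subtype Subtype.val_injective V)).symm
              omega
        have _ : Nontrivial U := Submodule.nontrivial_iff_ne_bot.mpr hU
        have h1 := (e1 U hTb).val
        have h2 := h U
        omega
    exact key _ U rfl hU
  · intro h
    by_contra hcon
    obtain ⟨U, hU, hT⟩ := exists_Tt_sub hC hcon
    have _ := finite_sub (k := k) U
    have h1 := (e2 U hT.tb).val
    have h2 := h U hU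
    omega

theorem minus (hC : Crd k e) (hR : RR k A) (z : Fin n → ℤ) :
    ∃ N0 : ℕ, ∀ N ≥ N0, Cmp k e z (N • z - 1) ∧
      ∀ (M : Type) [AddCommGroup M] [Module A M] [Module k M] [IsScalarTower k A M]
        [Module.Finite k M], (Tt k e (N • z - 1) M ↔ Tt k e z M) ∧
        (Tb k e (N • z - 1) M ↔ Tt k e z M) ∧ (Fb k e (N • z - 1) M ↔ Fb k e z M) := by
  obtain ⟨N0, hN⟩ := star hC hR z (-1)
  refine ⟨N0 + 1, fun N hN1 => ⟨by
    have h := hN N (by omega)
    rwa [← sub_eq_add_neg] at h, ?_⟩⟩
  obtain ⟨p, rfl⟩ : ∃ p, N = p + 1 := ⟨N - 1, by omega⟩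
  have hcmp : Cmp k e (p • z + -1) z := (hN p (by omega)).symm
  have hz : (p + 1) • z - 1 = (p • z + -1) + z := by
    rw [add_smul, one_smul]
    abel
  have e1 : ∀ (M : Type) [AddCommGroup M] [Module A M] [Module k M] [IsScalarTower k A M]
      [Module.Finite k M], Fb k e z M → Ff k e ((p + 1) • z - 1) M := by
    intro M _ _ _ _ _ h U hU
    have _ : Nontrivial U := Submodule.nontrivial_iff_ne_bot.mpr hU
    have _ := finite_sub (k := k) U
    have h1 := h U
    have h2 : 0 < vd k e 1 U := vd_one_pos (k := k) (e := e) U hC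
    rw [vd_sub, vd_nsmul]
    have h3 : ((p + 1 : ℕ) : ℤ) * vd k e z U ≤ 0 :=
      mul_nonpos_of_nonneg_of_nonpos (Int.natCast_nonneg _) h1
    linarith
  have e2 : ∀ (M : Type) [AddCommGroup M] [Module A M] [Module k M] [IsScalarTower k A M]
      [Module.Finite k M], Fb k e ((p + 1) • z - 1) M → Fb k e z M := by
    intro M _ _ _ _ _ h
    rw [hz] at h
    exact ((Cmp.Fb_add M hC hR hcmp).1 h).2
  have e3 : ∀ (M : Type) [AddCommGroup M] [Module A M] [Module k M] [IsScalarTower k A M]
      [Module.Finite k M], Tb k e ((p + 1) • z - 1) M → Tt k e z M := by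
    intro M _ _ _ _ _ h
    refine Tt_of hC fun D hD => ?_
    have h1 := e1 (M ⧸ D) hD
    have h2 := Tb.of_surj hC h D.mkQ (Submodule.mkQ_surjective D)
    have h3 := hom_zero' hC h2 h1 LinearMap.id
    rw [← Submodule.Quotient.subsingleton_iff]
    exact ⟨fun a b => by
      have ha := LinearMap.congr_fun h3 a
      have hb := LinearMap.congr_fun h3 b
      rw [LinearMap.id_apply, LinearMap.zero_apply] at ha hb
      rw [ha, hb]⟩
  have e4 : ∀ (M : Type) [AddCommGroup M] [Module A M] [Module k M] [IsScalarTower k A M]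
      [Module.Finite k M], Tt k e z M → Tt k e ((p + 1) • z - 1) M := by
    intro M _ _ _ _ _ h
    refine Tt_of hC fun D hD => ?_
    have h1 := e2 (M ⧸ D) hD
    have h2 := Tt.of_surj hC h D.mkQ (Submodule.mkQ_surjective D)
    have h3 := hom_zero hC h2 h1 LinearMap.id
    rw [← Submodule.Quotient.subsingleton_iff]
    exact ⟨fun a b => by
      have ha := LinearMap.congr_fun h3 a
      have hb := LinearMap.congr_fun h3 b
      rw [LinearMap.id_apply, LinearMap.zero_apply] at ha hb
      rw [ha, hb]⟩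
  intro M _ _ _ _ _
  exact ⟨⟨fun h => e3 M h.tb, e4 M⟩, ⟨e3 M, fun h => (e4 M h).tb⟩, ⟨e2 M, fun h => (e1 M h).fb⟩⟩

theorem cham (hC : Crd k e) {z y y' : Fin n → ℤ}
    (hz : ∀ (M : Type) [AddCommGroup M] [Module A M] [Module k M] [IsScalarTower k A M]
      [Module.Finite k M], Ws k e z M → Subsingleton M)
    (h : Cmp k e y z) (h' : Cmp k e y' z) : Cmp k e y y' := by
  have e1 : ∀ (M : Type) [AddCommGroup M] [Module A M] [Module k M] [IsScalarTower k A M]
      [Module.Finite k M], Tb k e z M → Tt k e z M := by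
    intro M _ _ _ _ _ h1
    refine Tt_of hC fun D hD => ?_
    have h2 := Tb.of_surj hC h1 D.mkQ (Submodule.mkQ_surjective D)
    rw [← Submodule.Quotient.subsingleton_iff]
    exact hz _ ⟨h2, hD⟩
  intro M _ _ _ _ _
  exact ⟨fun h1 => (h' M).2 (e1 M ((h M).1 h1)), fun h1 => (h M).2 (e1 M ((h' M).1 h1))⟩

end BT3
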