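import Mathlib
import Pool.Agent.BT3.Bridge

/-!
BT3.Mph: calculus of morphisms of presentations up to homotopy.

* `Mp.ext'`, `comp_assoc` etc.: by components.
* `Hmt.comp_left`: from `φ.a = ψ.a + h f_X`, `φ.b = ψ.b + f_Y h` use the homotopy `χ.a ∘ h`
  (`χ.b f_Y h = f_Z χ.a h`).  `comp_right`: `h ∘ χ.b`.  `add`: sum of homotopies.
* `cok`: `φ.b` maps `range f_X` to `range f_Y`.  Homotopic maps differ by `f_Y h` on `Q`, so they are
  equal on cokernels.
* `exists_cok`: lift `ρ ∘ mkQ : Q_X → C_Y` to `b : Q_X → Q_Y` (`Q_X` projective); `b ∘ f_X` has values in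
  `range f_Y`; lift it through `P_Y → range f_Y` to `a` (`P_X` projective); compare `BT.exists_lift_end`.
* `HtEq.hw`: `cok i` and `cok p` are inverse to each other, so `hd C_X M = hd C_Y M`; `φ ↦ (g ↦ g ∘ φ.a)`
  maps `Hom(P_Y, M) → Hom(P_X, M)`, compatible with the ranges of `pre`, and homotopic morphisms
  induce the same map on the quotients `EQ`; so `ex f_X M = ex f_Y M`; `Th = hd C - ex` (`hd_C` or its
  proof).
-/

namespace BT3

open Module Function BT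

variable {k A : Type} [Field k] [Ring A] [Algebra k A] {n : ℕ} {e : Fin n → A}

section calc'

variable {X Y Z W : Pr k A}

theorem Mp.ext' {φ ψ : Mp X Y} (ha : ∀ x, φ.a x = ψ.a x) (hb : ∀ y, φ.b y = ψ.b y) : φ = ψ := by
  cases φ with
  | mk a b c =>
    cases ψ with
    | mk a' b' c' =>
      have h1 : a = a' := LinearMap.ext ha
      have h2 : b = b' := LinearMap.ext hb
      subst h1 h2
      rfl

theorem Mp.comp_assoc (χ : Mp Z W) (ψ : Mp Y Z) (φ : Mp X Y) :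
    (χ.comp ψ).comp φ = χ.comp (ψ.comp φ) := by
  exact Mp.ext' (fun _ => rfl) (fun _ => rfl)

theorem Mp.id_comp (φ : Mp X Y) : (Mp.id Y).comp φ = φ := by
  exact Mp.ext' (fun _ => rfl) (fun _ => rfl)

theorem Mp.comp_id (φ : Mp X Y) : φ.comp (Mp.id X) = φ := by
  exact Mp.ext' (fun _ => rfl) (fun _ => rfl)

theorem Mp.comp_zero (φ : Mp Y Z) : φ.comp (Mp.zero X Y) = Mp.zero X Z := by
  exact Mp.ext' (fun _ => map_zero φ.a) (fun _ => map_zero φ.b)

theorem Mp.zero_comp (φ : Mp X Y) : (Mp.zero Y Z).comp φ = Mp.zero X Z := by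
  exact Mp.ext' (fun _ => rfl) (fun _ => rfl)

/-- the sum -/
def Mp.add (φ ψ : Mp X Y) : Mp X Y where
  a := φ.a + ψ.a
  b := φ.b + ψ.b
  comm x := by
    change φ.b (X.f x) + ψ.b (X.f x) = Y.f (φ.a x + ψ.a x)
    rw [φ.comm, ψ.comm, map_add]

/-- the opposite -/
def Mp.neg (φ : Mp X Y) : Mp X Y where
  a := -φ.a
  b := -φ.b
  comm x := by
    change -(φ.b (X.f x)) = Y.f (-(φ.a x))
    rw [φ.comm, map_neg]

theorem Mp.comp_add (χ : Mp Y Z) (φ ψ : Mp X Y) :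
    χ.comp (φ.add ψ) = (χ.comp φ).add (χ.comp ψ) := by
  exact Mp.ext' (fun x => map_add χ.a (φ.a x) (ψ.a x)) (fun y => map_add χ.b (φ.b y) (ψ.b y))

theorem Mp.add_comp (χ : Mp X Y) (φ ψ : Mp Y Z) :
    (φ.add ψ).comp χ = (φ.comp χ).add (ψ.comp χ) := by
  exact Mp.ext' (fun _ => rfl) (fun _ => rfl)

theorem Hmt.refl (φ : Mp X Y) : Hmt φ φ := by
  exact ⟨0, fun x => (add_zero (φ.a x)).symm, fun y => by
    change φ.b y = φ.b y + Y.f 0
    rw [map_zero, add_zero]⟩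

theorem Hmt.symm {φ ψ : Mp X Y} (h : Hmt φ ψ) : Hmt ψ φ := by
  obtain ⟨h, h1, h2⟩ := h
  refine ⟨-h, fun x => ?_, fun y => ?_⟩
  · change ψ.a x = φ.a x + -(h (X.f x))
    rw [h1]
    abel
  · change ψ.b y = φ.b y + Y.f (-(h y))
    rw [h2, map_neg]
    abel

theorem Hmt.trans {φ ψ χ : Mp X Y} (h : Hmt φ ψ) (h' : Hmt ψ χ) : Hmt φ χ := by
  obtain ⟨h, h1, h2⟩ := h
  obtain ⟨h', h1', h2'⟩ := h'
  refine ⟨h + h', fun x => ?_, fun y => ?_⟩
  · change φ.a x = χ.a x + (h (X.f x) + h' (X.f x))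
    rw [h1, h1']
    abel
  · change φ.b y = χ.b y + Y.f (h y + h' y)
    rw [h2, h2', map_add]
    abel

theorem Hmt.add {φ ψ φ' ψ' : Mp X Y} (h : Hmt φ ψ) (h' : Hmt φ' ψ') :
    Hmt (φ.add φ') (ψ.add ψ') := by
  obtain ⟨h, h1, h2⟩ := h
  obtain ⟨h', h1', h2'⟩ := h'
  refine ⟨h + h', fun x => ?_, fun y => ?_⟩
  · change φ.a x + φ'.a x = (ψ.a x + ψ'.a x) + (h (X.f x) + h' (X.f x))
    rw [h1, h1']
    abel
  · change φ.b y + φ'.b y = (ψ.b y + ψ'.b y) + Y.f (h y + h' y)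
    rw [h2, h2', map_add]
    abel

theorem Hmt.neg {φ ψ : Mp X Y} (h : Hmt φ ψ) : Hmt φ.neg ψ.neg := by
  obtain ⟨h, h1, h2⟩ := h
  refine ⟨-h, fun x => ?_, fun y => ?_⟩
  · change -(φ.a x) = -(ψ.a x) + -(h (X.f x))
    rw [h1]
    abel
  · change -(φ.b y) = -(ψ.b y) + Y.f (-(h y))
    rw [h2, map_neg]
    abel

theorem Hmt.comp_left {φ ψ : Mp X Y} (h : Hmt φ ψ) (χ : Mp Y Z) :
    Hmt (χ.comp φ) (χ.comp ψ) := by
  obtain ⟨h, h1, h2⟩ := h
  refine ⟨χ.a ∘ₗ h, fun x => ?_, fun y => ?_⟩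
  · change χ.a (φ.a x) = χ.a (ψ.a x) + χ.a (h (X.f x))
    rw [h1, map_add]
  · change χ.b (φ.b y) = χ.b (ψ.b y) + Z.f (χ.a (h y))
    rw [h2, map_add, χ.comm]

theorem Hmt.comp_right {φ ψ : Mp Y Z} (h : Hmt φ ψ) (χ : Mp X Y) :
    Hmt (φ.comp χ) (ψ.comp χ) := by
  obtain ⟨h, h1, h2⟩ := h
  refine ⟨h ∘ₗ χ.b, fun x => ?_, fun y => ?_⟩
  · change φ.a (χ.a x) = ψ.a (χ.a x) + h (χ.b (X.f x))
    rw [h1, χ.comm]
  · change φ.b (χ.b y) = ψ.b (χ.b y) + Z.f (h (χ.b y))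
    rw [h2]

theorem HtRet.trans (h : HtRet X Y) (h' : HtRet Y Z) : HtRet X Z := by
  obtain ⟨i, p, h⟩ := h
  obtain ⟨i', p', h'⟩ := h'
  refine ⟨i'.comp i, p.comp p', ?_⟩
  have h1 := Hmt.comp_left (Hmt.comp_right h' i) p
  rw [Mp.id_comp, Mp.comp_assoc] at h1
  rw [Mp.comp_assoc]
  exact Hmt.trans h1 h

theorem HtEq.ret (h : HtEq X Y) : HtRet X Y := by
  obtain ⟨i, p, h, _⟩ := h
  exact ⟨i, p, h⟩

theorem HtEq.symm (h : HtEq X Y) : HtEq Y X := by
  obtain ⟨i, p, h, h'⟩ := h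
  exact ⟨p, i, h', h⟩

theorem HtEq.trans (h : HtEq X Y) (h' : HtEq Y Z) : HtEq X Z := by
  obtain ⟨i, p, h, g⟩ := h
  obtain ⟨i', p', h', g'⟩ := h'
  refine ⟨i'.comp i, p.comp p', ?_, ?_⟩
  · have h1 := Hmt.comp_left (Hmt.comp_right h' i) p
    rw [Mp.id_comp, Mp.comp_assoc] at h1
    rw [Mp.comp_assoc]
    exact Hmt.trans h1 h
  · have h1 := Hmt.comp_left (Hmt.comp_right g p') i'
    rw [Mp.id_comp, Mp.comp_assoc] at h1
    rw [Mp.comp_assoc]
    exact Hmt.trans h1 g'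

/-- the induced map on cokernels -/
def Mp.cok (φ : Mp X Y) : X.C →ₗ[A] Y.C :=
  Submodule.mapQ _ _ φ.b (by
    rintro _ ⟨x, rfl⟩
    exact ⟨φ.a x, (φ.comm x).symm⟩)

theorem Mp.cok_mk (φ : Mp X Y) (y : X.Q) :
    φ.cok ((LinearMap.range X.f).mkQ y) = (LinearMap.range Y.f).mkQ (φ.b y) := by
  rfl

theorem Mp.cok_id : (Mp.id X).cok = LinearMap.id := by
  refine LinearMap.ext (fun z => ?_)
  obtain ⟨y, rfl⟩ := Submodule.mkQ_surjective _ z
  rfl

theorem Mp.cok_zero : (Mp.zero X Y).cok = 0 := by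
  refine LinearMap.ext (fun z => ?_)
  obtain ⟨y, rfl⟩ := Submodule.mkQ_surjective _ z
  rw [Mp.cok_mk]
  change (LinearMap.range Y.f).mkQ 0 = 0
  rw [map_zero]

theorem Mp.cok_comp (ψ : Mp Y Z) (φ : Mp X Y) : (ψ.comp φ).cok = ψ.cok ∘ₗ φ.cok := by
  refine LinearMap.ext (fun z => ?_)
  obtain ⟨y, rfl⟩ := Submodule.mkQ_surjective _ z
  rfl

theorem Mp.cok_add (φ ψ : Mp X Y) : (φ.add ψ).cok = φ.cok + ψ.cok := by
  refine LinearMap.ext (fun z => ?_)
  obtain ⟨y, rfl⟩ := Submodule.mkQ_surjective _ z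
  rw [Mp.cok_mk, LinearMap.add_apply, Mp.cok_mk, Mp.cok_mk, ← map_add]
  rfl

theorem Mp.cok_pow (φ : Mp X X) (m : ℕ) : (φ.pow m).cok = φ.cok ^ m := by
  induction m with
  | zero =>
    refine LinearMap.ext (fun z => ?_)
    obtain ⟨y, rfl⟩ := Submodule.mkQ_surjective _ z
    rfl
  | succ m ih =>
    rw [pow_succ', ← ih]
    refine LinearMap.ext (fun z => ?_)
    obtain ⟨y, rfl⟩ := Submodule.mkQ_surjective _ z
    rw [Mp.cok_mk]
    change (LinearMap.range X.f).mkQ ((φ.b ^ (m + 1)) y) =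
      φ.cok ((φ.pow m).cok ((LinearMap.range X.f).mkQ y))
    rw [Mp.cok_mk, Mp.cok_mk, pow_succ']
    rfl

theorem Hmt.cok {φ ψ : Mp X Y} (h : Hmt φ ψ) : φ.cok = ψ.cok := by
  obtain ⟨h, _, h2⟩ := h
  refine LinearMap.ext (fun z => ?_)
  obtain ⟨y, rfl⟩ := Submodule.mkQ_surjective _ z
  rw [Mp.cok_mk, Mp.cok_mk, h2, map_add]
  have h3 : (LinearMap.range Y.f).mkQ (Y.f (h y)) = 0 :=
    (Submodule.Quotient.mk_eq_zero _).mpr (LinearMap.mem_range_self Y.f (h y))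
  rw [h3, add_zero]

theorem exists_cok (ρ : X.C →ₗ[A] Y.C) : ∃ φ : Mp X Y, φ.cok = ρ := by
  obtain ⟨b, hb⟩ := Module.projective_lifting_property (LinearMap.range Y.f).mkQ
    (ρ ∘ₗ (LinearMap.range X.f).mkQ) (Submodule.mkQ_surjective _)
  have h1 : ∀ x, (b ∘ₗ X.f) x ∈ LinearMap.range Y.f := by
    intro x
    have h2 := LinearMap.congr_fun hb (X.f x)
    change (LinearMap.range Y.f).mkQ (b (X.f x)) = ρ ((LinearMap.range X.f).mkQ (X.f x)) at h2
    have h3 : (LinearMap.range X.f).mkQ (X.f x) = 0 :=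
      (Submodule.Quotient.mk_eq_zero _).mpr (LinearMap.mem_range_self X.f x)
    rw [h3, map_zero] at h2
    exact (Submodule.Quotient.mk_eq_zero _).mp h2
  obtain ⟨a, ha⟩ := Module.projective_lifting_property Y.f.rangeRestrict
    ((b ∘ₗ X.f).codRestrict _ h1) Y.f.surjective_rangeRestrict
  refine ⟨⟨a, b, fun x => (congrArg Subtype.val (LinearMap.congr_fun ha x)).symm⟩, ?_⟩
  refine LinearMap.ext (fun z => ?_)
  obtain ⟨y, rfl⟩ := Submodule.mkQ_surjective _ z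
  rw [Mp.cok_mk]
  exact LinearMap.congr_fun hb y

end calc'

variable [Module.Finite k A]

/-- rank and nullity of `pre` -/
private theorem Th_eq (X : Pr k A) (M : Type) [AddCommGroup M] [Module A M] [Module k M]
    [IsScalarTower k A M] [Module.Finite k M] :
    Th k A X.P X.Q M = (hd k A X.C M : ℤ) - (ex k X.f M : ℤ) := by
  have _ := finite_hom (k := k) (A := A) (P := X.P) (X := M)
  have _ := finite_hom (k := k) (A := A) (P := X.Q) (X := M)
  have h1 := LinearMap.finrank_range_add_finrank_ker (pre k X.f M)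
  have h2 := Submodule.finrank_quotient_add_finrank (LinearMap.range (pre k X.f M))
  have h3 : LinearMap.ker (pre k X.f M) =
      LinearMap.range (pre k (LinearMap.range X.f).mkQ M) := by
    ext h
    rw [LinearMap.mem_ker, LinearMap.mem_range]
    constructor
    · intro hh
      exact exists_bar h hh
    · rintro ⟨g, rfl⟩
      change (g ∘ₗ (LinearMap.range X.f).mkQ) ∘ₗ X.f = 0
      rw [LinearMap.comp_assoc, mkQ_comp, LinearMap.comp_zero]
  have h4 : Injective (pre k (LinearMap.range X.f).mkQ M) := by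
    intro g g' h
    ext y
    exact LinearMap.congr_fun h y
  rw [h3, LinearMap.finrank_range_of_inj h4] at h1
  have h6 : hd k A X.C M = finrank k (X.C →ₗ[A] M) := rfl
  have h7 : ex k X.f M = finrank k ((X.P →ₗ[A] M) ⧸ LinearMap.range (pre k X.f M)) := rfl
  have h8 : hd k A X.P M = finrank k (X.P →ₗ[A] M) := rfl
  have h9 : hd k A X.Q M = finrank k (X.Q →ₗ[A] M) := rfl
  have h10 : finrank k (X.C →ₗ[A] M) =
    finrank k ((X.Q ⧸ LinearMap.range X.f) →ₗ[A] M) := rfl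
  rw [Th, h6, h7, h8, h9, h10]
  omega

/-- homotopy retracts: maps out of the cokernel -/
private theorem hd_le {X Y : Pr k A} (h : HtRet X Y) (M : Type) [AddCommGroup M] [Module A M]
    [Module k M] [IsScalarTower k A M] [Module.Finite k M] :
    hd k A X.C M ≤ hd k A Y.C M := by
  have _ := finite_hom (k := k) (A := A) (P := X.C) (X := M)
  have _ := finite_hom (k := k) (A := A) (P := Y.C) (X := M)
  obtain ⟨i, p, hh⟩ := h
  have h1 : p.cok ∘ₗ i.cok = LinearMap.id := by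
    rw [← Mp.cok_comp, hh.cok, Mp.cok_id]
  refine LinearMap.finrank_le_finrank_of_injective (f := pre k p.cok M) ?_
  intro g g' hg
  have h2 : (g ∘ₗ p.cok) ∘ₗ i.cok = (g' ∘ₗ p.cok) ∘ₗ i.cok := congrArg (· ∘ₗ i.cok) hg
  rw [LinearMap.comp_assoc, LinearMap.comp_assoc, h1, LinearMap.comp_id, LinearMap.comp_id] at h2
  exact h2

/-- homotopy retracts: obstruction spaces -/
private theorem ex_le {X Y : Pr k A} (h : HtRet X Y) (M : Type) [AddCommGroup M] [Module A M]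
    [Module k M] [IsScalarTower k A M] [Module.Finite k M] :
    ex k X.f M ≤ ex k Y.f M := by
  have _ := finite_hom (k := k) (A := A) (P := X.P) (X := M)
  have _ := finite_hom (k := k) (A := A) (P := Y.P) (X := M)
  obtain ⟨i, p, h, h1, h2⟩ := h
  have hp : LinearMap.range (pre k X.f M) ≤
      (LinearMap.range (pre k Y.f M)).comap (pre k p.a M) := by
    rintro _ ⟨ψ, rfl⟩
    refine ⟨ψ ∘ₗ p.b, ?_⟩
    ext x
    change ψ (p.b (Y.f x)) = ψ (X.f (p.a x))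
    rw [p.comm]
  refine LinearMap.finrank_le_finrank_of_injective
    (f := Submodule.mapQ (LinearMap.range (pre k X.f M)) (LinearMap.range (pre k Y.f M))
      (pre k p.a M) hp) ?_
  rw [← LinearMap.ker_eq_bot, Submodule.eq_bot_iff]
  intro z hz
  obtain ⟨g, rfl⟩ := Submodule.mkQ_surjective _ z
  rw [LinearMap.mem_ker, Submodule.mkQ_apply, Submodule.mapQ_apply,
    Submodule.Quotient.mk_eq_zero] at hz
  obtain ⟨ψ, hψ⟩ := hz
  rw [Submodule.mkQ_apply, Submodule.Quotient.mk_eq_zero]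
  refine ⟨ψ ∘ₗ i.b - g ∘ₗ h, ?_⟩
  ext x
  change ψ (i.b (X.f x)) - g (h (X.f x)) = g x
  have h3 := LinearMap.congr_fun hψ (i.a x)
  change ψ (Y.f (i.a x)) = g (p.a (i.a x)) at h3
  have h4 := h1 x
  change p.a (i.a x) = x + h (X.f x) at h4
  rw [i.comm, h3, h4, map_add]
  abel

theorem HtEq.hw {X Y : Pr k A} (h : HtEq X Y) {x : Fin n → ℤ} (hX : HW e X x) : HW e Y x := by
  intro M _ _ _ _ _
  have h1 := hX M
  have h2 := Th_eq X M
  have h3 := Th_eq Y M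
  have h4 := ex_le (k := k) (A := A) h.ret M
  have h5 := ex_le (k := k) (A := A) h.symm.ret M
  have h6 := hd_le (k := k) (A := A) h.ret M
  have h7 := hd_le (k := k) (A := A) h.symm.ret M
  omega

end BT3
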