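import Mathlib
import Pool.Agent.BT3.Mph
import Pool.Agent.BT3.Sm

/-!
BT3.Fit: Fitting decomposition of a presentation with respect to an endomorphism `φ = (a, b)`.

Proof.  By `BT.fitting` (for `P` and for `Q`) there is `m` with `P = ker a^m ⊕ range a^m`,
`Q = ker b^m ⊕ range b^m`.  Since `b f = f a`, `b^m f = f a^m` (`Mp.pow`), `f` maps `ker a^m` to `ker b^m` and
`range a^m` to `range b^m`.  Let `P0 = ker a^m`, `P1 = range a^m`, `Q0`, `Q1` the same for `b`, with the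
inclusions `i0, i1` and the projections `p0, p1` along the complement
(`Submodule.linearProjOfIsCompl` or `Submodule.IsCompl.projection`...), `f0`, `f1` the restrictions of `f`.
All modules are projective (`BT.projective_compl`) and finite dimensional.
`f0` is rigid: for `g : P0 → Q0`, `i0 g p0 = u f + f v`, and `g = p0 (i0 g p0) i0 = (p0 u i0) f0 + f0 (p0 v i0)`
because `f i0 = i0 f0` and `p0 f = f0 p0`.  In the same way `f1` is rigid and `EE f0 f1`, `EE f1 f0`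
(`g : P0 → Q1`: `i1 g p0 = u f + f v`, `g = p1 (..) i0 = (p1 u i0) f0 + f1 (p1 v i0)`); with `EE_iff`.
Weights: `hC.wt` for `(P0, Q0)` and `(P1, Q1)`; `Th_X = Th_X0 + Th_X1` by `BT.hd_compl`, so
`x0 + x1 = x` by `wt_unique`.
`a` preserves `ker a^m`, `range a^m`; on the first it is nilpotent (`a^m = 0`), on the second it is onto
(`range a^(m+1) = range a^m` as the sum `ker ⊕ range` is everything) and injective
(`ker a ∩ range a^m ≤ ker a^m ∩ range a^m = 0` for `m ≥ 1`; choose `m ≥ 1`).  The same for `b`.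
-/

namespace BT3

open Module Function BT

variable {k A : Type} [Field k] [Ring A] [Algebra k A] {n : ℕ} {e : Fin n → A}
  [Module.Finite k A]

theorem ext_ret {P Q P0 Q0 P1 Q1 : Type} [AddCommGroup P] [Module A P] [AddCommGroup Q]
    [Module A Q] [AddCommGroup P0] [Module A P0] [AddCommGroup Q0] [Module A Q0]
    [AddCommGroup P1] [Module A P1] [AddCommGroup Q1] [Module A Q1] {f : P →ₗ[A] Q}
    (hf : Rigid f) {f0 : P0 →ₗ[A] Q0} {f1 : P1 →ₗ[A] Q1} (i0 : P0 →ₗ[A] P) (p0 : P →ₗ[A] P0)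
    (j0 : Q0 →ₗ[A] Q) (p1 : P →ₗ[A] P1) (j1 : Q1 →ₗ[A] Q) (q1 : Q →ₗ[A] Q1)
    (hp : ∀ x, p0 (i0 x) = x) (hq : ∀ y, q1 (j1 y) = y) (h0 : ∀ x, f (i0 x) = j0 (f0 x))
    (h1 : ∀ x, q1 (f x) = f1 (p1 x)) (g : P0 →ₗ[A] Q1) :
    ∃ (u : Q0 →ₗ[A] Q1) (v : P0 →ₗ[A] P1), g = u ∘ₗ f0 + f1 ∘ₗ v := by
  obtain ⟨u, v, huv⟩ := hf (j1 ∘ₗ g ∘ₗ p0)
  refine ⟨q1 ∘ₗ u ∘ₗ j0, p1 ∘ₗ v ∘ₗ i0, ?_⟩
  ext x
  have h2 := congrArg q1 (LinearMap.congr_fun huv (i0 x))
  change q1 (j1 (g (p0 (i0 x)))) = q1 (u (f (i0 x)) + f (v (i0 x))) at h2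
  rw [hp, hq, map_add, h0, h1] at h2
  exact h2

theorem proj_comm {M N : Type} [AddCommGroup M] [Module A M] [AddCommGroup N] [Module A N]
    (a : M →ₗ[A] N) {K0 K1 : Submodule A M} {L0 L1 : Submodule A N} (hK : IsCompl K0 K1)
    (hL : IsCompl L0 L1) (h0 : ∀ x ∈ K0, a x ∈ L0) (h1 : ∀ x ∈ K1, a x ∈ L1) (x : M) :
    L0.projectionOnto L1 hL (a x) = a.restrict h0 (K0.projectionOnto K1 hK x) := by
  have hx : x ∈ K0 ⊔ K1 := by
    rw [hK.sup_eq_top]
    exact Submodule.mem_top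
  obtain ⟨y, hy, z, hz, rfl⟩ := Submodule.mem_sup.mp hx
  rw [map_add, map_add, map_add, Submodule.projectionOnto_apply_of_mem_left hL (h0 y hy),
    Submodule.projectionOnto_apply_of_mem_right hL (h1 z hz),
    Submodule.projectionOnto_apply_of_mem_left hK hy,
    Submodule.projectionOnto_apply_of_mem_right hK hz, add_zero, add_zero]
  rfl

omit [Module.Finite k A] in
theorem ext_sub {X : Pr k A} {K0 K1 K2 K3 : Submodule A X.P} {L0 L2 L3 : Submodule A X.Q}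
    (hK : IsCompl K0 K1) (hK' : IsCompl K2 K3) (hL' : IsCompl L2 L3)
    (h0 : ∀ x ∈ K0, X.f x ∈ L0) (h2 : ∀ x ∈ K2, X.f x ∈ L2)
    (h3 : ∀ x ∈ K3, X.f x ∈ L3) (g : K0 →ₗ[A] L2) :
    ∃ (u : L0 →ₗ[A] L2) (v : K0 →ₗ[A] K2), g = u ∘ₗ X.f.restrict h0 + X.f.restrict h2 ∘ₗ v :=
  ext_ret X.rig K0.subtype (K0.projectionOnto K1 hK) L0.subtype (K2.projectionOnto K3 hK')
    L2.subtype (L2.projectionOnto L3 hL') (fun x => Submodule.projectionOnto_apply_left hK x)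
    (fun y => Submodule.projectionOnto_apply_left hL' y) (fun _ => rfl)
    (fun x => proj_comm X.f hK' hL' h2 h3 x) g

/-- the summand of a presentation -/
def subPr (X : Pr k A) (K0 K1 : Submodule A X.P) (L0 L1 : Submodule A X.Q) (hK : IsCompl K0 K1)
    (hL : IsCompl L0 L1) (h0 : ∀ x ∈ K0, X.f x ∈ L0) (h1 : ∀ x ∈ K1, X.f x ∈ L1) : Pr k A where
  P := K0
  Q := L0
  fp := finite_sub K0
  pp := projective_compl K0 K1 hK
  fq := finite_sub L0
  pq := projective_compl L0 L1 hL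
  f := X.f.restrict h0
  rig := fun g => ext_sub hK hK hL h0 h0 h1 g

theorem pow_coe {M : Type} [AddCommGroup M] [Module A M] (a : Module.End A M)
    (K : Submodule A M) (h : ∀ x ∈ K, a x ∈ K) (j : ℕ) (x : K) :
    (((LinearMap.restrict a h : Module.End A K) ^ j) x : M) = (a ^ j) (x : M) := by
  induction j with
  | zero => rfl
  | succ j ih =>
    rw [pow_succ', pow_succ']
    change a ((((LinearMap.restrict a h : Module.End A K) ^ j) x : K) : M) = a ((a ^ j) (x : M))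
    rw [ih]

theorem bij_range {M : Type} [AddCommGroup M] [Module A M] (a : Module.End A M) (m : ℕ)
    (hm : 1 ≤ m) (hc : IsCompl (LinearMap.ker (a ^ m)) (LinearMap.range (a ^ m)))
    (h : ∀ x ∈ LinearMap.range (a ^ m), a x ∈ LinearMap.range (a ^ m)) :
    Bijective (LinearMap.restrict a h) := by
  obtain ⟨j, rfl⟩ : ∃ j, m = j + 1 := ⟨m - 1, by omega⟩
  constructor
  · rw [injective_iff_map_eq_zero]
    intro x hx
    have h1 : a (x : M) = 0 := congrArg Subtype.val hx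
    have h4 : ∀ z : M, a z = 0 → (a ^ (j + 1)) z = 0 := by
      intro z hz
      rw [pow_succ]
      change (a ^ j) (a z) = 0
      rw [hz, map_zero]
    have h2 : (x : M) ∈ LinearMap.ker (a ^ (j + 1)) := LinearMap.mem_ker.mpr (h4 _ h1)
    have h3 := Submodule.mem_inf.mpr ⟨h2, x.2⟩
    rw [hc.inf_eq_bot] at h3
    exact Subtype.ext ((Submodule.mem_bot A).mp h3)
  · rintro ⟨_, ⟨y, rfl⟩⟩
    have hy : y ∈ LinearMap.ker (a ^ (j + 1)) ⊔ LinearMap.range (a ^ (j + 1)) := by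
      rw [hc.sup_eq_top]
      exact Submodule.mem_top
    obtain ⟨u, hu, _, ⟨w, rfl⟩, rfl⟩ := Submodule.mem_sup.mp hy
    refine ⟨⟨(a ^ j) ((a ^ (j + 1)) w), ⟨(a ^ j) w, ?_⟩⟩, ?_⟩
    · rw [← Module.End.mul_apply, ← Module.End.mul_apply, ← pow_add, ← pow_add, add_comm]
    · apply Subtype.ext
      change a ((a ^ j) ((a ^ (j + 1)) w)) = (a ^ (j + 1)) (u + (a ^ (j + 1)) w)
      rw [map_add, LinearMap.mem_ker.mp hu, zero_add, ← Module.End.mul_apply a (a ^ j),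
        ← pow_succ']

theorem proj_sum {M : Type} [AddCommGroup M] [Module A M] {K0 K1 : Submodule A M}
    (hK : IsCompl K0 K1) (x : M) :
    ((K0.projectionOnto K1 hK x : K0) : M) + ((K1.projectionOnto K0 hK.symm x : K1) : M) = x := by
  have hx : x ∈ K0 ⊔ K1 := by
    rw [hK.sup_eq_top]
    exact Submodule.mem_top
  obtain ⟨y, hy, z, hz, rfl⟩ := Submodule.mem_sup.mp hx
  rw [map_add, map_add, Submodule.projectionOnto_apply_of_mem_left hK hy,
    Submodule.projectionOnto_apply_of_mem_right hK hz,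
    Submodule.projectionOnto_apply_of_mem_right hK.symm hy,
    Submodule.projectionOnto_apply_of_mem_left hK.symm hz, add_zero, zero_add]

theorem fit_split (hC : Crd k e) {X : Pr k A} {x : Fin n → ℤ} (hX : HW e X x) (φ : Mp X X) :
    ∃ (X0 X1 : Pr k A) (x0 x1 : Fin n → ℤ) (i0 : Mp X0 X) (p0 : Mp X X0) (i1 : Mp X1 X)
      (p1 : Mp X X1) (φ0 : Mp X0 X0) (φ1 : Mp X1 X1) (m : ℕ),
      HW e X0 x0 ∧ HW e X1 x1 ∧ x0 + x1 = x ∧ ee X0 X1 = 0 ∧ ee X1 X0 = 0 ∧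
      p0.comp i0 = Mp.id X0 ∧ p1.comp i1 = Mp.id X1 ∧ p0.comp i1 = Mp.zero X1 X0 ∧
      p1.comp i0 = Mp.zero X0 X1 ∧ (i0.comp p0).add (i1.comp p1) = Mp.id X ∧
      φ.comp i0 = i0.comp φ0 ∧ φ.comp i1 = i1.comp φ1 ∧
      p0.comp φ = φ0.comp p0 ∧ p1.comp φ = φ1.comp p1 ∧
      φ0.pow m = Mp.zero X0 X0 ∧ Bijective φ1.a ∧ Bijective φ1.b := by
  obtain ⟨n1, hn1⟩ := fitting k (φ.a : Module.End A X.P)
  obtain ⟨n2, hn2⟩ := fitting k (φ.b : Module.End A X.Q)
  obtain ⟨m, hm1, hm2, hm3⟩ : ∃ m, 1 ≤ m ∧ n1 ≤ m ∧ n2 ≤ m :=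
    ⟨n1 + n2 + 1, by omega, by omega, by omega⟩
  have hP := hn1 m hm2
  have hQ := hn2 m hm3
  have hcomm : ∀ x, (φ.b ^ m) (X.f x) = X.f ((φ.a ^ m) x) := (φ.pow m).comm
  have hf0 : ∀ x ∈ LinearMap.ker ((φ.a : Module.End A X.P) ^ m),
      X.f x ∈ LinearMap.ker ((φ.b : Module.End A X.Q) ^ m) := by
    intro x hx
    rw [LinearMap.mem_ker] at hx ⊢
    rw [hcomm, hx, map_zero]
  have hf1 : ∀ x ∈ LinearMap.range ((φ.a : Module.End A X.P) ^ m),
      X.f x ∈ LinearMap.range ((φ.b : Module.End A X.Q) ^ m) := by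
    rintro _ ⟨y, rfl⟩
    exact ⟨X.f y, hcomm y⟩
  have hsc : ∀ {M : Type} [AddCommGroup M] [Module A M] (a : Module.End A M) (x : M),
      (a ^ m) (a x) = a ((a ^ m) x) := by
    intro M _ _ a x
    rw [← Module.End.mul_apply, ← Module.End.mul_apply, ← pow_succ, ← pow_succ']
  have hker : ∀ {M : Type} [AddCommGroup M] [Module A M] (a : Module.End A M),
      ∀ x ∈ LinearMap.ker (a ^ m), a x ∈ LinearMap.ker (a ^ m) := by
    intro M _ _ a x hx
    rw [LinearMap.mem_ker] at hx ⊢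
    rw [hsc, hx, map_zero]
  have hrg : ∀ {M : Type} [AddCommGroup M] [Module A M] (a : Module.End A M),
      ∀ x ∈ LinearMap.range (a ^ m), a x ∈ LinearMap.range (a ^ m) := by
    rintro M _ _ a _ ⟨y, rfl⟩
    exact ⟨a y, hsc a y⟩
  let X0 : Pr k A := subPr X _ _ _ _ hP hQ hf0 hf1
  let X1 : Pr k A := subPr X _ _ _ _ hP.symm hQ.symm hf1 hf0
  obtain ⟨x0, hx0⟩ := hC.wt X0.P X0.Q
  obtain ⟨x1, hx1⟩ := hC.wt X1.P X1.Q
  let i0 : Mp X0 X := ⟨(LinearMap.ker ((φ.a : Module.End A X.P) ^ m)).subtype,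
    (LinearMap.ker ((φ.b : Module.End A X.Q) ^ m)).subtype, fun _ => rfl⟩
  let i1 : Mp X1 X := ⟨(LinearMap.range ((φ.a : Module.End A X.P) ^ m)).subtype,
    (LinearMap.range ((φ.b : Module.End A X.Q) ^ m)).subtype, fun _ => rfl⟩
  let p0 : Mp X X0 := ⟨Submodule.projectionOnto _ _ hP, Submodule.projectionOnto _ _ hQ,
    fun x => proj_comm X.f hP hQ hf0 hf1 x⟩
  let p1 : Mp X X1 := ⟨Submodule.projectionOnto _ _ hP.symm, Submodule.projectionOnto _ _ hQ.symm,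
    fun x => proj_comm X.f hP.symm hQ.symm hf1 hf0 x⟩
  let φ0 : Mp X0 X0 := ⟨LinearMap.restrict φ.a (hker φ.a), LinearMap.restrict φ.b (hker φ.b),
    fun x => Subtype.ext (φ.comm x.1)⟩
  let φ1 : Mp X1 X1 := ⟨LinearMap.restrict φ.a (hrg φ.a), LinearMap.restrict φ.b (hrg φ.b),
    fun x => Subtype.ext (φ.comm x.1)⟩
  refine ⟨X0, X1, x0, x1, i0, p0, i1, p1, φ0, φ1, m, hx0, hx1, ?_, ?_, ?_, ?_, ?_, ?_, ?_, ?_,
    ?_, ?_, ?_, ?_, ?_, ?_, ?_⟩
  · refine wt_unique (k := k) (A := A) (e := e) hC fun M _ _ _ _ _ => ?_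
    rw [vd_add, ← hx0, ← hx1, ← hX M]
    have e1 := hd_compl (k := k) _ _ hP M
    have e2 := hd_compl (k := k) _ _ hQ M
    unfold Th
    change ((hd k A (LinearMap.ker ((φ.b : Module.End A X.Q) ^ m)) M : ℤ) -
      (hd k A (LinearMap.ker ((φ.a : Module.End A X.P) ^ m)) M : ℤ)) +
      ((hd k A (LinearMap.range ((φ.b : Module.End A X.Q) ^ m)) M : ℤ) -
      (hd k A (LinearMap.range ((φ.a : Module.End A X.P) ^ m)) M : ℤ)) = _
    omega
  · rw [← EE_iff]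
    intro g
    exact ext_sub hP hP.symm hQ.symm hf0 hf1 hf0 g
  · rw [← EE_iff]
    intro g
    exact ext_sub hP.symm hP hQ hf1 hf0 hf1 g
  · exact Mp.ext' (fun x => Submodule.projectionOnto_apply_left hP x)
      (fun y => Submodule.projectionOnto_apply_left hQ y)
  · exact Mp.ext' (fun x => Submodule.projectionOnto_apply_left hP.symm x)
      (fun y => Submodule.projectionOnto_apply_left hQ.symm y)
  · exact Mp.ext' (fun x => Submodule.projectionOnto_apply_right hP x)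
      (fun y => Submodule.projectionOnto_apply_right hQ y)
  · exact Mp.ext' (fun x => Submodule.projectionOnto_apply_right hP.symm x)
      (fun y => Submodule.projectionOnto_apply_right hQ.symm y)
  · exact Mp.ext' (fun x => proj_sum hP x) (fun y => proj_sum hQ y)
  · exact Mp.ext' (fun _ => rfl) (fun _ => rfl)
  · exact Mp.ext' (fun _ => rfl) (fun _ => rfl)
  · exact Mp.ext' (fun x => proj_comm φ.a hP hP (hker φ.a) (hrg φ.a) x)
      (fun y => proj_comm φ.b hQ hQ (hker φ.b) (hrg φ.b) y)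
  · exact Mp.ext' (fun x => proj_comm φ.a hP.symm hP.symm (hrg φ.a) (hker φ.a) x)
      (fun y => proj_comm φ.b hQ.symm hQ.symm (hrg φ.b) (hker φ.b) y)
  · refine Mp.ext' (fun x => ?_) (fun y => ?_)
    · exact Subtype.ext ((pow_coe φ.a _ (hker φ.a) m x).trans x.2)
    · exact Subtype.ext ((pow_coe φ.b _ (hker φ.b) m y).trans y.2)
  · exact bij_range φ.a m hm1 hP (hrg φ.a)
  · exact bij_range φ.b m hm1 hQ (hrg φ.b)

end BT3
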