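import Mathlib
import Pool.Agent.BT3.Fit

/-!
BT3.LocI: presentations of indecomposable weight have local endomorphism rings up to homotopy.

* `weight_zero`: weight `0`.  `Tt 0 C` (`C_Tt`) means that nonzero quotients of `C` have positive weight,
  but all weights are zero, so `C = 0` and `f` is onto; `Q` is projective, so `P ≅ Q ⊕ K`, `K = ker f`
  (`IsCompl`, `hd_compl`), and `0 = Th(K) = hd Q K - hd P K = - hd K K`, so the identity of `K` is zero.
* `contract`: if `X` has weight zero then every morphism `Y → X` or `X → Y` is null-homotopic: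
  for `φ : X → Y` the homotopy is `φ.a ∘ f⁻¹ : Q_X → P_Y`; for `φ : Y → X` it is `f⁻¹ ∘ φ.b`.
* `loc_ind`: `fit_split` for `φ`: `u = u0 + u1`, `Cmp u0 u1` by `cmp_iff`, so `u0 = 0` or `u1 = 0`.
  If `u1 = 0`: `φ^m = φ^m (i0 p0 + i1 p1) = i0 φ0^m p0 + i1 φ1^m p1 = i1 φ1^m p1`, and `p1 : X → X1` is
  null-homotopic, so `φ^m` is.  If `u0 = 0`: let `ψ = i1 φ1⁻¹ p1`; `ψ φ = i1 p1`, `φ ψ = i1 p1`, and
  `id = i0 p0 + i1 p1` with `i0 p0` null-homotopic (it factors through `X0`).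
* `loc_ind_C`: lift `ρ` by `exists_cok`, apply `loc_ind` and take cokernels.
* `ind_coker_inj`: lift `ρ` and its inverse to `φ : X → X'`, `ψ : X' → X`.  `(ψ φ).cok = id`, so no power
  of `ψ φ` is null-homotopic (`C ≠ 0`), so `ψ φ` is homotopy invertible; in the same way `φ ψ`; so `φ` has a
  left and a right homotopy inverse, which are homotopic, so `HtEq X X'`, `HW e X' u` by `HtEq.hw`,
  and `u = u'` by `HW.unique`.
-/

namespace BT3

open Module Function BT

variable {k A : Type} [Field k] [Ring A] [Algebra k A] {n : ℕ} {e : Fin n → A}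
  [Module.Finite k A]

omit [Module.Finite k A] in
/-- `hd` is invariant under isomorphisms of the first variable -/
private theorem li_hd_left {P P' : Type} [AddCommGroup P] [Module A P] [AddCommGroup P']
    [Module A P'] (g : P ≃ₗ[A] P') (M : Type) [AddCommGroup M] [Module A M] [Module k M]
    [IsScalarTower k A M] : hd k A P M = hd k A P' M := by
  have r : (P' →ₗ[A] M) ≃ₗ[k] (P →ₗ[A] M) :=
    { toFun := fun h => h ∘ₗ g.toLinearMap
      map_add' := fun _ _ => rfl
      map_smul' := fun _ _ => rfl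
      invFun := fun h => h ∘ₗ g.symm.toLinearMap
      left_inv := fun h => by
        ext x
        simp
      right_inv := fun h => by
        ext x
        simp }
  exact r.finrank_eq.symm

theorem weight_zero (hC : Crd k e) {X : Pr k A} (hX : HW e X 0) : Bijective X.f := by
  have h1 : (⊥ : Submodule A X.C) = ⊤ := by
    by_contra hne
    have h2 := C_Tt hC hX ⊥ hne
    rw [vd_zero] at h2
    exact lt_irrefl _ h2
  have hsurj : Surjective X.f := by
    intro y
    have h2 : (LinearMap.range X.f).mkQ y ∈ (⊥ : Submodule A X.C) := by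
      rw [h1]
      exact Submodule.mem_top
    rw [Submodule.mem_bot] at h2
    exact LinearMap.mem_range.1 ((Submodule.Quotient.mk_eq_zero _).1 h2)
  obtain ⟨s, hs⟩ := Module.projective_lifting_property X.f (LinearMap.id : X.Q →ₗ[A] X.Q) hsurj
  have hs' : ∀ y, X.f (s y) = y := fun y => LinearMap.congr_fun hs y
  have hsi : Injective s := by
    intro a b hab
    rw [← hs' a, ← hs' b, hab]
  have hcomp : IsCompl (LinearMap.ker X.f) (LinearMap.range s) := by
    refine IsCompl.of_eq ?_ ?_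
    · rw [Submodule.eq_bot_iff]
      rintro x ⟨hx1, hx2⟩
      obtain ⟨y, rfl⟩ := hx2
      have h3 : X.f (s y) = 0 := hx1
      rw [hs'] at h3
      rw [h3, map_zero]
    · rw [Submodule.eq_top_iff']
      intro x
      have h3 : x = (x - s (X.f x)) + s (X.f x) := by abel
      rw [h3]
      refine Submodule.add_mem_sup ?_ ⟨_, rfl⟩
      rw [LinearMap.mem_ker, map_sub, hs', sub_self]
  have hK : Module.Finite k (LinearMap.ker X.f) := finite_sub (k := k) _
  have h4 := hd_compl (k := k) _ _ hcomp (LinearMap.ker X.f)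
  have h5 := hX (LinearMap.ker X.f)
  rw [vd_zero, Th, h4, ← li_hd_left (k := k) (LinearEquiv.ofInjective s hsi)] at h5
  have h6 : hd k A (LinearMap.ker X.f) (LinearMap.ker X.f) = 0 := by
    push_cast at h5
    omega
  have hf := finite_hom (k := k) (A := A) (P := LinearMap.ker X.f) (X := LinearMap.ker X.f)
  have h7 : Subsingleton (LinearMap.ker X.f →ₗ[A] LinearMap.ker X.f) :=
    Module.finrank_zero_iff.mp h6
  refine ⟨?_, hsurj⟩
  rw [← LinearMap.ker_eq_bot, Submodule.eq_bot_iff]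
  intro x hx
  have h8 : (LinearMap.id : LinearMap.ker X.f →ₗ[A] LinearMap.ker X.f) = 0 :=
    Subsingleton.elim _ _
  have h9 := LinearMap.congr_fun h8 ⟨x, hx⟩
  exact congrArg Subtype.val h9

omit [Module.Finite k A] in
theorem contract {X Y : Pr k A} (hX : Bijective X.f) :
    (∀ φ : Mp X Y, Hmt φ (Mp.zero X Y)) ∧ ∀ φ : Mp Y X, Hmt φ (Mp.zero Y X) := by
  set g := LinearEquiv.ofBijective X.f hX with hg
  have g1 : ∀ x, g.symm (X.f x) = x := fun x => g.symm_apply_apply x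
  have g2 : ∀ y, X.f (g.symm y) = y := fun y => g.apply_symm_apply y
  constructor
  · intro φ
    refine ⟨φ.a ∘ₗ g.symm.toLinearMap, fun x => ?_, fun y => ?_⟩
    · change φ.a x = 0 + φ.a (g.symm (X.f x))
      rw [g1, zero_add]
    · change φ.b y = 0 + Y.f (φ.a (g.symm y))
      rw [zero_add, ← φ.comm, g2]
  · intro φ
    refine ⟨g.symm.toLinearMap ∘ₗ φ.b, fun x => ?_, fun y => ?_⟩
    · change φ.a x = 0 + g.symm (φ.b (Y.f x))
      rw [zero_add, φ.comm, g1]
    · change φ.b y = 0 + X.f (g.symm (φ.b y))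
      rw [zero_add, g2]

omit [Module.Finite k A] in
private theorem li_pow_comp {X Y : Pr k A} (φ : Mp X X) (χ : Mp Y Y) (i : Mp Y X)
    (h : φ.comp i = i.comp χ) (m : ℕ) : (φ.pow m).comp i = i.comp (χ.pow m) := by
  have ha : ∀ x, φ.a (i.a x) = i.a (χ.a x) := fun x =>
    congrArg (fun r : Mp Y X => r.a x) h
  have hb : ∀ y, φ.b (i.b y) = i.b (χ.b y) := fun y =>
    congrArg (fun r : Mp Y X => r.b y) h
  refine Mp.ext' (fun x => ?_) (fun y => ?_)
  · change (φ.a ^ m) (i.a x) = i.a ((χ.a ^ m) x)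
    induction m with
    | zero => rfl
    | succ m ih =>
      rw [pow_succ', pow_succ']
      change φ.a ((φ.a ^ m) (i.a x)) = i.a (χ.a ((χ.a ^ m) x))
      rw [ih, ha]
  · change (φ.b ^ m) (i.b y) = i.b ((χ.b ^ m) y)
    induction m with
    | zero => rfl
    | succ m ih =>
      rw [pow_succ', pow_succ']
      change φ.b ((φ.b ^ m) (i.b y)) = i.b (χ.b ((χ.b ^ m) y))
      rw [ih, hb]

omit [Module.Finite k A] in
private theorem li_inv {X : Pr k A} (φ : Mp X X) (ha : Bijective φ.a) (hb : Bijective φ.b) :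
    ∃ ψ : Mp X X, ψ.comp φ = Mp.id X ∧ φ.comp ψ = Mp.id X := by
  set α := LinearEquiv.ofBijective φ.a ha with hα
  set β := LinearEquiv.ofBijective φ.b hb with hβ
  have a1 : ∀ x, α.symm (φ.a x) = x := fun x => α.symm_apply_apply x
  have a2 : ∀ x, φ.a (α.symm x) = x := fun x => α.apply_symm_apply x
  have b1 : ∀ x, β.symm (φ.b x) = x := fun x => β.symm_apply_apply x
  have b2 : ∀ x, φ.b (β.symm x) = x := fun x => β.apply_symm_apply x
  refine ⟨⟨α.symm.toLinearMap, β.symm.toLinearMap, fun x => ?_⟩, ?_, ?_⟩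
  · change β.symm (X.f x) = X.f (α.symm x)
    have h1 : φ.b (X.f (α.symm x)) = X.f x := by rw [φ.comm, a2]
    rw [← h1, b1]
  · exact Mp.ext' (fun x => a1 x) (fun y => b1 y)
  · exact Mp.ext' (fun x => a2 x) (fun y => b2 y)

theorem loc_ind (hC : Crd k e) {u : Fin n → ℤ} (hu : Ind k e u) {X : Pr k A}
    (hX : HW e X u) (φ : Mp X X) : (∃ m, Hmt (φ.pow m) (Mp.zero X X)) ∨
      ∃ ψ : Mp X X, Hmt (ψ.comp φ) (Mp.id X) ∧ Hmt (φ.comp ψ) (Mp.id X) := by
  obtain ⟨X0, X1, x0, x1, i0, p0, i1, p1, φ0, φ1, m, hX0, hX1, hs, e01, e10, hi0, hi1, h01, h10,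
    hid, c0, c1, q0, q1, hnil, hba, hbb⟩ := fit_split hC hX φ
  have hc : Cmp k e x0 x1 := (cmp_iff hC hX0 hX1).2 ⟨e01, e10⟩
  rcases hu.2 x0 x1 hc hs with h0 | h0
  · right
    subst h0
    have hz : Hmt p0 (Mp.zero X X0) := (contract (weight_zero hC hX0)).2 p0
    obtain ⟨χ, hχ1, hχ2⟩ := li_inv φ1 hba hbb
    have hh : Hmt (i1.comp p1) (Mp.id X) := by
      have h1 : Hmt ((i0.comp p0).add (i1.comp p1)) ((Mp.zero X X).add (i1.comp p1)) := by
        refine Hmt.add ?_ (Hmt.refl _)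
        have h2 := hz.comp_left i0
        rwa [Mp.comp_zero] at h2
      rw [hid] at h1
      have h3 : (Mp.zero X X).add (i1.comp p1) = i1.comp p1 :=
        Mp.ext' (fun x => zero_add _) (fun y => zero_add _)
      rw [h3] at h1
      exact h1.symm
    refine ⟨i1.comp (χ.comp p1), ?_, ?_⟩
    · have h1 : (i1.comp (χ.comp p1)).comp φ = i1.comp p1 := by
        rw [Mp.comp_assoc, Mp.comp_assoc, q1, ← Mp.comp_assoc χ, hχ1, Mp.id_comp]
      rw [h1]
      exact hh
    · have h1 : φ.comp (i1.comp (χ.comp p1)) = i1.comp p1 := by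
        rw [← Mp.comp_assoc φ, c1, Mp.comp_assoc, ← Mp.comp_assoc φ1, hχ2, Mp.id_comp]
      rw [h1]
      exact hh
  · left
    subst h0
    refine ⟨m, ?_⟩
    have hz : Hmt p1 (Mp.zero X X1) := (contract (weight_zero hC hX1)).2 p1
    have h1 : φ.pow m = ((φ.pow m).comp i1).comp p1 := by
      have h2 : (φ.pow m).comp ((i0.comp p0).add (i1.comp p1)) =
          ((φ.pow m).comp i1).comp p1 := by
        rw [Mp.comp_add, ← Mp.comp_assoc, ← Mp.comp_assoc, li_pow_comp φ φ0 i0 c0, hnil,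
          Mp.comp_zero, Mp.zero_comp]
        exact Mp.ext' (fun x => zero_add _) (fun y => zero_add _)
      rwa [hid, Mp.comp_id] at h2
    rw [h1]
    have h3 := hz.comp_left ((φ.pow m).comp i1)
    rwa [Mp.comp_zero] at h3

theorem loc_ind_C (hC : Crd k e) {u : Fin n → ℤ} (hu : Ind k e u) {X : Pr k A}
    (hX : HW e X u) (ρ : X.C →ₗ[A] X.C) : Bijective ρ ∨ ∃ m, ∀ c, (ρ ^ m) c = 0 := by
  obtain ⟨φ, rfl⟩ := exists_cok ρ
  rcases loc_ind hC hu hX φ with ⟨m, hm⟩ | ⟨ψ, h1, h2⟩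
  · right
    refine ⟨m, fun c => ?_⟩
    rw [← Mp.cok_pow, hm.cok, Mp.cok_zero]
    rfl
  · left
    have e1 := h1.cok
    have e2 := h2.cok
    rw [Mp.cok_comp, Mp.cok_id] at e1 e2
    constructor
    · intro a b hab
      have h3 : ψ.cok (φ.cok a) = ψ.cok (φ.cok b) := by rw [hab]
      have h4 : ∀ x, ψ.cok (φ.cok x) = x := fun x => LinearMap.congr_fun e1 x
      rwa [h4, h4] at h3
    · intro c
      exact ⟨ψ.cok c, LinearMap.congr_fun e2 c⟩

private theorem li_inv_of (hC : Crd k e) {u : Fin n → ℤ} (hu : Ind k e u) {X : Pr k A}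
    (hX : HW e X u) [Nontrivial X.C] (φ : Mp X X) (hφ : φ.cok = LinearMap.id) :
    ∃ ψ : Mp X X, Hmt (ψ.comp φ) (Mp.id X) ∧ Hmt (φ.comp ψ) (Mp.id X) := by
  rcases loc_ind hC hu hX φ with ⟨m, hm⟩ | h
  · exfalso
    have h1 := hm.cok
    rw [Mp.cok_pow, hφ, Mp.cok_zero] at h1
    obtain ⟨c, hc⟩ := exists_ne (0 : X.C)
    apply hc
    have h2 : ((LinearMap.id : X.C →ₗ[A] X.C) ^ m) c = c := by
      have h3 : (LinearMap.id : X.C →ₗ[A] X.C) = 1 := rfl
      rw [h3, one_pow]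
      rfl
    rw [← h2, h1]
    rfl
  · exact h

theorem ind_coker_inj (hC : Crd k e) {u u' : Fin n → ℤ} (hu : Ind k e u) (hu' : Ind k e u')
    {X X' : Pr k A} (hX : HW e X u) (hX' : HW e X' u') [Nontrivial X.C]
    (ρ : X.C ≃ₗ[A] X'.C) : u = u' := by
  have hn : Nontrivial X'.C := ρ.toEquiv.symm.nontrivial
  obtain ⟨φ, hφ⟩ := exists_cok ρ.toLinearMap
  obtain ⟨ψ, hψ⟩ := exists_cok ρ.symm.toLinearMap
  have h1 : (ψ.comp φ).cok = LinearMap.id := by
    rw [Mp.cok_comp, hφ, hψ]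
    ext x
    simp
  have h2 : (φ.comp ψ).cok = LinearMap.id := by
    rw [Mp.cok_comp, hφ, hψ]
    ext x
    simp
  obtain ⟨χ, hχ, -⟩ := li_inv_of hC hu hX _ h1
  obtain ⟨χ', -, hχ'⟩ := li_inv_of hC hu' hX' _ h2
  rw [← Mp.comp_assoc] at hχ
  rw [Mp.comp_assoc] at hχ'
  -- `L = χ ψ`, `R = ψ χ'`
  have hLR : Hmt (χ.comp ψ) (ψ.comp χ') := by
    have h3 : Hmt ((χ.comp ψ).comp (φ.comp (ψ.comp χ'))) ((χ.comp ψ).comp (Mp.id X')) :=
      hχ'.comp_left _
    rw [Mp.comp_id, ← Mp.comp_assoc] at h3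
    have h4 : Hmt (((χ.comp ψ).comp φ).comp (ψ.comp χ')) ((Mp.id X).comp (ψ.comp χ')) :=
      hχ.comp_right _
    rw [Mp.id_comp] at h4
    exact h3.symm.trans h4
  have h5 : Hmt ((ψ.comp χ').comp φ) (Mp.id X) := (hLR.comp_right φ).symm.trans hχ
  have h6 : HtEq X X' := ⟨φ, ψ.comp χ', h5, hχ'⟩
  exact HW.unique hC (h6.hw hX) hX'

end BT3
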