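import Mathlib
import Pool.Agent.BT3.LocI
import Pool.Agent.BT3.Cm

/-!
BT3.Sep: separation of stable modules by indecomposable weights.

* `exists_ind_pos`: strong induction on `∑ (c i).natAbs`.  `c ≠ 0` as `vd c M > 0`.  If `c` is
  indecomposable take `u = c`, `w = 0`.  Otherwise `c = x + y`, `Cmp x y`, `x, y ≠ 0`; by `Cmp.coh` the
  coordinates have equal signs, so both sums of absolute values are smaller than that of `c`; one of
  `vd x M`, `vd y M` is positive, say the first; by induction `x = u + w'`, `Cmp u w'`, `vd u M > 0`.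
  `c = u + (w' + y)`; `Cmp (u + w') y` gives `Cmp u y`, `Cmp w' y` (`Cmp.add_iff`), so `Cmp (w' + y) u`
  (`Cmp.add_iff`, `Cmp.symm`).
* `ind_val`: let `X` be a presentation of weight `u` and `C = X.C`.  `Tt u C`, so `Tb z C` by `h1`.
  Let `β, β'` be `z`-stable (possibly equal), `g : C → β`, `g' : C → β'` nonzero.  Then `g` is onto
  (`Sta.surj`), `K = ker g` satisfies `Tb z K` (`ker_Tb`), `g'|K : K → β'` is zero or onto.
  If it is onto then `(g, g') : C → β × β'` is onto; `β × β'` is semistable, so the kernel satisfies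
  `Tb z`, so `Tb u` (`h2`), so `E0 X.f` holds for the kernel (`E0_iff`) and `lift` gives `φ : C → C` with
  `g φ = g`, `g' φ = 0`.  By `loc_ind_C` `φ` is bijective, then `g' = 0`, or nilpotent, then
  `g = g φ^m = 0`; contradiction.  So `g'|K = 0` and `g' = h g` with `h : β → β'` nonzero, so bijective
  (`Sta.bij`).  So `β ≅ β'`, and if `β' = β` then `g'` is a multiple of `g` (`Sta.schur`), so
  `hd C β ≤ 1`.  Now `hd C β = vd u β + ex`, and `ex X.f β = 0` as `Tb u β` (`h2`), so `hd C β = vd u β`.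
* `exists_sep`: `c = N z + 1` as in `plus`; `vd c β = vd 1 β > 0` (`vd z β = 0`).  `exists_ind_pos` gives
  `u` with `c = u + w`, `Cmp u w`, `vd u β > 0`.  `Tt u M → Tb c M` (`Cmp u c` by `Cmp.add_iff`) `→ Tb z M`;
  `Tb z M → Tb c M → Tb u M` (`Cmp.Tb_add`).  By `ind_val` `vd u β = 1` and `vd u β' = 0` for the others.
-/

namespace BT3

open Module Function BT

variable {k A : Type} [Field k] [Ring A] [Algebra k A] {n : ℕ} {e : Fin n → A}
  [Module.Finite k A]

private theorem sep_natAbs {a b : ℤ} (h : 0 ≤ a * b) :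
    (a + b).natAbs = a.natAbs + b.natAbs := by
  rcases le_total 0 a with ha | ha <;> rcases le_total 0 b with hb | hb
  · omega
  · have h1 : a * b = 0 := le_antisymm (mul_nonpos_of_nonneg_of_nonpos ha hb) h
    rcases mul_eq_zero.1 h1 with h2 | h2 <;> subst h2 <;> simp
  · have h1 : a * b = 0 := le_antisymm (mul_nonpos_of_nonpos_of_nonneg ha hb) h
    rcases mul_eq_zero.1 h1 with h2 | h2 <;> subst h2 <;> simp
  · omega

theorem exists_ind_pos (hC : Crd k e) (hR : RR k A) (c : Fin n → ℤ) (M : Type) [AddCommGroup M]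
    [Module A M] [Module k M] [IsScalarTower k A M] [Module.Finite k M] (h : 0 < vd k e c M) :
    ∃ u w, Ind k e u ∧ Cmp k e u w ∧ c = u + w ∧ 0 < vd k e u M := by
  obtain ⟨d, hd⟩ : ∃ d, ∑ i, (c i).natAbs = d := ⟨_, rfl⟩
  induction d using Nat.strong_induction_on generalizing c with
  | _ d ih =>
    have hc : c ≠ 0 := by
      rintro rfl
      rw [vd_zero] at h
      exact lt_irrefl _ h
    by_cases hI : Ind k e c
    · exact ⟨c, 0, hI, Cmp.zero hC c, (add_zero c).symm, h⟩
    · have key : ∀ x y, Cmp k e x y → x + y = c → y ≠ 0 → 0 < vd k e x M →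
          ∃ u w, Ind k e u ∧ Cmp k e u w ∧ c = u + w ∧ 0 < vd k e u M := by
        intro x y hxy hs hy hpos
        have h1 : ∀ i, (c i).natAbs = (x i).natAbs + (y i).natAbs := fun i => by
          rw [← hs]
          exact sep_natAbs (hxy.coh hC i)
        have h2 : ∑ i, (c i).natAbs = ∑ i, (x i).natAbs + ∑ i, (y i).natAbs := by
          rw [← Finset.sum_add_distrib]
          exact Finset.sum_congr rfl fun i _ => h1 i
        have h3 : 0 < ∑ i, (y i).natAbs := by
          obtain ⟨i, hi⟩ := Function.ne_iff.1 hy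
          have hi' : y i ≠ 0 := hi
          exact Finset.sum_pos' (fun _ _ => Nat.zero_le _) ⟨i, Finset.mem_univ i, by omega⟩
        obtain ⟨u, w', hu, huw, rfl, hup⟩ := ih _ (by omega) x hpos rfl
        obtain ⟨h4, h5⟩ := (Cmp.add_iff hC hR huw).1 hxy
        refine ⟨u, w' + y, hu, ((Cmp.add_iff hC hR h5).2 ⟨huw.symm, h4.symm⟩).symm, ?_, hup⟩
        rw [← hs, add_assoc]
      have hex : ∃ x y, Cmp k e x y ∧ x + y = c ∧ x ≠ 0 ∧ y ≠ 0 := by
        by_contra hcon
        push Not at hcon
        refine hI ⟨hc, fun x y h1 h2 => ?_⟩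
        by_cases hx : x = 0
        · exact Or.inl hx
        · exact Or.inr (hcon x y h1 h2 hx)
      obtain ⟨x, y, hxy, hs, hx, hy⟩ := hex
      have h6 : 0 < vd k e x M ∨ 0 < vd k e y M := by
        rw [← hs, vd_add] at h
        by_contra hcon
        push Not at hcon
        linarith [hcon.1, hcon.2]
      rcases h6 with h6 | h6
      · exact key x y hxy hs hy h6
      · exact key y x hxy.symm (by rw [add_comm, hs]) hx h6

/-- two nonzero maps from `C` to stable modules -/
private theorem sep_fac (hC : Crd k e) {u z : Fin n → ℤ} {X : Pr k A} (hX : HW e X u)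
    (hu : Ind k e u) (hT : Tb k e z X.C)
    (h2 : ∀ (M : Type) [AddCommGroup M] [Module A M] [Module k M] [IsScalarTower k A M]
      [Module.Finite k M], Tb k e z M → Tb k e u M)
    {β : Type} [AddCommGroup β] [Module A β] [Module k β] [IsScalarTower k A β]
    [Module.Finite k β] {β' : Type} [AddCommGroup β'] [Module A β'] [Module k β']
    [IsScalarTower k A β'] [Module.Finite k β'] (hβ : Sta k e z β) (hβ' : Sta k e z β')
    (g : X.C →ₗ[A] β) (g' : X.C →ₗ[A] β') (hg : g ≠ 0) (hg' : g' ≠ 0) :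
    ∃ h : β →ₗ[A] β', g' = h ∘ₗ g ∧ h ≠ 0 := by
  have hs : Surjective g := Sta.surj hC hT hβ g hg
  have hK : Tb k e z (LinearMap.ker g) := ker_Tb hC hT (hβ.ws hC).2 g
  have _ := finite_sub (k := k) (LinearMap.ker g)
  by_cases hr : g' ∘ₗ (LinearMap.ker g).subtype = 0
  · have hle : LinearMap.ker g ≤ LinearMap.ker g' := by
      intro x hx
      exact LinearMap.congr_fun hr ⟨x, hx⟩
    refine ⟨(LinearMap.ker g).liftQ g' hle ∘ₗ
      (g.quotKerEquivOfSurjective hs).symm.toLinearMap, ?_, ?_⟩
    · refine LinearMap.ext fun x => ?_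
      change g' x = (LinearMap.ker g).liftQ g' hle ((g.quotKerEquivOfSurjective hs).symm (g x))
      have h3 : (g.quotKerEquivOfSurjective hs).symm (g x) = (LinearMap.ker g).mkQ x := by
        rw [LinearEquiv.symm_apply_eq]
        rfl
      rw [h3, Submodule.mkQ_apply, Submodule.liftQ_apply]
    · intro h0
      apply hg'
      refine LinearMap.ext fun x => ?_
      have h3 : (g.quotKerEquivOfSurjective hs).symm (g x) = (LinearMap.ker g).mkQ x := by
        rw [LinearEquiv.symm_apply_eq]
        rfl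
      have h4 := LinearMap.congr_fun h0 (g x)
      change (LinearMap.ker g).liftQ g' hle ((g.quotKerEquivOfSurjective hs).symm (g x)) = 0 at h4
      rw [h3, Submodule.mkQ_apply, Submodule.liftQ_apply] at h4
      exact h4
  · exfalso
    have hrs : Surjective (g' ∘ₗ (LinearMap.ker g).subtype) := Sta.surj hC hK hβ' _ hr
    have hps : Surjective (LinearMap.prod g g') := by
      rintro ⟨b, b'⟩
      obtain ⟨c, hc⟩ := hs b
      obtain ⟨κ, hκ⟩ := hrs (b' - g' c)
      refine ⟨c + κ, ?_⟩
      have h3 : g (κ : X.C) = 0 := κ.2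
      have h4 : g' (κ : X.C) = b' - g' c := hκ
      rw [LinearMap.prod_apply]
      refine Prod.ext ?_ ?_
      · change g (c + κ) = b
        rw [map_add, h3, add_zero, hc]
      · change g' (c + κ) = b'
        rw [map_add, h4]
        abel
    have hK2 : Tb k e z (LinearMap.ker (LinearMap.prod g g')) :=
      ker_Tb hC hT (Ws.prod hC (hβ.ws hC) (hβ'.ws hC)).2 _
    have _ := finite_sub (k := k) (LinearMap.ker (LinearMap.prod g g'))
    have hE : E0 X.f (LinearMap.ker (LinearMap.prod g g')) := (E0_iff hC hX).2 (h2 _ hK2)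
    obtain ⟨φ, hφ⟩ := lift (k := k) X (LinearMap.prod g g') hps hE (LinearMap.prod g 0)
    have e1 : ∀ c, g (φ c) = g c := fun c => congrArg Prod.fst (LinearMap.congr_fun hφ c)
    have e2 : ∀ c, g' (φ c) = 0 := fun c => congrArg Prod.snd (LinearMap.congr_fun hφ c)
    rcases loc_ind_C hC hu hX φ with h3 | ⟨m, hm⟩
    · apply hg'
      refine LinearMap.ext fun x => ?_
      obtain ⟨y, rfl⟩ := h3.2 x
      exact e2 y
    · apply hg
      have h4 : ∀ (m : ℕ) (c : X.C), g ((φ ^ m) c) = g c := by
        intro m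
        induction m with
        | zero => intro c; rfl
        | succ m ih =>
          intro c
          rw [pow_succ']
          change g (φ ((φ ^ m) c)) = g c
          rw [e1, ih]
      refine LinearMap.ext fun x => ?_
      rw [← h4 m x, hm x, map_zero]
      rfl

section two

variable {u z : Fin n → ℤ}
variable {β : Type} [AddCommGroup β] [Module A β] [Module k β] [IsScalarTower k A β]
  [Module.Finite k β]
variable {β' : Type} [AddCommGroup β'] [Module A β'] [Module k β'] [IsScalarTower k A β']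
  [Module.Finite k β']

theorem ind_val [IsAlgClosed k] (hC : Crd k e) (hR : RR k A) (hu : Ind k e u)
    (h1 : ∀ (M : Type) [AddCommGroup M] [Module A M] [Module k M] [IsScalarTower k A M]
      [Module.Finite k M], Tt k e u M → Tb k e z M)
    (h2 : ∀ (M : Type) [AddCommGroup M] [Module A M] [Module k M] [IsScalarTower k A M]
      [Module.Finite k M], Tb k e z M → Tb k e u M)
    (hβ : Sta k e z β) (hβ' : Sta k e z β') (hpos : 0 < vd k e u β) :
    vd k e u β = 1 ∧ (¬ Nonempty (β ≃ₗ[A] β') → vd k e u β' = 0) := by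
  obtain ⟨X, hX, -⟩ := exists_pr hC hR u
  have hT : Tb k e z X.C := h1 X.C (C_Tt hC hX)
  have hval : ∀ (M : Type) [AddCommGroup M] [Module A M] [Module k M] [IsScalarTower k A M]
      [Module.Finite k M], Sta k e z M → (hd k A X.C M : ℤ) = vd k e u M := by
    intro M _ _ _ _ _ hM
    have h3 := (E0_iff_ex (k := k) X M).1 ((E0_iff hC hX).2 (h2 M (hM.ws hC).1))
    have h4 := hd_C hX M
    rw [h3] at h4
    simpa using h4
  obtain ⟨g, hg⟩ := exists_hom hX hpos
  constructor
  · have h5 : hd k A X.C β ≤ 1 := by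
      refine finrank_le_one g fun g' => ?_
      by_cases hg' : g' = 0
      · exact ⟨0, by rw [hg', zero_smul]⟩
      · obtain ⟨h, rfl, -⟩ := sep_fac hC hX hu hT h2 hβ hβ g g' hg hg'
        obtain ⟨c, hc⟩ := Sta.schur hC hβ h
        refine ⟨c, LinearMap.ext fun x => ?_⟩
        exact (hc (g x)).symm
    have h6 := hval β hβ
    omega
  · intro hne
    rw [← hval β' hβ']
    have h7 : hd k A X.C β' = 0 := by
      refine (hd_zero_iff (k := k) X β').2 fun g' => ?_
      by_contra hg'
      obtain ⟨h, -, hh⟩ := sep_fac hC hX hu hT h2 hβ hβ' g g' hg hg'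
      exact hne ⟨LinearEquiv.ofBijective h (Sta.bij hC hβ hβ' h hh)⟩
    rw [h7]
    rfl

end two

theorem exists_sep [IsAlgClosed k] (hC : Crd k e) (hR : RR k A) {z : Fin n → ℤ}
    {β : Type} [AddCommGroup β] [Module A β] [Module k β] [IsScalarTower k A β]
    [Module.Finite k β] (hβ : Sta k e z β) :
    ∃ y, vd k e y β = 1 ∧ ∀ (β' : Type) [AddCommGroup β'] [Module A β'] [Module k β']
      [IsScalarTower k A β'] [Module.Finite k β'], Sta k e z β' →
      ¬ Nonempty (β ≃ₗ[A] β') → vd k e y β' = 0 := by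
  obtain ⟨N0, hN⟩ := plus hC hR z
  obtain ⟨-, hM⟩ := hN N0 le_rfl
  have hnt : Nontrivial β := hβ.1
  have hpos : 0 < vd k e (N0 • z + 1) β := by
    rw [vd_add, vd_nsmul, hβ.2.1, mul_zero, zero_add]
    exact vd_one_pos (k := k) (e := e) β hC
  obtain ⟨u, w, hu, huw, hc, hup⟩ := exists_ind_pos hC hR (N0 • z + 1) β hpos
  have hcu : Cmp k e (u + w) u := (Cmp.add_iff hC hR huw).2 ⟨Cmp.self u, huw.symm⟩
  rw [hc] at hM
  have h1 : ∀ (M : Type) [AddCommGroup M] [Module A M] [Module k M] [IsScalarTower k A M]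
      [Module.Finite k M], Tt k e u M → Tb k e z M := by
    intro M _ _ _ _ _ h
    exact (hM M).2.1.1 ((hcu M).2 h)
  have h2 : ∀ (M : Type) [AddCommGroup M] [Module A M] [Module k M] [IsScalarTower k A M]
      [Module.Finite k M], Tb k e z M → Tb k e u M := by
    intro M _ _ _ _ _ h
    exact ((Cmp.Tb_add M hC hR huw).1 ((hM M).2.1.2 h)).1
  have h3 := ind_val hC hR hu h1 h2 hβ hβ hup
  refine ⟨u, h3.1, ?_⟩
  intro β' _ _ _ _ _ hβ' hne
  exact (ind_val hC hR hu h1 h2 hβ hβ' hup).2 hne

end BT3
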