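import Mathlib
import Pool.Agent.BT3.Sep

/-!
BT3.Vst: stability of nonsplit extensions of two stable modules, and the pushout extension.

* `two_step`: `0 → β → E → β' → 0` exact, `β`, `β'` `z`-stable, not isomorphic, the extension does not
  split, `w(β) = -1`, `w(β') = 1`, `N > (∑ |w i|) * dim E`.  Then `E` is `(N z + w)`-stable.
  `E` is `z`-semistable (`Ws.ses`).  `(N z + w)(E) = 0`.  Let `U` be a nonzero proper submodule; `z(U) ≤ 0`.
  If `z(U) ≤ -1` then `(N z + w)(U) ≤ - N + (∑ |w i|) dim E < 0` (`vd_abs_le`, `dim U ≤ dim E`).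
  If `z(U) = 0` then `U` is semistable (`Ws.sub`).  If `p U = 0` then `U ≤ range i`, `U ≅` a nonzero
  submodule of `β` of `z`-weight zero, so `U = range i`, `w(U) = -1 < 0`.  If `p U ≠ 0` then `p : U → β'` is
  onto (`Sta.surj`); its kernel `U ⊓ range i` has weight zero, so it is `0` or `range i`.  If it is
  `range i` then `U ≥ range i = ker p` and `p U = β'`, so `U = ⊤`, contradiction.  If it is `0` then
  `p : U → β'` is bijective and its inverse splits the sequence, contradiction.
* `pushout`: `K ≤ C` a submodule, `π : C → β'` onto with kernel `K`, `ξ : K → β`.  `E = (β × C) ⧸ R`,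
  `R = {(ξ κ, - κ) | κ ∈ K}`; `i b = [(b, 0)]`, `p [(b, c)] = π c`, `j c = [(0, c)]`.
  `i` is injective (`(b, 0) = (ξ κ, -κ)` gives `κ = 0`), `p` is onto, `ker p = range i`
  (`π c = 0`: `[(b, c)] = [(b + ξ c, 0)]`), `p j = π`, `j κ = i (ξ κ)` for `κ ∈ K`.
* `retract`: if `p` has a section then there is `r : E → β` with `r i = id`, so `η = r j` extends `ξ`.
-/

namespace BT3

open Module Function BT

variable {k A : Type} [Field k] [Ring A] [Algebra k A] {n : ℕ} {e : Fin n → A}
  [Module.Finite k A]

section two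

variable {z w : Fin n → ℤ}
variable {β : Type} [AddCommGroup β] [Module A β] [Module k β] [IsScalarTower k A β]
  [Module.Finite k β]
variable {β' : Type} [AddCommGroup β'] [Module A β'] [Module k β'] [IsScalarTower k A β']
  [Module.Finite k β']
variable {E : Type} [AddCommGroup E] [Module A E] [Module k E] [IsScalarTower k A E]
  [Module.Finite k E]

private theorem comap_equiv (i : β →ₗ[A] E) (p : E →ₗ[A] β') (hi : Injective i)
    (hex : LinearMap.range i = LinearMap.ker p) (U : Submodule A E) :
    Nonempty ((U.comap i) ≃ₗ[A] LinearMap.ker (p ∘ₗ U.subtype)) := by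
  have hpi : ∀ b, p (i b) = 0 := fun b => by
    have h : i b ∈ LinearMap.ker p := hex ▸ LinearMap.mem_range_self i b
    exact h
  let φ : (U.comap i) →ₗ[A] LinearMap.ker (p ∘ₗ U.subtype) :=
    { toFun := fun v => ⟨⟨i v, v.2⟩, hpi v⟩
      map_add' := fun v w => by
        refine Subtype.ext (Subtype.ext ?_)
        change i (v + w : β) = i v + i w
        exact map_add i _ _
      map_smul' := fun a v => by
        refine Subtype.ext (Subtype.ext ?_)
        change i (a • (v : β)) = a • i v
        exact map_smul i _ _ }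
  refine ⟨LinearEquiv.ofBijective φ ⟨?_, ?_⟩⟩
  · intro v w h
    have h1 : (((φ v : LinearMap.ker (p ∘ₗ U.subtype)) : U) : E) = ((φ w : _) : U) := by rw [h]
    have h1 : i (v : β) = i (w : β) := h1
    exact Subtype.ext (hi h1)
  · intro u
    have h1 : ((u : U) : E) ∈ LinearMap.range i := by
      rw [hex]
      exact u.2
    obtain ⟨b, hb⟩ := h1
    refine ⟨⟨b, ?_⟩, ?_⟩
    · change i b ∈ U
      rw [hb]
      exact (u : U).2
    · refine Subtype.ext (Subtype.ext ?_)
      exact hb

theorem two_step (hC : Crd k e) (hβ : Sta k e z β) (hβ' : Sta k e z β')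
    (i : β →ₗ[A] E) (p : E →ₗ[A] β') (hi : Injective i) (hp : Surjective p)
    (hex : LinearMap.range i = LinearMap.ker p)
    (hns : ¬ ∃ s : β' →ₗ[A] E, p ∘ₗ s = LinearMap.id) (hw : vd k e w β = -1)
    (hw' : vd k e w β' = 1) (N : ℕ) (hN : (∑ i, |w i|) * (finrank k E : ℤ) < N) :
    Sta k e (N • z + w) E := by
  have hE : Ws k e z E := Ws.ses hC i p hi hp hex (Sta.ws hC hβ) (Sta.ws hC hβ')
  have hβ1 := hβ.1
  refine ⟨hi.nontrivial, ?_, ?_⟩
  · rw [vd_add, vd_nsmul, vd_ses hC z i p hi hp hex, vd_ses hC w i p hi hp hex, hβ.2.1,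
      hβ'.2.1, hw, hw']
    ring
  · intro U hU0 hU1
    have hfU : Module.Finite k U := finite_sub U
    have hpi : ∀ b, p (i b) = 0 := fun b => by
      have h : i b ∈ LinearMap.ker p := hex ▸ LinearMap.mem_range_self i b
      exact h
    rw [vd_add, vd_nsmul]
    have hz : vd k e z U ≤ 0 := hE.2 U
    have habs := vd_abs_le (k := k) (e := e) (M := U) w
    have hdim : finrank k U ≤ finrank k E :=
      LinearMap.finrank_le_finrank_of_injective (f := U.subtype.restrictScalars k)
        Subtype.val_injective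
    have hsum : 0 ≤ ∑ i, |w i| := Finset.sum_nonneg fun i _ => abs_nonneg (w i)
    have hle : vd k e w U ≤ (∑ i, |w i|) * (finrank k E : ℤ) := by
      refine (le_abs_self _).trans (habs.trans ?_)
      exact mul_le_mul_of_nonneg_left (by exact_mod_cast hdim) hsum
    rcases lt_or_eq_of_le hz with hz | hz
    · have h1 : (N : ℤ) * vd k e z U ≤ -(N : ℤ) := by
        have h2 : vd k e z U ≤ -1 := by omega
        have h3 := mul_le_mul_of_nonneg_left h2 (Int.natCast_nonneg N)
        linarith
      linarith
    · rw [hz]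
      obtain ⟨F⟩ := comap_equiv i p hi hex U
      have hUW : Ws k e z U := Ws.sub hC hE U hz
      by_cases hq : p ∘ₗ U.subtype = 0
      · have hker : LinearMap.ker (p ∘ₗ U.subtype) = ⊤ := by
          rw [hq]
          exact LinearMap.ker_zero
        have G : (U.comap i) ≃ₗ[A] U := F.trans (LinearEquiv.ofTop _ hker)
        have hzV : vd k e z (U.comap i) = 0 := by
          rw [vd_congr z G, hz]
        have hV0 : U.comap i ≠ ⊥ := by
          intro h
          apply hU0
          rw [Submodule.eq_bot_iff]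
          intro u hu
          have h1 : u ∈ LinearMap.range i := by
            rw [hex]
            exact LinearMap.congr_fun hq ⟨u, hu⟩
          obtain ⟨b, rfl⟩ := h1
          have h2 : b ∈ U.comap i := hu
          rw [h, Submodule.mem_bot] at h2
          rw [h2, map_zero]
        have hV1 : U.comap i = ⊤ := by
          by_contra h
          have h1 := hβ.2.2 _ hV0 h
          rw [hzV] at h1
          exact lt_irrefl _ h1
        have hw1 : vd k e w U = -1 := by
          rw [← vd_congr w G, vd_congr w (LinearEquiv.ofTop _ hV1), hw]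
        rw [hw1]
        norm_num
      · exfalso
        have hsurj : Surjective (p ∘ₗ U.subtype) := Sta.surj hC hUW.1 hβ' _ hq
        have hzK : vd k e z (LinearMap.ker (p ∘ₗ U.subtype)) = 0 := by
          have h1 := vd_ker_range hC z (p ∘ₗ U.subtype)
          have h2 : LinearMap.range (p ∘ₗ U.subtype) = ⊤ := LinearMap.range_eq_top.mpr hsurj
          rw [vd_congr z (LinearEquiv.ofTop _ h2), hβ'.2.1, hz] at h1
          linarith
        have hzV : vd k e z (U.comap i) = 0 := by
          rw [vd_congr z F, hzK]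
        by_cases hV1 : U.comap i = ⊤
        · apply hU1
          rw [Submodule.eq_top_iff']
          intro x
          obtain ⟨u, hu⟩ := hsurj (p x)
          have h1 : x - (u : E) ∈ LinearMap.range i := by
            rw [hex, LinearMap.mem_ker, map_sub]
            change p x - (p ∘ₗ U.subtype) u = 0
            rw [hu, sub_self]
          obtain ⟨b, hb⟩ := h1
          have h2 : b ∈ U.comap i := by
            rw [hV1]
            exact Submodule.mem_top
          have h3 : i b ∈ U := h2
          rw [hb] at h3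
          have h4 := U.add_mem h3 u.2
          rwa [sub_add_cancel] at h4
        · have hV0 : U.comap i = ⊥ := by
            by_contra h
            have h1 := hβ.2.2 _ h hV1
            rw [hzV] at h1
            exact lt_irrefl _ h1
          have hinj : Injective (p ∘ₗ U.subtype) := by
            rw [← LinearMap.ker_eq_bot, Submodule.eq_bot_iff]
            intro u hu
            have h1 : (u : E) ∈ LinearMap.range i := by
              rw [hex]
              exact hu
            obtain ⟨b, hb⟩ := h1
            have h2 : b ∈ U.comap i := by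
              change i b ∈ U
              rw [hb]
              exact u.2
            rw [hV0, Submodule.mem_bot] at h2
            rw [h2, map_zero] at hb
            exact Subtype.ext hb.symm
          let G := LinearEquiv.ofBijective (p ∘ₗ U.subtype) ⟨hinj, hsurj⟩
          refine hns ⟨U.subtype ∘ₗ G.symm.toLinearMap, ?_⟩
          ext y
          exact G.apply_symm_apply y

/-- the pushout extension -/
theorem pushout {C : Type} [AddCommGroup C] [Module A C] [Module k C] [IsScalarTower k A C]
    [Module.Finite k C] (π : C →ₗ[A] β') (hπ : Surjective π) (ξ : LinearMap.ker π →ₗ[A] β) :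
    ∃ (E : FM k A) (i : β →ₗ[A] E.X) (p : E.X →ₗ[A] β') (j : C →ₗ[A] E.X), Injective i ∧
      Surjective p ∧ LinearMap.range i = LinearMap.ker p ∧ p ∘ₗ j = π ∧
      ∀ κ : LinearMap.ker π, j κ = i (ξ κ) := by
  let R : Submodule A (β × C) := LinearMap.range (LinearMap.prod ξ (-(LinearMap.ker π).subtype))
  have hR : ∀ κ : LinearMap.ker π, ((ξ κ, -(κ : C)) : β × C) ∈ R := fun κ => ⟨κ, rfl⟩
  have hRp : R ≤ LinearMap.ker (π ∘ₗ LinearMap.snd A β C) := by
    rintro _ ⟨κ, rfl⟩
    change π (-(κ : C)) = 0
    rw [map_neg, (show π (κ : C) = 0 from κ.2), neg_zero]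
  have hfin : Module.Finite k ((β × C) ⧸ R) := finite_quot _
  refine ⟨{ X := (β × C) ⧸ R }, R.mkQ ∘ₗ LinearMap.inl A β C,
    R.liftQ (π ∘ₗ LinearMap.snd A β C) hRp, R.mkQ ∘ₗ LinearMap.inr A β C, ?_, ?_, ?_, ?_, ?_⟩
  · rw [← LinearMap.ker_eq_bot, LinearMap.ker_eq_bot']
    intro b hb
    have h1 : ((b, 0) : β × C) ∈ R := (Submodule.Quotient.mk_eq_zero R).mp hb
    obtain ⟨κ, hκ⟩ := h1
    have h2 : ξ κ = b := congrArg Prod.fst hκ
    have h3 : -(κ : C) = 0 := congrArg Prod.snd hκ
    have h4 : κ = 0 := Subtype.ext (neg_eq_zero.mp h3)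
    rw [← h2, h4, map_zero]
  · intro y
    obtain ⟨c, hc⟩ := hπ y
    exact ⟨R.mkQ (0, c), hc⟩
  · apply le_antisymm
    · rintro _ ⟨b, rfl⟩
      change π (0 : C) = 0
      exact map_zero π
    · intro x hx
      obtain ⟨⟨b, c⟩, rfl⟩ := Submodule.Quotient.mk_surjective R x
      have hc : π c = 0 := hx
      refine ⟨b + ξ ⟨c, hc⟩, ?_⟩
      change Submodule.Quotient.mk ((b + ξ ⟨c, hc⟩, 0) : β × C) = Submodule.Quotient.mk (b, c)
      rw [Submodule.Quotient.eq]
      have h1 := hR ⟨c, hc⟩
      have h2 : ((b + ξ ⟨c, hc⟩, 0) : β × C) - (b, c) = (ξ ⟨c, hc⟩, -c) := by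
        refine Prod.ext ?_ ?_
        · change b + ξ ⟨c, hc⟩ - b = ξ ⟨c, hc⟩
          abel
        · change (0 : C) - c = -c
          abel
      rw [h2]
      exact h1
  · ext c
    rfl
  · intro κ
    change Submodule.Quotient.mk ((0, (κ : C)) : β × C) = Submodule.Quotient.mk (ξ κ, 0)
    symm
    rw [Submodule.Quotient.eq]
    have h2 : ((ξ κ, 0) : β × C) - (0, (κ : C)) = (ξ κ, -(κ : C)) := by
      refine Prod.ext ?_ ?_
      · change ξ κ - 0 = ξ κ
        abel
      · change (0 : C) - (κ : C) = -(κ : C)
        abel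
    rw [h2]
    exact hR κ

/-- splitting gives a retraction -/
theorem retract (i : β →ₗ[A] E) (p : E →ₗ[A] β') (hi : Injective i)
    (hex : LinearMap.range i = LinearMap.ker p) (s : β' →ₗ[A] E) (hs : p ∘ₗ s = LinearMap.id) :
    ∃ r : E →ₗ[A] β, r ∘ₗ i = LinearMap.id := by
  have hmem : ∀ x, (LinearMap.id - s ∘ₗ p : E →ₗ[A] E) x ∈ LinearMap.range i := by
    intro x
    rw [hex, LinearMap.mem_ker]
    change p (x - s (p x)) = 0
    have h1 : p (s (p x)) = p x := LinearMap.congr_fun hs (p x)
    rw [map_sub, h1, sub_self]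
  refine ⟨(LinearEquiv.ofInjective i hi).symm.toLinearMap ∘ₗ
    (LinearMap.id - s ∘ₗ p : E →ₗ[A] E).codRestrict (LinearMap.range i) hmem, ?_⟩
  ext b
  change (LinearEquiv.ofInjective i hi).symm ⟨(LinearMap.id - s ∘ₗ p : E →ₗ[A] E) (i b), _⟩ = b
  rw [LinearEquiv.symm_apply_eq]
  refine Subtype.ext ?_
  change i b - s (p (i b)) = i b
  have h1 : p (i b) = 0 := by
    have h : i b ∈ LinearMap.ker p := hex ▸ LinearMap.mem_range_self i b
    exact h
  rw [h1, map_zero, sub_zero]

end two

end BT3
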