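import Mathlib
import Pool.Agent.BT3.Vst

/-!
BT3.Vext: the extension space of two non-isomorphic stable modules is at most one-dimensional.

`X` is a presentation of weight `c` with `Tb c M ↔ Tb z M` for all `M` (for instance `c = N z + 1`, `plus`),
`C = X.C`, `π : C → β'` onto.
Proof.  Suppose that `λ1 ξ1 + λ2 ξ2` extends to `C` only for `λ1 = λ2 = 0` (*).
For `t : k` let `ξ_t = ξ1 + t ξ2` and `E_t` the pushout extension (`pushout`), `i_t, p_t, j_t`.  It does not
split: a retraction `r` (`retract`) gives `η = r j_t` with `η κ = ξ_t κ`, contradicting (*) for `(1, t)`.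
By `exists_sep` for `β` and for `β'` there is `w` with `w(β) = -1`, `w(β') = 1`
(`w = y' - y`).  All `E_t` have the same dimension, so there is one `N` such that all `E_t` are
`θ`-stable, `θ = N z + w` (`two_step`).  Take a rigid presentation `Y` of weight `θ` (`exists_pr`) and the
bound `n0` of `BT.bound` for `Y.f` (with `St_iff`).  As `k` is infinite there are `n0 + 1` different `t`,
so `E_s ≅ E_t` for some `s ≠ t` in this set (otherwise `n0 + 1 ≤ n0`).  Let `ψ : E_s → E_t` be the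
isomorphism.  `p_t ψ i_s : β → β'` is zero (`Sta.bij`), so `ψ i_s = i_t ∘ (c)` for a scalar `c`
(`Sta.schur`), and `ψ` induces `β' → β'`, a scalar `c'`: `p_t ψ = c' p_s`.  `c`, `c'` are not zero.
`p_t (ψ j_s - c' j_t) = c' p_s j_s - c' p_t j_t = c' π - c' π = 0`, so `ψ j_s - c' j_t = i_t η`,
`η : C → β`.  For `κ ∈ ker π`: `ψ j_s κ = ψ i_s ξ_s κ = c i_t ξ_s κ`, so
`η κ = c ξ_s κ - c' ξ_t κ = (c - c') ξ1 κ + (c s - c' t) ξ2 κ`.  By (*) `c = c'` and `c s = c' t`, so
`s = t`, contradiction.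
-/

namespace BT3

open Module Function BT

variable {k A : Type} [Field k] [Ring A] [Algebra k A] {n : ℕ} {e : Fin n → A}
  [Module.Finite k A]

variable {z c : Fin n → ℤ}
variable {β : Type} [AddCommGroup β] [Module A β] [Module k β] [IsScalarTower k A β]
  [Module.Finite k β]
variable {β' : Type} [AddCommGroup β'] [Module A β'] [Module k β'] [IsScalarTower k A β']
  [Module.Finite k β']

private theorem vext_fac_inj {R M N P : Type} [Ring R] [AddCommGroup M] [Module R M]
    [AddCommGroup N] [Module R N] [AddCommGroup P] [Module R P] (i : N →ₗ[R] P)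
    (hi : Injective i) (f : M →ₗ[R] P) (h : ∀ m, f m ∈ LinearMap.range i) :
    ∃ g : M →ₗ[R] N, ∀ m, i (g m) = f m := by
  refine ⟨(LinearEquiv.ofInjective i hi).symm.toLinearMap ∘ₗ f.codRestrict _ h, fun m => ?_⟩
  have h1 := (LinearEquiv.ofInjective i hi).apply_symm_apply (f.codRestrict _ h m)
  exact congrArg Subtype.val h1

private theorem vext_fac_surj {R M N P : Type} [Ring R] [AddCommGroup M] [Module R M]
    [AddCommGroup N] [Module R N] [AddCommGroup P] [Module R P] (p : M →ₗ[R] N)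
    (hp : Surjective p) (f : M →ₗ[R] P) (h : ∀ m, p m = 0 → f m = 0) :
    ∃ g : N →ₗ[R] P, ∀ m, g (p m) = f m := by
  have hk : LinearMap.ker p ≤ LinearMap.ker f := fun m hm => h m hm
  refine ⟨(LinearMap.ker p).liftQ f hk ∘ₗ (LinearMap.quotKerEquivOfSurjective p hp).symm.toLinearMap,
    fun m => ?_⟩
  have h1 : (LinearMap.quotKerEquivOfSurjective p hp).symm (p m) = (LinearMap.ker p).mkQ m := by
    rw [LinearEquiv.symm_apply_eq]
    rfl
  change (LinearMap.ker p).liftQ f hk ((LinearMap.quotKerEquivOfSurjective p hp).symm (p m)) = f m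
  rw [h1]
  rfl

theorem ext_dep [IsAlgClosed k] (hC : Crd k e) (hR : RR k A) {X : Pr k A} (hX : HW e X c)
    (hc : ∀ (M : Type) [AddCommGroup M] [Module A M] [Module k M] [IsScalarTower k A M]
      [Module.Finite k M], Tb k e c M ↔ Tb k e z M)
    (hβ : Sta k e z β) (hβ' : Sta k e z β') (hne : ¬ Nonempty (β ≃ₗ[A] β'))
    (π : X.C →ₗ[A] β') (hπ : Surjective π) (ξ1 ξ2 : LinearMap.ker π →ₗ[A] β) :
    ∃ l1 l2 : k, (l1 ≠ 0 ∨ l2 ≠ 0) ∧ ∃ η : X.C →ₗ[A] β, ∀ κ : LinearMap.ker π,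
      l1 • ξ1 κ + l2 • ξ2 κ = η κ := by
  classical
  by_contra hcon
  choose E i p j hi hp hex hpj hjκ using fun t : k => pushout (k := k) π hπ (ξ1 + t • ξ2)
  have hns : ∀ t, ¬ ∃ s : β' →ₗ[A] (E t).X, p t ∘ₗ s = LinearMap.id := by
    rintro t ⟨s, hs⟩
    obtain ⟨r, hr⟩ := retract (i t) (p t) (hi t) (hex t) s hs
    refine hcon ⟨1, t, Or.inl one_ne_zero, r ∘ₗ j t, fun κ => ?_⟩
    have h1 : r (i t ((ξ1 + t • ξ2) κ)) = (ξ1 + t • ξ2) κ := LinearMap.congr_fun hr _
    rw [LinearMap.comp_apply, hjκ t κ, h1, one_smul]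
    rfl
  obtain ⟨y, hy1, hy2⟩ := exists_sep hC hR hβ
  obtain ⟨y', hy1', hy2'⟩ := exists_sep hC hR hβ'
  have hyb : vd k e y β' = 0 := hy2 β' hβ' hne
  have hyb' : vd k e y' β = 0 := hy2' β hβ fun ⟨f⟩ => hne ⟨f.symm⟩
  have hw : vd k e (y' - y) β = -1 := by rw [vd_sub, hy1, hyb']; norm_num
  have hw' : vd k e (y' - y) β' = 1 := by rw [vd_sub, hy1', hyb]; norm_num
  have hdim : ∀ t, finrank k (E t).X = finrank k β + finrank k β' := by
    intro t
    have h1 := LinearMap.finrank_range_add_finrank_ker ((p t).restrictScalars k)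
    have h2 : finrank k (LinearMap.range ((p t).restrictScalars k)) = finrank k β' := by
      rw [LinearMap.range_eq_top.2 (show Surjective ((p t).restrictScalars k) from hp t), finrank_top]
    have h3 : LinearMap.ker ((p t).restrictScalars k) = LinearMap.range ((i t).restrictScalars k) := by
      ext x
      have h4 : x ∈ LinearMap.ker (p t) ↔ x ∈ LinearMap.range (i t) := by rw [hex t]
      exact h4
    have h4 : finrank k (LinearMap.range ((i t).restrictScalars k)) = finrank k β :=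
      LinearMap.finrank_range_of_inj (show Injective ((i t).restrictScalars k) from hi t)
    rw [h2, h3, h4] at h1
    omega
  set d : ℕ := finrank k β + finrank k β' with hd
  obtain ⟨N, hN⟩ : ∃ N : ℕ, (∑ i, |(y' - y) i|) * (d : ℤ) < N := by
    refine ⟨((∑ i, |(y' - y) i|) * (d : ℤ) + 1).toNat, ?_⟩
    have := Int.self_le_toNat ((∑ i, |(y' - y) i|) * (d : ℤ) + 1)
    omega
  have hsta : ∀ t, Sta k e (N • z + (y' - y)) (E t).X := fun t =>
    two_step hC hβ hβ' (i t) (p t) (hi t) (hp t) (hex t) (hns t) hw hw' N (by rw [hdim t]; exact hN)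
  obtain ⟨Y, hY, -⟩ := exists_pr hC hR (N • z + (y' - y))
  obtain ⟨n0, hn0⟩ := bound k Y.rig
  have hinf : Infinite k := IsAlgClosed.instInfinite
  let em : ℕ ↪ k := Infinite.natEmbedding k
  have hex2 : ∃ a b : Fin (n0 + 1), Nonempty ((E (em a)).X ≃ₗ[A] (E (em b)).X) ∧ a ≠ b := by
    by_contra h1
    have h2 := hn0 (n0 + 1) (fun a => (E (em a)).X) (fun a => (St_iff hY).2 (hsta _)) (by
      intro a b hab
      by_contra h3
      exact h1 ⟨a, b, hab, h3⟩)
    omega
  obtain ⟨a, b, ⟨ψ⟩, hab⟩ := hex2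
  set s : k := em a with hs
  set t : k := em b with ht
  have hst : s ≠ t := fun h => hab (Fin.ext (em.injective h))
  have hz : p t ∘ₗ ψ.toLinearMap ∘ₗ i s = 0 := by
    by_contra h
    exact hne ⟨LinearEquiv.ofBijective _ (Sta.bij hC hβ hβ' _ h)⟩
  have hz' : ∀ x, p t (ψ (i s x)) = 0 := fun x => LinearMap.congr_fun hz x
  obtain ⟨g, hg⟩ := vext_fac_inj (i t) (hi t) (ψ.toLinearMap ∘ₗ i s) (fun x => by
    rw [hex t, LinearMap.mem_ker]
    exact hz' x)
  obtain ⟨c1, hc1⟩ := Sta.schur hC hβ g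
  obtain ⟨g', hg'⟩ := vext_fac_surj (p s) (hp s) (p t ∘ₗ ψ.toLinearMap) (fun x hx => by
    have h1 : x ∈ LinearMap.range (i s) := by
      rw [hex s, LinearMap.mem_ker]
      exact hx
    obtain ⟨u, rfl⟩ := h1
    exact hz' u)
  obtain ⟨c2, hc2⟩ := Sta.schur hC hβ' g'
  have hc1ne : c1 ≠ 0 := by
    intro h
    have hnt := hβ.1
    obtain ⟨u, hu⟩ := exists_ne (0 : β)
    have h1 := hg u
    rw [hc1, h, zero_smul, map_zero] at h1
    have h2 : ψ (i s u) = 0 := h1.symm
    rw [LinearEquiv.map_eq_zero_iff] at h2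
    exact hu (hi s (by rw [h2, map_zero]))
  have hpj' : ∀ t x, p t (j t x) = π x := fun t x => LinearMap.congr_fun (hpj t) x
  obtain ⟨η, hη⟩ := vext_fac_inj (i t) (hi t) (ψ.toLinearMap ∘ₗ j s - c2 • j t) (fun x => by
    rw [hex t, LinearMap.mem_ker, LinearMap.sub_apply, map_sub, LinearMap.smul_apply,
      LinearMap.map_smul_of_tower, hpj', LinearMap.comp_apply]
    have h1 : p t (ψ.toLinearMap (j s x)) = g' (p s (j s x)) := (hg' _).symm
    rw [h1, hpj', hc2, sub_self])
  have hηκ : ∀ κ : LinearMap.ker π, η κ = (c1 - c2) • ξ1 κ + (c1 * s - c2 * t) • ξ2 κ := by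
    intro κ
    apply hi t
    rw [hη, LinearMap.sub_apply, LinearMap.smul_apply, LinearMap.comp_apply, hjκ s κ, hjκ t κ]
    have h1 : ψ.toLinearMap (i s ((ξ1 + s • ξ2) κ)) = i t (g ((ξ1 + s • ξ2) κ)) := (hg _).symm
    have h2 : c2 • (i t) ((ξ1 + t • ξ2) κ) = i t (c2 • (ξ1 + t • ξ2) κ) :=
      (LinearMap.map_smul_of_tower (i t) c2 _).symm
    rw [h1, hc1, h2, ← map_sub]
    congr 1
    simp only [LinearMap.add_apply, LinearMap.smul_apply, smul_add, smul_smul, sub_smul]
    abel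
  by_cases hl : (c1 - c2 ≠ 0 ∨ c1 * s - c2 * t ≠ 0)
  · exact hcon ⟨c1 - c2, c1 * s - c2 * t, hl, η, fun κ => (hηκ κ).symm⟩
  · push Not at hl
    have h1 : c1 = c2 := sub_eq_zero.1 hl.1
    rw [← h1] at hl
    have h2 : c1 * (s - t) = 0 := by
      rw [mul_sub]
      exact hl.2
    rcases mul_eq_zero.1 h2 with h3 | h3
    · exact hc1ne h3
    · exact hst (sub_eq_zero.1 h3)

end BT3
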