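import Mathlib
import Pool.Agent.BT3.Vext

/-!
BT3.Ext1: two consequences of `ext_dep`.

Let `X` be a presentation of weight `c = N z + 1` (`plus`), so `Tb c M ↔ Tb z M ↔ Tt c M`, `C = X.C`;
`vd c β' = vd 1 β' > 0`, so there is a nonzero `π : C → β'` (`exists_hom`), it is onto (`Sta.surj`).
For every surjection `q : M → M'` with `Tb z (ker q)` maps `C → M'` lift to `M` (`lift`, `E0_iff`).
* `ext1_sub`: `0 → β → Q → β' × β' → 0`.  `ker p = range i ≅ β` is in `T̄`; lift `(π, 0)` and `(0, π)` to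
  `φ1, φ2 : C → Q`.  For `κ ∈ ker π` `p φ_j κ = 0`, so `φ_j κ = i (ξ_j κ)`, `ξ_j : ker π → β`.  `ext_dep`
  gives `l1, l2`, `η`.  `ψ = l1 φ1 + l2 φ2 - i η : C → Q` kills `ker π`, so `ψ = s π` with
  `s : β' → Q` (`π` onto), and `p s π = (l1 π, l2 π)`, which is not zero.
  (`l • φ` for `φ` `A`-linear and `l : k` is `A`-linear because `k` is central.)
* `ext1_quot`: `0 → β × β → Q → β' → 0`.  Lift `π` to `φ : C → Q`; `φ κ = i (ξ1 κ, ξ2 κ)` on `ker π`.
  `ext_dep`: `l1 ξ1 + l2 ξ2 = η` on `ker π`.  Define `r : Q → β`: every `q ∈ Q` is `i (b1, b2) + φ c`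
  (choose `c` with `π c = p q`), `r q = l1 b1 + l2 b2 + η c`; it is well defined: if
  `i (b1, b2) + φ c = 0` then `π c = 0` and `(b1, b2) = -(ξ1 c, ξ2 c)`.  (Formally: the surjection
  `(β × β) × C → Q` and the map `(b, c) ↦ l1 b1 + l2 b2 + η c`, which kills its kernel;
  `LinearMap.quotKerEquivOfSurjective`, `Submodule.liftQ`.)  `r i (b1, b2) = l1 b1 + l2 b2` is not zero.
-/

namespace BT3

open Module Function BT

variable {k A : Type} [Field k] [Ring A] [Algebra k A] {n : ℕ} {e : Fin n → A}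
  [Module.Finite k A]

variable {z : Fin n → ℤ}
variable {β : Type} [AddCommGroup β] [Module A β] [Module k β] [IsScalarTower k A β]
  [Module.Finite k β]
variable {β' : Type} [AddCommGroup β'] [Module A β'] [Module k β'] [IsScalarTower k A β']
  [Module.Finite k β']
variable {Q : Type} [AddCommGroup Q] [Module A Q] [Module k Q] [IsScalarTower k A Q]
  [Module.Finite k Q]

omit [Module.Finite k A] in
private theorem ext1_fac {B K R : Type} [AddCommGroup B] [Module A B] [AddCommGroup K] [Module A K]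
    [AddCommGroup R] [Module A R] (i : B →ₗ[A] R) (hi : Injective i) (g : K →ₗ[A] R)
    (h : ∀ x, g x ∈ LinearMap.range i) : ∃ ξ : K →ₗ[A] B, ∀ x, i (ξ x) = g x := by
  refine ⟨(LinearEquiv.ofInjective i hi).symm.toLinearMap ∘ₗ g.codRestrict (LinearMap.range i) h,
    fun x => ?_⟩
  have h1 := (LinearEquiv.ofInjective i hi).apply_symm_apply (g.codRestrict (LinearMap.range i) h x)
  exact congrArg Subtype.val h1

omit [Module.Finite k A] in
private theorem ext1_ind {B C R : Type} [AddCommGroup B] [Module A B] [AddCommGroup C] [Module A C]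
    [AddCommGroup R] [Module A R] (π : C →ₗ[A] B) (hπ : Surjective π) (ψ : C →ₗ[A] R)
    (h : ∀ x, π x = 0 → ψ x = 0) : ∃ s : B →ₗ[A] R, ∀ x, s (π x) = ψ x := by
  have hk : LinearMap.ker π ≤ LinearMap.ker ψ := fun x hx => h x hx
  refine ⟨(LinearMap.ker π).liftQ ψ hk ∘ₗ
    (π.quotKerEquivOfSurjective hπ).symm.toLinearMap, fun x => ?_⟩
  have h1 : (π.quotKerEquivOfSurjective hπ).symm (π x) = Submodule.Quotient.mk x := by
    rw [LinearEquiv.symm_apply_eq]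
    rfl
  change (LinearMap.ker π).liftQ ψ hk ((π.quotKerEquivOfSurjective hπ).symm (π x)) = ψ x
  rw [h1]
  exact Submodule.liftQ_apply _ _ _

private theorem ext1_set (hC : Crd k e) (hR : RR k A) (hβ' : Sta k e z β') :
    ∃ (X : Pr k A) (c : Fin n → ℤ) (π : X.C →ₗ[A] β'), HW e X c ∧
      (∀ (M : Type) [AddCommGroup M] [Module A M] [Module k M] [IsScalarTower k A M]
      [Module.Finite k M], Tb k e c M ↔ Tb k e z M) ∧ Surjective π := by
  obtain ⟨N, hN⟩ := plus hC hR z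
  have h := (hN N le_rfl).2
  obtain ⟨X, hX, _⟩ := exists_pr hC hR (N • z + 1)
  have hnt : Nontrivial β' := hβ'.1
  have hpos : 0 < vd k e (N • z + 1) β' := by
    rw [vd_add, vd_nsmul, hβ'.2.1, mul_zero, zero_add]
    exact vd_one_pos β' hC
  obtain ⟨π, hπ⟩ := exists_hom hX hpos
  refine ⟨X, N • z + 1, π, hX, fun M => (h M).2.1, ?_⟩
  have h1 : Tb k e z X.C := (h X.C).2.1.1 (C_Tt hC hX).tb
  exact Sta.surj hC h1 hβ' π hπ

theorem ext1_sub [IsAlgClosed k] (hC : Crd k e) (hR : RR k A) (hβ : Sta k e z β)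
    (hβ' : Sta k e z β') (hne : ¬ Nonempty (β ≃ₗ[A] β')) (i : β →ₗ[A] Q)
    (p : Q →ₗ[A] β' × β') (hi : Injective i) (hp : Surjective p)
    (hex : LinearMap.range i = LinearMap.ker p) : ∃ s : β' →ₗ[A] Q, p ∘ₗ s ≠ 0 := by
  obtain ⟨X, c, π, hX, hc, hπ⟩ := ext1_set hC hR hβ'
  have hfk := finite_sub (k := k) (LinearMap.ker p)
  have hmem : ∀ b, i b ∈ LinearMap.ker p := fun b => hex ▸ LinearMap.mem_range_self i b
  have hK : E0 X.f (LinearMap.ker p) := by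
    rw [E0_iff hC hX, hc]
    refine Tb.of_surj hC (hβ.ws hC).1 (i.codRestrict (LinearMap.ker p) hmem) ?_
    rintro ⟨q, hq⟩
    rw [← hex] at hq
    obtain ⟨b, hb⟩ := hq
    exact ⟨b, Subtype.ext hb⟩
  obtain ⟨φ1, h1⟩ := lift X p hp hK (LinearMap.inl A β' β' ∘ₗ π)
  obtain ⟨φ2, h2⟩ := lift X p hp hK (LinearMap.inr A β' β' ∘ₗ π)
  have e1 : ∀ x, p (φ1 x) = (π x, 0) := fun x => LinearMap.congr_fun h1 x
  have e2 : ∀ x, p (φ2 x) = (0, π x) := fun x => LinearMap.congr_fun h2 x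
  obtain ⟨ξ1, f1⟩ := ext1_fac i hi (φ1 ∘ₗ (LinearMap.ker π).subtype) (fun x => by
    rw [hex, LinearMap.mem_ker]
    change p (φ1 x) = 0
    rw [e1, LinearMap.mem_ker.1 x.2]
    rfl)
  obtain ⟨ξ2, f2⟩ := ext1_fac i hi (φ2 ∘ₗ (LinearMap.ker π).subtype) (fun x => by
    rw [hex, LinearMap.mem_ker]
    change p (φ2 x) = 0
    rw [e2, LinearMap.mem_ker.1 x.2]
    rfl)
  obtain ⟨l1, l2, hl, η, hη⟩ := ext_dep hC hR hX hc hβ hβ' hne π hπ ξ1 ξ2
  obtain ⟨s, hs⟩ := ext1_ind π hπ (l1 • φ1 + l2 • φ2 - i ∘ₗ η) (fun x hx => by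
    have g1 : i (ξ1 ⟨x, hx⟩) = φ1 x := f1 ⟨x, hx⟩
    have g2 : i (ξ2 ⟨x, hx⟩) = φ2 x := f2 ⟨x, hx⟩
    have g3 := hη ⟨x, hx⟩
    change l1 • φ1 x + l2 • φ2 x - i (η x) = 0
    rw [← g1, ← g2, ← i.map_smul_of_tower l1, ← i.map_smul_of_tower l2, ← map_add, sub_eq_zero, g3])
  refine ⟨s, fun hps => ?_⟩
  have : Nontrivial β' := hβ'.1
  obtain ⟨y, hy⟩ := exists_ne (0 : β')
  obtain ⟨x, rfl⟩ := hπ y
  have g1 : p (s (π x)) = 0 := LinearMap.congr_fun hps (π x)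
  rw [hs] at g1
  change p (l1 • φ1 x + l2 • φ2 x - i (η x)) = 0 at g1
  rw [map_sub, map_add, p.map_smul_of_tower l1, p.map_smul_of_tower l2, e1, e2,
    LinearMap.mem_ker.1 (hmem (η x)), sub_zero] at g1
  have g2 := congrArg Prod.fst g1
  have g3 := congrArg Prod.snd g1
  change l1 • π x + l2 • (0 : β') = 0 at g2
  change l1 • (0 : β') + l2 • π x = 0 at g3
  rw [smul_zero, add_zero, smul_eq_zero] at g2
  rw [smul_zero, zero_add, smul_eq_zero] at g3
  rcases hl with hl | hl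
  · exact g2.elim hl hy
  · exact g3.elim hl hy

theorem ext1_quot [IsAlgClosed k] (hC : Crd k e) (hR : RR k A) (hβ : Sta k e z β)
    (hβ' : Sta k e z β') (hne : ¬ Nonempty (β ≃ₗ[A] β')) (i : β × β →ₗ[A] Q)
    (p : Q →ₗ[A] β') (hi : Injective i) (hp : Surjective p)
    (hex : LinearMap.range i = LinearMap.ker p) : ∃ r : Q →ₗ[A] β, r ∘ₗ i ≠ 0 := by
  obtain ⟨X, c, π, hX, hc, hπ⟩ := ext1_set hC hR hβ'
  have hfk := finite_sub (k := k) (LinearMap.ker p)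
  have hmem : ∀ b, i b ∈ LinearMap.ker p := fun b => hex ▸ LinearMap.mem_range_self i b
  have hK : E0 X.f (LinearMap.ker p) := by
    rw [E0_iff hC hX, hc]
    refine Tb.of_surj hC (Ws.prod hC (hβ.ws hC) (hβ.ws hC)).1
      (i.codRestrict (LinearMap.ker p) hmem) ?_
    rintro ⟨q, hq⟩
    rw [← hex] at hq
    obtain ⟨b, hb⟩ := hq
    exact ⟨b, Subtype.ext hb⟩
  obtain ⟨φ, h1⟩ := lift X p hp hK π
  have e1 : ∀ x, p (φ x) = π x := fun x => LinearMap.congr_fun h1 x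
  obtain ⟨ξ, f1⟩ := ext1_fac i hi (φ ∘ₗ (LinearMap.ker π).subtype) (fun x => by
    rw [hex, LinearMap.mem_ker]
    change p (φ x) = 0
    rw [e1, LinearMap.mem_ker.1 x.2])
  obtain ⟨l1, l2, hl, η, hη⟩ := ext_dep hC hR hX hc hβ hβ' hne π hπ
    (LinearMap.fst A β β ∘ₗ ξ) (LinearMap.snd A β β ∘ₗ ξ)
  let T : (β × β) × X.C →ₗ[A] Q := i ∘ₗ LinearMap.fst A _ _ + φ ∘ₗ LinearMap.snd A _ _
  let G : (β × β) × X.C →ₗ[A] β := l1 • (LinearMap.fst A β β ∘ₗ LinearMap.fst A _ _) +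
    l2 • (LinearMap.snd A β β ∘ₗ LinearMap.fst A _ _) + η ∘ₗ LinearMap.snd A _ _
  have hT : ∀ b x, T (b, x) = i b + φ x := fun b x => rfl
  have hG : ∀ (b : β × β) x, G (b, x) = l1 • b.1 + l2 • b.2 + η x := fun b x => rfl
  have hTs : Surjective T := by
    intro q
    obtain ⟨x, hx⟩ := hπ (p q)
    have h2 : q - φ x ∈ LinearMap.range i := by
      rw [hex, LinearMap.mem_ker, map_sub, e1, hx, sub_self]
    obtain ⟨b, hb⟩ := h2
    refine ⟨(b, x), ?_⟩
    rw [hT, hb, sub_add_cancel]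
  obtain ⟨r, hr⟩ := ext1_ind T hTs G (fun y hy => by
    obtain ⟨b, x⟩ := y
    rw [hT] at hy
    have h2 : π x = 0 := by
      have h3 := congrArg p hy
      rw [map_add, LinearMap.mem_ker.1 (hmem b), zero_add, map_zero, e1] at h3
      exact h3
    have g1 : i (ξ ⟨x, h2⟩) = φ x := f1 ⟨x, h2⟩
    have g2 : b = - ξ ⟨x, h2⟩ := by
      apply hi
      rw [map_neg, g1]
      exact eq_neg_of_add_eq_zero_left hy
    have g3 : l1 • (ξ ⟨x, h2⟩).1 + l2 • (ξ ⟨x, h2⟩).2 = η x := hη ⟨x, h2⟩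
    rw [hG, g2, ← g3]
    change l1 • (-(ξ ⟨x, h2⟩).1) + l2 • (-(ξ ⟨x, h2⟩).2) +
      (l1 • (ξ ⟨x, h2⟩).1 + l2 • (ξ ⟨x, h2⟩).2) = 0
    rw [smul_neg, smul_neg]
    abel)
  refine ⟨r, fun hri => ?_⟩
  have : Nontrivial β := hβ.1
  obtain ⟨y, hy⟩ := exists_ne (0 : β)
  have key : ∀ b : β × β, l1 • b.1 + l2 • b.2 = 0 := by
    intro b
    have g1 : r (i b) = 0 := LinearMap.congr_fun hri b
    have g2 := hr (b, 0)
    rw [hT, map_zero, add_zero, g1, hG, map_zero, add_zero] at g2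
    exact g2.symm
  have g2 := key (y, 0)
  have g3 := key (0, y)
  change l1 • y + l2 • (0 : β) = 0 at g2
  change l1 • (0 : β) + l2 • y = 0 at g3
  rw [smul_zero, add_zero, smul_eq_zero] at g2
  rw [smul_zero, zero_add, smul_eq_zero] at g3
  rcases hl with hl | hl
  · exact g2.elim hl hy
  · exact g3.elim hl hy

end BT3
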