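import Mathlib
import Pool.Agent.BT3.Ext1

/-!
BT3.Quo: a semistable module which is not cogenerated by the stable modules `βa`, `βb` has a quotient
of class `βa + βb`.

Proof.  Call a submodule `V` of `M` of weight zero (`vd z V = 0`) bad if there is a nonzero element of
`M ⧸ V` killed by all maps `M ⧸ V → βa` and `M ⧸ V → βb`.  `⊥` is bad.  Take a bad `V` of maximal
dimension and put `Q = M ⧸ V` (semistable, `Ws.quot`).  Let `R = {q ∈ Q | g q = 0 for all g : Q → βa and
all g : Q → βb}`, a nonzero submodule.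
1. `vd z R = 0`: `R` is the kernel of a map `Q → βa^p × βb^q` (finitely many maps suffice, `Hom` is finite
   dimensional), apply `ker_Tb` and `Fb.of_inj`.
2. If `U ≠ ⊥` is a submodule of `Q` with `vd z U = 0` then `R ≤ U`: `U` corresponds to a submodule of `M`
   strictly larger than `V` of weight zero, so it is not bad: every nonzero element of `Q ⧸ U` is not
   killed by some map `Q ⧸ U → βx`; for `r ∈ R` the class of `r` in `Q ⧸ U` is killed by all maps, so it is
   zero.
3. `R` is `z`-stable (a nonzero submodule `U` of `R` of weight zero contains `R`), so `R ≅ βs`,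
   `s ∈ {a, b}` (`hall`).  Let `t` be the other index.
4. `R ≠ ⊤`: otherwise `Q ≅ βs` and the isomorphism kills nothing.
5. `Q ⧸ R` is semistable and nonzero; the maps `Q → βx` factor through `Q ⧸ R` and separate its points:
   `Q ⧸ R` is cogenerated by `βa, βb` (if `q ∉ R` some map `Q → βx` does not kill `q`, and it kills `R`).
   Let `U1` be any stable submodule of `Q ⧸ R` (`Ws.exists_sub`), `Q1` its preimage in `Q`,
   `0 → R → Q1 → U1 → 0`.  If `U1 ≅ βs` then the sequence splits by `NSE βs` and the image `U` of the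
   section is a nonzero submodule of weight zero with `U ⊓ R = ⊥`, contradiction to 2.  So all stable
   submodules of `Q ⧸ R` are isomorphic to `βt`.
6. If `U1 = Q ⧸ R` then `vd y Q = vd y R + vd y (Q ⧸ R) = vd y βs + vd y βt`: done.
7. Otherwise there is `g : Q ⧸ R → βx` with `g ≠ 0` on `U1` (cogeneration), so `g : U1 → βx` is bijective
   and `Q ⧸ R = U1 ⊕ U2`, `U2 = ker g`, `vd z U2 = 0`, `U2 ≠ ⊥`.  `U2` has a stable submodule, by 5 it is
   isomorphic to `βt`, so there is an injective map `βt × βt → Q ⧸ R`.  Let `Q2` be the preimage of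
   its image in `Q`: `0 → βs → Q2 → βt × βt → 0`.  `ext1_sub` gives `σ : βt → Q2 ≤ Q` with nonzero composite
   to `βt × βt`.  `σ` is injective (`Sta.inj`); its image `U` has weight zero, so `R ≤ U` by 2, and `U` is
   stable (isomorphic to `βt`), `R` has weight zero, so `R = U`, so `βs ≅ βt`: contradiction.
-/

namespace BT3

open Module Function BT

variable {k A : Type} [Field k] [Ring A] [Algebra k A] {n : ℕ} {e : Fin n → A}
  [Module.Finite k A]

variable {z : Fin n → ℤ}
variable {βa : Type} [AddCommGroup βa] [Module A βa] [Module k βa] [IsScalarTower k A βa]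
  [Module.Finite k βa]
variable {βb : Type} [AddCommGroup βb] [Module A βb] [Module k βb] [IsScalarTower k A βb]
  [Module.Finite k βb]
variable {M : Type} [AddCommGroup M] [Module A M] [Module k M] [IsScalarTower k A M]
  [Module.Finite k M]

private theorem q_min {α : Type*} (P : α → Prop) (f : α → ℕ) (h : ∃ a, P a) :
    ∃ a, P a ∧ ∀ b, P b → f a ≤ f b := by
  obtain ⟨m, hm, h2⟩ := (measure f).wf.has_min {a | P a} h
  exact ⟨m, hm, fun b hb => not_lt.1 (h2 b hb)⟩

private theorem q_max {α : Type*} (P : α → Prop) (f : α → ℕ) (B : ℕ)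
    (hB : ∀ a, f a ≤ B) (h : ∃ a, P a) :
    ∃ a, P a ∧ ∀ b, P b → f b ≤ f a := by
  obtain ⟨m, hm, h2⟩ := q_min P (fun a => B - f a) h
  refine ⟨m, hm, fun b hb => ?_⟩
  have h3 : B - f m ≤ B - f b := h2 b hb
  have h4 := hB b
  have h5 := hB m
  omega

omit [Module.Finite k A] in
private theorem q_frk {U V : Submodule A M} (h : U < V) : finrank k U < finrank k V :=
  Submodule.finrank_lt_finrank_of_lt (s := U.restrictScalars k) (t := V.restrictScalars k) h

omit [Module.Finite k A] [Module.Finite k M] [Algebra k A] [Module k M] [IsScalarTower k A M] in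
private theorem q_ses (U : Submodule A M) (V : Submodule A (M ⧸ U)) :
    ∃ (i : U →ₗ[A] V.comap U.mkQ) (p : V.comap U.mkQ →ₗ[A] V), Injective i ∧ Surjective p ∧
      LinearMap.range i = LinearMap.ker p ∧ ∀ m, ((p m : V) : M ⧸ U) = U.mkQ (m : M) := by
  refine ⟨Submodule.inclusion (Submodule.le_comap_mkQ U V), U.mkQ.restrict (fun _ h => h),
    Submodule.inclusion_injective _, ?_, ?_, fun _ => rfl⟩
  · rintro ⟨v, hv⟩
    obtain ⟨m, rfl⟩ := Submodule.mkQ_surjective U v
    exact ⟨⟨m, hv⟩, rfl⟩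
  · ext ⟨m, hm⟩
    rw [LinearMap.mem_range, LinearMap.mem_ker]
    constructor
    · rintro ⟨u, hu⟩
      apply Subtype.ext
      have h1 : (u : M) = m := congrArg Subtype.val hu
      change U.mkQ m = 0
      rw [← h1, Submodule.mkQ_apply, Submodule.Quotient.mk_eq_zero]
      exact u.2
    · intro h
      have h1 : U.mkQ m = 0 := congrArg Subtype.val h
      rw [Submodule.mkQ_apply, Submodule.Quotient.mk_eq_zero] at h1
      exact ⟨⟨m, h1⟩, rfl⟩

private theorem q_comap (hC : Crd k e) (x : Fin n → ℤ) (U : Submodule A M)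
    (V : Submodule A (M ⧸ U)) :
    vd k e x (V.comap U.mkQ) = vd k e x U + vd k e x V := by
  have := finite_sub (k := k) (V.comap U.mkQ)
  obtain ⟨i, p, hi, hp, hex, _⟩ := q_ses U V
  exact vd_ses hC x i p hi hp hex

omit [Module.Finite k A] [Module.Finite k M] in
private theorem q_map (x : Fin n → ℤ) (U : Submodule A M) (V : Submodule A U) :
    vd k e x (V.map U.subtype) = vd k e x V :=
  (vd_congr x (Submodule.equivMapOfInjective U.subtype Subtype.val_injective V)).symm

omit [Module.Finite k A] [Module.Finite k M] [Module.Finite k βa] in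
private theorem q_range (ha : Sta k e z βa) (σ : βa →ₗ[A] M) (hσ : Injective σ) :
    vd k e z (LinearMap.range σ) = 0 ∧ LinearMap.range σ ≠ ⊥ := by
  refine ⟨by rw [← vd_congr z (LinearEquiv.ofInjective σ hσ)]; exact ha.2.1, fun h => ?_⟩
  have := ha.1
  obtain ⟨b, hb⟩ := exists_ne (0 : βa)
  apply hb
  apply hσ
  rw [map_zero]
  have h1 : σ b ∈ LinearMap.range σ := ⟨b, rfl⟩
  rw [h, Submodule.mem_bot] at h1
  exact h1

/-- the common kernel has weight zero -/
private theorem q_R (hC : Crd k e) (hQ : Ws k e z M) (ha : Sta k e z βa) (hb : Sta k e z βb)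
    (R : Submodule A M)
    (hR : ∀ m, m ∈ R ↔ (∀ g : M →ₗ[A] βa, g m = 0) ∧ ∀ g : M →ₗ[A] βb, g m = 0) :
    vd k e z R = 0 := by
  obtain ⟨U, ⟨hU1, hU2⟩, hmin⟩ := q_min (fun U : Submodule A M => vd k e z U = 0 ∧ R ≤ U)
    (fun U => finrank k U)
    ⟨⊤, by rw [vd_congr z (Submodule.topEquiv (R := A) (M := M))]; exact hQ.val, le_top⟩
  have := finite_sub (k := k) U
  have hUw := hQ.sub hC U hU1
  have gen : ∀ (β : Type) [AddCommGroup β] [Module A β] [Module k β] [IsScalarTower k A β]
      [Module.Finite k β], Sta k e z β → (∀ r ∈ R, ∀ g : M →ₗ[A] β, g r = 0) →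
      ∀ u ∈ U, ∀ g : M →ₗ[A] β, g u = 0 := by
    intro β _ _ _ _ _ hβ hk u hu g
    have h1 := vd_ker_range hC z (g ∘ₗ U.subtype)
    have h2 := range_val hC hUw.1 (hβ.ws hC).2 (g ∘ₗ U.subtype)
    have h3 := q_map (k := k) (e := e) z U (LinearMap.ker (g ∘ₗ U.subtype))
    have h4 := hmin ((LinearMap.ker (g ∘ₗ U.subtype)).map U.subtype) ⟨by omega, by
      intro r hr
      exact Submodule.mem_map.2 ⟨⟨r, hU2 hr⟩, LinearMap.mem_ker.2 (hk r hr g), rfl⟩⟩
    have h5 : (LinearMap.ker (g ∘ₗ U.subtype)).map U.subtype = U := by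
      by_contra hne
      exact absurd h4 (not_le.2 (q_frk (k := k)
        (lt_of_le_of_ne (Submodule.map_subtype_le U _) hne)))
    rw [← h5] at hu
    obtain ⟨v, hv, rfl⟩ := Submodule.mem_map.1 hu
    exact LinearMap.mem_ker.1 hv
  have h6 : U ≤ R := fun u hu => (hR u).2
    ⟨gen βa ha (fun r hr => ((hR r).1 hr).1) u hu, gen βb hb (fun r hr => ((hR r).1 hr).2) u hu⟩
  rw [le_antisymm hU2 h6]
  exact hU1

/-- the main step -/
private theorem q_core [IsAlgClosed k] (hC : Crd k e) (hR : RR k A) (hs : Sta k e z βa)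
    (ht : Sta k e z βb) (hne : ¬ Nonempty (βa ≃ₗ[A] βb))
    (hall : ∀ (L : Type) [AddCommGroup L] [Module A L] [Module k L] [IsScalarTower k A L]
      [Module.Finite k L], Sta k e z L → Nonempty (L ≃ₗ[A] βa) ∨ Nonempty (L ≃ₗ[A] βb))
    (hns : NSE k A βa) (hQ : Ws k e z M) (R : Submodule A M) (f : R ≃ₗ[A] βa)
    (h2 : ∀ U : Submodule A M, U ≠ ⊥ → vd k e z U = 0 → R ≤ U)
    (h3 : ∀ q, q ∉ R → (∃ g : M →ₗ[A] βa, g q ≠ 0) ∨ ∃ g : M →ₗ[A] βb, g q ≠ 0)
    (h4 : ∀ r ∈ R, (∀ g : M →ₗ[A] βa, g r = 0) ∧ ∀ g : M →ₗ[A] βb, g r = 0) :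
    ∀ y, vd k e y M = vd k e y βa + vd k e y βb := by
  have hn := hs.1
  have hRz : vd k e z R = 0 := by
    rw [vd_congr z f]
    exact hs.2.1
  have hRt : R ≠ ⊤ := by
    intro h
    obtain ⟨b, hb⟩ := exists_ne (0 : βa)
    have h5 := (h4 (f.symm b : M) (f.symm b).2).1 (f.toLinearMap ∘ₗ
      LinearMap.codRestrict R LinearMap.id (fun q => by rw [h]; exact Submodule.mem_top))
    apply hb
    rw [← f.apply_symm_apply b]
    exact h5
  have hL : Ws k e z (M ⧸ R) := hQ.quot hC R hRz
  have hLf : Module.Finite k (M ⧸ R) := finite_quot R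
  have hLn : Nontrivial (M ⧸ R) := Submodule.Quotient.nontrivial_iff.2 hRt
  have key : ∀ U1 : Submodule A (M ⧸ R), Sta k e z U1 → Nonempty (U1 ≃ₗ[A] βb) := by
    intro U1 hU1
    have := finite_sub (k := k) U1
    rcases hall U1 hU1 with h | h
    · exfalso
      obtain ⟨f1⟩ := h
      have := finite_sub (k := k) (U1.comap R.mkQ)
      obtain ⟨i, p, hi, hp, hex, hpm⟩ := q_ses R U1
      obtain ⟨s, hs'⟩ := hns (U1.comap R.mkQ) (i ∘ₗ f.symm.toLinearMap) (f1.toLinearMap ∘ₗ p)
        (hi.comp f.symm.injective) (f1.surjective.comp hp) (by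
          rw [LinearMap.range_comp, LinearEquiv.range, Submodule.map_top, hex]
          ext w
          rw [LinearMap.mem_ker, LinearMap.mem_ker]
          change p w = 0 ↔ f1 (p w) = 0
          exact f1.map_eq_zero_iff.symm)
      have hs2 : ∀ b, f1 (p (s b)) = b := fun b => LinearMap.congr_fun hs' b
      have hσ : Injective ((U1.comap R.mkQ).subtype ∘ₗ s) := by
        intro a b hab
        have h5 : s a = s b := Subtype.ext hab
        rw [← hs2 a, ← hs2 b, h5]
      obtain ⟨h6, h7⟩ := q_range hs _ hσ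
      obtain ⟨b, hb⟩ := exists_ne (0 : βa)
      obtain ⟨b', hb'⟩ := h2 _ h7 h6 (f.symm b).2
      have hb2 : ((s b' : U1.comap R.mkQ) : M) = (f.symm b : M) := hb'
      have h8 : p (s b') = 0 := by
        apply Subtype.ext
        rw [hpm, hb2, Submodule.mkQ_apply]
        exact (Submodule.Quotient.mk_eq_zero R).2 (f.symm b).2
      have h9 : b' = 0 := by
        rw [← hs2 b', h8, map_zero]
      rw [h9, map_zero] at hb2
      have h10 : f.symm b = 0 := Subtype.ext hb2.symm
      exact hb (f.symm.map_eq_zero_iff.1 h10)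
    · exact h
  obtain ⟨U1, hU1, hU1s, -⟩ := hL.exists_sub hC
  have hU1f := finite_sub (k := k) U1
  obtain ⟨f1⟩ := key U1 hU1s
  by_cases htop : U1 = ⊤
  · intro y
    rw [vd_quot hC y R, vd_congr y f, ← vd_congr y f1]
    subst htop
    rw [vd_congr y (Submodule.topEquiv (R := A) (M := M ⧸ R))]
  · exfalso
    obtain ⟨u, hu, hu0⟩ := (Submodule.ne_bot_iff U1).1 hU1
    obtain ⟨q, rfl⟩ := R.mkQ_surjective u
    have hq : q ∉ R := fun h => hu0 ((Submodule.Quotient.mk_eq_zero R).2 h)
    have gen : ∀ (β : Type) [AddCommGroup β] [Module A β] [Module k β] [IsScalarTower k A β]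
        [Module.Finite k β], Sta k e z β → ∀ g' : M →ₗ[A] β, R ≤ LinearMap.ker g' →
        g' q ≠ 0 → False := by
      intro β _ _ _ _ _ hβ g' hle hg'
      obtain ⟨g, hg⟩ : ∃ g : (M ⧸ R) →ₗ[A] β, ∀ m, g (R.mkQ m) = g' m :=
        ⟨R.liftQ g' hle, fun m => Submodule.liftQ_apply R g' m⟩
      have hg1 : (g ∘ₗ U1.subtype) ≠ 0 := by
        intro h
        apply hg'
        rw [← hg]
        exact LinearMap.congr_fun h ⟨R.mkQ q, hu⟩
      have hbij := Sta.bij hC hU1s hβ (g ∘ₗ U1.subtype) hg1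
      have hU2z : vd k e z (LinearMap.ker g) = 0 := by
        have h5 := vd_ker_range hC z g
        have h6 := range_val hC hL.1 (hβ.ws hC).2 g
        have h7 := hL.val
        omega
      have hU2 : LinearMap.ker g ≠ ⊥ := by
        intro h
        apply htop
        rw [eq_top_iff]
        intro l _
        obtain ⟨u', hu'⟩ := hbij.2 (g l)
        have h5 : Injective g := LinearMap.ker_eq_bot.1 h
        have h6 : (u' : M ⧸ R) = l := h5 hu'
        rw [← h6]
        exact u'.2
      have hf := finite_sub (k := k) (LinearMap.ker g)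
      have hn2 : Nontrivial (LinearMap.ker g) := (Submodule.nontrivial_iff_ne_bot).2 hU2
      obtain ⟨U3, hU3, hU3s, -⟩ := (hL.sub hC _ hU2z).exists_sub hC
      have hU3f := finite_sub (k := k) U3
      have hU3f' := finite_sub (k := k) (U3.map (LinearMap.ker g).subtype)
      obtain ⟨f3⟩ := key (U3.map (LinearMap.ker g).subtype) (hU3s.congr hC
        (Submodule.equivMapOfInjective (LinearMap.ker g).subtype Subtype.val_injective U3))
      have hj3 : ∀ b, g ((f3.symm b : U3.map (LinearMap.ker g).subtype) : M ⧸ R) = 0 := by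
        intro b
        obtain ⟨w, _, hw'⟩ := Submodule.mem_map.1 (f3.symm b).2
        rw [← hw']
        exact LinearMap.mem_ker.1 w.2
      have hj : Injective (LinearMap.coprod (U1.subtype ∘ₗ f1.symm.toLinearMap)
          ((U3.map (LinearMap.ker g).subtype).subtype ∘ₗ f3.symm.toLinearMap)) := by
        rw [← LinearMap.ker_eq_bot, Submodule.eq_bot_iff]
        rintro ⟨a, b⟩ hab
        rw [LinearMap.mem_ker] at hab
        change ((f1.symm a : U1) : M ⧸ R) +
          ((f3.symm b : U3.map (LinearMap.ker g).subtype) : M ⧸ R) = 0 at hab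
        have h5 := congrArg g hab
        rw [map_add, hj3, add_zero, map_zero] at h5
        have h6 : f1.symm a = 0 := by
          apply hbij.1
          rw [map_zero]
          exact h5
        have h7 : a = 0 := f1.symm.map_eq_zero_iff.1 h6
        rw [h6] at hab
        have h8 : f3.symm b = 0 := by
          apply Subtype.ext
          rw [← zero_add ((f3.symm b : U3.map (LinearMap.ker g).subtype) : M ⧸ R)]
          exact hab
        have h9 : b = 0 := f3.symm.map_eq_zero_iff.1 h8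
        rw [h7, h9]
        rfl
      obtain ⟨i, p, hi, hp, hex, hpm⟩ := q_ses R (LinearMap.range
        (LinearMap.coprod (U1.subtype ∘ₗ f1.symm.toLinearMap)
          ((U3.map (LinearMap.ker g).subtype).subtype ∘ₗ f3.symm.toLinearMap)))
      have hQ2f := finite_sub (k := k) (Submodule.comap R.mkQ (LinearMap.range
        (LinearMap.coprod (U1.subtype ∘ₗ f1.symm.toLinearMap)
          ((U3.map (LinearMap.ker g).subtype).subtype ∘ₗ f3.symm.toLinearMap))))
      obtain ⟨σ, hσ⟩ := ext1_sub hC hR hs ht hne (i ∘ₗ f.symm.toLinearMap)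
        ((LinearEquiv.ofInjective _ hj).symm.toLinearMap ∘ₗ p)
        (hi.comp f.symm.injective)
        ((LinearEquiv.ofInjective _ hj).symm.surjective.comp hp) (by
          rw [LinearMap.range_comp, LinearEquiv.range, Submodule.map_top, hex]
          ext w
          rw [LinearMap.mem_ker, LinearMap.mem_ker]
          change p w = 0 ↔ (LinearEquiv.ofInjective _ hj).symm (p w) = 0
          exact (LinearEquiv.map_eq_zero_iff _).symm)
      have hσ' : (Submodule.comap R.mkQ (LinearMap.range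
        (LinearMap.coprod (U1.subtype ∘ₗ f1.symm.toLinearMap)
          ((U3.map (LinearMap.ker g).subtype).subtype ∘ₗ f3.symm.toLinearMap)))).subtype ∘ₗ σ ≠
          0 := by
        intro h
        apply hσ
        ext b : 1
        have h5 : σ b = 0 := Subtype.ext (LinearMap.congr_fun h b)
        rw [LinearMap.comp_apply, h5, map_zero]
        rfl
      have hσi := Sta.inj hC ht hQ.2 _ hσ'
      obtain ⟨h6, h7⟩ := q_range ht _ hσi
      have hle2 := h2 _ h7 h6
      have hd : Injective ((LinearEquiv.ofInjective _ hσi).symm.toLinearMap ∘ₗ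
          Submodule.inclusion hle2 ∘ₗ f.symm.toLinearMap) :=
        (LinearEquiv.ofInjective _ hσi).symm.injective.comp
          ((Submodule.inclusion_injective hle2).comp f.symm.injective)
      have hd0 : ((LinearEquiv.ofInjective _ hσi).symm.toLinearMap ∘ₗ
          Submodule.inclusion hle2 ∘ₗ f.symm.toLinearMap) ≠ 0 := by
        intro h
        obtain ⟨b, hb⟩ := exists_ne (0 : βa)
        apply hb
        apply hd
        rw [map_zero, h]
        rfl
      exact hne ⟨LinearEquiv.ofBijective _ (Sta.bij hC hs ht _ hd0)⟩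
    rcases h3 q hq with ⟨g, hg⟩ | ⟨g, hg⟩
    · exact gen βa hs g (fun r hr => LinearMap.mem_ker.2 ((h4 r hr).1 g)) hg
    · exact gen βb ht g (fun r hr => LinearMap.mem_ker.2 ((h4 r hr).2 g)) hg

theorem quo [IsAlgClosed k] (hC : Crd k e) (hR : RR k A) (ha : Sta k e z βa)
    (hb : Sta k e z βb) (hne : ¬ Nonempty (βa ≃ₗ[A] βb))
    (hall : ∀ (L : Type) [AddCommGroup L] [Module A L] [Module k L] [IsScalarTower k A L]
      [Module.Finite k L], Sta k e z L → Nonempty (L ≃ₗ[A] βa) ∨ Nonempty (L ≃ₗ[A] βb))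
    (hsa : NSE k A βa) (hsb : NSE k A βb) (hM : Ws k e z M) (m0 : M) (hm0 : m0 ≠ 0)
    (h1 : ∀ g : M →ₗ[A] βa, g m0 = 0) (h2 : ∀ g : M →ₗ[A] βb, g m0 = 0) :
    ∃ V : Submodule A M, vd k e z V = 0 ∧
      ∀ y, vd k e y (M ⧸ V) = vd k e y βa + vd k e y βb := by
  classical
  obtain ⟨V, ⟨hVz, m, hm, hma, hmb⟩, hmax⟩ := q_max
    (fun V : Submodule A M => vd k e z V = 0 ∧ ∃ m, m ∉ V ∧
      (∀ g : M →ₗ[A] βa, V ≤ LinearMap.ker g → g m = 0) ∧
      ∀ g : M →ₗ[A] βb, V ≤ LinearMap.ker g → g m = 0)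
    (fun V => finrank k V) (finrank k M)
    (fun V => Submodule.finrank_le (V.restrictScalars k))
    ⟨⊥, vd_of_subsingleton _ z, m0, fun h => hm0 ((Submodule.mem_bot A).1 h),
      fun g _ => h1 g, fun g _ => h2 g⟩
  have hfQ : Module.Finite k (M ⧸ V) := finite_quot V
  have hQ : Ws k e z (M ⧸ V) := hM.quot hC V hVz
  obtain ⟨R, hRm⟩ : ∃ R : Submodule A (M ⧸ V), ∀ q, q ∈ R ↔
      (∀ g : (M ⧸ V) →ₗ[A] βa, g q = 0) ∧ ∀ g : (M ⧸ V) →ₗ[A] βb, g q = 0 := by
    refine ⟨(⨅ g : (M ⧸ V) →ₗ[A] βa, LinearMap.ker g) ⊓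
      ⨅ g : (M ⧸ V) →ₗ[A] βb, LinearMap.ker g, fun q => ?_⟩
    rw [Submodule.mem_inf, Submodule.mem_iInf, Submodule.mem_iInf]
    rfl
  have hRz : vd k e z R = 0 := q_R hC hQ ha hb R hRm
  have hker : ∀ {β : Type} [AddCommGroup β] [Module A β] (g : (M ⧸ V) →ₗ[A] β),
      V ≤ LinearMap.ker (g ∘ₗ V.mkQ) := by
    intro β _ _ g v hv
    rw [LinearMap.mem_ker, LinearMap.comp_apply, Submodule.mkQ_apply,
      (Submodule.Quotient.mk_eq_zero V).2 hv, map_zero]
  have hm' : V.mkQ m ∈ R :=
    (hRm _).2 ⟨fun g => hma (g ∘ₗ V.mkQ) (hker g), fun g => hmb (g ∘ₗ V.mkQ) (hker g)⟩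
  have hRne : R ≠ ⊥ := by
    intro h
    rw [h, Submodule.mem_bot, Submodule.mkQ_apply, Submodule.Quotient.mk_eq_zero] at hm'
    exact hm hm'
  have h2' : ∀ U : Submodule A (M ⧸ V), U ≠ ⊥ → vd k e z U = 0 → R ≤ U := by
    intro U hU hUz r hr
    by_contra hrU
    obtain ⟨m', rfl⟩ := V.mkQ_surjective r
    have hc := q_comap hC z V U
    have hlt : V < U.comap V.mkQ := by
      refine lt_of_le_of_ne (Submodule.le_comap_mkQ V U) (fun h => hU ?_)
      rw [Submodule.eq_bot_iff]
      intro v hv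
      obtain ⟨w, rfl⟩ := Submodule.mkQ_surjective V v
      have h5 : w ∈ U.comap V.mkQ := hv
      rw [← h] at h5
      rw [Submodule.mkQ_apply, Submodule.Quotient.mk_eq_zero]
      exact h5
    have hfac : ∀ {β : Type} [AddCommGroup β] [Module A β] (g : M →ₗ[A] β),
        U.comap V.mkQ ≤ LinearMap.ker g → ∃ g' : (M ⧸ V) →ₗ[A] β, ∀ w, g' (V.mkQ w) = g w := by
      intro β _ _ g hg
      exact ⟨V.liftQ g (hlt.le.trans hg), fun w => Submodule.liftQ_apply V g w⟩
    have hbad := hmax (U.comap V.mkQ) ⟨by omega, m', hrU, fun g hg => by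
      obtain ⟨g', hg'⟩ := hfac g hg
      rw [← hg']
      exact ((hRm _).1 hr).1 g', fun g hg => by
      obtain ⟨g', hg'⟩ := hfac g hg
      rw [← hg']
      exact ((hRm _).1 hr).2 g'⟩
    exact absurd hbad (not_le.2 (q_frk (k := k) hlt))
  have hRf := finite_sub (k := k) R
  have hRs : Sta k e z R := by
    refine ⟨(Submodule.nontrivial_iff_ne_bot).2 hRne, hRz, fun U hU hU' => ?_⟩
    have h5 := hQ.2 (U.map R.subtype)
    rw [q_map] at h5
    refine lt_of_le_of_ne h5 (fun h6 => hU' ?_)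
    have h7 : U.map R.subtype ≠ ⊥ := by
      intro h
      apply hU
      rw [Submodule.eq_bot_iff]
      intro v hv
      have h8 : (v : M ⧸ V) ∈ U.map R.subtype := Submodule.mem_map.2 ⟨v, hv, rfl⟩
      rw [h, Submodule.mem_bot] at h8
      exact Subtype.ext h8
    have h8 := h2' _ h7 (by rw [q_map]; exact h6)
    rw [eq_top_iff]
    intro u _
    obtain ⟨v, hv, hvu⟩ := Submodule.mem_map.1 (h8 u.2)
    rwa [← Subtype.ext hvu]
  have h3 : ∀ q, q ∉ R → (∃ g : (M ⧸ V) →ₗ[A] βa, g q ≠ 0) ∨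
      ∃ g : (M ⧸ V) →ₗ[A] βb, g q ≠ 0 := by
    intro q hq
    by_contra hcon
    push Not at hcon
    exact hq ((hRm q).2 hcon)
  refine ⟨V, hVz, ?_⟩
  rcases hall R hRs with hf | hf
  · obtain ⟨f⟩ := hf
    exact q_core hC hR ha hb hne hall hsa hQ R f h2' h3 (fun r hr => (hRm r).1 hr)
  · obtain ⟨f⟩ := hf
    intro y
    rw [q_core hC hR hb ha (fun ⟨g⟩ => hne ⟨g.symm⟩) (fun L _ _ _ _ _ hL => (hall L hL).symm) hsb
      hQ R f h2' (fun q hq => (h3 q hq).symm) (fun r hr => ((hRm r).1 hr).symm) y, add_comm]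

end BT3
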