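import Mathlib
import Pool.Agent.BT3.Ext1

/-!
BT3.Sbo: a semistable module which is not generated by the stable modules `βa`, `βb` has a submodule
of class `βa + βb` (dual of `BT3.Quo`).

Proof.  Call a submodule `U` of `M` of weight zero (`vd z U = 0`) bad if there is a proper submodule
`T` of `U` which contains the ranges of all maps `βa → U` and `βb → U`.  `⊤` is bad.  Take a bad `U = Q` of
minimal dimension (semistable, `Ws.sub`).  Let `R ≤ Q` be the sum of the ranges of all maps `βa → Q`,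
`βb → Q`; `R ≤ T`, so `R ≠ ⊤`.
1. `vd z R = 0`: `R` is the range of a map `βa^p × βb^q → Q` (`Q` is finite dimensional) (`range_val`).
2. If `U` is a proper submodule of `Q` with `vd z U = 0` then `U ≤ R`: `U` is not bad, so the ranges of the
   maps `βx → U` generate `U` (their sum is contained in no proper submodule), and they are in `R`.
3. `Q ⧸ R` is semistable, nonzero; let `Q ⧸ T'` be a stable quotient, `T' ≥ R` (`Ws.exists_quot` for `Q ⧸ R`);
   `T'` is a proper submodule of weight zero, so `T' ≤ R`, `T' = R`: `Q ⧸ R` is stable, `≅ βt`.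
4. `R ≠ ⊥`: otherwise `Q ≅ βt` and the range of the isomorphism is `⊤`, not in `R`.
   Let `s` be the other index.
5. Let `R ⧸ R1` be a stable quotient of `R` (`Ws.exists_quot`), `R1 ≤ R`.  If `R ⧸ R1 ≅ βt`:
   `0 → R ⧸ R1 → Q ⧸ R1 → Q ⧸ R → 0` splits by `NSE βt`; the preimage `U'` in `Q` of the image of the section
   has weight zero, `U' ⊔ R = ⊤`, and `U' ≠ ⊤` (as `R ≠ R1`); by 2 `U' ≤ R`, so `R = ⊤`: contradiction.  So all
   stable quotients of `R` are isomorphic to `βs`.
6. If `R` is stable (`R1 = ⊥`) then `vd y Q = vd y R + vd y (Q ⧸ R) = vd y βs + vd y βt`: done.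
7. Otherwise `R1 ≠ ⊥`.  `R` is generated by the ranges of maps `βx → R` (maps `βx → Q` have range in
   `R`), so some `h : βx → R` is not killed by `R → R ⧸ R1 ≅ βs`, so `βx → βs` is bijective and
   `R = range h ⊕ R1`.  `R1` is semistable, nonzero and a quotient of `R`; a stable quotient of `R1` is a
   stable quotient of `R`, so isomorphic to `βs`.  So there is a surjection `ρ : R → βs × βs`.  Let
   `R2 = ker ρ ≤ R ≤ Q`, `0 → βs × βs → Q ⧸ R2 → βt → 0`.  `ext1_quot` gives `r : Q ⧸ R2 → βs` nonzero on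
   `βs × βs = R ⧸ R2`.  So `r' : Q → βs` is nonzero, hence onto, not zero on `R`; its kernel `T''` is a proper
   submodule of weight zero, so `T'' ≤ R`.  `R ⧸ T''` is a nonzero submodule of weight zero of
   `Q ⧸ T'' ≅ βs` (stable), so it is everything, `R = ⊤`: contradiction.
-/

namespace BT3

open Module Function BT

variable {k A : Type} [Field k] [Ring A] [Algebra k A] {n : ℕ} {e : Fin n → A}
  [Module.Finite k A]

variable {z : Fin n → ℤ}
variable {βa : Type} [AddCommGroup βa] [Module A βa] [Module k βa] [IsScalarTower k A βa]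
  [Module.Finite k βa]
variable {βb : Type} [AddCommGroup βb] [Module A βb] [Module k βb] [IsScalarTower k A βb]
  [Module.Finite k βb]
variable {M : Type} [AddCommGroup M] [Module A M] [Module k M] [IsScalarTower k A M]
  [Module.Finite k M]

omit [Module.Finite k A] in
private theorem sbo_finQ (U : Submodule A M) : Module.Finite k (M ⧸ U) :=
  Module.Finite.of_surjective (U.mkQ.restrictScalars k) U.mkQ_surjective

private theorem sbo_sup (hC : Crd k e) (hM : Ws k e z M) (U V : Submodule A M)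
    (hU : vd k e z U = 0) (hV : vd k e z V = 0) : vd k e z (U ⊔ V : Submodule A M) = 0 := by
  have := finite_sub (k := k) U
  have := finite_sub (k := k) V
  have h1 := hM.sub hC U hU
  have h2 := hM.sub hC V hV
  have h3 := range_val hC (Ws.prod hC h1 h2).1 hM.2 (U.subtype.coprod V.subtype)
  have h4 : LinearMap.range (U.subtype.coprod V.subtype) = U ⊔ V := by
    rw [LinearMap.range_coprod, Submodule.range_subtype, Submodule.range_subtype]
  rw [h4] at h3
  exact h3

private theorem sbo_comap (hC : Crd k e) (x : Fin n → ℤ) (U : Submodule A M)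
    (V : Submodule A (M ⧸ U)) :
    vd k e x (V.comap U.mkQ) = vd k e x U + vd k e x V := by
  have := finite_sub (k := k) (V.comap U.mkQ)
  have h := vd_ker_range hC x (U.mkQ ∘ₗ (V.comap U.mkQ).subtype)
  have hk : LinearMap.ker (U.mkQ ∘ₗ (V.comap U.mkQ).subtype) =
      Submodule.comap (V.comap U.mkQ).subtype U := by
    rw [LinearMap.ker_comp, Submodule.ker_mkQ]
  have hr : LinearMap.range (U.mkQ ∘ₗ (V.comap U.mkQ).subtype) = V := by
    rw [LinearMap.range_comp, Submodule.range_subtype,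
      Submodule.map_comap_eq_of_surjective U.mkQ_surjective]
  rw [hk, hr, vd_congr x (Submodule.comapSubtypeEquivOfLe (Submodule.le_comap_mkQ U V))] at h
  exact h

omit [Module.Finite k A] [Module.Finite k M] in
private theorem sbo_map (x : Fin n → ℤ) (U : Submodule A M) (V : Submodule A U) :
    vd k e x (V.map U.subtype) = vd k e x V :=
  (vd_congr x (Submodule.equivMapOfInjective U.subtype Subtype.val_injective V)).symm

/-- the exact sequence `0 → R ⧸ R1 → Q ⧸ R1 → Q ⧸ R → 0` -/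
private theorem sbo_ses (R : Submodule A M) (R1 : Submodule A R) :
    ∃ (i : (R ⧸ R1) →ₗ[A] (M ⧸ R1.map R.subtype)) (p : (M ⧸ R1.map R.subtype) →ₗ[A] (M ⧸ R)),
      Injective i ∧ Surjective p ∧ LinearMap.range i = LinearMap.ker p ∧
      (∀ r : R, i (R1.mkQ r) = (R1.map R.subtype).mkQ r) ∧
      ∀ q : M, p ((R1.map R.subtype).mkQ q) = R.mkQ q := by
  have hle : R1.map R.subtype ≤ R := Submodule.map_subtype_le R R1
  have h1 : R1 ≤ (R1.map R.subtype).comap R.subtype := Submodule.le_comap_map _ _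
  refine ⟨R1.mapQ (R1.map R.subtype) R.subtype h1, Submodule.factor hle, ?_, ?_, ?_, ?_, ?_⟩
  · rw [← LinearMap.ker_eq_bot, Submodule.eq_bot_iff]
    intro v hv
    obtain ⟨r, rfl⟩ := R1.mkQ_surjective v
    rw [LinearMap.mem_ker, Submodule.mkQ_apply, Submodule.mapQ_apply,
      Submodule.Quotient.mk_eq_zero] at hv
    obtain ⟨r', hr', he⟩ := Submodule.mem_map.1 hv
    have : r' = r := Subtype.ext he
    rw [Submodule.mkQ_apply, Submodule.Quotient.mk_eq_zero, ← this]
    exact hr'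
  · intro v
    obtain ⟨q, rfl⟩ := R.mkQ_surjective v
    exact ⟨(R1.map R.subtype).mkQ q, rfl⟩
  · ext v
    obtain ⟨q, rfl⟩ := (R1.map R.subtype).mkQ_surjective v
    rw [LinearMap.mem_range, LinearMap.mem_ker]
    constructor
    · rintro ⟨w, hw⟩
      obtain ⟨r, rfl⟩ := R1.mkQ_surjective w
      rw [← hw]
      change R.mkQ (r : M) = 0
      rw [Submodule.mkQ_apply, Submodule.Quotient.mk_eq_zero]
      exact r.2
    · intro h
      have h2 : R.mkQ q = 0 := h
      rw [Submodule.mkQ_apply, Submodule.Quotient.mk_eq_zero] at h2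
      exact ⟨R1.mkQ ⟨q, h2⟩, rfl⟩
  · intro r
    rfl
  · intro q
    rfl

/-- the heart of the proof; `s`, `t` are the two indices -/
private theorem sbo_core [IsAlgClosed k] (hC : Crd k e) (hR : RR k A) (ha : Sta k e z βa)
    (hb : Sta k e z βb) (hne : ¬ Nonempty (βa ≃ₗ[A] βb))
    (hall : ∀ (L : Type) [AddCommGroup L] [Module A L] [Module k L] [IsScalarTower k A L]
      [Module.Finite k L], Sta k e z L → Nonempty (L ≃ₗ[A] βa) ∨ Nonempty (L ≃ₗ[A] βb))
    (hsb : NSE k A βb) (hM : Ws k e z M) (R : Submodule A M) (hR1 : R ≠ ⊤)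
    (hR0 : vd k e z R = 0)
    (h1 : ∀ (g : βa →ₗ[A] M), LinearMap.range g ≤ R) (h2 : ∀ (g : βb →ₗ[A] M), LinearMap.range g ≤ R)
    (hgen : ∀ T : Submodule A M, T ≤ R → (∀ (g : βa →ₗ[A] M), LinearMap.range g ≤ T) →
      (∀ (g : βb →ₗ[A] M), LinearMap.range g ≤ T) → T = R)
    (h3 : ∀ U : Submodule A M, U ≠ ⊤ → vd k e z U = 0 → U ≤ R)
    (φ : (M ⧸ R) ≃ₗ[A] βb) (y : Fin n → ℤ) :
    vd k e y M = vd k e y βa + vd k e y βb := by
  have hfR := finite_sub (k := k) R
  have hfQ := sbo_finQ (k := k) R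
  have hWR : Ws k e z R := hM.sub hC R hR0
  -- `R` is not zero
  have hRb : R ≠ ⊥ := by
    intro h
    have hi : Injective R.mkQ := by
      rw [← LinearMap.ker_eq_bot, Submodule.ker_mkQ, h]
    let E : M ≃ₗ[A] (M ⧸ R) := LinearEquiv.ofBijective R.mkQ ⟨hi, R.mkQ_surjective⟩
    have h4 := h2 ((φ.symm.trans E.symm) : βb ≃ₗ[A] M).toLinearMap
    rw [LinearEquiv.range] at h4
    exact hR1 (top_le_iff.1 h4)
  -- claim A
  have hA : ∀ R1 : Submodule A R, Sta k e z (R ⧸ R1) → Nonempty ((R ⧸ R1) ≃ₗ[A] βa) := by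
    intro R1 hs
    have hf1 := sbo_finQ (k := k) R1
    rcases hall (R ⧸ R1) hs with h | ⟨⟨ψ⟩⟩
    · exact h
    exfalso
    obtain ⟨i, p, hi, hp, hex, hi', hp'⟩ := sbo_ses (M := M) R R1
    have hf2 := sbo_finQ (k := k) (R1.map R.subtype)
    have hv1 : vd k e z (R1.map R.subtype) = 0 := by
      rw [sbo_map]
      have h4 := vd_quot hC z R1
      have h5 := hs.2.1
      omega
    obtain ⟨s, hs2⟩ := hsb (M ⧸ R1.map R.subtype) (i ∘ₗ ψ.symm.toLinearMap)
      (φ.toLinearMap ∘ₗ p) (hi.comp ψ.symm.injective) (φ.surjective.comp hp) (by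
        rw [LinearMap.range_comp, LinearEquiv.range, Submodule.map_top, hex, LinearMap.ker_comp]
        rw [LinearEquiv.ker, Submodule.comap_bot])
    have hsb' : ∀ b, φ (p (s b)) = b := fun b => LinearMap.congr_fun hs2 b
    have hWE : Ws k e z (M ⧸ R1.map R.subtype) := hM.quot hC _ hv1
    have hv2 : vd k e z (LinearMap.range s) = 0 := range_val hC (hb.ws hC).1 hWE.2 s
    have hv3 : vd k e z ((LinearMap.range s).comap (R1.map R.subtype).mkQ) = 0 := by
      rw [sbo_comap hC z, hv1, hv2, add_zero]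
    have := hb.1
    have hnt : (LinearMap.range s).comap (R1.map R.subtype).mkQ ≠ ⊤ := by
      intro h4
      have h5 : Surjective s := by
        intro v
        obtain ⟨q, rfl⟩ := (R1.map R.subtype).mkQ_surjective v
        have h6 : q ∈ (LinearMap.range s).comap (R1.map R.subtype).mkQ := by
          rw [h4]
          trivial
        exact h6
      obtain ⟨b, hb0⟩ := exists_ne (0 : βb)
      obtain ⟨b', hb'⟩ := h5 (i (ψ.symm b))
      have h6 : p (i (ψ.symm b)) = 0 := by
        have : i (ψ.symm b) ∈ LinearMap.ker p := by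
          rw [← hex]
          exact ⟨_, rfl⟩
        exact this
      have h7 := hsb' b'
      rw [hb', h6, map_zero] at h7
      rw [← h7, map_zero] at hb'
      have h8 : i (ψ.symm b) = i 0 := by rw [← hb', map_zero]
      have h9 := hi h8
      apply hb0
      simpa using h9
    have hle := h3 _ hnt hv3
    obtain ⟨b, hb0⟩ := exists_ne (0 : βb)
    obtain ⟨q, hq⟩ := (R1.map R.subtype).mkQ_surjective (s b)
    have h4 : q ∈ R := hle (by
      rw [Submodule.mem_comap, hq]
      exact ⟨b, rfl⟩)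
    have h5 := hsb' b
    rw [← hq, hp', Submodule.mkQ_apply, (Submodule.Quotient.mk_eq_zero R).2 h4, map_zero] at h5
    exact hb0 h5.symm
  -- the value if `R` is isomorphic to `βa`
  have hfin : Nonempty (R ≃ₗ[A] βa) → vd k e y M = vd k e y βa + vd k e y βb := by
    rintro ⟨χ⟩
    rw [vd_quot hC y R, vd_congr y χ, vd_congr y φ]
  have hRn : Nontrivial R := (Submodule.nontrivial_iff_ne_bot).2 hRb
  obtain ⟨R1, hR1t, hst, hW1⟩ := hWR.exists_quot hC
  obtain ⟨ψ1⟩ := hA R1 hst
  by_cases hR1b : R1 = ⊥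
  · apply hfin
    have hi : Injective R1.mkQ := by
      rw [← LinearMap.ker_eq_bot, Submodule.ker_mkQ, hR1b]
    exact ⟨(LinearEquiv.ofBijective R1.mkQ ⟨hi, R1.mkQ_surjective⟩).trans ψ1⟩
  exfalso
  have hf1 := finite_sub (k := k) R1
  -- the map `q : R → βa`
  let q : R →ₗ[A] βa := ψ1.toLinearMap ∘ₗ R1.mkQ
  have hqk : ∀ r : R, q r = 0 ↔ r ∈ R1 := by
    intro r
    change ψ1 (R1.mkQ r) = 0 ↔ r ∈ R1
    rw [LinearEquiv.map_eq_zero_iff, Submodule.mkQ_apply, Submodule.Quotient.mk_eq_zero]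
  have hh : ∃ h : βa →ₗ[A] R, q ∘ₗ h ≠ 0 := by
    by_contra hcon
    push Not at hcon
    have h4 : R1.map R.subtype = R := by
      refine hgen _ (Submodule.map_subtype_le R R1) ?_ ?_
      · intro g
        have h5 := hcon (g.codRestrict R (fun b => h1 g ⟨b, rfl⟩))
        rintro _ ⟨b, rfl⟩
        refine ⟨⟨g b, h1 g ⟨b, rfl⟩⟩, ?_, rfl⟩
        exact (hqk _).1 (LinearMap.congr_fun h5 b)
      · intro g
        have h5 : q ∘ₗ (g.codRestrict R (fun b => h2 g ⟨b, rfl⟩)) = 0 := by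
          by_contra h6
          have h7 := Sta.bij hC hb ha _ h6
          exact hne ⟨(LinearEquiv.ofBijective _ h7).symm⟩
        rintro _ ⟨b, rfl⟩
        refine ⟨⟨g b, h2 g ⟨b, rfl⟩⟩, ?_, rfl⟩
        exact (hqk _).1 (LinearMap.congr_fun h5 b)
    apply hR1t
    rw [eq_top_iff]
    intro r _
    have h5 : (r : M) ∈ R1.map R.subtype := by
      rw [h4]
      exact r.2
    obtain ⟨r', hr', he⟩ := Submodule.mem_map.1 h5
    rwa [← Subtype.ext he]
  obtain ⟨h, hh⟩ := hh
  have hbij := Sta.bij hC ha ha _ hh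
  let κ : βa ≃ₗ[A] βa := LinearEquiv.ofBijective (q ∘ₗ h) hbij
  have hκ : ∀ b, q (h (κ.symm b)) = b := fun b => κ.apply_symm_apply b
  have hκ' : ∀ b, κ.symm (q (h b)) = b := fun b => κ.symm_apply_apply b
  -- projection on `R1`
  let π0 : R →ₗ[A] R := LinearMap.id - h ∘ₗ κ.symm.toLinearMap ∘ₗ q
  have hπ0 : ∀ r, π0 r = r - h (κ.symm (q r)) := fun r => rfl
  have hπm : ∀ r, π0 r ∈ R1 := by
    intro r
    rw [← hqk, hπ0, map_sub, hκ, sub_self]
  let π1 : R →ₗ[A] R1 := π0.codRestrict R1 hπm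
  have hπ1 : ∀ r, ((π1 r : R1) : R) = r - h (κ.symm (q r)) := fun r => rfl
  have hπ1a : ∀ r : R1, π1 r = r := by
    intro r
    apply Subtype.ext
    rw [hπ1, (hqk _).2 r.2, map_zero, map_zero, sub_zero]
  have hπ1b : ∀ b, π1 (h b) = 0 := by
    intro b
    apply Subtype.ext
    rw [hπ1, hκ', sub_self]
    rfl
  have hR1n : Nontrivial R1 := (Submodule.nontrivial_iff_ne_bot).2 hR1b
  obtain ⟨S, hSt, hSs, hSw⟩ := hW1.exists_quot hC
  have hfS := sbo_finQ (k := k) S
  have hsur : Surjective (S.mkQ ∘ₗ π1) := by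
    intro v
    obtain ⟨r, rfl⟩ := S.mkQ_surjective v
    exact ⟨(r : R), by rw [LinearMap.comp_apply, hπ1a]⟩
  have hKe : (R ⧸ LinearMap.ker (S.mkQ ∘ₗ π1)) ≃ₗ[A] (R1 ⧸ S) :=
    (S.mkQ ∘ₗ π1).quotKerEquivOfSurjective hsur
  have hfK := sbo_finQ (k := k) (LinearMap.ker (S.mkQ ∘ₗ π1))
  obtain ⟨ψ2⟩ := hA _ (hSs.congr hC hKe.symm)
  let q2 : R1 →ₗ[A] βa := (hKe.symm.trans ψ2).toLinearMap ∘ₗ S.mkQ
  have hq2 : Surjective q2 := (hKe.symm.trans ψ2).surjective.comp S.mkQ_surjective
  let ρ : R →ₗ[A] βa × βa := q.prod (q2 ∘ₗ π1)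
  have hρ : Surjective ρ := by
    rintro ⟨b1, b2⟩
    obtain ⟨r2, hr2⟩ := hq2 b2
    refine ⟨h (κ.symm b1) + r2, Prod.ext ?_ ?_⟩
    · change q (h (κ.symm b1) + r2) = b1
      rw [map_add, hκ, (hqk _).2 r2.2, add_zero]
    · change q2 (π1 (h (κ.symm b1) + r2)) = b2
      rw [map_add, hπ1b, hπ1a, zero_add, hr2]
  obtain ⟨i, p, hi, hp, hex, hi', hp'⟩ := sbo_ses (M := M) R (LinearMap.ker ρ)
  have hf2 := sbo_finQ (k := k) ((LinearMap.ker ρ).map R.subtype)
  have hf3 := sbo_finQ (k := k) (LinearMap.ker ρ)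
  let ε : (R ⧸ LinearMap.ker ρ) ≃ₗ[A] βa × βa := ρ.quotKerEquivOfSurjective hρ
  obtain ⟨r, hr⟩ := ext1_quot hC hR ha hb hne (i ∘ₗ ε.symm.toLinearMap) (φ.toLinearMap ∘ₗ p)
    (hi.comp ε.symm.injective) (φ.surjective.comp hp) (by
      rw [LinearMap.range_comp, LinearEquiv.range, Submodule.map_top, hex, LinearMap.ker_comp]
      rw [LinearEquiv.ker, Submodule.comap_bot])
  let r' : M →ₗ[A] βa := r ∘ₗ ((LinearMap.ker ρ).map R.subtype).mkQ
  have hr'R : r' ∘ₗ R.subtype ≠ 0 := by
    intro h0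
    apply hr
    refine LinearMap.ext fun b => ?_
    obtain ⟨r0, hr0⟩ := (LinearMap.ker ρ).mkQ_surjective (ε.symm b)
    change r (i (ε.symm b)) = 0
    rw [← hr0, hi']
    exact LinearMap.congr_fun h0 r0
  have hr'0 : r' ≠ 0 := by
    intro h0
    apply hr'R
    rw [h0, LinearMap.zero_comp]
  have hk0 : LinearMap.ker r' ≠ ⊤ := fun h0 => hr'0 (LinearMap.ker_eq_top.1 h0)
  have hvk : vd k e z (LinearMap.ker r') = 0 := by
    have h4 := vd_ker_range hC z r'
    have h5 := range_val hC hM.1 (ha.ws hC).2 r'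
    have h6 := hM.val
    omega
  have hkR := h3 _ hk0 hvk
  have hsR : Surjective (r' ∘ₗ R.subtype) := Sta.surj hC hWR.1 ha _ hr'R
  apply hR1
  rw [eq_top_iff]
  intro m _
  obtain ⟨r0, hr0⟩ := hsR (r' m)
  have h4 : m - r0 ∈ LinearMap.ker r' := by
    rw [LinearMap.mem_ker, map_sub, sub_eq_zero, ← hr0]
    rfl
  have h5 := R.add_mem (hkR h4) r0.2
  simpa using h5

private theorem sbo_min (hC : Crd k e) (hM : Ws k e z M) (P : Submodule A M → Prop) (hP : P ⊤) :
    ∃ U, P U ∧ ∀ V, P V → V ≤ U → V = U := by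
  obtain ⟨U, hU, h2⟩ := (measure (fun U : Submodule A M => finrank k U)).wf.has_min {U | P U}
    ⟨⊤, hP⟩
  refine ⟨U, hU, fun V hV hle => ?_⟩
  by_contra hne
  have hlt : V < U := lt_of_le_of_ne hle hne
  exact h2 V hV (Submodule.finrank_lt_finrank_of_lt (s := V.restrictScalars k)
    (t := U.restrictScalars k) hlt)

/-- the statement for a minimal bad module -/
private theorem sbo_two [IsAlgClosed k] (hC : Crd k e) (hR : RR k A) (ha : Sta k e z βa)
    (hb : Sta k e z βb) (hne : ¬ Nonempty (βa ≃ₗ[A] βb))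
    (hall : ∀ (L : Type) [AddCommGroup L] [Module A L] [Module k L] [IsScalarTower k A L]
      [Module.Finite k L], Sta k e z L → Nonempty (L ≃ₗ[A] βa) ∨ Nonempty (L ≃ₗ[A] βb))
    (hsa : NSE k A βa) (hsb : NSE k A βb) (hM : Ws k e z M) (T : Submodule A M) (hT : T ≠ ⊤)
    (h1 : ∀ (g : βa →ₗ[A] M), LinearMap.range g ≤ T) (h2 : ∀ (g : βb →ₗ[A] M), LinearMap.range g ≤ T)
    (hmin : ∀ U : Submodule A M, U ≠ ⊤ → vd k e z U = 0 → ∀ T' ≤ U,
      (∀ (g : βa →ₗ[A] M), LinearMap.range g ≤ U → LinearMap.range g ≤ T') →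
      (∀ (g : βb →ₗ[A] M), LinearMap.range g ≤ U → LinearMap.range g ≤ T') → T' = U)
    (y : Fin n → ℤ) : vd k e y M = vd k e y βa + vd k e y βb := by
  let R : Submodule A M := (⨆ g : βa →ₗ[A] M, LinearMap.range g) ⊔
    ⨆ g : βb →ₗ[A] M, LinearMap.range g
  have hg1 : ∀ g : βa →ₗ[A] M, LinearMap.range g ≤ R := fun g =>
    (le_iSup (fun g : βa →ₗ[A] M => LinearMap.range g) g).trans le_sup_left
  have hg2 : ∀ g : βb →ₗ[A] M, LinearMap.range g ≤ R := fun g =>
    (le_iSup (fun g : βb →ₗ[A] M => LinearMap.range g) g).trans le_sup_right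
  have hRT : R ≤ T := sup_le (iSup_le h1) (iSup_le h2)
  have hRt : R ≠ ⊤ := fun h => hT (top_le_iff.1 (h ▸ hRT))
  have hgen : ∀ T' : Submodule A M, T' ≤ R → (∀ (g : βa →ₗ[A] M), LinearMap.range g ≤ T') →
      (∀ (g : βb →ₗ[A] M), LinearMap.range g ≤ T') → T' = R := fun T' h h' h'' =>
    le_antisymm h (sup_le (iSup_le h') (iSup_le h''))
  -- weight of `R`
  have hR0 : vd k e z R = 0 := by
    obtain ⟨U, hU, hmaxU⟩ : ∃ U : Submodule A M, (U ≤ R ∧ vd k e z U = 0) ∧
        ∀ V : Submodule A M, (V ≤ R ∧ vd k e z V = 0) → U ≤ V → V = U := by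
      obtain ⟨U, hU, h4⟩ := (measure (fun U : Submodule A M => finrank k M - finrank k U)).wf.has_min
        {U : Submodule A M | U ≤ R ∧ vd k e z U = 0} ⟨⊥, bot_le, vd_of_subsingleton _ z⟩
      refine ⟨U, hU, fun V hV hle => ?_⟩
      by_contra hne'
      have hlt : U < V := lt_of_le_of_ne hle (Ne.symm hne')
      have h5 : finrank k U < finrank k V :=
        Submodule.finrank_lt_finrank_of_lt (s := U.restrictScalars k)
          (t := V.restrictScalars k) hlt
      have h6 : finrank k V ≤ finrank k M := Submodule.finrank_le (V.restrictScalars k)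
      exact h4 V hV (by
        change finrank k M - finrank k V < finrank k M - finrank k U
        omega)
    have h5 : ∀ V : Submodule A M, V ≤ R → vd k e z V = 0 → V ≤ U := by
      intro V hV hV0
      have h6 := hmaxU (U ⊔ V) ⟨sup_le hU.1 hV, sbo_sup hC hM U V hU.2 hV0⟩ le_sup_left
      rw [← h6]
      exact le_sup_right
    have h6 : U = R := hgen U hU.1
      (fun g => h5 _ (hg1 g) (range_val hC (ha.ws hC).1 hM.2 g))
      (fun g => h5 _ (hg2 g) (range_val hC (hb.ws hC).1 hM.2 g))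
    rw [← h6]
    exact hU.2
  have h3 : ∀ U : Submodule A M, U ≠ ⊤ → vd k e z U = 0 → U ≤ R := by
    intro U hU hU0
    have h4 := hmin U hU hU0 (U ⊓ R) inf_le_left (fun g hg => le_inf hg (hg1 g))
      (fun g hg => le_inf hg (hg2 g))
    rw [← h4]
    exact inf_le_right
  have hfQ := sbo_finQ (k := k) R
  have hWQ : Ws k e z (M ⧸ R) := hM.quot hC R hR0
  have hst : Sta k e z (M ⧸ R) := by
    refine ⟨Submodule.Quotient.nontrivial_iff.2 hRt, hWQ.val, ?_⟩
    intro V hV0 hV1
    refine lt_of_le_of_ne (hWQ.2 V) (fun h4 => hV0 ?_)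
    have h5 := sbo_comap hC z R V
    rw [hR0, h4, add_zero] at h5
    have h6 : V.comap R.mkQ ≠ ⊤ := by
      intro h7
      apply hV1
      rw [eq_top_iff]
      intro v _
      obtain ⟨m, rfl⟩ := R.mkQ_surjective v
      have h8 : m ∈ V.comap R.mkQ := by
        rw [h7]
        trivial
      exact h8
    have h7 := h3 _ h6 h5
    rw [Submodule.eq_bot_iff]
    intro v hv
    obtain ⟨m, rfl⟩ := R.mkQ_surjective v
    rw [Submodule.mkQ_apply, Submodule.Quotient.mk_eq_zero]
    exact h7 hv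
  rcases hall (M ⧸ R) hst with ⟨⟨φ⟩⟩ | ⟨⟨φ⟩⟩
  · rw [add_comm]
    exact sbo_core hC hR hb ha (fun ⟨f⟩ => hne ⟨f.symm⟩) (fun L _ _ _ _ _ h => (hall L h).symm)
      hsa hM R hRt hR0 hg2 hg1 (fun T' h h' h'' => hgen T' h h'' h') h3 φ y
  · exact sbo_core hC hR ha hb hne hall hsb hM R hRt hR0 hg1 hg2 hgen h3 φ y

theorem sbo [IsAlgClosed k] (hC : Crd k e) (hR : RR k A) (ha : Sta k e z βa)
    (hb : Sta k e z βb) (hne : ¬ Nonempty (βa ≃ₗ[A] βb))
    (hall : ∀ (L : Type) [AddCommGroup L] [Module A L] [Module k L] [IsScalarTower k A L]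
      [Module.Finite k L], Sta k e z L → Nonempty (L ≃ₗ[A] βa) ∨ Nonempty (L ≃ₗ[A] βb))
    (hsa : NSE k A βa) (hsb : NSE k A βb) (hM : Ws k e z M) (T : Submodule A M) (hT : T ≠ ⊤)
    (h1 : ∀ (g : βa →ₗ[A] M) (b : βa), g b ∈ T) (h2 : ∀ (g : βb →ₗ[A] M) (b : βb), g b ∈ T) :
    ∃ U : Submodule A M, vd k e z U = 0 ∧
      ∀ y, vd k e y U = vd k e y βa + vd k e y βb := by
  obtain ⟨U, ⟨hU0, T1, hT1, hT1', g1, g2⟩, hmin⟩ := sbo_min hC hM
    (fun U : Submodule A M => vd k e z U = 0 ∧ ∃ T : Submodule A M, T ≤ U ∧ T ≠ U ∧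
      (∀ g : βa →ₗ[A] M, LinearMap.range g ≤ U → LinearMap.range g ≤ T) ∧
      (∀ g : βb →ₗ[A] M, LinearMap.range g ≤ U → LinearMap.range g ≤ T))
    ⟨by rw [vd_congr z (Submodule.topEquiv (R := A) (M := M))]; exact hM.val, T, le_top, hT,
      fun g _ => by rintro _ ⟨b, rfl⟩; exact h1 g b, fun g _ => by rintro _ ⟨b, rfl⟩; exact h2 g b⟩
  refine ⟨U, hU0, fun y => ?_⟩
  have hf := finite_sub (k := k) U
  have hWU := hM.sub hC U hU0
  have key : ∀ {β : Type} [AddCommGroup β] [Module A β] (V W : Submodule A U),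
      (∀ g : β →ₗ[A] M, LinearMap.range g ≤ V.map U.subtype →
        LinearMap.range g ≤ W.map U.subtype) →
      ∀ g : β →ₗ[A] U, LinearMap.range g ≤ V → LinearMap.range g ≤ W := by
    intro β _ _ V W h g hg
    have h4 : LinearMap.range (U.subtype ∘ₗ g) ≤ V.map U.subtype := by
      rw [LinearMap.range_comp]
      exact Submodule.map_mono hg
    have h5 := h _ h4
    rw [LinearMap.range_comp] at h5
    exact (Submodule.map_le_map_iff_of_injective Subtype.val_injective _ _).1 h5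
  have hT2 : (T1.comap U.subtype).map U.subtype = T1 := by
    rw [Submodule.map_comap_subtype]
    exact inf_eq_right.2 hT1
  refine sbo_two hC hR ha hb hne hall hsa hsb hWU (T1.comap U.subtype) ?_ ?_ ?_ ?_ y
  · intro h4
    apply hT1'
    rw [← hT2, h4, Submodule.map_top, Submodule.range_subtype]
  · intro g
    refine key ⊤ _ ?_ g le_top
    intro g' hg'
    rw [hT2]
    refine g1 g' ?_
    rwa [Submodule.map_top, Submodule.range_subtype] at hg'
  · intro g
    refine key ⊤ _ ?_ g le_top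
    intro g' hg'
    rw [hT2]
    refine g2 g' ?_
    rwa [Submodule.map_top, Submodule.range_subtype] at hg'
  · intro V hV hV0 T' hT' k1 k2
    by_contra hcon
    have h4 := hmin (V.map U.subtype) ⟨by rw [sbo_map]; exact hV0, T'.map U.subtype,
      Submodule.map_mono hT', fun h5 => hcon (Submodule.map_injective_of_injective
        Subtype.val_injective h5), ?_, ?_⟩ (Submodule.map_subtype_le U V)
    · apply hV
      have h5 : V.map U.subtype = (⊤ : Submodule A U).map U.subtype := by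
        rw [h4, Submodule.map_top, Submodule.range_subtype]
      exact Submodule.map_injective_of_injective Subtype.val_injective h5
    · intro g hg
      have hgU : ∀ b, g b ∈ U := fun b => Submodule.map_subtype_le U V (hg ⟨b, rfl⟩)
      have h5 := k1 (g.codRestrict U hgU) ?_
      · rintro _ ⟨b, rfl⟩
        exact ⟨_, h5 ⟨b, rfl⟩, rfl⟩
      · rintro _ ⟨b, rfl⟩
        obtain ⟨v, hv, hvb⟩ := Submodule.mem_map.1 (hg ⟨b, rfl⟩)
        have : g.codRestrict U hgU b = v := Subtype.ext hvb.symm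
        rw [this]
        exact hv
    · intro g hg
      have hgU : ∀ b, g b ∈ U := fun b => Submodule.map_subtype_le U V (hg ⟨b, rfl⟩)
      have h5 := k2 (g.codRestrict U hgU) ?_
      · rintro _ ⟨b, rfl⟩
        exact ⟨_, h5 ⟨b, rfl⟩, rfl⟩
      · rintro _ ⟨b, rfl⟩
        obtain ⟨v, hv, hvb⟩ := Submodule.mem_map.1 (hg ⟨b, rfl⟩)
        have : g.codRestrict U hgU b = v := Subtype.ext hvb.symm
        rw [this]
        exact hv

end BT3
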