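import Mathlib
import Pool.Agent.BT3.Quo
import Pool.Agent.BT3.Sbo

/-!
BT3.KeyA: let `x, y` be compatible, `βa`, `βb` the only `x`-stable modules, without self-extensions, and
`M` an `(x + y)`-stable module.  Then the class of `M` is that of `βa`, of `βb`, or the sum.

Proof.  `M` is `x`- and `y`-semistable (`Sta.ws`, `Cmp.Ws_add`), `vd x M = vd y M = 0`.  For a submodule `U`
with `vd x U = 0`: `vd (x + y) U = vd y U`, so `vd y U < 0` unless `U = ⊥` or `U = ⊤` (*).
Let `U` be an `x`-stable submodule of `M` (`Ws.exists_sub`) and `M ⧸ V` an `x`-stable quotient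
(`Ws.exists_quot`).  If `U = ⊤` or `V = ⊥` then `M` is `x`-stable, so `M ≅ βa` or `M ≅ βb` by `hall`.
Otherwise by (*) `vd y U < 0 < vd y (M ⧸ V)` (`vd y (M ⧸ V) = - vd y V`), so `U ≅ βs`, `M ⧸ V ≅ βt` with
`s ≠ t`.  By symmetry (prove the statement for `s = b`, `t = a` as an auxiliary theorem and apply it
twice) let `vd y βb < 0 < vd y βa`.
* `quo`: `m0` any nonzero element of `U`.  A map `g : M → βa` vanishes on `U ≅ βb` (`Sta.bij`, not
  isomorphic).  A map `g : M → βb`, `g ≠ 0`, is onto; `V' = ker g ≠ ⊤` has `vd x V' = 0`; `V' = ⊥` gives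
  `vd y βb = vd y M = 0`, contradiction; otherwise `vd y V' < 0` by (*), `vd y βb = - vd y V' > 0`,
  contradiction; so `g = 0`.  So there is `V0` with `vd x V0 = 0` and `M ⧸ V0` of class `βa + βb`.  If
  `V0 = ⊥` we are done.  `V0 ≠ ⊤` (`vd 1` of the quotient is positive).  So by (*) `vd y V0 < 0` and
  `vd y βa + vd y βb = - vd y V0 > 0`.
* `sbo` with `T = V`: maps `βb → M → M ⧸ V ≅ βa` are zero; a nonzero map `g : βa → M` is injective, its range
  has `vd x = 0` and `vd y = vd y βa > 0`, contradicting (*).  So there is `U0` with `vd x U0 = 0` of class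
  `βa + βb`.  If `U0 = ⊤` we are done.  `U0 ≠ ⊥`.  So `vd y βa + vd y βb = vd y U0 < 0`: contradiction.
-/

namespace BT3

open Module Function BT

variable {k A : Type} [Field k] [Ring A] [Algebra k A] {n : ℕ} {e : Fin n → A}
  [Module.Finite k A]

variable {x y : Fin n → ℤ}
variable {βa : Type} [AddCommGroup βa] [Module A βa] [Module k βa] [IsScalarTower k A βa]
  [Module.Finite k βa]
variable {βb : Type} [AddCommGroup βb] [Module A βb] [Module k βb] [IsScalarTower k A βb]
  [Module.Finite k βb]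
variable {M : Type} [AddCommGroup M] [Module A M] [Module k M] [IsScalarTower k A M]
  [Module.Finite k M]

omit [Module.Finite k A] in
private theorem ka_finQ (U : Submodule A M) : Module.Finite k (M ⧸ U) :=
  Module.Finite.of_surjective (U.mkQ.restrictScalars k) U.mkQ_surjective

omit [Module.Finite k A] [Module.Finite k M] in
private theorem ka_top (v : Fin n → ℤ) {U : Submodule A M} (hU : U = ⊤) :
    vd k e v U = vd k e v M := by
  subst hU
  exact vd_congr v (Submodule.topEquiv (R := A) (M := M))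

omit [Module.Finite k A] [Module.Finite k M] in
private theorem ka_bot (v : Fin n → ℤ) {U : Submodule A M} (hU : U = ⊥) :
    vd k e v U = 0 := by
  subst hU
  exact vd_of_subsingleton _ v

omit [Module.Finite k A] [Module.Finite k M] in
private theorem ka_qtop (v : Fin n → ℤ) {U : Submodule A M} (hU : U = ⊤) :
    vd k e v (M ⧸ U) = 0 := by
  subst hU
  have : Subsingleton (M ⧸ (⊤ : Submodule A M)) := Submodule.Quotient.subsingleton_iff.2 rfl
  exact vd_of_subsingleton _ v

/-- a submodule of class `βb` and a quotient of class `βa` -/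
private theorem ka_aux [IsAlgClosed k] (hC : Crd k e) (hR : RR k A)
    (ha : Sta k e x βa) (hb : Sta k e x βb) (hne : ¬ Nonempty (βa ≃ₗ[A] βb))
    (hall : ∀ (L : Type) [AddCommGroup L] [Module A L] [Module k L] [IsScalarTower k A L]
      [Module.Finite k L], Sta k e x L → Nonempty (L ≃ₗ[A] βa) ∨ Nonempty (L ≃ₗ[A] βb))
    (hsa : NSE k A βa) (hsb : NSE k A βb) (hx : Ws k e x M) (hyM : vd k e y M = 0)
    (hst : ∀ U : Submodule A M, U ≠ ⊥ → U ≠ ⊤ → vd k e x U = 0 → vd k e y U < 0)
    (U V : Submodule A M) (hU0 : U ≠ ⊥) (hU1 : U ≠ ⊤) (hV0 : V ≠ ⊥) (hV1 : V ≠ ⊤)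
    (hUx : vd k e x U = 0) (hVx : vd k e x V = 0) (fU : U ≃ₗ[A] βb) (fV : (M ⧸ V) ≃ₗ[A] βa) :
    ∀ v, vd k e v M = vd k e v βa + vd k e v βb := by
  have hyb : vd k e y βb < 0 := by
    rw [← vd_congr y fU]
    exact hst U hU0 hU1 hUx
  have hya : 0 < vd k e y βa := by
    rw [← vd_congr y fV]
    have h1 := vd_quot hC y V
    have h2 := hst V hV0 hV1 hVx
    omega
  have := ha.1
  have := hb.1
  have h1a : 0 < vd k e 1 βa := vd_one_pos βa hC
  have h1b : 0 < vd k e 1 βb := vd_one_pos βb hC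
  have hab : ∀ g : βb →ₗ[A] βa, g = 0 := by
    intro g
    by_contra hg
    exact hne ⟨(LinearEquiv.ofBijective g (Sta.bij hC hb ha g hg)).symm⟩
  -- the quotient
  obtain ⟨m0, hm0U, hm0⟩ := Submodule.exists_mem_ne_zero_of_ne_bot hU0
  obtain ⟨V0, hV0x, hV0v⟩ := quo hC hR ha hb hne hall hsa hsb hx m0 hm0 (by
    intro g
    have h2 := hab (g ∘ₗ U.subtype ∘ₗ fU.symm.toLinearMap)
    have h3 := LinearMap.congr_fun h2 (fU ⟨m0, hm0U⟩)
    simpa using h3) (by
    intro g
    have h2 : g = 0 := by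
      by_contra hg
      have hs := Sta.surj hC hx.1 hb g hg
      have h3 := vd_ker_range hC x g
      have h4 := range_val hC hx.1 (hb.ws hC).2 g
      have h5 := hx.val
      have h6 : vd k e x (LinearMap.ker g) = 0 := by omega
      have h7 := vd_ker_range hC y g
      rw [ka_top y (LinearMap.range_eq_top.2 hs)] at h7
      have h8 : vd k e y (LinearMap.ker g) ≤ 0 := by
        by_cases h9 : LinearMap.ker g = ⊥
        · exact (ka_bot y h9).le
        · exact (hst _ h9 (fun h10 => hg (LinearMap.ker_eq_top.1 h10)) h6).le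
      omega
    rw [h2, LinearMap.zero_apply])
  by_cases hV0b : V0 = ⊥
  · intro v
    have h2 := vd_quot hC v V0
    rw [ka_bot v hV0b, hV0v v] at h2
    omega
  have hV0t : V0 ≠ ⊤ := by
    intro h2
    have h3 := hV0v 1
    rw [ka_qtop 1 h2] at h3
    omega
  have hpos : 0 < vd k e y βa + vd k e y βb := by
    have h2 := hst V0 hV0b hV0t hV0x
    have h3 := vd_quot hC y V0
    rw [hV0v y] at h3
    omega
  -- the submodule
  obtain ⟨U0, hU0x, hU0v⟩ := sbo hC hR ha hb hne hall hsa hsb hx V hV1 (by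
    intro g b
    have h2 : g = 0 := by
      by_contra hg
      have hi := Sta.inj hC ha hx.2 g hg
      have h3 : ∀ v, vd k e v (LinearMap.range g) = vd k e v βa := fun v =>
        (vd_congr v (LinearEquiv.ofInjective g hi)).symm
      have h4 : LinearMap.range g ≠ ⊥ := fun h5 => hg (LinearMap.range_eq_bot.1 h5)
      by_cases h5 : LinearMap.range g = ⊤
      · have h6 := h3 y
        rw [ka_top y h5] at h6
        omega
      · have h6 := hst _ h4 h5 (by rw [h3 x]; exact ha.2.1)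
        rw [h3 y] at h6
        omega
    rw [h2, LinearMap.zero_apply]
    exact V.zero_mem) (by
    intro g b
    have h2 := hab (fV.toLinearMap ∘ₗ V.mkQ ∘ₗ g)
    have h3 := LinearMap.congr_fun h2 b
    have h4 : fV (V.mkQ (g b)) = 0 := by simpa using h3
    have h5 : V.mkQ (g b) = 0 := by
      have h6 := congrArg fV.symm h4
      simpa using h6
    rwa [Submodule.mkQ_apply, Submodule.Quotient.mk_eq_zero] at h5)
  by_cases hU0t : U0 = ⊤
  · intro v
    rw [← ka_top v hU0t]
    exact hU0v v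
  have hU0b : U0 ≠ ⊥ := by
    intro h2
    have h3 := hU0v 1
    rw [ka_bot 1 h2] at h3
    omega
  have h2 := hst U0 hU0b hU0t hU0x
  rw [hU0v y] at h2
  omega

theorem key_alg [IsAlgClosed k] (hC : Crd k e) (hR : RR k A) (hxy : Cmp k e x y)
    (ha : Sta k e x βa) (hb : Sta k e x βb) (hne : ¬ Nonempty (βa ≃ₗ[A] βb))
    (hall : ∀ (L : Type) [AddCommGroup L] [Module A L] [Module k L] [IsScalarTower k A L]
      [Module.Finite k L], Sta k e x L → Nonempty (L ≃ₗ[A] βa) ∨ Nonempty (L ≃ₗ[A] βb))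
    (hsa : NSE k A βa) (hsb : NSE k A βb) (hM : Sta k e (x + y) M) :
    (∀ v, vd k e v M = vd k e v βa) ∨ (∀ v, vd k e v M = vd k e v βb) ∨
      ∀ v, vd k e v M = vd k e v βa + vd k e v βb := by
  have := hM.1
  obtain ⟨hx, hy⟩ := (Cmp.Ws_add M hC hR hxy).1 (hM.ws hC)
  have hst : ∀ U : Submodule A M, U ≠ ⊥ → U ≠ ⊤ → vd k e x U = 0 → vd k e y U < 0 := by
    intro U h1 h2 h3
    have h4 := hM.2.2 U h1 h2
    rw [vd_add] at h4
    omega
  have hfin : Sta k e x M → (∀ v, vd k e v M = vd k e v βa) ∨ (∀ v, vd k e v M = vd k e v βb) ∨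
      ∀ v, vd k e v M = vd k e v βa + vd k e v βb := by
    intro h
    rcases hall M h with ⟨⟨f⟩⟩ | ⟨⟨f⟩⟩
    · exact Or.inl fun v => vd_congr v f
    · exact Or.inr (Or.inl fun v => vd_congr v f)
  obtain ⟨U, hU0, hU, -⟩ := hx.exists_sub hC
  obtain ⟨V, hV1, hV, hVw⟩ := hx.exists_quot hC
  by_cases hU1 : U = ⊤
  · apply hfin
    subst hU1
    exact hU.congr hC (Submodule.topEquiv (R := A) (M := M))
  by_cases hV0 : V = ⊥
  · apply hfin
    subst hV0
    have _ := ka_finQ (k := k) (⊥ : Submodule A M)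
    exact hV.congr hC (Submodule.quotEquivOfEqBot ⊥ rfl)
  have _ := finite_sub (k := k) U
  have _ := finite_sub (k := k) V
  have _ := ka_finQ (k := k) V
  have hVx : vd k e x V = 0 := hVw.val
  have hyU := hst U hU0 hU1 hU.2.1
  have hyV := hst V hV0 hV1 hVx
  have hyQ := vd_quot hC y V
  have hyM := hy.val
  have hne' : ¬ Nonempty (βb ≃ₗ[A] βa) := fun ⟨f⟩ => hne ⟨f.symm⟩
  rcases hall U hU with ⟨⟨fU⟩⟩ | ⟨⟨fU⟩⟩
  · rcases hall (M ⧸ V) hV with ⟨⟨fV⟩⟩ | ⟨⟨fV⟩⟩
    · exfalso
      rw [vd_congr y fU] at hyU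
      rw [vd_congr y fV] at hyQ
      omega
    · right; right
      intro v
      rw [add_comm]
      exact ka_aux hC hR hb ha hne' (fun L _ _ _ _ _ hL => (hall L hL).symm) hsb hsa hx hyM hst
        U V hU0 hU1 hV0 hV1 hU.2.1 hVx fU fV v
  · rcases hall (M ⧸ V) hV with ⟨⟨fV⟩⟩ | ⟨⟨fV⟩⟩
    · right; right
      exact ka_aux hC hR ha hb hne hall hsa hsb hx hyM hst
        U V hU0 hU1 hV0 hV1 hU.2.1 hVx fU fV
    · exfalso
      rw [vd_congr y fU] at hyU
      rw [vd_congr y fV] at hyQ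
      omega

end BT3
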