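import Pool.Agent.BT3.PureB

/-!
BT3, pure part C. Under the interface `PF` only finitely many weights have length one.

Every chamber functional is at most `L`, hence has bounded coefficients: there are only finitely
many of them, and `L` is their maximum. Dickson's lemma finishes the proof.
-/

namespace BT3

open Finset

variable {n : ℕ} {L : (Fin n → ℤ) → ℕ} {E : (Fin n → ℤ) → (Fin n → ℤ) → ℕ}
  {Face : Finset (Fin n → ℤ) → Prop}

/-- the value of the functional with coefficients `g` -/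
def evl (g x : Fin n → ℤ) : ℤ := ∑ i, g i * x i

theorem evl_sub (g x y : Fin n → ℤ) : evl g (x - y) = evl g x - evl g y := by
  unfold evl
  rw [← Finset.sum_sub_distrib]
  refine Finset.sum_congr rfl fun i _ => ?_
  rw [Pi.sub_apply, mul_sub]

theorem exists_evl (φ : (Fin n → ℤ) →ₗ[ℤ] ℤ) (x : Fin n → ℤ) :
    φ x = evl (fun i => φ (Pi.single i 1)) x := by
  unfold evl
  have h1 : x = ∑ i, x i • (Pi.single i (1 : ℤ) : Fin n → ℤ) := by
    ext j
    rw [Finset.sum_apply, Finset.sum_eq_single j]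
    · rw [Pi.smul_apply, Pi.single_eq_same, smul_eq_mul, mul_one]
    · intro i _ hij
      rw [Pi.smul_apply, Pi.single_eq_of_ne hij.symm, smul_zero]
    · intro hj
      exact absurd (Finset.mem_univ j) hj
  conv_lhs => rw [h1]
  rw [map_sum]
  refine Finset.sum_congr rfl fun i _ => ?_
  rw [map_smul, smul_eq_mul, mul_comm]

namespace PF

variable (h : PF n L E Face)

include h

/-- the chamber functional -/
noncomputable def lam {F : Finset (Fin n → ℤ)} (hF : Face F) (hcard : F.card = n) :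
    (Fin n → ℤ) →ₗ[ℤ] ℤ := ∑ v : F, (h.bas hF hcard).coord v

theorem lam_mem {F : Finset (Fin n → ℤ)} (hF : Face F) (hcard : F.card = n) {v : Fin n → ℤ}
    (hv : v ∈ F) : h.lam hF hcard v = 1 := by
  classical
  unfold lam
  rw [LinearMap.sum_apply, Finset.sum_eq_single ⟨v, hv⟩]
  · exact h.coord_self hF hcard ⟨v, hv⟩
  · intro u _ hu
    exact h.coord_ne hF hcard (v := u) (u := ⟨v, hv⟩) hu.symm
  · intro hh
    exact absurd (Finset.mem_univ _) hh

theorem lam_sum {F : Finset (Fin n → ℤ)} (hF : Face F) (hcard : F.card = n)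
    (d : (Fin n → ℤ) → ℤ) : h.lam hF hcard (∑ v ∈ F, d v • v) = ∑ v ∈ F, d v := by
  rw [map_sum]
  refine Finset.sum_congr rfl fun v hv => ?_
  rw [map_smul, h.lam_mem hF hcard hv, smul_eq_mul, mul_one]

theorem lam_le {F : Finset (Fin n → ℤ)} (hF : Face F) (hcard : F.card = n) (x : Fin n → ℤ) :
    h.lam hF hcard x ≤ L x := by
  classical
  obtain ⟨d, hd⟩ := h.exists_coef hF hcard x
  obtain ⟨M, hM⟩ : ∃ M : ℕ, ∀ v ∈ F, -(M : ℤ) ≤ d v := by
    refine ⟨∑ v ∈ F, (d v).natAbs, ?_⟩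
    intro v hv
    have h1 : (d v).natAbs ≤ ∑ v ∈ F, (d v).natAbs :=
      Finset.single_le_sum (f := fun v => (d v).natAbs) (fun _ _ => Nat.zero_le _) hv
    omega
  have e1 : x + ∑ v ∈ F, M • v = ∑ v ∈ F, ((M : ℤ) + d v).toNat • v := by
    conv_lhs => rw [hd]
    rw [← Finset.sum_add_distrib]
    refine Finset.sum_congr rfl fun v hv => ?_
    have h2 := hM v hv
    rw [← natCast_zsmul v (((M : ℤ) + d v).toNat), Int.toNat_of_nonneg (by linarith), add_smul,
      natCast_zsmul, add_comm]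
  have h3 := h.L_add_le x (∑ v ∈ F, M • v)
  rw [e1, h.L_sum hF (fun v => ((M : ℤ) + d v).toNat), h.L_sum hF (fun _ => M)] at h3
  have h4 : ((∑ v ∈ F, ((M : ℤ) + d v).toNat : ℕ) : ℤ) = ∑ v ∈ F, (M : ℤ) + ∑ v ∈ F, d v := by
    rw [Nat.cast_sum, ← Finset.sum_add_distrib]
    refine Finset.sum_congr rfl fun v hv => ?_
    have h2 := hM v hv
    rw [Int.toNat_of_nonneg (by linarith)]
  have h5 : ((∑ v ∈ F, ((M : ℤ) + d v).toNat : ℕ) : ℤ) ≤ ((L x + ∑ v ∈ F, M : ℕ) : ℤ) := by
    exact_mod_cast h3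
  rw [h4] at h5
  push_cast at h5
  rw [hd, h.lam_sum hF hcard, ← hd]
  linarith

theorem exists_functional : ∃ G : Set (Fin n → ℤ), G.Finite ∧
    (∀ g ∈ G, ∀ x, evl g x ≤ L x) ∧ ∀ x, ∃ g ∈ G, evl g x = L x := by
  obtain ⟨C, hC⟩ := h.L_unit
  refine ⟨{g | (∀ i, -(C : ℤ) ≤ g i ∧ g i ≤ C) ∧ ∀ x, evl g x ≤ L x}, ?_, ?_, ?_⟩
  · refine (Set.finite_Icc (fun _ : Fin n => -(C : ℤ)) (fun _ => (C : ℤ))).subset ?_
    intro g hg
    exact ⟨fun i => (hg.1 i).1, fun i => (hg.1 i).2⟩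
  · intro g hg
    exact hg.2
  · intro x
    obtain ⟨F, hF, c, -, hx⟩ := h.exists_face x
    obtain ⟨F', hF', hsub, hcard, -, -⟩ := h.face_max F hF
    refine ⟨fun i => h.lam hF' hcard (Pi.single i 1), ⟨?_, ?_⟩, ?_⟩
    · intro i
      have h1 := h.lam_le hF' hcard (Pi.single i 1)
      have h2 := h.lam_le hF' hcard (-Pi.single i 1)
      rw [map_neg] at h2
      have h3 : (L (Pi.single i 1) : ℤ) ≤ C := by exact_mod_cast (hC i).1
      have h4 : (L (-Pi.single i 1) : ℤ) ≤ C := by exact_mod_cast (hC i).2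
      constructor <;> linarith
    · intro y
      rw [← exists_evl]
      exact h.lam_le hF' hcard y
    · rw [← exists_evl, hx, h.L_sum hF, map_sum]
      push_cast
      refine Finset.sum_congr rfl fun v hv => ?_
      rw [map_nsmul, h.lam_mem hF' hcard (hsub hv), nsmul_eq_mul, mul_one]

/-- Only finitely many weights have length one. -/
theorem finite_one : {v : Fin n → ℤ | L v = 1}.Finite := by
  classical
  by_contra hinf
  obtain ⟨G, hG, hle, hex⟩ := h.exists_functional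
  have hGf : Finite G := hG.to_subtype
  obtain ⟨f, hf1, hf2⟩ : ∃ f : ℕ → (Fin n → ℤ), (∀ j, L (f j) = 1) ∧ Function.Injective f := by
    have hinf' : {v : Fin n → ℤ | L v = 1}.Infinite := hinf
    refine ⟨fun j => ((hinf'.natEmbedding {v : Fin n → ℤ | L v = 1}) j : Fin n → ℤ),
      fun j => ((hinf'.natEmbedding {v : Fin n → ℤ | L v = 1}) j).2, ?_⟩
    intro i j hij
    exact (hinf'.natEmbedding {v : Fin n → ℤ | L v = 1}).injective (Subtype.ext hij)
  obtain ⟨i, j, hij, hle2⟩ := (wellQuasiOrdered_le (α := G → ℕ))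
    (fun j g => (1 - evl (g : Fin n → ℤ) (f j)).toNat)
  have hne : f j - f i ≠ 0 := fun h0 => hij.ne (hf2 (sub_eq_zero.1 h0)).symm
  obtain ⟨g, hg, hgx⟩ := hex (f j - f i)
  have h1 : (1 - evl g (f i)).toNat ≤ (1 - evl g (f j)).toNat := hle2 ⟨g, hg⟩
  have h2 := hle g hg (f i)
  have h3 := hle g hg (f j)
  rw [hf1] at h2 h3
  rw [evl_sub] at hgx
  have h4 : L (f j - f i) ≠ 0 := fun h0 => hne (h.L_pos _ h0)
  omega

end PF

end BT3
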