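import Mathlib

/-!
BT3.CF: the abstract structure extracted from the algebra.

`G = Fin n → ℤ`.  `E x y` is the symmetrised `E`-invariant of the rigid presentations of weights
`x`, `y`; `x` and `y` are compatible if `E x y = 0`.  `S z` is the set of additive functionals
`y ↦ y(β)` given by the `z`-stable modules `β`.
-/

namespace BT3

/-- the combinatorial data of a finite dimensional algebra all whose presentation spaces have
rigid points -/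
structure CF (n : ℕ) where
  E : (Fin n → ℤ) → (Fin n → ℤ) → ℕ
  S : (Fin n → ℤ) → Set ((Fin n → ℤ) →+ ℤ)
  E_comm : ∀ x y, E x y = E y x
  E_self : ∀ x, E x x = 0
  E_add : ∀ z x y, E z (x + y) ≤ E z x + E z y
  E_dir : ∀ x y w, E x y = 0 → E (x + y) w = E x w + E y w
  drop : ∀ x y, E x y ≠ 0 → E x (x + y) < E x y
  coh : ∀ x y, E x y = 0 → ∀ i, 0 ≤ x i * y i
  star : ∀ z w, ∃ N0 : ℕ, ∀ N ≥ N0, E z (N • z + w) = 0
  prime : ∀ u w x y, (u ≠ 0 ∧ ∀ a b, E a b = 0 → a + b = u → a = 0 ∨ b = 0) →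
    E u w = 0 → E x y = 0 → u + w = x + y →
    (∃ w', E u w' = 0 ∧ x = u + w') ∨ ∃ w', E u w' = 0 ∧ y = u + w'
  cham : ∀ z, S z = ∅ → ∀ y y', E y z = 0 → E y' z = 0 → E y y' = 0
  S_add : ∀ x y, E x y = 0 → ∀ β ∈ S (x + y), β x = 0 ∧ β y = 0
  S_sep : ∀ z, ∀ β ∈ S z, ∃ y, β y = 1 ∧ ∀ β' ∈ S z, β' ≠ β → β' y = 0
  S_one : ∀ z, ∀ β ∈ S z, 0 < β 1
  S_filt : ∀ x y, E x y = 0 → ∀ β ∈ S (x + y), β ∈ AddSubmonoid.closure (S x)
  pos : ∀ z, ∃ N0 : ℕ, ∀ N ≥ N0, S (N • z + 1) = ∅ ∧ E z (N • z + 1) = 0 ∧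
    ∀ v, E v (N • z + 1) = 0 → ∀ β ∈ S z, 0 ≤ β v
  neg : ∀ z, ∃ N0 : ℕ, ∀ N ≥ N0, S (N • z - 1) = ∅ ∧ E z (N • z - 1) = 0 ∧
    ∀ v, E v (N • z - 1) = 0 → ∀ β ∈ S z, β v ≤ 0

namespace CF

variable {n : ℕ} (F : CF n)

/-- indecomposable vectors -/
def Ind (u : Fin n → ℤ) : Prop := u ≠ 0 ∧ ∀ a b, F.E a b = 0 → a + b = u → a = 0 ∨ b = 0

/-- the additional property in the absence of self-extensions -/
def Key : Prop := ∀ x y, F.E x y = 0 → ∀ a b, a ≠ b → F.S x = {a, b} →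
  ∀ β ∈ F.S (x + y), β = a ∨ β = b ∨ β = a + b

/-- decompositions: multisets of pairwise compatible indecomposable vectors -/
def Dec (m : Multiset (Fin n → ℤ)) : Prop :=
  (∀ u ∈ m, F.Ind u) ∧ ∀ u ∈ m, ∀ v ∈ m, F.E u v = 0

/-- faces: finite sets of pairwise compatible indecomposable vectors -/
def Face (f : Finset (Fin n → ℤ)) : Prop :=
  (∀ u ∈ f, F.Ind u) ∧ ∀ u ∈ f, ∀ v ∈ f, F.E u v = 0

end CF

end BT3
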