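import Mathlib
import Pool.Agent.BT3.CF

/-!
BT3.Dec: unique decomposition into pairwise compatible indecomposable vectors, and the length.

Proofs.
* `E_sum`: induction on `m` with `E_dir` (the head is compatible with the sum of the tail: by the
  induction hypothesis applied with `w` = the head, and `E_comm`).  `E_zero`: `E_dir 0 0 w`
  (`E 0 0 = 0` by `E_self`) gives `E 0 w = 2 E 0 w`.
* `cross`: if `m1`, `m2` are decompositions and `E m1.sum m2.sum = 0` then `E u v = 0` for `u ∈ m1`,
  `v ∈ m2` (`E_sum` twice, a sum of naturals vanishes), so `m1 + m2` is a decomposition.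
* `exists_dec`: strong induction on `∑ i, (x i).natAbs`.  `x = 0`: `m = 0`.  `x` indecomposable:
  `{x}`.  Otherwise `x = a + b`, `E a b = 0`, `a ≠ 0 ≠ b`; by `coh` the coordinates `a i`, `b i` have
  the same sign, so `|x i| = |a i| + |b i|` and both sums of absolute values are smaller; use `cross`.
* `mem_of_sum`: `u` indecomposable, `E u w = 0`, `u + w = m.sum`, `m` a decomposition, then `u ∈ m`.
  Induction on `m`.  `m = 0`: `w = - u`, `coh` gives `-(u i)^2 ≥ 0`, so `u = 0`.  `m = v ::ₘ m'`:
  `u + w = v + m'.sum` and `E v m'.sum = 0`, so by `prime` either `v = u + w'` with `E u w' = 0`,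
  then `w' = 0` as `v` is indecomposable and `u ≠ 0`, so `v = u`; or `m'.sum = u + w'`: induction.
* `dec_unique`: induction on `m`.  `m = 0`: if `u ∈ m'` then `m' = u ::ₘ m''`, `0 = u + m''.sum` and
  `E u m''.sum = 0`, contradiction as above.  `m = u ::ₘ m1`: `u ∈ m'` by `mem_of_sum`, cancel `u`.
* `E_nsmul`: induction on `m`, `(m+1) • x = m • x + x`, `E (m • x) x = m * E x x = 0` by induction, then
  `E_dir`.
* `E_face`: induction on `f` (insert `v` into `f`): `E (c v • v) (∑ rest) = 0` by `E_nsmul`, `E_comm`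
  and the induction hypothesis (all values `E u v = 0`), then `E_dir`.
* `face_dec`: take a decomposition `m` of `y`; `E v y = 0` gives `E v u = 0` for all `u ∈ m` by
  `E_comm` and `E_sum`; `f' = f ∪ m.toFinset`, `c v = m.count v` (zero outside `m`);
  `Finset.sum_multiset_count`.
* `ind_single`: if `e_i = x + y` with `E x y = 0` then `x j * y j ≥ 0` for all `j`; for `j ≠ i`,
  `x j = - y j`, so both vanish; for `j = i`: `x i + y i = 1`, `x i * y i ≥ 0`, so one of them is `0`.
* `len_eq`: uniqueness.  `len_add`: `cross` and `len_eq`.  The rest is immediate;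
  `ind_of_len_one`: a multiset of cardinality one is a singleton.
-/

namespace BT3

namespace CF

variable {n : ℕ} (F : CF n)

theorem E_zero (w : Fin n → ℤ) : F.E 0 w = 0 := by
  have h := F.E_dir 0 0 w (F.E_self 0)
  rw [add_zero] at h
  omega

theorem E_nsmul (m : ℕ) (x y : Fin n → ℤ) : F.E (m • x) y = m * F.E x y := by
  induction m generalizing y with
  | zero => simp [F.E_zero]
  | succ m ih =>
    have h0 : F.E (m • x) x = 0 := by rw [ih x, F.E_self, Nat.mul_zero]
    rw [succ_nsmul, F.E_dir _ _ _ h0, ih y, Nat.succ_mul]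

theorem E_sum {m : Multiset (Fin n → ℤ)} (hm : ∀ u ∈ m, ∀ v ∈ m, F.E u v = 0)
    (w : Fin n → ℤ) : F.E m.sum w = (m.map (fun u => F.E u w)).sum := by
  induction m using Multiset.induction_on generalizing w with
  | empty => simp [F.E_zero]
  | cons a s ih =>
    have hs : ∀ u ∈ s, ∀ v ∈ s, F.E u v = 0 := fun u hu v hv =>
      hm u (Multiset.mem_cons_of_mem hu) v (Multiset.mem_cons_of_mem hv)
    have h0 : F.E a s.sum = 0 := by
      rw [F.E_comm, ih hs a, Multiset.sum_eq_zero_iff]
      intro x hx
      obtain ⟨u, hu, rfl⟩ := Multiset.mem_map.1 hx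
      exact hm u (Multiset.mem_cons_of_mem hu) a (Multiset.mem_cons_self a s)
    rw [Multiset.sum_cons, F.E_dir _ _ _ h0, ih hs w, Multiset.map_cons, Multiset.sum_cons]

theorem dec_zero : F.Dec 0 :=
  ⟨fun u hu => absurd hu (Multiset.notMem_zero u), fun u hu => absurd hu (Multiset.notMem_zero u)⟩

theorem dec_singleton {u : Fin n → ℤ} (hu : F.Ind u) : F.Dec {u} := by
  refine ⟨?_, ?_⟩
  · intro v hv
    rw [Multiset.mem_singleton] at hv
    rw [hv]
    exact hu
  · intro v hv w hw
    rw [Multiset.mem_singleton] at hv hw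
    rw [hv, hw]
    exact F.E_self u

theorem Dec.of_le {F : CF n} {m m' : Multiset (Fin n → ℤ)} (h : F.Dec m) (h' : m' ≤ m) :
    F.Dec m' :=
  ⟨fun u hu => h.1 u (Multiset.mem_of_le h' hu),
    fun u hu v hv => h.2 u (Multiset.mem_of_le h' hu) v (Multiset.mem_of_le h' hv)⟩

theorem cross {m1 m2 : Multiset (Fin n → ℤ)} (h1 : F.Dec m1) (h2 : F.Dec m2)
    (h : F.E m1.sum m2.sum = 0) : (∀ u ∈ m1, ∀ v ∈ m2, F.E u v = 0) ∧ F.Dec (m1 + m2) := by
  have key : ∀ u ∈ m1, ∀ v ∈ m2, F.E u v = 0 := by
    intro u hu v hv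
    rw [F.E_sum h1.2, Multiset.sum_eq_zero_iff] at h
    have h3 := h _ (Multiset.mem_map.2 ⟨u, hu, rfl⟩)
    rw [F.E_comm, F.E_sum h2.2, Multiset.sum_eq_zero_iff] at h3
    have h4 := h3 _ (Multiset.mem_map.2 ⟨v, hv, rfl⟩)
    rw [F.E_comm]
    exact h4
  refine ⟨key, ?_, ?_⟩
  · intro u hu
    rcases Multiset.mem_add.1 hu with hu | hu
    · exact h1.1 u hu
    · exact h2.1 u hu
  · intro u hu v hv
    rcases Multiset.mem_add.1 hu with hu | hu <;> rcases Multiset.mem_add.1 hv with hv | hv
    · exact h1.2 u hu v hv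
    · exact key u hu v hv
    · rw [F.E_comm]
      exact key v hv u hu
    · exact h2.2 u hu v hv

theorem exists_dec (x : Fin n → ℤ) : ∃ m, F.Dec m ∧ m.sum = x := by
  have main : ∀ N : ℕ, ∀ x : Fin n → ℤ, ∑ i, (x i).natAbs = N → ∃ m, F.Dec m ∧ m.sum = x := by
    intro N
    induction N using Nat.strong_induction_on with
    | _ N ih =>
      intro x hx
      by_cases hx0 : x = 0
      · exact ⟨0, F.dec_zero, by simp [hx0]⟩
      by_cases hI : F.Ind x
      · exact ⟨{x}, F.dec_singleton hI, Multiset.sum_singleton x⟩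
      · have hex : ∃ a b, F.E a b = 0 ∧ a + b = x ∧ a ≠ 0 ∧ b ≠ 0 := by
          by_contra hc
          apply hI
          refine ⟨hx0, fun a b hab hs => ?_⟩
          by_contra hd
          rw [not_or] at hd
          exact hc ⟨a, b, hab, hs, hd.1, hd.2⟩
        obtain ⟨a, b, hab, hs, ha, hb⟩ := hex
        have hco := F.coh a b hab
        have habs : ∀ i, (x i).natAbs = (a i).natAbs + (b i).natAbs := by
          intro i
          have h1 : x i = a i + b i := by
            rw [← hs]
            rfl
          have h2 := hco i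
          rw [h1]
          rcases le_total 0 (a i) with h3 | h3 <;> rcases le_total 0 (b i) with h4 | h4
          · omega
          · have h5 : a i * b i = 0 := le_antisymm (mul_nonpos_of_nonneg_of_nonpos h3 h4) h2
            rcases mul_eq_zero.1 h5 with h6 | h6 <;> rw [h6] <;> simp
          · have h5 : a i * b i = 0 := le_antisymm (mul_nonpos_of_nonpos_of_nonneg h3 h4) h2
            rcases mul_eq_zero.1 h5 with h6 | h6 <;> rw [h6] <;> simp
          · omega
        have hpos : ∀ y : Fin n → ℤ, y ≠ 0 → 0 < ∑ i, (y i).natAbs := by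
          intro y hy
          obtain ⟨i, hi⟩ := Function.ne_iff.1 hy
          have h5 : 0 < (y i).natAbs := Int.natAbs_pos.2 hi
          exact lt_of_lt_of_le h5 (Finset.single_le_sum (f := fun i => (y i).natAbs)
            (fun j _ => Nat.zero_le _) (Finset.mem_univ i))
        have hsum : ∑ i, (x i).natAbs = ∑ i, (a i).natAbs + ∑ i, (b i).natAbs := by
          rw [← Finset.sum_add_distrib]
          exact Finset.sum_congr rfl fun i _ => habs i
        have ha' := hpos a ha
        have hb' := hpos b hb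
        obtain ⟨m1, hm1, hs1⟩ := ih (∑ i, (a i).natAbs) (by omega) a rfl
        obtain ⟨m2, hm2, hs2⟩ := ih (∑ i, (b i).natAbs) (by omega) b rfl
        refine ⟨m1 + m2, (F.cross hm1 hm2 (by rw [hs1, hs2]; exact hab)).2, ?_⟩
        rw [Multiset.sum_add, hs1, hs2, hs]
  exact main _ x rfl

theorem eq_zero_of_add_eq_zero {u w : Fin n → ℤ} (huw : F.E u w = 0) (h : u + w = 0) :
    u = 0 := by
  funext i
  have h1 := F.coh u w huw i
  have h2 : u i + w i = 0 := congrFun h i
  have h3 : w i = - u i := by linarith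
  rw [h3] at h1
  have h4 : u i * u i ≤ 0 := by linarith
  exact mul_self_eq_zero.1 (le_antisymm h4 (mul_self_nonneg _))

theorem Dec.head_tail {F : CF n} {u : Fin n → ℤ} {m : Multiset (Fin n → ℤ)}
    (h : F.Dec (u ::ₘ m)) : F.E u m.sum = 0 := by
  have hs : F.Dec m := h.of_le (Multiset.le_cons_self m u)
  rw [F.E_comm, F.E_sum hs.2, Multiset.sum_eq_zero_iff]
  intro x hx
  obtain ⟨z, hz, rfl⟩ := Multiset.mem_map.1 hx
  exact h.2 z (Multiset.mem_cons_of_mem hz) u (Multiset.mem_cons_self u m)

theorem mem_of_sum {u w : Fin n → ℤ} (hu : F.Ind u) (huw : F.E u w = 0)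
    {m : Multiset (Fin n → ℤ)} (hm : F.Dec m) (h : u + w = m.sum) : u ∈ m := by
  induction m using Multiset.induction_on generalizing w with
  | empty =>
    exfalso
    exact hu.1 (F.eq_zero_of_add_eq_zero huw (by rw [h, Multiset.sum_zero]))
  | cons v s ih =>
    have hs : F.Dec s := hm.of_le (Multiset.le_cons_self s v)
    have h0 : F.E v s.sum = 0 := hm.head_tail
    rw [Multiset.sum_cons] at h
    rcases F.prime u w v s.sum hu huw h0 h with ⟨w', hw', hv⟩ | ⟨w', hw', hv⟩
    · have hvI := hm.1 v (Multiset.mem_cons_self v s)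
      rcases hvI.2 u w' hw' hv.symm with h1 | h1
      · exact absurd h1 hu.1
      · rw [h1, add_zero] at hv
        rw [hv]
        exact Multiset.mem_cons_self _ _
    · exact Multiset.mem_cons_of_mem (ih hw' hs hv.symm)

theorem dec_unique {m m' : Multiset (Fin n → ℤ)} (hm : F.Dec m) (hm' : F.Dec m')
    (h : m.sum = m'.sum) : m = m' := by
  induction m using Multiset.induction_on generalizing m' with
  | empty =>
    by_contra hne
    obtain ⟨u, hu⟩ := Multiset.exists_mem_of_ne_zero (fun e => hne e.symm)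
    obtain ⟨m'', rfl⟩ := Multiset.exists_cons_of_mem hu
    rw [Multiset.sum_zero, Multiset.sum_cons] at h
    exact (hm'.1 u (Multiset.mem_cons_self _ _)).1
      (F.eq_zero_of_add_eq_zero hm'.head_tail h.symm)
  | cons u m1 ih =>
    have hu := hm.1 u (Multiset.mem_cons_self _ _)
    rw [Multiset.sum_cons] at h
    have hmem := F.mem_of_sum hu hm.head_tail hm' h
    obtain ⟨m'', rfl⟩ := Multiset.exists_cons_of_mem hmem
    rw [Multiset.sum_cons] at h
    have h2 : m1.sum = m''.sum := add_left_cancel h
    rw [ih (hm.of_le (Multiset.le_cons_self _ _)) (hm'.of_le (Multiset.le_cons_self _ _)) h2]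

/-- the number of indecomposable summands -/
noncomputable def len (x : Fin n → ℤ) : ℕ := Multiset.card (F.exists_dec x).choose

theorem len_eq {m : Multiset (Fin n → ℤ)} (hm : F.Dec m) : F.len m.sum = Multiset.card m := by
  unfold len
  have h := (F.exists_dec m.sum).choose_spec
  rw [F.dec_unique h.1 hm h.2]

theorem len_add {x y : Fin n → ℤ} (h : F.E x y = 0) : F.len (x + y) = F.len x + F.len y := by
  obtain ⟨m1, hm1, rfl⟩ := F.exists_dec x
  obtain ⟨m2, hm2, rfl⟩ := F.exists_dec y
  have h3 := (F.cross hm1 hm2 h).2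
  rw [← Multiset.sum_add, F.len_eq h3, F.len_eq hm1, F.len_eq hm2, Multiset.card_add]

theorem len_zero : F.len 0 = 0 := by
  have h := F.len_eq F.dec_zero
  rwa [Multiset.sum_zero, Multiset.card_zero] at h

theorem eq_zero_of_len {x : Fin n → ℤ} (h : F.len x = 0) : x = 0 := by
  obtain ⟨m, hm, rfl⟩ := F.exists_dec x
  rw [F.len_eq hm, Multiset.card_eq_zero] at h
  rw [h, Multiset.sum_zero]

theorem len_ind {u : Fin n → ℤ} (hu : F.Ind u) : F.len u = 1 := by
  have h := F.len_eq (F.dec_singleton hu)
  rwa [Multiset.sum_singleton, Multiset.card_singleton] at h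

theorem ind_of_len_one {u : Fin n → ℤ} (hu : F.len u = 1) : F.Ind u := by
  obtain ⟨m, hm, rfl⟩ := F.exists_dec u
  rw [F.len_eq hm, Multiset.card_eq_one] at hu
  obtain ⟨a, rfl⟩ := hu
  rw [Multiset.sum_singleton]
  exact hm.1 a (Multiset.mem_singleton_self a)

theorem ind_single_aux (i : Fin n) (c : ℤ) (hc : c = 1 ∨ c = -1) : F.Ind (Pi.single i c) := by
  refine ⟨?_, ?_⟩
  · intro h
    have h1 := congrFun h i
    rw [Pi.single_eq_same, Pi.zero_apply] at h1
    omega
  · intro a b hab hs
    have hco := F.coh a b hab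
    have hj : ∀ j, j ≠ i → a j = 0 ∧ b j = 0 := by
      intro j hj
      have h1 : a j + b j = 0 := by
        have h2 := congrFun hs j
        rw [Pi.single_eq_of_ne hj, Pi.add_apply] at h2
        exact h2
      have h2 := hco j
      have h3 : b j = - a j := by linarith
      rw [h3] at h2
      have h5 : a j * a j ≤ 0 := by linarith
      have h4 : a j = 0 := mul_self_eq_zero.1 (le_antisymm h5 (mul_self_nonneg _))
      exact ⟨h4, by rw [h3, h4, neg_zero]⟩
    have hi : a i + b i = c := by
      have h2 := congrFun hs i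
      rw [Pi.single_eq_same, Pi.add_apply] at h2
      exact h2
    have h2 := hco i
    have h5 : a i = 0 ∨ b i = 0 := by
      by_contra hcon
      rw [not_or] at hcon
      rcases lt_or_gt_of_ne hcon.1 with h6 | h6 <;> rcases lt_or_gt_of_ne hcon.2 with h7 | h7
      · omega
      · have h8 := mul_neg_of_neg_of_pos h6 h7
        linarith
      · have h8 := mul_neg_of_pos_of_neg h6 h7
        linarith
      · omega
    rcases h5 with h5 | h5
    · left
      funext j
      by_cases h : j = i
      · rw [h]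
        exact h5
      · exact (hj j h).1
    · right
      funext j
      by_cases h : j = i
      · rw [h]
        exact h5
      · exact (hj j h).2

/-- the unit vectors and their negatives have length one -/
theorem ind_single (i : Fin n) : F.Ind (Pi.single i 1) ∧ F.Ind (-Pi.single i 1) := by
  refine ⟨F.ind_single_aux i 1 (Or.inl rfl), ?_⟩
  rw [← Pi.single_neg]
  exact F.ind_single_aux i (-1) (Or.inr rfl)

/-- additivity over a face -/
theorem E_face {f : Finset (Fin n → ℤ)} (hf : F.Face f) (c : (Fin n → ℤ) → ℕ)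
    (y : Fin n → ℤ) : F.E (∑ v ∈ f, c v • v) y = ∑ v ∈ f, c v * F.E v y := by
  have main : ∀ f : Finset (Fin n → ℤ), (∀ u ∈ f, ∀ v ∈ f, F.E u v = 0) → ∀ y : Fin n → ℤ,
      F.E (∑ v ∈ f, c v • v) y = ∑ v ∈ f, c v * F.E v y := by
    intro f
    induction f using Finset.induction_on with
    | empty =>
      intro _ y
      simp [F.E_zero]
    | insert a s ha ih =>
      intro h y
      have hs : ∀ u ∈ s, ∀ v ∈ s, F.E u v = 0 := fun u hu v hv =>
        h u (Finset.mem_insert_of_mem hu) v (Finset.mem_insert_of_mem hv)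
      have h0 : F.E (c a • a) (∑ v ∈ s, c v • v) = 0 := by
        have h1 : ∑ v ∈ s, c v * F.E v a = 0 := by
          apply Finset.sum_eq_zero
          intro v hv
          rw [h v (Finset.mem_insert_of_mem hv) a (Finset.mem_insert_self a s), Nat.mul_zero]
        rw [F.E_nsmul, F.E_comm, ih hs a, h1, Nat.mul_zero]
      rw [Finset.sum_insert ha, F.E_dir _ _ _ h0, F.E_nsmul, ih hs y, Finset.sum_insert ha]
  exact main f hf.2 y

/-- decomposition of a vector compatible with a face -/
theorem face_dec {f : Finset (Fin n → ℤ)} (hf : F.Face f) (y : Fin n → ℤ)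
    (hy : ∀ v ∈ f, F.E v y = 0) : ∃ f', F.Face f' ∧ f ⊆ f' ∧
      ∃ c : (Fin n → ℤ) → ℕ, y = ∑ v ∈ f', c v • v := by
  obtain ⟨m, hm, rfl⟩ := F.exists_dec y
  have key : ∀ v ∈ f, ∀ u ∈ m, F.E v u = 0 := by
    intro v hv u hu
    have h := hy v hv
    rw [F.E_comm, F.E_sum hm.2, Multiset.sum_eq_zero_iff] at h
    rw [F.E_comm]
    exact h _ (Multiset.mem_map.2 ⟨u, hu, rfl⟩)
  refine ⟨f ∪ m.toFinset, ⟨?_, ?_⟩, Finset.subset_union_left, fun v => m.count v, ?_⟩
  · intro u hu
    rcases Finset.mem_union.1 hu with hu | hu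
    · exact hf.1 u hu
    · exact hm.1 u (Multiset.mem_toFinset.1 hu)
  · intro u hu v hv
    rcases Finset.mem_union.1 hu with hu | hu <;> rcases Finset.mem_union.1 hv with hv | hv
    · exact hf.2 u hu v hv
    · exact key u hu v (Multiset.mem_toFinset.1 hv)
    · rw [F.E_comm]
      exact key v hv u (Multiset.mem_toFinset.1 hu)
    · exact hm.2 u (Multiset.mem_toFinset.1 hu) v (Multiset.mem_toFinset.1 hv)
  · rw [Finset.sum_multiset_count]
    apply Finset.sum_subset Finset.subset_union_right
    intro v _ hv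
    rw [Multiset.mem_toFinset] at hv
    change m.count v • v = 0
    rw [Multiset.count_eq_zero_of_notMem hv, zero_smul]

end CF

end BT3
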