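import Mathlib
import Pool.Agent.BT3.Dec

/-!
BT3.Bas: the indecomposable vectors compatible with a chamber vector `z` (`S z = ∅`) are a basis.

Proofs.  Let `I = {u | Ind u ∧ E u z = 0}`.  By `cham` any two vectors compatible with `z` are
compatible with each other.
* span: for `w : Fin n → ℤ` there is `N` with `E z (N • z + w) = 0` (`star`); decompose
  `N • z + w = m.sum`; by `E_sum`, `E_comm` all members of `m` are compatible with `z`, so
  `N • z + w` is in the span of `I`; the same for `z` itself (`E z z = 0`), so `w` is in the span.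
* linear independence: let `∑_{u ∈ s} a u • u = 0`, `s ⊆ I` finite, `a u : ℤ`.  Put
  `m = ∑_{u ∈ s} (a u).toNat • {u}`, `m' = ∑_{u ∈ s} (-a u).toNat • {u}` (multisets); both are
  decompositions (all members are in `I`), `m.sum = m'.sum`, so `m = m'` by `dec_unique`, so the
  counts agree: `(a u).toNat = (-a u).toNat`, so `a u = 0`.
* finiteness: a linearly independent family in `Fin n → ℤ` is finite and a basis has `n` elements
  (`Module.Basis.mk`, `Module.finrank_eq_card_basis`, `LinearIndependent.finite`... ).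
* `cham_coef`: decompose `y`; all members are in `B`; `c v` = multiplicity.  Conversely
  `∑ c v • v` is compatible with `z` by `E_face` (`B` is a face).
* `face_max`: `z = ∑_{v ∈ f} v`, `N` large, `z' = N • z + 1` has `S z' = ∅` and `E z z' = 0` (`pos`).
  By `E_face` (with `c = 1`) all `v ∈ f` are compatible with `z'`, so `f ⊆ B(z')`.
* `bas_unique`: if `f` is a face of cardinality `n` contained in `B`, it is `B`.
-/

namespace BT3

namespace CF

variable {n : ℕ} (F : CF n)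

/-- `B` is the set of indecomposable vectors compatible with `z`, and it is a basis -/
structure IsCham (z : Fin n → ℤ) (B : Finset (Fin n → ℤ)) : Prop where
  mem : ∀ u, u ∈ B ↔ F.Ind u ∧ F.E u z = 0
  face : F.Face B
  card : B.card = n
  li : LinearIndependent ℤ (fun v : B => (v : Fin n → ℤ))
  sp : ⊤ ≤ Submodule.span ℤ (Set.range (fun v : B => (v : Fin n → ℤ)))

theorem bas_mem_zero {m : Multiset (Fin n → ℤ)} (hm : F.Dec m) {z : Fin n → ℤ}
    (h : F.E m.sum z = 0) : ∀ u ∈ m, F.E u z = 0 := by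
  rw [F.E_sum hm.2] at h
  intro u hu
  have h1 := (Multiset.sum_eq_zero_iff.mp h) (F.E u z) (Multiset.mem_map_of_mem _ hu)
  exact h1

/-- the set of indecomposable vectors compatible with `z` -/
def Iz (z : Fin n → ℤ) : Set (Fin n → ℤ) := {u | F.Ind u ∧ F.E u z = 0}

theorem bas_li {z : Fin n → ℤ} (hz : F.S z = ∅) :
    LinearIndependent ℤ (fun v : F.Iz z => (v : Fin n → ℤ)) := by
  classical
  rw [linearIndependent_iff']
  intro s g hg
  have key : ∀ a : F.Iz z → ℕ, F.Dec (∑ u ∈ s, a u • ({(u : Fin n → ℤ)} : Multiset (Fin n → ℤ))) := by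
    intro a
    have h1 : ∀ w ∈ ∑ u ∈ s, a u • ({(u : Fin n → ℤ)} : Multiset (Fin n → ℤ)), w ∈ F.Iz z := by
      intro w hw
      rw [Multiset.mem_sum] at hw
      obtain ⟨u, _, hu⟩ := hw
      have := Multiset.mem_of_mem_nsmul hu
      rw [Multiset.mem_singleton] at this
      rw [this]
      exact u.2
    exact ⟨fun u hu => (h1 u hu).1, fun u hu v hv => F.cham z hz u v (h1 u hu).2 (h1 v hv).2⟩
  have hsum : ∀ a : F.Iz z → ℕ, (∑ u ∈ s, a u • ({(u : Fin n → ℤ)} : Multiset (Fin n → ℤ))).sum =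
      ∑ u ∈ s, a u • (u : Fin n → ℤ) := by
    intro a
    rw [Multiset.sum_sum]
    refine Finset.sum_congr rfl fun u _ => ?_
    rw [Multiset.sum_nsmul, Multiset.sum_singleton]
  have hcount : ∀ a : F.Iz z → ℕ, ∀ v ∈ s,
      (∑ u ∈ s, a u • ({(u : Fin n → ℤ)} : Multiset (Fin n → ℤ))).count (v : Fin n → ℤ) = a v := by
    intro a v hv
    rw [Multiset.count_sum', Finset.sum_eq_single v]
    · rw [Multiset.count_nsmul, Multiset.count_singleton_self, mul_one]
    · intro u _ huv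
      rw [Multiset.count_nsmul, Multiset.count_singleton, if_neg (fun h => huv (Subtype.ext h.symm)),
        mul_zero]
    · intro h
      exact absurd hv h
  have heq : (∑ u ∈ s, (g u).toNat • ({(u : Fin n → ℤ)} : Multiset (Fin n → ℤ))) =
      ∑ u ∈ s, (-g u).toNat • ({(u : Fin n → ℤ)} : Multiset (Fin n → ℤ)) := by
    refine F.dec_unique (key _) (key _) ?_
    rw [hsum, hsum, ← sub_eq_zero, ← Finset.sum_sub_distrib, ← hg]
    refine Finset.sum_congr rfl fun u _ => ?_
    rw [← natCast_zsmul, ← natCast_zsmul, ← sub_smul]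
    congr 1
    omega
  intro v hv
  have h1 := hcount (fun u => (g u).toNat) v hv
  have h2 := hcount (fun u => (-g u).toNat) v hv
  rw [heq, h2] at h1
  have h1' : (-g v).toNat = (g v).toNat := h1
  omega

theorem bas_dec_span {z y : Fin n → ℤ} (hy : F.E y z = 0) :
    y ∈ Submodule.span ℤ (F.Iz z) := by
  obtain ⟨m, hm, rfl⟩ := F.exists_dec y
  have h1 := F.bas_mem_zero hm hy
  refine multiset_sum_mem m fun u hu => ?_
  exact Submodule.subset_span ⟨hm.1 u hu, h1 u hu⟩

theorem bas_span (z : Fin n → ℤ) : ⊤ ≤ Submodule.span ℤ (F.Iz z) := by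
  intro w _
  obtain ⟨N0, hN⟩ := F.star z w
  have h1 : N0 • z + w ∈ Submodule.span ℤ (F.Iz z) :=
    F.bas_dec_span (by rw [F.E_comm]; exact hN N0 le_rfl)
  have h2 : z ∈ Submodule.span ℤ (F.Iz z) := F.bas_dec_span (F.E_self z)
  have h3 : N0 • z ∈ Submodule.span ℤ (F.Iz z) := by
    rw [← natCast_zsmul]
    exact Submodule.smul_mem _ _ h2
  have h4 := Submodule.sub_mem _ h1 h3
  rwa [add_sub_cancel_left] at h4

theorem exists_cham {z : Fin n → ℤ} (hz : F.S z = ∅) : ∃ B, F.IsCham z B := by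
  classical
  have hli := F.bas_li hz
  have hsp : ⊤ ≤ Submodule.span ℤ (Set.range (fun v : F.Iz z => (v : Fin n → ℤ))) := by
    rw [Subtype.range_coe]
    exact F.bas_span z
  set b := Module.Basis.mk hli hsp with hb
  have hfin : Finite (F.Iz z) := Module.Finite.finite_basis b
  have hfs : (F.Iz z).Finite := Set.toFinite _
  have hcard : Nat.card (F.Iz z) = n := by
    rw [← Module.finrank_eq_nat_card_basis b, Module.finrank_fintype_fun_eq_card, Fintype.card_fin]
  refine ⟨hfs.toFinset, ?_, ?_, ?_, ?_, ?_⟩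
  · intro u
    rw [Set.Finite.mem_toFinset]
    exact Iff.rfl
  · refine ⟨fun u hu => ?_, fun u hu v hv => ?_⟩
    · rw [Set.Finite.mem_toFinset] at hu
      exact hu.1
    · rw [Set.Finite.mem_toFinset] at hu hv
      exact F.cham z hz u v hu.2 hv.2
  · exact (Set.ncard_eq_toFinset_card _ hfs).symm.trans ((Nat.card_coe_set_eq _).symm.trans hcard)
  · exact hli.comp (fun v : hfs.toFinset => (⟨v.1, (Set.Finite.mem_toFinset hfs).mp v.2⟩ : F.Iz z))
      (fun u v h => Subtype.ext (congrArg (fun w : F.Iz z => (w : Fin n → ℤ)) h))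
  · have h1 : Set.range (fun v : hfs.toFinset => (v : Fin n → ℤ)) = F.Iz z := by
      ext u
      simp
    rw [h1]
    exact F.bas_span z

variable {F}

theorem IsCham.coef {z : Fin n → ℤ} {B : Finset (Fin n → ℤ)} (h : F.IsCham z B)
    (y : Fin n → ℤ) (hy : F.E y z = 0) : ∃ c : (Fin n → ℤ) → ℕ, y = ∑ v ∈ B, c v • v := by
  classical
  obtain ⟨m, hm, rfl⟩ := F.exists_dec y
  have h1 := F.bas_mem_zero hm hy
  refine ⟨fun v => m.count v, ?_⟩
  rw [Finset.sum_multiset_count]
  refine Finset.sum_subset ?_ ?_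
  · intro u hu
    rw [Multiset.mem_toFinset] at hu
    exact (h.mem u).mpr ⟨hm.1 u hu, h1 u hu⟩
  · intro u _ hu
    rw [Multiset.mem_toFinset] at hu
    rw [Multiset.count_eq_zero_of_notMem hu, zero_smul]

theorem IsCham.cmp {z : Fin n → ℤ} {B : Finset (Fin n → ℤ)} (h : F.IsCham z B)
    (c : (Fin n → ℤ) → ℕ) : F.E (∑ v ∈ B, c v • v) z = 0 := by
  rw [F.E_face h.face]
  refine Finset.sum_eq_zero fun v hv => ?_
  rw [((h.mem v).mp hv).2, mul_zero]

/-- integer coordinates -/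
theorem IsCham.icoef {z : Fin n → ℤ} {B : Finset (Fin n → ℤ)} (h : F.IsCham z B)
    (y : Fin n → ℤ) : ∃ c : (Fin n → ℤ) → ℤ, y = ∑ v ∈ B, c v • v := by
  classical
  obtain ⟨c, hc⟩ := (Submodule.mem_span_range_iff_exists_fun ℤ).mp (h.sp (Submodule.mem_top (x := y)))
  refine ⟨fun v => if hv : v ∈ B then c ⟨v, hv⟩ else 0, ?_⟩
  rw [← Finset.sum_coe_sort B (fun v => (if hv : v ∈ B then c ⟨v, hv⟩ else 0) • v), ← hc]
  refine Finset.sum_congr rfl fun v _ => ?_
  rw [dif_pos v.2]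

/-- the coordinates are unique -/
theorem IsCham.ucoef {z : Fin n → ℤ} {B : Finset (Fin n → ℤ)} (h : F.IsCham z B)
    (c d : (Fin n → ℤ) → ℤ) (hcd : ∑ v ∈ B, c v • v = ∑ v ∈ B, d v • v) :
    ∀ v ∈ B, c v = d v := by
  intro v hv
  have h1 := Fintype.linearIndependent_iff.mp h.li (fun v => c v - d v) (by
    rw [Finset.sum_coe_sort B (fun v => (c v - d v) • v)]
    simp only [sub_smul, Finset.sum_sub_distrib]
    rw [hcd, sub_self]) ⟨v, hv⟩
  simp only at h1
  linarith

/-- an additive functional which vanishes on the basis is zero -/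
theorem IsCham.ext {z : Fin n → ℤ} {B : Finset (Fin n → ℤ)} (h : F.IsCham z B)
    {φ ψ : (Fin n → ℤ) →+ ℤ} (hφ : ∀ v ∈ B, φ v = ψ v) : φ = ψ := by
  refine DFunLike.ext _ _ fun y => ?_
  obtain ⟨c, hc⟩ := h.icoef y
  rw [hc, map_sum, map_sum]
  refine Finset.sum_congr rfl fun v hv => ?_
  rw [map_zsmul, map_zsmul, hφ v hv]

theorem bas_face_mem {f : Finset (Fin n → ℤ)} (hf : F.Face f) {z' : Fin n → ℤ}
    (h : F.E (∑ v ∈ f, v) z' = 0) : ∀ v ∈ f, F.E v z' = 0 := by
  have h1 : ∑ v ∈ f, v = ∑ v ∈ f, (fun _ => 1 : (Fin n → ℤ) → ℕ) v • v := by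
    refine Finset.sum_congr rfl fun v _ => ?_
    rw [one_smul]
  rw [h1, F.E_face hf, Finset.sum_eq_zero_iff] at h
  intro v hv
  have h2 := h v hv
  rwa [one_mul] at h2

/-- every face is contained in a chamber, on the positive side of all stable functionals -/
theorem Face.pos {f : Finset (Fin n → ℤ)} (hf : F.Face f) :
    ∃ z B, F.S z = ∅ ∧ F.IsCham z B ∧ f ⊆ B ∧
      ∀ v ∈ B, ∀ β ∈ F.S (∑ v ∈ f, v), 0 ≤ β v := by
  obtain ⟨N0, hN⟩ := F.pos (∑ v ∈ f, v)
  obtain ⟨h1, h2, h3⟩ := hN N0 le_rfl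
  obtain ⟨B, hB⟩ := F.exists_cham h1
  refine ⟨_, B, h1, hB, ?_, ?_⟩
  · intro v hv
    exact (hB.mem v).mpr ⟨hf.1 v hv, bas_face_mem hf h2 v hv⟩
  · intro v hv β hβ
    exact h3 v ((hB.mem v).mp hv).2 β hβ

/-- every face is contained in a chamber, on the negative side of all stable functionals -/
theorem Face.neg {f : Finset (Fin n → ℤ)} (hf : F.Face f) :
    ∃ z B, F.S z = ∅ ∧ F.IsCham z B ∧ f ⊆ B ∧
      ∀ v ∈ B, ∀ β ∈ F.S (∑ v ∈ f, v), β v ≤ 0 := by
  obtain ⟨N0, hN⟩ := F.neg (∑ v ∈ f, v)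
  obtain ⟨h1, h2, h3⟩ := hN N0 le_rfl
  obtain ⟨B, hB⟩ := F.exists_cham h1
  refine ⟨_, B, h1, hB, ?_, ?_⟩
  · intro v hv
    exact (hB.mem v).mpr ⟨hf.1 v hv, bas_face_mem hf h2 v hv⟩
  · intro v hv β hβ
    exact h3 v ((hB.mem v).mp hv).2 β hβ

theorem IsCham.eq_of_face {z : Fin n → ℤ} {B f : Finset (Fin n → ℤ)} (h : F.IsCham z B)
    (hf : F.Face f) (hBf : B ⊆ f) : f = B := by
  refine Finset.Subset.antisymm ?_ hBf
  intro u hu
  refine (h.mem u).mpr ⟨hf.1 u hu, ?_⟩
  obtain ⟨c, hc⟩ := h.coef z (F.E_self z)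
  have h1 : F.E z u = 0 := by
    conv_lhs => rw [hc]
    rw [F.E_face h.face]
    refine Finset.sum_eq_zero fun v hv => ?_
    rw [hf.2 v (hBf hv) u hu, mul_zero]
  rw [F.E_comm]
  exact h1

end CF

end BT3
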