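import Mathlib
import Pool.Agent.BT3.Bas

/-!
BT3.Fac: the stable functional of a facet of a chamber.

Let `B` be the basis of the chamber of `z`, `u ∈ B`, `f = B.erase u`, `y = ∑_{v ∈ f} v`.
1. `S y ≠ ∅`.  Otherwise `exists_cham` gives `B'` with `IsCham y B'`.  Every `v ∈ B` satisfies
   `E v y = 0` (`E_face`, `E_comm`), so `B ⊆ B'`, and both have `n` elements, `B = B'`.  By `star`
   there is `N` with `E y (N • y - u) = 0`, so `N • y - u = ∑_{v ∈ B} c v • v` with natural `c`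
   (`coef`).  Comparing the coordinate of `u` (`ucoef`): `(c u : ℤ) = -1`, a contradiction.
2. For `β ∈ S y` and `v ∈ f`: `y = v + ∑ (f.erase v)` and the two summands are compatible, so
   `β v = 0` by `S_add`.
3. Let `β ∈ S y`.  `S_sep` gives `t` with `β t = 1` and `β' t = 0` for the other `β' ∈ S y`.  Write
   `t = ∑ c v • v` (`icoef`); `1 = β t = c u * β u`, so `β u = 1` or `-1` (`Int.eq_one_or_neg_one_of_mul_eq_one'`
   or `Int.isUnit_iff`) and `c u ≠ 0`.  If `β' ∈ S y`, `β' ≠ β`, then `0 = β' t = c u * β' u`, so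
   `β' u = 0`, so `β'` vanishes on `B`, so `β' = 0` (`IsCham.ext`), contradicting `S_one`.
-/

namespace BT3

namespace CF

variable {n : ℕ} {F : CF n}

theorem IsCham.facet {z : Fin n → ℤ} {B : Finset (Fin n → ℤ)} (h : F.IsCham z B)
    {u : Fin n → ℤ} (hu : u ∈ B) : ∃ β, F.S (∑ v ∈ B.erase u, v) = {β} ∧
      (∀ v ∈ B.erase u, β v = 0) ∧ (β u = 1 ∨ β u = -1) := by
  classical
  set y := ∑ v ∈ B.erase u, v with hy
  have hsubf : ∀ f : Finset (Fin n → ℤ), f ⊆ B → F.Face f := fun f hf =>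
    ⟨fun w hw => h.face.1 w (hf hw), fun w hw w' hw' => h.face.2 w (hf hw) w' (hf hw')⟩
  have hEf : ∀ f : Finset (Fin n → ℤ), f ⊆ B → ∀ v ∈ B, F.E v (∑ w ∈ f, w) = 0 := by
    intro f hf v hv
    have h1 := F.E_face (hsubf f hf) (fun _ => 1) v
    simp only [one_smul, one_mul] at h1
    rw [F.E_comm, h1]
    exact Finset.sum_eq_zero (fun w hw => h.face.2 w (hf hw) v hv)
  have hEy : ∀ v ∈ B, F.E v y = 0 := hEf _ (Finset.erase_subset _ _)
  have h2 : ∀ β ∈ F.S y, ∀ v ∈ B.erase u, β v = 0 := by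
    intro β hβ v hv
    have e : y = v + ∑ w ∈ (B.erase u).erase v, w :=
      (Finset.add_sum_erase (B.erase u) (fun w => w) hv).symm
    have hc : F.E v (∑ w ∈ (B.erase u).erase v, w) = 0 :=
      hEf _ ((Finset.erase_subset _ _).trans (Finset.erase_subset _ _)) v
        (Finset.mem_of_mem_erase hv)
    rw [e] at hβ
    exact (F.S_add _ _ hc β hβ).1
  have h1 : F.S y ≠ ∅ := by
    intro hS
    obtain ⟨B', hB'⟩ := F.exists_cham hS
    have hsub : B ⊆ B' := fun v hv => (hB'.mem v).2 ⟨h.face.1 v hv, hEy v hv⟩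
    have hBB : B = B' := Finset.eq_of_subset_of_card_le hsub (by rw [hB'.card, h.card])
    have hB2 : F.IsCham y B := by rw [hBB]; exact hB'
    obtain ⟨N0, hN⟩ := F.star y (-u)
    obtain ⟨c, hc⟩ := hB2.coef (N0 • y + -u) (by rw [F.E_comm]; exact hN N0 le_rfl)
    have e1 : N0 • y + -u = ∑ v ∈ B, (if v = u then (-1 : ℤ) else (N0 : ℤ)) • v := by
      rw [← Finset.add_sum_erase _ _ hu, if_pos rfl]
      have : ∑ v ∈ B.erase u, (if v = u then (-1 : ℤ) else (N0 : ℤ)) • v
          = ∑ v ∈ B.erase u, (N0 : ℤ) • v := by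
        refine Finset.sum_congr rfl (fun v hv => ?_)
        rw [if_neg (Finset.ne_of_mem_erase hv)]
      rw [this, ← Finset.smul_sum, ← hy, neg_one_smul, natCast_zsmul, add_comm]
    have e2 : ∑ v ∈ B, ((c v : ℕ) : ℤ) • v
        = ∑ v ∈ B, (if v = u then (-1 : ℤ) else (N0 : ℤ)) • v := by
      rw [← e1, hc]
      refine Finset.sum_congr rfl (fun v _ => ?_)
      rw [natCast_zsmul]
    have e3 := hB2.ucoef (fun v => ((c v : ℕ) : ℤ))
      (fun v => if v = u then (-1 : ℤ) else (N0 : ℤ)) e2 u hu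
    simp only [if_true] at e3
    omega
  have h3 : ∀ β ∈ F.S y, (β u = 1 ∨ β u = -1) ∧ F.S y = {β} := by
    intro β hβ
    obtain ⟨t, ht1, ht2⟩ := F.S_sep y β hβ
    obtain ⟨c, hc⟩ := h.icoef t
    have hval : ∀ β' ∈ F.S y, β' t = c u * β' u := by
      intro β' hβ'
      rw [hc, map_sum, ← Finset.add_sum_erase _ _ hu]
      have : ∑ v ∈ B.erase u, β' (c v • v) = 0 := by
        refine Finset.sum_eq_zero (fun v hv => ?_)
        rw [map_zsmul, h2 β' hβ' v hv, smul_zero]
      rw [this, add_zero, map_zsmul, smul_eq_mul]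
    have h4 : c u * β u = 1 := by rw [← hval β hβ, ht1]
    refine ⟨?_, ?_⟩
    · have : IsUnit (β u) := IsUnit.of_mul_eq_one (c u) (by rw [mul_comm]; exact h4)
      exact Int.isUnit_iff.1 this
    · refine Set.eq_singleton_iff_unique_mem.2 ⟨hβ, ?_⟩
      intro β' hβ'
      by_contra hne
      have h5 := ht2 β' hβ' hne
      rw [hval β' hβ'] at h5
      have hcu : c u ≠ 0 := by
        intro h0
        rw [h0, zero_mul] at h4
        exact zero_ne_one h4
      have h6 : β' u = 0 := by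
        rcases mul_eq_zero.1 h5 with h6 | h6
        · exact absurd h6 hcu
        · exact h6
      have h7 : β' = 0 := by
        refine h.ext (fun v hv => ?_)
        by_cases hvu : v = u
        · rw [hvu, h6]; rfl
        · rw [h2 β' hβ' v (Finset.mem_erase.2 ⟨hvu, hv⟩)]; rfl
      have h8 := F.S_one y β' hβ'
      rw [h7] at h8
      exact lt_irrefl _ h8
  obtain ⟨β, hβ⟩ := Set.nonempty_iff_ne_empty.2 h1
  exact ⟨β, (h3 β hβ).2, h2 β hβ, (h3 β hβ).1⟩

end CF

end BT3
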