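import Mathlib
import Pool.Agent.BT3.Fac

/-!
BT3.Ver: rank three, vertices.  `u` indecomposable.

Setup for all proofs: `{u}` is a face, `Face.pos` gives a chamber basis `B ∋ u`,
`B = {u, v, w}` (three elements).  `facet` at `w`: `S (u + v) = {βw}` with `βw u = βw v = 0`,
`βw w = ±1`; `facet` at `v`: `S (u + w) = {βv}`, `βv u = βv w = 0`, `βv v = ±1`.  By `S_filt` both
`βw` and `βv` are in `AddSubmonoid.closure (S u)`.  All elements of `S u` vanish on `u`
(`S_add u 0`).

* `vertex`.  `S u` has two different elements: otherwise `S u ⊆ {a}` and `βw = m • a`,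
  `βv = m' • a`; `m ≠ 0`, and `0 = βw v = m * a v` gives `a v = 0`, so `βv v = 0`, contradiction
  (if `S u = ∅` then `βw = 0`).  `S u` has at most two elements: let `a, b, c` be different elements;
  `S_sep` gives `y1, y2, y3` with the dual values, so the additive map `(a, b, c) : ℤ^3 → ℤ^3` is
  onto, hence injective (surjective endomorphisms of noetherian modules are injective), but it
  kills `u ≠ 0`.
* `ker_vertex`: `y = α u + β v + γ w`; `βw, βv` are natural combinations of `a, b`
  (`AddSubmonoid.mem_closure_pair` or induction), so `βw y = βv y = 0`, so `γ = β = 0`.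
* `hex`: `{u, v}` is a face, take a chamber basis `{u, v, w}` containing it; `S (u + v) = {β}` and
  `β v = 0`.  By `S_sep` there are `y1`, `y2` with `(a, b) y1 = (1, 0)`, `(a, b) y2 = (0, 1)`;
  expanding in the basis, `(a v, b v)` and `(a w, b w)` generate `ℤ^2`, so
  `a v * b w - b v * a w = ±1`.  `Key`: `β = a`: `a v = 0` so `b v = ±1`; `β = b`: `a v = ±1`, `b v = 0`;
  `β = a + b`: `b v = - a v`, `a v * (b w + a w) = ±1`, so `a v = ±1`.
-/

namespace BT3

namespace CF

variable {F : CF 3}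

private theorem unit_of {p q : ℤ} (h : p * q = 1 ∨ p * q = -1) : p = 1 ∨ p = -1 := by
  rcases h with h | h
  · exact Int.eq_one_or_neg_one_of_mul_eq_one h
  · have h' : p * (-q) = 1 := by rw [mul_neg, h]; rfl
    exact Int.eq_one_or_neg_one_of_mul_eq_one h'

private theorem three {z : Fin 3 → ℤ} {B : Finset (Fin 3 → ℤ)} (h : F.IsCham z B)
    {u : Fin 3 → ℤ} (hu : u ∈ B) : ∃ v w, u ≠ v ∧ u ≠ w ∧ v ≠ w ∧ B = {u, v, w} := by
  obtain ⟨x, y, t, hxy, hxt, hyt, rfl⟩ := Finset.card_eq_three.1 h.card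
  simp only [Finset.mem_insert, Finset.mem_singleton] at hu
  rcases hu with rfl | rfl | rfl
  · exact ⟨y, t, hxy, hxt, hyt, rfl⟩
  · refine ⟨x, t, hxy.symm, hyt, hxt, ?_⟩
    ext a
    simp only [Finset.mem_insert, Finset.mem_singleton]
    tauto
  · refine ⟨x, y, hxt.symm, hyt.symm, hxy, ?_⟩
    ext a
    simp only [Finset.mem_insert, Finset.mem_singleton]
    tauto

private theorem three2 {z : Fin 3 → ℤ} {B : Finset (Fin 3 → ℤ)} (h : F.IsCham z B)
    {u v : Fin 3 → ℤ} (hu : u ∈ B) (hv : v ∈ B) (huv : u ≠ v) :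
    ∃ w, u ≠ w ∧ v ≠ w ∧ B = {u, v, w} := by
  obtain ⟨x, y, hux, huy, hxy, rfl⟩ := three h hu
  simp only [Finset.mem_insert, Finset.mem_singleton] at hv
  rcases hv with rfl | rfl | rfl
  · exact absurd rfl huv
  · exact ⟨y, huy, hxy, rfl⟩
  · refine ⟨x, hux, hxy.symm, ?_⟩
    ext a
    simp only [Finset.mem_insert, Finset.mem_singleton]
    tauto

private theorem expand {z u v w : Fin 3 → ℤ} (h : F.IsCham z {u, v, w}) (huv : u ≠ v)
    (huw : u ≠ w) (hvw : v ≠ w) (y : Fin 3 → ℤ) :
    ∃ α β γ : ℤ, y = α • u + (β • v + γ • w) := by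
  obtain ⟨c, hc⟩ := h.icoef y
  refine ⟨c u, c v, c w, ?_⟩
  rw [Finset.sum_insert, Finset.sum_insert, Finset.sum_singleton] at hc
  · exact hc
  · simpa using hvw
  · simp only [Finset.mem_insert, Finset.mem_singleton]
    tauto

/-- the facet at the third vector -/
private theorem fac3 {z u v w : Fin 3 → ℤ} (h : F.IsCham z {u, v, w}) (huv : u ≠ v)
    (huw : u ≠ w) (hvw : v ≠ w) : ∃ β, F.S (u + v) = {β} ∧ β u = 0 ∧ β v = 0 ∧
      (β w = 1 ∨ β w = -1) := by
  obtain ⟨β, hS, h0, h1⟩ := h.facet (u := w) (by simp)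
  have he : ({u, v, w} : Finset (Fin 3 → ℤ)).erase w = {u, v} := by
    ext a
    simp only [Finset.mem_erase, Finset.mem_insert, Finset.mem_singleton]
    constructor
    · tauto
    · rintro (rfl | rfl)
      · exact ⟨huw, Or.inl rfl⟩
      · exact ⟨hvw, Or.inr (Or.inl rfl)⟩
  rw [he] at hS h0
  rw [Finset.sum_pair huv] at hS
  exact ⟨β, hS, h0 u (by simp), h0 v (by simp), h1⟩

private theorem S_self {u : Fin 3 → ℤ} {β : (Fin 3 → ℤ) →+ ℤ} (hβ : β ∈ F.S u) : β u = 0 := by
  have h0 : F.E u 0 = 0 := by rw [F.E_comm, F.E_zero]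
  exact (F.S_add u 0 h0 β (by rwa [add_zero])).1

private theorem swap_cham {z u v w : Fin 3 → ℤ} (h : F.IsCham z {u, v, w}) :
    F.IsCham z {u, w, v} := by
  have he : ({u, w, v} : Finset (Fin 3 → ℤ)) = {u, v, w} := by
    ext a
    simp only [Finset.mem_insert, Finset.mem_singleton]
    tauto
  rw [he]
  exact h

/-- the two facets through `u` -/
private theorem facets {u : Fin 3 → ℤ} (hu : F.Ind u) : ∃ (v w : Fin 3 → ℤ)
    (βv βw : (Fin 3 → ℤ) →+ ℤ),
    (∀ y : Fin 3 → ℤ, ∃ α β γ : ℤ, y = α • u + (β • v + γ • w)) ∧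
    βw ∈ AddSubmonoid.closure (F.S u) ∧ βv ∈ AddSubmonoid.closure (F.S u) ∧
    βw u = 0 ∧ βw v = 0 ∧ (βw w = 1 ∨ βw w = -1) ∧
    βv u = 0 ∧ βv w = 0 ∧ (βv v = 1 ∨ βv v = -1) := by
  have hf : F.Face {u} := by
    refine ⟨?_, ?_⟩
    · intro x hx
      rw [Finset.mem_singleton] at hx
      rw [hx]
      exact hu
    · intro x hx y hy
      rw [Finset.mem_singleton] at hx hy
      rw [hx, hy]
      exact F.E_self u
  obtain ⟨z, B, -, hB, hfB, -⟩ := Face.pos hf
  have huB : u ∈ B := hfB (by simp)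
  obtain ⟨v, w, huv, huw, hvw, rfl⟩ := three hB huB
  obtain ⟨βw, hSw, h1, h2, h3⟩ := fac3 hB huv huw hvw
  obtain ⟨βv, hSv, h4, h5, h6⟩ := fac3 (swap_cham hB) huw huv hvw.symm
  have hEv : F.E u v = 0 := hB.face.2 u (by simp) v (by simp)
  have hEw : F.E u w = 0 := hB.face.2 u (by simp) w (by simp)
  refine ⟨v, w, βv, βw, expand hB huv huw hvw, ?_, ?_, h1, h2, h3, h4, h5, h6⟩
  · exact F.S_filt u v hEv βw (by rw [hSw]; rfl)
  · exact F.S_filt u w hEw βv (by rw [hSv]; rfl)

theorem vertex {u : Fin 3 → ℤ} (hu : F.Ind u) : ∃ a b, a ≠ b ∧ F.S u = {a, b} := by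
  obtain ⟨v, w, βv, βw, -, hw, hv, h1, h2, h3, h4, h5, h6⟩ := facets hu
  by_cases hn : (F.S u).Nontrivial
  · obtain ⟨a, ha, b, hb, hab⟩ := hn
    refine ⟨a, b, hab, ?_⟩
    apply Set.Subset.antisymm
    · intro c hc
      by_contra hcon
      rw [Set.mem_insert_iff, Set.mem_singleton_iff] at hcon
      rw [not_or] at hcon
      obtain ⟨hca, hcb⟩ := hcon
      obtain ⟨y1, a1, o1⟩ := F.S_sep u a ha
      obtain ⟨y2, a2, o2⟩ := F.S_sep u b hb
      obtain ⟨y3, a3, o3⟩ := F.S_sep u c hc
      let Φ : (Fin 3 → ℤ) →ₗ[ℤ] (Fin 3 → ℤ) :=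
        LinearMap.pi ![a.toIntLinearMap, b.toIntLinearMap, c.toIntLinearMap]
      have hΦ0 : ∀ y, Φ y 0 = a y := fun _ => rfl
      have hΦ1 : ∀ y, Φ y 1 = b y := fun _ => rfl
      have hΦ2 : ∀ y, Φ y 2 = c y := fun _ => rfl
      have hs : Function.Surjective Φ := by
        intro t
        refine ⟨t 0 • y1 + (t 1 • y2 + t 2 • y3), ?_⟩
        funext i
        fin_cases i
        · change Φ _ 0 = t 0
          rw [hΦ0, map_add, map_add, map_zsmul, map_zsmul, map_zsmul, a1, o2 a ha hab,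
            o3 a ha (Ne.symm hca)]
          simp
        · change Φ _ 1 = t 1
          rw [hΦ1, map_add, map_add, map_zsmul, map_zsmul, map_zsmul, a2, o1 b hb hab.symm,
            o3 b hb (Ne.symm hcb)]
          simp
        · change Φ _ 2 = t 2
          rw [hΦ2, map_add, map_add, map_zsmul, map_zsmul, map_zsmul, a3, o1 c hc hca,
            o2 c hc hcb]
          simp
      have hi := IsNoetherian.injective_of_surjective_endomorphism Φ hs
      apply hu.1
      apply hi
      rw [map_zero]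
      funext i
      fin_cases i
      · exact S_self ha
      · exact S_self hb
      · exact S_self hc
    · intro c hc
      rcases hc with rfl | hc
      · exact ha
      · rw [Set.mem_singleton_iff.1 hc]
        exact hb
  · exfalso
    rw [Set.not_nontrivial_iff] at hn
    rcases hn.eq_empty_or_singleton with he | ⟨a, he⟩
    · rw [he, AddSubmonoid.closure_empty, AddSubmonoid.mem_bot] at hw
      rw [hw] at h3
      simp at h3
    · rw [he, AddSubmonoid.mem_closure_singleton] at hw hv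
      obtain ⟨m, hm⟩ := hw
      obtain ⟨m', hm'⟩ := hv
      have e1 : ∀ y, βw y = m * a y := by
        intro y
        rw [← hm]
        simp
      have e2 : ∀ y, βv y = m' * a y := by
        intro y
        rw [← hm']
        simp
      have hm0 : (m : ℤ) ≠ 0 := by
        intro h0
        rw [e1, h0, zero_mul] at h3
        omega
      have hav : a v = 0 := by
        have := h2
        rw [e1] at this
        rcases mul_eq_zero.1 this with h | h
        · exact absurd h hm0
        · exact h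
      rw [e2, hav, mul_zero] at h6
      omega

theorem ker_vertex {u : Fin 3 → ℤ} (hu : F.Ind u) {a b : (Fin 3 → ℤ) →+ ℤ} (hab : a ≠ b)
    (hS : F.S u = {a, b}) {y : Fin 3 → ℤ} (ha : a y = 0) (hb : b y = 0) :
    ∃ t : ℤ, y = t • u := by
  obtain ⟨v, w, βv, βw, hexp, hw, hv, h1, h2, h3, h4, h5, h6⟩ := facets hu
  have key : ∀ φ : (Fin 3 → ℤ) →+ ℤ, φ ∈ AddSubmonoid.closure (F.S u) → φ y = 0 := by
    intro φ hφ
    rw [hS] at hφ
    induction hφ using AddSubmonoid.closure_induction with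
    | mem x hx =>
      rcases hx with rfl | hx
      · exact ha
      · rw [Set.mem_singleton_iff.1 hx]
        exact hb
    | zero => rfl
    | add x x' _ _ hx hx' => rw [AddMonoidHom.add_apply, hx, hx', add_zero]
  have k1 := key βw hw
  have k2 := key βv hv
  obtain ⟨α, β, γ, rfl⟩ := hexp y
  rw [map_add, map_add, map_zsmul, map_zsmul, map_zsmul, h1, h2] at k1
  rw [map_add, map_add, map_zsmul, map_zsmul, map_zsmul, h4, h5] at k2
  simp only [smul_eq_mul, mul_zero, zero_add, add_zero] at k1 k2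
  have hγ : γ = 0 := by
    rcases h3 with h | h
    · rw [h] at k1
      omega
    · rw [h] at k1
      omega
  have hβ : β = 0 := by
    rcases h6 with h | h
    · rw [h] at k2
      omega
    · rw [h] at k2
      omega
  exact ⟨α, by rw [hγ, hβ, zero_smul, zero_smul, add_zero, add_zero]⟩

/-- the hexagon -/
def Hex (p q : ℤ) : Prop :=
  (p = 1 ∧ q = 0) ∨ (p = -1 ∧ q = 0) ∨ (p = 0 ∧ q = 1) ∨ (p = 0 ∧ q = -1) ∨
    (p = 1 ∧ q = -1) ∨ (p = -1 ∧ q = 1)

theorem hex (hK : F.Key) {u v : Fin 3 → ℤ} (hu : F.Ind u) (hv : F.Ind v) (huv : F.E u v = 0)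
    (hne : u ≠ v) {a b : (Fin 3 → ℤ) →+ ℤ} (hab : a ≠ b) (hS : F.S u = {a, b}) :
    Hex (a v) (b v) := by
  have hf : F.Face {u, v} := by
    refine ⟨?_, ?_⟩
    · intro x hx
      rw [Finset.mem_insert, Finset.mem_singleton] at hx
      rcases hx with rfl | rfl
      · exact hu
      · exact hv
    · intro x hx y hy
      rw [Finset.mem_insert, Finset.mem_singleton] at hx hy
      rcases hx with rfl | rfl <;> rcases hy with rfl | rfl
      · exact F.E_self _
      · exact huv
      · rw [F.E_comm]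
        exact huv
      · exact F.E_self _
  obtain ⟨z, B, -, hB, hfB, -⟩ := Face.pos hf
  obtain ⟨w, huw, hvw, rfl⟩ := three2 hB (hfB (by simp)) (hfB (by simp)) hne
  obtain ⟨β, hSw, h1, h2, h3⟩ := fac3 hB hne huw hvw
  have haS : a ∈ F.S u := by rw [hS]; exact Set.mem_insert _ _
  have hbS : b ∈ F.S u := by rw [hS]; exact Set.mem_insert_of_mem _ rfl
  have hau := S_self haS
  have hbu := S_self hbS
  obtain ⟨y1, c1, c2⟩ := F.S_sep u a haS
  obtain ⟨y2, d1, d2⟩ := F.S_sep u b hbS
  have c2' := c2 b hbS hab.symm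
  have d2' := d2 a haS hab
  obtain ⟨α1, β1, γ1, rfl⟩ := expand hB hne huw hvw y1
  obtain ⟨α2, β2, γ2, rfl⟩ := expand hB hne huw hvw y2
  simp only [map_add, map_zsmul, hau, hbu, smul_eq_mul, mul_zero, zero_add] at c1 c2' d1 d2'
  have hdet : (a v * b w - b v * a w) * (β1 * γ2 - β2 * γ1) = 1 := by
    linear_combination (β2 * b v + γ2 * b w) * c1 - (β2 * a v + γ2 * a w) * c2' + d1
  have hun : a v * b w - b v * a w = 1 ∨ a v * b w - b v * a w = -1 :=
    Int.eq_one_or_neg_one_of_mul_eq_one hdet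
  rcases hK u v huv a b hab hS β (by rw [hSw]; rfl) with h | h | h
  · rw [h] at h2
    have hq : b v = 1 ∨ b v = -1 := by
      rw [h2] at hun
      have h4 : b v * a w = 1 ∨ b v * a w = -1 := by
        rcases hun with h | h
        · right; linarith
        · left; linarith
      exact unit_of h4
    rcases hq with hq | hq
    · exact Or.inr (Or.inr (Or.inl ⟨h2, hq⟩))
    · exact Or.inr (Or.inr (Or.inr (Or.inl ⟨h2, hq⟩)))
  · rw [h] at h2
    have hq : a v = 1 ∨ a v = -1 := by
      rw [h2] at hun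
      have h4 : a v * b w = 1 ∨ a v * b w = -1 := by
        rcases hun with h | h
        · left; linarith
        · right; linarith
      exact unit_of h4
    rcases hq with hq | hq
    · exact Or.inl ⟨hq, h2⟩
    · exact Or.inr (Or.inl ⟨hq, h2⟩)
  · rw [h, AddMonoidHom.add_apply] at h2
    have hb' : b v = - a v := by linarith
    have hq : a v = 1 ∨ a v = -1 := by
      rw [hb'] at hun
      have h4 : a v * (b w + a w) = 1 ∨ a v * (b w + a w) = -1 := by
        rcases hun with h | h
        · left; linarith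
        · right; linarith
      exact unit_of h4
    rcases hq with hq | hq
    · exact Or.inr (Or.inr (Or.inr (Or.inr (Or.inl ⟨hq, by rw [hb', hq]⟩))))
    · exact Or.inr (Or.inr (Or.inr (Or.inr (Or.inr ⟨hq, by rw [hb', hq]; rfl⟩))))

end CF

end BT3
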