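import Mathlib
import Pool.Agent.BT3.Ver

/-!
BT3.Wal: the wall relations in rank three.

Let `f = {u1, u2}` be a face with two elements, `z = u1 + u2`.
1. `Face.pos` gives a chamber basis `B = {u1, u2, p}` with `β p ≥ 0` for `β ∈ S z`; by `facet`
   (`B.erase p = f`) `S z = {β}` with `β u1 = β u2 = 0`, `β p = ±1`, so `β p = 1`.  `Face.neg` gives
   `B' = {u1, u2, q}` with `β q = -1`.
2. `q = b1 u1 + b2 u2 + c p` (`icoef`); applying `β`: `c = -1`.  So `p + q = b1 u1 + b2 u2`.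
3. `b1 ≤ 1` (and in the same way `b2 ≤ 1`): let `S u2 = {a, b}` (`vertex`).  `a u2 = b u2 = 0`
   (`S_add u2 0`), so `a p + a q = b1 * a u1` and `b p + b q = b1 * b u1`.  The pairs
   `(a u1, b u1)`, `(a p, b p)`, `(a q, b q)` are in the hexagon (`hex` at `u2`).  The pairs of `u1` and
   of `p` are neither equal nor opposite: otherwise `p ∓ u1` is killed by `a`, `b`, so it is a
   multiple of `u2` (`ker_vertex`), contradicting the linear independence of `{u1, u2, p}`.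
   Going through the `6 * 4` remaining cases: `b1 * (a u1, b u1) - (a p, b p)` is in the hexagon only
   for `|b1| ≤ 1` (`omega` in each case).
-/

namespace BT3

namespace CF

variable {F : CF 3}

private theorem hex_bound {A B Ap Bp Aq Bq b : ℤ} (h1 : Hex A B) (hp : Hex Ap Bp) (hq : Hex Aq Bq)
    (e1 : Ap + Aq = b * A) (e2 : Bp + Bq = b * B) (n1 : ¬ (Ap = A ∧ Bp = B))
    (n2 : ¬ (Ap = -A ∧ Bp = -B)) : b ≤ 1 := by
  unfold Hex at h1 hp hq
  rcases h1 with ⟨rfl, rfl⟩ | ⟨rfl, rfl⟩ | ⟨rfl, rfl⟩ | ⟨rfl, rfl⟩ | ⟨rfl, rfl⟩ | ⟨rfl, rfl⟩ <;>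
    rcases hp with ⟨rfl, rfl⟩ | ⟨rfl, rfl⟩ | ⟨rfl, rfl⟩ | ⟨rfl, rfl⟩ | ⟨rfl, rfl⟩ | ⟨rfl, rfl⟩ <;>
    omega

/-- the coordinate of `p` -/
private theorem lin_p {n : ℕ} {F : CF n} {z : Fin n → ℤ} {B : Finset (Fin n → ℤ)} (h : F.IsCham z B)
    {p u1 u2 : Fin n → ℤ} (hB : B = insert p {u1, u2}) (hp1 : p ≠ u1) (hp2 : p ≠ u2) (h12 : u1 ≠ u2)
    {x y w : ℤ} (he : x • u1 + y • u2 + w • p = 0) : w = 0 := by
  classical
  have hpf : p ∉ ({u1, u2} : Finset (Fin n → ℤ)) := by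
    rw [Finset.mem_insert, Finset.mem_singleton]
    rintro (h1 | h1)
    · exact hp1 h1
    · exact hp2 h1
  have h1 : ∑ v ∈ B, (if v = p then w else if v = u1 then x else y) • v = ∑ v ∈ B, (0 : ℤ) • v := by
    rw [hB, Finset.sum_insert hpf, Finset.sum_pair h12, if_pos rfl, if_neg hp1.symm, if_pos rfl,
      if_neg hp2.symm, if_neg h12.symm]
    simp only [zero_smul, Finset.sum_const_zero]
    rw [← he]
    abel
  have h2 := h.ucoef (fun v => if v = p then w else if v = u1 then x else y) (fun _ => 0) h1 p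
    (by rw [hB]; exact Finset.mem_insert_self _ _)
  simpa using h2

private theorem bound (hK : F.Key) {z : Fin 3 → ℤ} {B : Finset (Fin 3 → ℤ)} (h : F.IsCham z B)
    {p q u1 u2 : Fin 3 → ℤ} (hB : B = insert p {u1, u2}) (hp1 : p ≠ u1) (hp2 : p ≠ u2) (h12 : u1 ≠ u2)
    (hq2 : q ≠ u2) (hqi : F.Ind q) (hqE : F.E u2 q = 0) {b1 b2 : ℤ}
    (he : p + q = b1 • u1 + b2 • u2) : b1 ≤ 1 := by
  have hpB : p ∈ B := by rw [hB]; exact Finset.mem_insert_self _ _
  have h1B : u1 ∈ B := by rw [hB]; simp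
  have h2B : u2 ∈ B := by rw [hB]; simp
  have hI2 := h.face.1 u2 h2B
  obtain ⟨a, b, hab, hS⟩ := vertex hI2
  have hzero : ∀ β ∈ F.S u2, β u2 = 0 := by
    intro β hβ
    have h1 : F.E u2 0 = 0 := by rw [F.E_comm]; exact F.E_zero u2
    have h2 : u2 + 0 = u2 := add_zero u2
    exact (F.S_add u2 0 h1 β (by rw [h2]; exact hβ)).1
  have ha0 : a u2 = 0 := hzero a (by rw [hS]; exact Set.mem_insert _ _)
  have hb0 : b u2 = 0 := hzero b (by rw [hS]; exact Set.mem_insert_of_mem _ rfl)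
  have H1 := hex hK hI2 (h.face.1 u1 h1B) (h.face.2 u2 h2B u1 h1B) h12.symm hab hS
  have Hp := hex hK hI2 (h.face.1 p hpB) (h.face.2 u2 h2B p hpB) hp2.symm hab hS
  have Hq := hex hK hI2 hqi hqE hq2.symm hab hS
  have ea : a p + a q = b1 * a u1 := by
    rw [← map_add, he, map_add, map_zsmul, map_zsmul, ha0, smul_zero, add_zero, smul_eq_mul]
  have eb : b p + b q = b1 * b u1 := by
    rw [← map_add, he, map_add, map_zsmul, map_zsmul, hb0, smul_zero, add_zero, smul_eq_mul]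
  refine hex_bound H1 Hp Hq ea eb ?_ ?_
  · rintro ⟨h1, h2⟩
    obtain ⟨t, ht⟩ := ker_vertex hI2 hab hS (y := p - u1) (by rw [map_sub, h1, sub_self])
      (by rw [map_sub, h2, sub_self])
    have h3 : (-1 : ℤ) • u1 + (-t) • u2 + (1 : ℤ) • p = 0 := by
      rw [neg_smul, neg_smul, ← ht, one_smul, one_smul]
      abel
    have := lin_p h hB hp1 hp2 h12 h3
    exact one_ne_zero this
  · rintro ⟨h1, h2⟩
    obtain ⟨t, ht⟩ := ker_vertex hI2 hab hS (y := p + u1) (by rw [map_add, h1, neg_add_cancel])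
      (by rw [map_add, h2, neg_add_cancel])
    have h3 : (1 : ℤ) • u1 + (-t) • u2 + (1 : ℤ) • p = 0 := by
      rw [neg_smul, ← ht, one_smul, one_smul]
      abel
    have := lin_p h hB hp1 hp2 h12 h3
    exact one_ne_zero this

/-- the third vector of a chamber containing `f` -/
private theorem third {z : Fin 3 → ℤ} {B f : Finset (Fin 3 → ℤ)} (h : F.IsCham z B) (hf : f ⊆ B)
    (hc : f.card = 2) : ∃ p, p ∉ f ∧ B = insert p f := by
  classical
  have h1 : (B \ f).card = 1 := by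
    rw [Finset.card_sdiff_of_subset hf, h.card, hc]
  obtain ⟨p, hp⟩ := Finset.card_eq_one.mp h1
  have hpm : p ∈ B \ f := by rw [hp]; exact Finset.mem_singleton_self p
  rw [Finset.mem_sdiff] at hpm
  refine ⟨p, hpm.2, ?_⟩
  rw [← Finset.sdiff_union_of_subset hf, hp]
  rfl

theorem wall (hK : F.Key) {f : Finset (Fin 3 → ℤ)} (hf : F.Face f) (hc : f.card = 2) :
    ∃ (p q : Fin 3 → ℤ) (b : (Fin 3 → ℤ) → ℤ), p ∉ f ∧ q ∉ f ∧ F.Face (insert p f) ∧
      F.Face (insert q f) ∧ p + q = ∑ v ∈ f, b v • v ∧ ∀ v ∈ f, b v ≤ 1 := by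
  classical
  obtain ⟨z, B, -, hB, hfB, hpos⟩ := Face.pos hf
  obtain ⟨z', B', -, hB', hfB', hneg⟩ := Face.neg hf
  obtain ⟨p, hpf, hBp⟩ := third hB hfB hc
  obtain ⟨q, hqf, hBq⟩ := third hB' hfB' hc
  have hpB : p ∈ B := by rw [hBp]; exact Finset.mem_insert_self _ _
  have hqB : q ∈ B' := by rw [hBq]; exact Finset.mem_insert_self _ _
  obtain ⟨β, hβS, hβ0, hβp⟩ := hB.facet hpB
  obtain ⟨β', hβS', hβ0', hβq⟩ := hB'.facet hqB
  have hep : B.erase p = f := by rw [hBp]; exact Finset.erase_insert hpf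
  have heq : B'.erase q = f := by rw [hBq]; exact Finset.erase_insert hqf
  rw [hep] at hβS hβ0
  rw [heq] at hβS' hβ0'
  have hββ : β' = β := by
    have h1 : β' ∈ F.S (∑ v ∈ f, v) := by rw [hβS']; rfl
    rw [hβS] at h1
    exact h1
  rw [hββ] at hβq
  have hβm : β ∈ F.S (∑ v ∈ f, v) := by rw [hβS]; rfl
  have hp1 : β p = 1 := by
    have := hpos p hpB β hβm
    omega
  have hq1 : β q = -1 := by
    have := hneg q hqB β hβm
    omega
  obtain ⟨c, hcq⟩ := hB.icoef q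
  rw [hBp, Finset.sum_insert hpf] at hcq
  have hcp : c p = -1 := by
    have h1 : β q = β (c p • p + ∑ v ∈ f, c v • v) := by rw [← hcq]
    rw [map_add, map_zsmul, map_sum, Finset.sum_eq_zero (fun v hv => by
      rw [map_zsmul, hβ0 v hv, smul_zero]), add_zero, hp1, hq1, smul_eq_mul, mul_one] at h1
    exact h1.symm
  have hpq : p + q = ∑ v ∈ f, c v • v := by
    rw [hcq, hcp, neg_smul, one_smul]
    abel
  have hfaceB : F.Face (insert p f) := by rw [← hBp]; exact hB.face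
  have hfaceB' : F.Face (insert q f) := by rw [← hBq]; exact hB'.face
  refine ⟨p, q, c, hpf, hqf, hfaceB, hfaceB', hpq, ?_⟩
  obtain ⟨u1, u2, h12, hfu⟩ := Finset.card_eq_two.mp hc
  have h1f : u1 ∈ f := by rw [hfu]; simp
  have h2f : u2 ∈ f := by rw [hfu]; simp
  have hqB' : q ∈ insert q f := Finset.mem_insert_self _ _
  have hpu1 : p ≠ u1 := fun hh => hpf (by rw [hh]; exact h1f)
  have hpu2 : p ≠ u2 := fun hh => hpf (by rw [hh]; exact h2f)
  have hqu1 : q ≠ u1 := fun hh => hqf (by rw [hh]; exact h1f)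
  have hqu2 : q ≠ u2 := fun hh => hqf (by rw [hh]; exact h2f)
  have hsum : p + q = c u1 • u1 + c u2 • u2 := by rw [hpq, hfu, Finset.sum_pair h12]
  have hb1 : c u1 ≤ 1 := bound hK hB (by rw [hBp, hfu]) hpu1 hpu2 h12 hqu2
    (hfaceB'.1 q hqB') (hfaceB'.2 u2 (Finset.mem_insert_of_mem h2f) q hqB') hsum
  have hb2 : c u2 ≤ 1 := bound hK hB (by rw [hBp, hfu, Finset.pair_comm]) hpu2 hpu1 h12.symm hqu1
    (hfaceB'.1 q hqB') (hfaceB'.2 u1 (Finset.mem_insert_of_mem h1f) q hqB') (by rw [hsum]; abel)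
  intro v hv
  rw [hfu, Finset.mem_insert, Finset.mem_singleton] at hv
  rcases hv with rfl | rfl
  · exact hb1
  · exact hb2

end CF

end BT3
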