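import Mathlib
import Pool.Agent.BT3.Wal
import Pool.Agent.BT3.PureC

/-!
BT3.PFa: assembly of the combinatorial part: a `CF 3` with the property `Key` has only finitely many
indecomposable vectors.

`pf`: the fields of `PF`: `L = F.len`, `E = F.E`, `Face = F.Face`.  `L_unit`: `C = 1`, `ind_single`,
`len_ind`.  `E_add`: `CF.E_add`.  `E_face`: `CF.E_face`.  `E_desc`: `drop`.  `L_add`: `len_add`.
`face_sub`: trivial.  `face_E`: definition (`E_self` for equal elements).  `face_L`: `len_ind`.
`face_dec`: `CF.face_dec` and the empty face.  `face_max`: `Face.pos`.  `wall`: `CF.wall`, the sum of two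
numbers at most one is at most two.
`finite_ind`: `PF.finite_one` (file `PureC`) and `len_ind`.
-/

namespace BT3

namespace CF

theorem pf {F : CF 3} (hK : F.Key) : PF 3 F.len F.E F.Face := by
  classical
  refine
    { L_zero := F.len_zero
      L_pos := fun x hx => F.eq_zero_of_len hx
      L_unit := ⟨1, fun i => ⟨(F.len_ind (F.ind_single i).1).le, (F.len_ind (F.ind_single i).2).le⟩⟩
      E_symm := F.E_comm
      E_self := F.E_self
      E_add := fun z x y hx hy => ?_
      E_face := fun f hf c y => F.E_face hf c y
      E_desc := fun x y hxy => F.drop x y hxy.ne'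
      L_add := fun x y hxy => F.len_add hxy
      face_sub := fun f f' hf hs => ⟨fun u hu => hf.1 u (hs hu), fun u hu v hv => hf.2 u (hs hu) v (hs hv)⟩
      face_E := fun f hf v hv u hu => hf.2 v hv u hu
      face_L := fun f hf v hv => F.len_ind (hf.1 v hv)
      face_dec := ⟨⟨fun u hu => absurd hu (Finset.notMem_empty u),
        fun u hu => absurd hu (Finset.notMem_empty u)⟩, fun f hf y hy => F.face_dec hf y hy⟩
      face_max := fun f hf => ?_
      wall := fun f hf hc => ?_ }
  · have h1 := F.E_add z x y
    rw [hx, hy] at h1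
    exact Nat.le_zero.mp h1
  · obtain ⟨z, B, -, hB, hfB, -⟩ := Face.pos hf
    exact ⟨B, hB.face, hfB, hB.card, hB.li, hB.sp⟩
  · obtain ⟨p, q, b, h1, h2, h3, h4, h5, h6⟩ := wall hK hf (by omega)
    refine ⟨p, q, b, h1, h2, ?_, ?_, h5, ?_⟩
    · exact h3
    · exact h4
    · have h7 := Finset.sum_le_card_nsmul f b 1 h6
      have h8 : f.card = 2 := by omega
      rw [h8] at h7
      simpa using h7

theorem finite_ind {F : CF 3} (hK : F.Key) : {u | F.Ind u}.Finite := by
  have h := pf hK
  exact h.finite_one.subset (fun u hu => F.len_ind hu)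

end CF

end BT3
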