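import Mathlib
import Pool.Agent.BT3.LocI

/-!
BT3.Ret: a homotopy retract of a presentation is a compatible summand of its weight.

`ret_cmp`: `i : X → Y`, `p : Y → X`, `p i ~ id`.  Let `ε = i p : Y → Y`, so `ε ε = i (p i) p ~ ε`.  `fit_split`
for `ε` on `Y`: `Y0`, `Y1`, `ε0`, `ε1`.
* `ε0 ε0 ~ ε0` (from `ε0 = p0 ε i0`, `ε0 ε0 = p0 ε ε i0`), so `ε0 ~ ε0^r` for all `r ≥ 1`, and `ε0^m = 0`, so
  `ε0 ~ 0`.
* `ε1 ε1 ~ ε1` and `ε1` is bijective; composing with the inverse, `ε1 ~ id`.
* put `i' = p1 i : X → Y1`, `p' = p i1 : Y1 → X`.  `i' p' = p1 i p i1 = p1 ε i1 = ε1 ~ id`.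
  `p' i' = p i1 p1 i`.  We have `p i ~ id` and `p i = p (i0 p0 + i1 p1) i = p i0 p0 i + p' i'`.  Let
  `s = p i0 p0 i`.  `s p i s`... simpler: `s s = p i0 (p0 i p i0) p0 i = p i0 ε0 p0 i ~ 0`, and
  `s ~ s (p i) = s s + s p' i'`, where `s p' = p i0 p0 i p i1 = p i0 (p0 ε i1) = p i0 p0 i1 ε1 = 0`.  So
  `s ~ 0` and `p' i' ~ id`.
* So `X` and `Y1` are homotopy equivalent, `Y1` has weight `x` (`HtEq.hw`), so `Y0` has weight `y - x`
  (`x0 + x1 = y` and `HW.unique`), and `Cmp x (y - x)` by `cmp_iff` from `ee Y0 Y1 = ee Y1 Y0 = 0`.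
-/

namespace BT3

open Module Function BT

variable {k A : Type} [Field k] [Ring A] [Algebra k A] {n : ℕ} {e : Fin n → A}
  [Module.Finite k A]

omit [Module.Finite k A] in
private theorem pow_succ_mp {X : Pr k A} (φ : Mp X X) (r : ℕ) :
    φ.pow (r + 1) = φ.comp (φ.pow r) := by
  refine Mp.ext' (fun x => ?_) (fun y => ?_)
  · change (φ.a ^ (r + 1)) x = φ.a ((φ.a ^ r) x)
    rw [pow_succ']
    rfl
  · change (φ.b ^ (r + 1)) y = φ.b ((φ.b ^ r) y)
    rw [pow_succ']
    rfl

omit [Module.Finite k A] in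
/-- a nilpotent homotopy idempotent is null-homotopic -/
private theorem nil_idem {X : Pr k A} {ε : Mp X X} (h : Hmt (ε.comp ε) ε) {m : ℕ}
    (hm : ε.pow m = Mp.zero X X) : Hmt ε (Mp.zero X X) := by
  have h1 : ∀ r : ℕ, Hmt (ε.pow (r + 1)) ε := by
    intro r
    induction r with
    | zero =>
      have h2 : ε.pow (0 + 1) = ε := by
        refine Mp.ext' (fun x => ?_) (fun y => ?_)
        · change (ε.a ^ (0 + 1)) x = ε.a x
          rw [zero_add, pow_one]
        · change (ε.b ^ (0 + 1)) y = ε.b y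
          rw [zero_add, pow_one]
      rw [h2]
      exact Hmt.refl ε
    | succ r ih =>
      rw [pow_succ_mp]
      exact (ih.comp_left ε).trans h
  have h3 := h1 m
  rw [pow_succ_mp, hm, Mp.comp_zero] at h3
  exact h3.symm

omit [Module.Finite k A] in
/-- an invertible homotopy idempotent is homotopic to the identity -/
private theorem bij_idem {X : Pr k A} {ε : Mp X X} (h : Hmt (ε.comp ε) ε)
    (ha : Bijective ε.a) (hb : Bijective ε.b) : Hmt ε (Mp.id X) := by
  have hea : ∀ x, ε.a ((LinearEquiv.ofBijective ε.a ha).symm x) = x := fun x =>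
    (LinearEquiv.ofBijective ε.a ha).apply_symm_apply x
  have heb : ∀ y, ε.b ((LinearEquiv.ofBijective ε.b hb).symm y) = y := fun y =>
    (LinearEquiv.ofBijective ε.b hb).apply_symm_apply y
  let κ : Mp X X :=
    { a := (LinearEquiv.ofBijective ε.a ha).symm.toLinearMap
      b := (LinearEquiv.ofBijective ε.b hb).symm.toLinearMap
      comm := by
        intro x
        apply hb.1
        change ε.b ((LinearEquiv.ofBijective ε.b hb).symm (X.f x)) =
          ε.b (X.f ((LinearEquiv.ofBijective ε.a ha).symm x))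
        rw [heb, ε.comm, hea] }
  have hκ : κ.comp ε = Mp.id X := by
    refine Mp.ext' (fun x => ?_) (fun y => ?_)
    · exact (LinearEquiv.ofBijective ε.a ha).symm_apply_apply x
    · exact (LinearEquiv.ofBijective ε.b hb).symm_apply_apply y
  have h1 := h.comp_left κ
  rw [← Mp.comp_assoc, hκ, Mp.id_comp] at h1
  exact h1

omit [Module.Finite k A] in
private theorem zero_add_mp {X Y : Pr k A} (φ : Mp X Y) : (Mp.zero X Y).add φ = φ := by
  refine Mp.ext' (fun x => ?_) (fun y => ?_)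
  · change 0 + φ.a x = φ.a x
    rw [zero_add]
  · change 0 + φ.b y = φ.b y
    rw [zero_add]

theorem ret_cmp (hC : Crd k e) {X Y : Pr k A} {x y : Fin n → ℤ} (hX : HW e X x)
    (hY : HW e Y y) (h : HtRet X Y) : Cmp k e x (y - x) := by
  obtain ⟨i, p, hpi⟩ := h
  have hεε : Hmt ((i.comp p).comp (i.comp p)) (i.comp p) := by
    have e1 : (i.comp p).comp (i.comp p) = i.comp ((p.comp i).comp p) := by
      simp only [Mp.comp_assoc]
    have e2 : i.comp ((Mp.id X).comp p) = i.comp p := by rw [Mp.id_comp]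
    rw [e1]
    have e3 := (hpi.comp_right p).comp_left i
    rw [e2] at e3
    exact e3
  obtain ⟨Y0, Y1, y0, y1, i0, p0, i1, p1, ε0, ε1, m, hw0, hw1, hsum, he01, he10, h00, h11, h01,
    h10, hid, hi0, hi1, hp0, hp1, hnil, hba, hbb⟩ := fit_split hC hY (i.comp p)
  -- the two parts of the idempotent
  have hε0 : ε0 = p0.comp ((i.comp p).comp i0) := by
    rw [hi0, ← Mp.comp_assoc, h00, Mp.id_comp]
  have hε1 : ε1 = p1.comp ((i.comp p).comp i1) := by
    rw [hi1, ← Mp.comp_assoc, h11, Mp.id_comp]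
  have hid0 : Hmt (ε0.comp ε0) ε0 := by
    have e1 : ε0.comp ε0 = p0.comp (((i.comp p).comp (i.comp p)).comp i0) := by
      have e2 : ((i.comp p).comp (i.comp p)).comp i0 = i0.comp (ε0.comp ε0) := by
        rw [Mp.comp_assoc, hi0, ← Mp.comp_assoc, hi0, Mp.comp_assoc]
      rw [e2, ← Mp.comp_assoc, h00, Mp.id_comp]
    have e3 := (hεε.comp_right i0).comp_left p0
    rw [← e1, ← hε0] at e3
    exact e3
  have hid1 : Hmt (ε1.comp ε1) ε1 := by
    have e1 : ε1.comp ε1 = p1.comp (((i.comp p).comp (i.comp p)).comp i1) := by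
      have e2 : ((i.comp p).comp (i.comp p)).comp i1 = i1.comp (ε1.comp ε1) := by
        rw [Mp.comp_assoc, hi1, ← Mp.comp_assoc, hi1, Mp.comp_assoc]
      rw [e2, ← Mp.comp_assoc, h11, Mp.id_comp]
    have e3 := (hεε.comp_right i1).comp_left p1
    rw [← e1, ← hε1] at e3
    exact e3
  have hz0 : Hmt ε0 (Mp.zero Y0 Y0) := nil_idem hid0 hnil
  have hz1 : Hmt ε1 (Mp.id Y1) := bij_idem hid1 hba hbb
  -- the homotopy equivalence between `X` and `Y1`
  have hA : Hmt ((p1.comp i).comp (p.comp i1)) (Mp.id Y1) := by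
    have e1 : (p1.comp i).comp (p.comp i1) = ε1 := by
      rw [hε1]
      simp only [Mp.comp_assoc]
    rw [e1]
    exact hz1
  have hsplit : p.comp i = ((p.comp i0).comp (p0.comp i)).add ((p.comp i1).comp (p1.comp i)) := by
    have e1 : p.comp i = p.comp (((i0.comp p0).add (i1.comp p1)).comp i) := by
      rw [hid, Mp.id_comp]
    rw [e1, Mp.add_comp, Mp.comp_add]
    simp only [Mp.comp_assoc]
  have hss : Hmt (((p.comp i0).comp (p0.comp i)).comp ((p.comp i0).comp (p0.comp i)))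
      (Mp.zero X X) := by
    have e1 : ((p.comp i0).comp (p0.comp i)).comp ((p.comp i0).comp (p0.comp i)) =
        (p.comp i0).comp (ε0.comp (p0.comp i)) := by
      have e2 : ε0.comp (p0.comp i) = (p0.comp ((i.comp p).comp i0)).comp (p0.comp i) := by
        rw [← hε0]
      rw [e2]
      simp only [Mp.comp_assoc]
    rw [e1]
    have e3 := (hz0.comp_right (p0.comp i)).comp_left (p.comp i0)
    rw [Mp.zero_comp, Mp.comp_zero] at e3
    exact e3
  have hsp : ((p.comp i0).comp (p0.comp i)).comp ((p.comp i1).comp (p1.comp i)) =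
      Mp.zero X X := by
    have e1 : ((p.comp i0).comp (p0.comp i)).comp ((p.comp i1).comp (p1.comp i)) =
        (p.comp i0).comp ((p0.comp ((i.comp p).comp i1)).comp (p1.comp i)) := by
      simp only [Mp.comp_assoc]
    have e2 : p0.comp ((i.comp p).comp i1) = Mp.zero Y1 Y0 := by
      rw [hi1, ← Mp.comp_assoc, h01, Mp.zero_comp]
    rw [e1, e2, Mp.zero_comp, Mp.comp_zero]
  have hs0 : Hmt ((p.comp i0).comp (p0.comp i)) (Mp.zero X X) := by
    have e1 := hpi.comp_left ((p.comp i0).comp (p0.comp i))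
    rw [Mp.comp_id] at e1
    have e2 : ((p.comp i0).comp (p0.comp i)).comp (p.comp i) =
        (((p.comp i0).comp (p0.comp i)).comp ((p.comp i0).comp (p0.comp i))).add
          (Mp.zero X X) := by
      rw [← hsp, ← Mp.comp_add, ← hsplit]
    have e3 := hss.add (Hmt.refl (Mp.zero X X))
    rw [← e2, zero_add_mp] at e3
    exact e1.symm.trans e3
  have hB : Hmt ((p.comp i1).comp (p1.comp i)) (Mp.id X) := by
    have e1 := hs0.add (Hmt.refl ((p.comp i1).comp (p1.comp i)))
    rw [← hsplit, zero_add_mp] at e1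
    exact e1.symm.trans hpi
  have hEq : HtEq X Y1 := ⟨p1.comp i, p.comp i1, hB, hA⟩
  have hw1' : HW e Y1 x := hEq.hw hX
  have hy1 : y1 = x := HW.unique hC hw1 hw1'
  have hy0 : y0 = y - x := by
    rw [← hsum, hy1, add_sub_cancel_right]
  rw [← hy0]
  exact (cmp_iff hC hw1' hw0).2 ⟨he10, he01⟩

end BT3
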