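import Mathlib
import Pool.Agent.BT3.Def

/-!
BT3.Conj: two rigid maps in the same space `Hom(P, Q)` are conjugate under `Aut P × Aut Q`
(`k` infinite).

Proof.  For `t : k` let `g_t = f + t • (f' - f)`, so `g_0 = f`, `g_1 = f'`.
Claim (`conj_aux`): for a rigid `f` and any `f'`, for all but finitely many `t` there are bijective
`A`-linear maps `a_t : P → P`, `b_t : Q → Q` with `b_t ∘ f = g_t ∘ a_t`.
Given the claim for `(f, f')` and for `(f', f)` (where the pencil is `f' + s • (f - f')`, `s = 1 - t`), as `k`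
is infinite there is `t` good for both: `b f = g_t a` and `b' f' = g_t a'`, so
`(b'⁻¹ b) f = f' (a'⁻¹ a)`.

Proof of the claim.  Let `V = End_A(Q) × End_A(P)`, `W = Hom_A(P, Q)`, finite dimensional `k`-spaces
(`BT.finite_hom`), `Ψ_t : V → W`, `Ψ_t(b, a) = b ∘ f - g_t ∘ a = Ψ_0(b, a) - t • (f' - f) ∘ a`.
`Ψ_0` is onto, because `f` is rigid (`g = u f + f v = Ψ_0(u, -v)`); choose a `k`-linear section `θ : W → V` of
`Ψ_0` (`LinearMap.exists_rightInverse_of_surjective`).  Then `Ψ_t ∘ θ = 1 + t K` with a fixed
`K : W → W`, `K w = - (f' - f) ∘ (θ w).2`.  `Ψ_0(1, 1) = 0`, so `Ψ_t(1, 1) = t w0`, `w0 = - (f' - f)`.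
If `1 + t K` is invertible then `v_t = (1, 1) - t • θ ((1 + t K)⁻¹ w0)` satisfies `Ψ_t v_t = 0`, i.e.
`b_t f = g_t a_t`.  It remains to see that for all but finitely many `t` the operator `1 + t K` and both
components of `v_t` are bijective.  Choose a basis of `W`, the matrix `M(X) = 1 + X K` over `k[X]`,
`δ = det M(X)`, `δ(0) = 1`; `adj M(X) · M(X) = δ`.  The vector
`p(X) = δ(X) • (1, 1) - X • θ (adj M(X) w0)` has polynomial coordinates, `p(t) = δ(t) v_t` if
`δ(t) ≠ 0`, `p(0) = (1, 1)`.  The determinants of the two components (as `k`-linear endomorphisms of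
`Q` and of `P`, matrices in fixed bases; the components are `k`-linear combinations of fixed
endomorphisms with polynomial coefficients) are polynomials in `X` which are `1` at `X = 0`, so they
have finitely many zeros.  (An alternative is to use the lemma `BicG.pencil` or to show directly: if
`F_0, ..., F_r` are endomorphisms of a finite dimensional space and `c_i(X)` polynomials such that
`∑ c_i(0) F_i` is invertible then `∑ c_i(t) F_i` is invertible for all but finitely many `t`.)
An `A`-linear map which is bijective is an `A`-linear equivalence.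
-/

namespace BT3

open Module Function BT

variable {k A : Type} [Field k] [Ring A] [Algebra k A]
variable {P Q : Type} [AddCommGroup P] [Module A P] [Module k P] [IsScalarTower k A P]
  [Module.Finite k P] [AddCommGroup Q] [Module A Q] [Module k Q] [IsScalarTower k A Q]
  [Module.Finite k Q]

theorem bij_iff_det {V : Type} [AddCommGroup V] [Module k V] [Module.Finite k V]
    (F : V →ₗ[k] V) : Bijective F ↔ LinearMap.det F ≠ 0 := by
  rw [Ne, LinearMap.det_eq_zero_iff_ker_ne_bot, not_not, LinearMap.ker_eq_bot]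
  exact ⟨fun h => h.1, fun h => ⟨h, LinearMap.injective_iff_surjective.1 h⟩⟩

theorem pol_inv_lin {V : Type} [AddCommGroup V] [Module k V] [Module.Finite k V] {r : ℕ}
    (F : Fin r → (V →ₗ[k] V)) (c : Fin r → Polynomial k)
    (h : Bijective (∑ i, (c i).eval 0 • F i : V →ₗ[k] V)) :
    {t : k | ¬ Bijective (∑ i, (c i).eval t • F i : V →ₗ[k] V)}.Finite := by
  let b := Module.finBasis k V
  let N : Matrix (Fin (finrank k V)) (Fin (finrank k V)) (Polynomial k) :=
    ∑ i, (c i) • (LinearMap.toMatrix b b (F i)).map Polynomial.C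
  have hN : ∀ t, (N.det).eval t = LinearMap.det (∑ i, (c i).eval t • F i) := by
    intro t
    rw [← LinearMap.det_toMatrix b, ← Polynomial.coe_evalRingHom, RingHom.map_det]
    congr 1
    ext i j
    simp only [N, RingHom.mapMatrix_apply, Matrix.map_apply, Matrix.sum_apply, Matrix.smul_apply,
      map_sum, map_smul, smul_eq_mul, Polynomial.coe_evalRingHom, Polynomial.eval_mul,
      Polynomial.eval_C]
  have h0 : N.det ≠ 0 := by
    intro h1
    have h2 := hN 0
    rw [h1, Polynomial.eval_zero] at h2
    exact (bij_iff_det _).1 h h2.symm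
  refine (Polynomial.finite_setOfPred_isRoot h0).subset ?_
  intro t ht
  by_contra h3
  apply ht
  rw [bij_iff_det, ← hN t]
  exact h3

theorem coe_sum_lin {V : Type} [AddCommGroup V] [Module k V] {r : ℕ}
    (F : Fin r → (V →ₗ[k] V)) :
    (∑ i, (F i : V → V)) = ((∑ i, F i : V →ₗ[k] V) : V → V) := by
  funext x
  rw [Finset.sum_apply, LinearMap.sum_apply]

/-- a polynomial combination of endomorphisms which is invertible at `0` is invertible almost
everywhere -/
theorem pol_inv {V : Type} [AddCommGroup V] [Module k V] [Module.Finite k V] {r : ℕ}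
    (F : Fin r → (V →ₗ[k] V)) (c : Fin r → Polynomial k)
    (h : Bijective (∑ i, (c i).eval 0 • F i)) :
    {t : k | ¬ Bijective (∑ i, (c i).eval t • F i)}.Finite := by
  rw [coe_sum_lin (fun i => (c i).eval 0 • F i)] at h
  have h1 := pol_inv_lin F c h
  refine h1.subset fun t ht => ?_
  intro hb
  apply ht
  rw [coe_sum_lin (fun i => (c i).eval t • F i)]
  exact hb

theorem pol_id {V : Type} [AddCommGroup V] [Module k V] [Module.Finite k V] {r : ℕ}
    (F : Fin r → (V →ₗ[k] V)) (c : Fin r → Polynomial k) (δ : Polynomial k)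
    (hδ : δ.eval 0 = 1) (ε : k) :
    {t : k | ¬ Bijective (δ.eval t • (LinearMap.id : V →ₗ[k] V) +
      (ε * t) • ∑ i, (c i).eval t • F i : V →ₗ[k] V)}.Finite := by
  have hsum : ∀ t : k, (∑ i : Fin (r + 1),
      ((Fin.cons δ (fun i => Polynomial.C ε * Polynomial.X * c i) :
        Fin (r + 1) → Polynomial k) i).eval t •
      (Fin.cons (LinearMap.id : V →ₗ[k] V) F : Fin (r + 1) → (V →ₗ[k] V)) i : V →ₗ[k] V) =
      δ.eval t • (LinearMap.id : V →ₗ[k] V) + (ε * t) • ∑ i, (c i).eval t • F i := by
    intro t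
    rw [Fin.sum_univ_succ, Finset.smul_sum]
    simp only [Fin.cons_zero, Fin.cons_succ, Polynomial.eval_mul, Polynomial.eval_C,
      Polynomial.eval_X, mul_smul]
  have h := pol_inv_lin (Fin.cons (LinearMap.id : V →ₗ[k] V) F : Fin (r + 1) → (V →ₗ[k] V))
    (Fin.cons δ (fun i => Polynomial.C ε * Polynomial.X * c i) : Fin (r + 1) → Polynomial k) (by
      rw [hsum 0, hδ, mul_zero, zero_smul, add_zero, one_smul]
      exact bijective_id)
  refine h.subset fun t ht => ?_
  intro hb
  apply ht
  rw [← hsum t]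
  exact hb

/-- the polynomial solution of a linear pencil -/
theorem pol_sol {W : Type} [AddCommGroup W] [Module k W] [Module.Finite k W]
    (K : W →ₗ[k] W) (w0 : W) {r : ℕ} (b : Basis (Fin r) k W) :
    ∃ (δ : Polynomial k) (c : Fin r → Polynomial k), δ.eval 0 = 1 ∧ ∀ t : k,
      ∑ i, (c i).eval t • b i + t • K (∑ i, (c i).eval t • b i) = δ.eval t • w0 := by
  let T := LinearMap.toMatrix b b K
  let M : Matrix (Fin r) (Fin r) (Polynomial k) :=
    1 + (Polynomial.X : Polynomial k) • T.map Polynomial.C
  let w : Fin r → Polynomial k := fun i => Polynomial.C (b.repr w0 i)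
  let c : Fin r → Polynomial k := M.adjugate.mulVec w
  have hM : ∀ t : k, M.map (Polynomial.eval t) = 1 + t • T := by
    intro t
    ext i j
    simp only [M, Matrix.map_apply, Matrix.add_apply, Matrix.smul_apply, smul_eq_mul,
      Polynomial.eval_add, Polynomial.eval_mul, Polynomial.eval_X, Polynomial.eval_C]
    congr 1
    by_cases h : i = j
    · rw [h, Matrix.one_apply_eq, Matrix.one_apply_eq, Polynomial.eval_one]
    · rw [Matrix.one_apply_ne h, Matrix.one_apply_ne h, Polynomial.eval_zero]
  have hMc : M.mulVec c = M.det • w := by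
    change M.mulVec (M.adjugate.mulVec w) = _
    rw [Matrix.mulVec_mulVec, Matrix.mul_adjugate, Matrix.smul_mulVec, Matrix.one_mulVec]
  refine ⟨M.det, c, ?_, ?_⟩
  · rw [← Polynomial.coe_evalRingHom, RingHom.map_det, RingHom.mapMatrix_apply]
    have h1 : M.map (Polynomial.evalRingHom (0 : k)) = 1 := by
      have h2 := hM 0
      rw [zero_smul, add_zero] at h2
      exact h2
    rw [h1, Matrix.det_one]
  · intro t
    have h1 : ∀ i, (c i).eval t + t * ∑ j, T i j * (c j).eval t =
        (M.det).eval t * b.repr w0 i := by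
      intro i
      have h2 := congrArg (Polynomial.eval t) (congrFun hMc i)
      rw [Matrix.mulVec, dotProduct, Polynomial.eval_finsetSum, Pi.smul_apply, smul_eq_mul,
        Polynomial.eval_mul, Polynomial.eval_C] at h2
      rw [← h2]
      have h3 : ∀ j, Polynomial.eval t (M i j * c j) =
          (1 : Matrix (Fin r) (Fin r) k) i j * (c j).eval t + t * (T i j * (c j).eval t) := by
        intro j
        have h4 := congrFun (congrFun (hM t) i) j
        rw [Matrix.map_apply, Matrix.add_apply, Matrix.smul_apply, smul_eq_mul] at h4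
        rw [Polynomial.eval_mul, h4]
        ring
      simp only [h3]
      rw [Finset.sum_add_distrib, ← Finset.mul_sum]
      congr 1
      simp [Matrix.one_apply]
    apply b.repr.injective
    ext i
    have hrep : ∀ d : Fin r → k, b.repr (∑ i, d i • b i) i = d i := by
      intro d
      rw [b.repr_sum_self]
    have hK : b.repr (K (∑ i, (c i).eval t • b i)) i = ∑ j, T i j * (c j).eval t := by
      rw [map_sum, map_sum, Finsupp.finsetSum_apply]
      refine Finset.sum_congr rfl fun j _ => ?_
      rw [map_smul, map_smul, Finsupp.smul_apply, smul_eq_mul, mul_comm]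
      congr 1
      exact (LinearMap.toMatrix_apply b b K i j).symm
    rw [map_add, map_smul, map_smul, Finsupp.add_apply, Finsupp.smul_apply, Finsupp.smul_apply,
      smul_eq_mul, smul_eq_mul, hK, hrep]
    exact h1 i

theorem conj_aux (f f' : P →ₗ[A] Q) (hf : Rigid f) :
    {t : k | ¬ ∃ (a : P ≃ₗ[A] P) (b : Q ≃ₗ[A] Q), ∀ x,
      b (f x) = f (a x) + t • (f' (a x) - f (a x))}.Finite := by
  have hfin : Module.Finite k (P →ₗ[A] Q) := finite_hom
  let b := Module.finBasis k (P →ₗ[A] Q)
  choose u v huv using fun i => hf (b i)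
  let K : (P →ₗ[A] Q) →ₗ[k] (P →ₗ[A] Q) := b.constr k (fun i => (f' - f) ∘ₗ v i)
  have hKb : ∀ i, K (b i) = (f' - f) ∘ₗ v i := fun i => b.constr_basis k _ i
  obtain ⟨δ, c, hδ, hc⟩ := pol_sol K (f - f') b
  have h1 := pol_id (k := k) (fun i => (u i).restrictScalars k) c δ hδ (-1)
  have h2 := pol_id (k := k) (fun i => (v i).restrictScalars k) c δ hδ 1
  refine (h1.union h2).subset ?_
  intro t ht
  by_contra hcon
  rw [Set.mem_union, not_or] at hcon
  have hb := not_not.1 hcon.1
  have ha := not_not.1 hcon.2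
  apply ht
  let at' : P →ₗ[A] P := δ.eval t • LinearMap.id + t • ∑ i, (c i).eval t • v i
  let bt' : Q →ₗ[A] Q := δ.eval t • LinearMap.id - t • ∑ i, (c i).eval t • u i
  have hat : ∀ x, at' x = δ.eval t • x + t • ∑ i, (c i).eval t • v i x := by
    intro x
    simp only [at', LinearMap.add_apply, LinearMap.smul_apply, LinearMap.id_apply,
      LinearMap.sum_apply]
  have hbt : ∀ x, bt' x = δ.eval t • x - t • ∑ i, (c i).eval t • u i x := by
    intro x
    simp only [bt', LinearMap.sub_apply, LinearMap.smul_apply, LinearMap.id_apply,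
      LinearMap.sum_apply]
  have ha' : Bijective at' := by
    have e : (at' : P → P) = (δ.eval t • (LinearMap.id : P →ₗ[k] P) +
      ((1 : k) * t) • ∑ i, (c i).eval t • (v i).restrictScalars k : P →ₗ[k] P) := by
      funext x
      rw [hat x]
      simp only [LinearMap.add_apply, LinearMap.smul_apply, LinearMap.id_apply,
        LinearMap.sum_apply, LinearMap.restrictScalars_apply, one_mul]
    rw [e]
    exact ha
  have hb' : Bijective bt' := by
    have e : (bt' : Q → Q) = (δ.eval t • (LinearMap.id : Q →ₗ[k] Q) +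
      ((-1 : k) * t) • ∑ i, (c i).eval t • (u i).restrictScalars k : Q →ₗ[k] Q) := by
      funext x
      rw [hbt x]
      simp only [LinearMap.add_apply, LinearMap.smul_apply, LinearMap.id_apply,
        LinearMap.sum_apply, LinearMap.restrictScalars_apply]
      rw [neg_one_mul, neg_smul, sub_eq_add_neg]
    rw [e]
    exact hb
  refine ⟨LinearEquiv.ofBijective at' ha', LinearEquiv.ofBijective bt' hb', ?_⟩
  intro x
  rw [LinearEquiv.ofBijective_apply, LinearEquiv.ofBijective_apply, hbt, hat]
  have hk : ∀ (g : P →ₗ[A] Q) (a : k) (y : P), g (a • y) = a • g y := fun g a y =>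
    LinearMap.map_smul_of_tower g a y
  have hg : ∀ g : P →ₗ[A] Q, g (δ.eval t • x + t • ∑ i, (c i).eval t • v i x) =
      δ.eval t • g x + t • ∑ i, (c i).eval t • g (v i x) := by
    intro g
    rw [map_add, hk, hk, map_sum]
    congr 2
    exact Finset.sum_congr rfl fun i _ => hk g _ _
  rw [hg f, hg f']
  have key := LinearMap.congr_fun (hc t) x
  have e1 : ∑ i, (c i).eval t • b i = ∑ i, (c i).eval t • (u i ∘ₗ f + f ∘ₗ v i) :=
    Finset.sum_congr rfl fun i _ => by rw [← huv i]
  have e2 : K (∑ i, (c i).eval t • b i) = ∑ i, (c i).eval t • ((f' - f) ∘ₗ v i) := by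
    rw [map_sum]
    exact Finset.sum_congr rfl fun i _ => by rw [map_smul, hKb]
  rw [e2, e1] at key
  simp only [LinearMap.add_apply, LinearMap.smul_apply, LinearMap.sum_apply,
    LinearMap.comp_apply, LinearMap.sub_apply, smul_add, smul_sub, Finset.sum_add_distrib,
    Finset.sum_sub_distrib] at key
  generalize ∑ i, (c i).eval t • u i (f x) = S1 at key ⊢
  generalize ∑ i, (c i).eval t • f (v i x) = S2 at key ⊢
  generalize ∑ i, (c i).eval t • f' (v i x) = S3 at key ⊢
  generalize f x = y at key ⊢
  generalize f' x = y' at key ⊢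
  generalize δ.eval t = d at key ⊢
  linear_combination (norm := module) (-t) • key

theorem conj (k : Type) [Field k] [Infinite k] [Algebra k A] [Module k P] [IsScalarTower k A P]
    [Module.Finite k P] [Module k Q] [IsScalarTower k A Q] [Module.Finite k Q]
    (f f' : P →ₗ[A] Q) (hf : Rigid f) (hf' : Rigid f') :
    ∃ (a : P ≃ₗ[A] P) (b : Q ≃ₗ[A] Q), ∀ x, b (f x) = f' (a x) := by
  have h1 := conj_aux (k := k) f f' hf
  have h2 := conj_aux (k := k) f' f hf'
  have h3 : ((fun t : k => 1 - t) ⁻¹' {t : k | ¬ ∃ (a : P ≃ₗ[A] P) (b : Q ≃ₗ[A] Q), ∀ x,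
      b (f' x) = f' (a x) + t • (f (a x) - f' (a x))}).Finite :=
    h2.preimage (fun x _ y _ h => sub_right_injective h)
  obtain ⟨t, ht⟩ := (h1.union h3).infinite_compl.nonempty
  rw [Set.mem_compl_iff, Set.mem_union, not_or] at ht
  obtain ⟨a, b, hab⟩ := not_not.1 ht.1
  obtain ⟨a', b', hab'⟩ := not_not.1 ht.2
  refine ⟨a.trans a'.symm, b.trans b'.symm, fun x => ?_⟩
  rw [LinearEquiv.trans_apply, LinearEquiv.trans_apply, LinearEquiv.symm_apply_eq, hab, hab',
    LinearEquiv.apply_symm_apply]
  module

end BT3
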