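import Mathlib
import Pool.Agent.BT3.Conj
import Pool.Agent.BT3.Mph
import Pool.Agent.BT3.Sm

/-!
BT3.Uniq: two standard rigid presentations of the same weight are homotopy equivalent.

* `idp R`: the presentation `id : R → R` (rigid: `g = g ∘ id + id ∘ 0`); `EE X.f id` and `EE id X.f` hold
  (`g = 0 ∘ f + id ∘ g`, `g = g ∘ id + f ∘ 0`).
* `htEq_idp`: `X` and `X ⊕ idp R` are homotopy equivalent: `i = inl`, `p = fst`, `p i = id`, and
  `i p - id = (0, -id_R)` is null-homotopic with the homotopy `Q × R → P × R`, `(q, r) ↦ (0, -r)`.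
* `htEq_of_iso`: if `a : P ≃ P'`, `b : Q ≃ Q'` with `b f = f' a` then the presentations are homotopy
  equivalent (strictly isomorphic).
* `std_htEq`: `X.P ≃ PP e a`, `X.Q ≃ PP e b`, `Y.P ≃ PP e a'`, `Y.Q ≃ PP e b'`.  By `HW.of_std` and
  `HW.unique`: `b - a = b' - a'`, so `b + a' = b' + a` (as functions to `ℕ`).  Let
  `F = X ⊕ idp Y.P : X.P × Y.P → X.Q × Y.P`, `F' = Y ⊕ idp X.P : Y.P × X.P → Y.Q × X.P`.  There are
  isomorphisms `σ : X.P × Y.P ≃ Y.P × X.P` (swap) and
  `τ : X.Q × Y.P ≃ PP e b × PP e a' ≃ PP e (b + a') = PP e (b' + a) ≃ Y.Q × X.P`.  Then `F.f` and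
  `τ⁻¹ ∘ F'.f ∘ σ` are two rigid maps `X.P × Y.P → X.Q × Y.P`, by `conj` they are conjugate, so
  `F` and `F'` are isomorphic presentations (`htEq_of_iso`); then
  `X ~ F ~ F' ~ Y` by `htEq_idp`, `HtEq.trans`, `HtEq.symm`.
-/

namespace BT3

open Module Function BT

variable {k A : Type} [Field k] [Ring A] [Algebra k A] {n : ℕ} {e : Fin n → A}

/-- the contractible presentation -/
def idp (k : Type) [Field k] [Algebra k A] (R : Type) [AddCommGroup R] [Module A R] [Module k R]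
    [IsScalarTower k A R] [Module.Finite k R] [Module.Projective A R] : Pr k A where
  P := R
  Q := R
  f := LinearMap.id
  rig g := ⟨g, 0, by rw [LinearMap.comp_id, LinearMap.comp_zero, add_zero]⟩

theorem EE_idp (X : Pr k A) (R : Type) [AddCommGroup R] [Module A R] [Module k R]
    [IsScalarTower k A R] [Module.Finite k R] [Module.Projective A R] :
    EE X.f (idp k R).f ∧ EE (idp k R).f X.f := by
  constructor
  · intro g
    refine ⟨0, g, ?_⟩
    refine LinearMap.ext fun x => ?_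
    change g x = 0 + g x
    rw [zero_add]
  · intro g
    refine ⟨g, 0, ?_⟩
    refine LinearMap.ext fun x => ?_
    change g x = g x + X.f 0
    rw [map_zero, add_zero]

theorem htEq_idp (X : Pr k A) (R : Type) [AddCommGroup R] [Module A R] [Module k R]
    [IsScalarTower k A R] [Module.Finite k R] [Module.Projective A R] :
    HtEq X (Pr.add X (idp k R) (EE_idp X R).1 (EE_idp X R).2) := by
  let Y : Pr k A := Pr.add X (idp k R) (EE_idp X R).1 (EE_idp X R).2
  let i : Mp X Y :=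
    { a := LinearMap.inl A X.P R
      b := LinearMap.inl A X.Q R
      comm := fun x => by
        change ((X.f x, 0) : X.Q × R) = (X.f x, 0)
        rfl }
  let p : Mp Y X :=
    { a := LinearMap.fst A X.P R
      b := LinearMap.fst A X.Q R
      comm := fun x => rfl }
  have h1 : Hmt (p.comp i) (Mp.id X) := by
    refine ⟨0, fun x => ?_, fun y => ?_⟩
    · change x = x + 0
      rw [add_zero]
    · change y = y + X.f 0
      rw [map_zero, add_zero]
  have e1 : ∀ x : X.P × R, ((x.1, 0) : X.P × R) = x + ((0, -x.2) : X.P × R) := by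
    intro x
    refine Prod.ext ?_ ?_
    · change x.1 = x.1 + 0
      rw [add_zero]
    · change 0 = x.2 + -x.2
      rw [add_neg_cancel]
  have e2 : ∀ y : X.Q × R, ((y.1, 0) : X.Q × R) = y + ((X.f 0, -y.2) : X.Q × R) := by
    intro y
    refine Prod.ext ?_ ?_
    · change y.1 = y.1 + X.f 0
      rw [map_zero, add_zero]
    · change 0 = y.2 + -y.2
      rw [add_neg_cancel]
  have h2 : Hmt (i.comp p) (Mp.id Y) :=
    ⟨(LinearMap.inr A X.P R) ∘ₗ (-(LinearMap.snd A X.Q R)), fun x => e1 x, fun y => e2 y⟩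
  exact ⟨i, p, h1, h2⟩

theorem htEq_of_iso {X Y : Pr k A} (a : X.P ≃ₗ[A] Y.P) (b : X.Q ≃ₗ[A] Y.Q)
    (h : ∀ x, b (X.f x) = Y.f (a x)) : HtEq X Y := by
  let i : Mp X Y :=
    { a := a.toLinearMap
      b := b.toLinearMap
      comm := h }
  let p : Mp Y X :=
    { a := a.symm.toLinearMap
      b := b.symm.toLinearMap
      comm := fun y => by
        change b.symm (Y.f y) = X.f (a.symm y)
        rw [LinearEquiv.symm_apply_eq, h, LinearEquiv.apply_symm_apply] }
  refine ⟨i, p, ⟨0, fun x => ?_, fun y => ?_⟩, ⟨0, fun x => ?_, fun y => ?_⟩⟩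
  · change a.symm (a x) = x + 0
    rw [LinearEquiv.symm_apply_apply, add_zero]
  · change b.symm (b y) = y + X.f 0
    rw [LinearEquiv.symm_apply_apply, map_zero, add_zero]
  · change a (a.symm x) = x + 0
    rw [LinearEquiv.apply_symm_apply, add_zero]
  · change b (b.symm y) = y + Y.f 0
    rw [LinearEquiv.apply_symm_apply, map_zero, add_zero]

/-- the index sets -/
private def sgE (a b : Fin n → ℕ) :
    ((Σ i : Fin n, Fin (a i)) ⊕ (Σ i : Fin n, Fin (b i))) ≃ Σ i : Fin n, Fin ((a + b) i) :=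
  (Equiv.sigmaSumDistrib (fun i => Fin (a i)) (fun i => Fin (b i))).symm.trans
    (Equiv.sigmaCongrRight fun _ => finSumFinEquiv)

/-- `A e`-sums add -/
private def ppAdd (e : Fin n → A) (a b : Fin n → ℕ) :
    PP e (a + b) ≃ₗ[A] (PP e a × PP e b) :=
  (LinearEquiv.piCongrLeft' A (fun p : (Σ i : Fin n, Fin ((a + b) i)) => Pe (e p.1))
    (sgE a b).symm).trans
  (LinearEquiv.sumPiEquivProdPi A (Σ i : Fin n, Fin (a i)) (Σ i : Fin n, Fin (b i))
    (fun p => Pe (e (sgE a b p).1)))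

private theorem rigid_conj {P Q P' Q' : Type} [AddCommGroup P] [Module A P] [AddCommGroup Q]
    [Module A Q] [AddCommGroup P'] [Module A P'] [AddCommGroup Q'] [Module A Q']
    {f' : P' →ₗ[A] Q'} (hf : Rigid f') (s : P ≃ₗ[A] P') (t : Q ≃ₗ[A] Q') :
    Rigid (t.symm.toLinearMap ∘ₗ f' ∘ₗ s.toLinearMap) := by
  intro g
  obtain ⟨u, v, h⟩ := hf (t.toLinearMap ∘ₗ g ∘ₗ s.symm.toLinearMap)
  refine ⟨t.symm.toLinearMap ∘ₗ u ∘ₗ t.toLinearMap, s.symm.toLinearMap ∘ₗ v ∘ₗ s.toLinearMap, ?_⟩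
  refine LinearMap.ext fun x => ?_
  have h1 := LinearMap.congr_fun h (s x)
  change t (g (s.symm (s x))) = u (f' (s x)) + f' (v (s x)) at h1
  rw [LinearEquiv.symm_apply_apply] at h1
  change g x = t.symm (u (t (t.symm (f' (s x))))) + t.symm (f' (s (s.symm (v (s x)))))
  rw [LinearEquiv.apply_symm_apply, LinearEquiv.apply_symm_apply, ← map_add, ← h1,
    LinearEquiv.symm_apply_apply]

variable [Module.Finite k A]

theorem std_htEq [Infinite k] (hC : Crd k e) {X Y : Pr k A} {x : Fin n → ℤ} (hX : HW e X x)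
    (hY : HW e Y x) (hXs : Std e X) (hYs : Std e Y) : HtEq X Y := by
  obtain ⟨a, b, ⟨α⟩, ⟨β⟩⟩ := hXs
  obtain ⟨a', b', ⟨α'⟩, ⟨β'⟩⟩ := hYs
  have h1 := HW.unique hC (HW.of_std hC α β) hX
  have h2 := HW.unique hC (HW.of_std hC α' β') hY
  have hab : b + a' = b' + a := by
    funext i
    have h3 : (b i : ℤ) - (a i : ℤ) = x i := congrFun h1 i
    have h4 : (b' i : ℤ) - (a' i : ℤ) = x i := congrFun h2 i
    rw [Pi.add_apply, Pi.add_apply]
    omega
  let F : Pr k A := Pr.add X (idp k Y.P) (EE_idp X Y.P).1 (EE_idp X Y.P).2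
  let F' : Pr k A := Pr.add Y (idp k X.P) (EE_idp Y X.P).1 (EE_idp Y X.P).2
  let s : F.P ≃ₗ[A] F'.P := LinearEquiv.prodComm A X.P Y.P
  let t0 : (X.Q × Y.P) ≃ₗ[A] (PP e b × PP e a') := LinearEquiv.prodCongr β α'
  let t1 : (PP e b × PP e a') ≃ₗ[A] PP e (b + a') := (ppAdd e b a').symm
  let t2 : PP e (b + a') ≃ₗ[A] PP e (b' + a) := by
    rw [hab]
  let t3 : PP e (b' + a) ≃ₗ[A] (PP e b' × PP e a) := ppAdd e b' a
  let t4 : (PP e b' × PP e a) ≃ₗ[A] (Y.Q × X.P) := LinearEquiv.prodCongr β'.symm α.symm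
  let t : F.Q ≃ₗ[A] F'.Q := (((t0.trans t1).trans t2).trans t3).trans t4
  obtain ⟨c, d, h⟩ := conj k F.f (t.symm.toLinearMap ∘ₗ F'.f ∘ₗ s.toLinearMap) F.rig
    (rigid_conj F'.rig s t)
  have hFF : HtEq F F' := by
    refine htEq_of_iso (c.trans s) (d.trans t) fun x => ?_
    change t (d (F.f x)) = F'.f (s (c x))
    rw [h x]
    change t (t.symm (F'.f (s (c x)))) = F'.f (s (c x))
    rw [LinearEquiv.apply_symm_apply]
  exact (HtEq.trans (htEq_idp X Y.P) hFF).trans (htEq_idp Y X.P).symm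

end BT3
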