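import Mathlib
import Pool.Agent.BT3.Ret
import Pool.Agent.BT3.Uniq

/-!
BT3.Prime: primality of indecomposable weights.

Proof.  Take standard presentations `U, W, X, Y` of the weights `u, w, x, y` (`exists_pr`).  By `Cmp.EE`
the sums `F = U ⊕ W`, `F' = X ⊕ Y` exist, they are standard (`Std.add`) of the same weight (`HW.add`), so
`HtEq F F'` (`std_htEq`).  `HtRet U F` (inclusion and projection), so there are `i : U → F'`, `p : F' → U` with
`p i ~ id`.  Let `jx : X → F'`, `qx : F' → X`, `jy`, `qy` be the inclusions and projections,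
`jx qx + jy qy = id`.  Put `α = p jx qx i`, `β = p jy qy i`, so `α + β = p i ~ id`.  `loc_ind` for `α`:
(a) `ψ α ~ id`: then `(ψ p jx) (qx i) ~ id`, so `HtRet U X`, so `Cmp u (x - u)` (`ret_cmp`).
(b) `α^m ~ 0`.  `β ~ id - α`, and with `γ = ∑_{j < m} α^j`: `γ (id - α) = id - α^m ~ id` (prove by induction on
`m`: there is `γ` with `γ (id - α) = id - α^m`), so `γ β ~ id` and `HtRet U Y`, so `Cmp u (y - u)`.
-/

namespace BT3

open Module Function BT

variable {k A : Type} [Field k] [Ring A] [Algebra k A] {n : ℕ} {e : Fin n → A}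
  [Module.Finite k A]

section incl

omit [Module.Finite k A]

variable {X Y : Pr k A} (h1 : EE X.f Y.f) (h2 : EE Y.f X.f)

/-- left inclusion -/
private def jl : Mp X (Pr.add X Y h1 h2) where
  a := LinearMap.inl A X.P Y.P
  b := LinearMap.inl A X.Q Y.Q
  comm x := by
    change (X.f x, (0 : Y.Q)) = (X.f x, Y.f 0)
    rw [map_zero]

/-- right inclusion -/
private def jr : Mp Y (Pr.add X Y h1 h2) where
  a := LinearMap.inr A X.P Y.P
  b := LinearMap.inr A X.Q Y.Q
  comm x := by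
    change ((0 : X.Q), Y.f x) = (X.f 0, Y.f x)
    rw [map_zero]

/-- left projection -/
private def ql : Mp (Pr.add X Y h1 h2) X where
  a := LinearMap.fst A X.P Y.P
  b := LinearMap.fst A X.Q Y.Q
  comm _ := rfl

/-- right projection -/
private def qr : Mp (Pr.add X Y h1 h2) Y where
  a := LinearMap.snd A X.P Y.P
  b := LinearMap.snd A X.Q Y.Q
  comm _ := rfl

private theorem ql_jl : (ql h1 h2).comp (jl h1 h2) = Mp.id X := Mp.ext' (fun _ => rfl) (fun _ => rfl)

private theorem jq_add : ((jl h1 h2).comp (ql h1 h2)).add ((jr h1 h2).comp (qr h1 h2)) =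
    Mp.id (Pr.add X Y h1 h2) := by
  refine Mp.ext' (fun z => ?_) (fun z => ?_)
  · change ((z.1, (0 : Y.P)) : X.P × Y.P) + ((0 : X.P), z.2) = z
    exact Prod.ext (add_zero _) (zero_add _)
  · change ((z.1, (0 : Y.Q)) : X.Q × Y.Q) + ((0 : X.Q), z.2) = z
    exact Prod.ext (add_zero _) (zero_add _)

private theorem ret_incl : HtRet X (Pr.add X Y h1 h2) :=
  ⟨jl h1 h2, ql h1 h2, by rw [ql_jl]; exact Hmt.refl _⟩

/-- the geometric series -/
private def geo (α : Mp X X) (m : ℕ) : Mp X X where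
  a := ∑ i ∈ Finset.range m, α.a ^ i
  b := ∑ i ∈ Finset.range m, α.b ^ i
  comm x := by
    rw [LinearMap.sum_apply, LinearMap.sum_apply, map_sum]
    exact Finset.sum_congr rfl (fun i _ => (α.pow i).comm x)

private theorem geo_comp (α : Mp X X) (m : ℕ) :
    (geo α m).comp ((Mp.id X).add α.neg) = (Mp.id X).add (α.pow m).neg := by
  refine Mp.ext' (fun x => ?_) (fun x => ?_)
  · have h := LinearMap.congr_fun (geom_sum_mul_neg (R := Module.End A X.P) α.a m) x
    change (∑ i ∈ Finset.range m, α.a ^ i) (x + -(α.a x)) = x + -((α.a ^ m) x)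
    rw [← sub_eq_add_neg, ← sub_eq_add_neg]
    exact h
  · have h := LinearMap.congr_fun (geom_sum_mul_neg (R := Module.End A X.Q) α.b m) x
    change (∑ i ∈ Finset.range m, α.b ^ i) (x + -(α.b x)) = x + -((α.b ^ m) x)
    rw [← sub_eq_add_neg, ← sub_eq_add_neg]
    exact h

private theorem add_neg_cancel' (α β : Mp X X) : (α.add β).add α.neg = β := by
  refine Mp.ext' (fun x => ?_) (fun x => ?_)
  · change α.a x + β.a x + -(α.a x) = β.a x
    abel
  · change α.b x + β.b x + -(α.b x) = β.b x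
    abel

private theorem add_zero_neg (φ : Mp X X) : φ.add (Mp.zero X X).neg = φ := by
  refine Mp.ext' (fun x => ?_) (fun x => ?_)
  · change φ.a x + -(0 : X.P) = φ.a x
    rw [neg_zero, add_zero]
  · change φ.b x + -(0 : X.Q) = φ.b x
    rw [neg_zero, add_zero]

end incl

theorem prime [Infinite k] (hC : Crd k e) (hR : RR k A) {u w x y : Fin n → ℤ}
    (hu : Ind k e u) (huw : Cmp k e u w) (hxy : Cmp k e x y) (h : u + w = x + y) :
    Cmp k e u (x - u) ∨ Cmp k e u (y - u) := by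
  obtain ⟨U, hU, hUs⟩ := exists_pr hC hR u
  obtain ⟨W, hW, hWs⟩ := exists_pr hC hR w
  obtain ⟨X, hX, hXs⟩ := exists_pr hC hR x
  obtain ⟨Y, hY, hYs⟩ := exists_pr hC hR y
  obtain ⟨a1, a2⟩ := huw.EE hC hU hW
  obtain ⟨b1, b2⟩ := hxy.EE hC hX hY
  have hF := HW.add a1 a2 hU hW
  have hF' := HW.add b1 b2 hX hY
  rw [← h] at hF'
  have hEq : HtEq (Pr.add U W a1 a2) (Pr.add X Y b1 b2) :=
    std_htEq hC hF hF' (Std.add a1 a2 hUs hWs) (Std.add b1 b2 hXs hYs)
  obtain ⟨i, p, hpi⟩ := (ret_incl a1 a2).trans hEq.ret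
  obtain ⟨α, hα⟩ : ∃ α : Mp U U, α = (p.comp (jl b1 b2)).comp ((ql b1 b2).comp i) := ⟨_, rfl⟩
  obtain ⟨β, hβ⟩ : ∃ β : Mp U U, β = (p.comp (jr b1 b2)).comp ((qr b1 b2).comp i) := ⟨_, rfl⟩
  have hαβ : α.add β = p.comp i := by
    have h1 : α = p.comp (((jl b1 b2).comp (ql b1 b2)).comp i) := by
      rw [hα]
      rw [Mp.comp_assoc, Mp.comp_assoc]
    have h2 : β = p.comp (((jr b1 b2).comp (qr b1 b2)).comp i) := by
      rw [hβ]
      rw [Mp.comp_assoc, Mp.comp_assoc]
    rw [h1, h2, ← Mp.comp_add, ← Mp.add_comp, jq_add, Mp.id_comp]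
  rcases loc_ind hC hu hU α with ⟨m, hm⟩ | ⟨ψ, hψ, -⟩
  · right
    apply ret_cmp hC hU hY
    refine ⟨(qr b1 b2).comp i, (geo α m).comp (p.comp (jr b1 b2)), ?_⟩
    rw [Mp.comp_assoc, ← hβ]
    have h3 : Hmt β ((Mp.id U).add α.neg) := by
      have h4 : Hmt ((α.add β).add α.neg) ((Mp.id U).add α.neg) := by
        rw [hαβ]
        exact hpi.add (Hmt.refl _)
      rw [add_neg_cancel'] at h4
      exact h4
    have h5 := h3.comp_left (geo α m)
    rw [geo_comp] at h5
    have h6 : Hmt ((Mp.id U).add (α.pow m).neg) ((Mp.id U).add (Mp.zero U U).neg) :=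
      (Hmt.refl _).add hm.neg
    rw [add_zero_neg] at h6
    exact h5.trans h6
  · left
    apply ret_cmp hC hU hX
    refine ⟨(ql b1 b2).comp i, ψ.comp (p.comp (jl b1 b2)), ?_⟩
    rw [Mp.comp_assoc, ← hα]
    exact hψ

end BT3
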