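import Mathlib
import Pool.Agent.BT3.Prime
import Pool.Agent.BT3.Sep
import Pool.Agent.BT3.KeyA
import Pool.Agent.BT3.PFa

/-!
BT3.Asm: the combinatorial structure `CF n` of an algebra all whose presentation spaces have rigid
points.
-/

namespace BT3

open Module Function BT

variable {k A : Type} [Field k] [Ring A] [Algebra k A] {n : ℕ} {e : Fin n → A}

/-- the functional `y ↦ y(M)` -/
noncomputable def evM (e : Fin n → A) (M : FM k A) : (Fin n → ℤ) →+ ℤ where
  toFun y := vd k e y M.X
  map_zero' := vd_zero M.X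
  map_add' x y := vd_add M.X x y

theorem evM_apply (M : FM k A) (y : Fin n → ℤ) : evM e M y = vd k e y M.X := rfl

theorem evM_congr {M M' : FM k A} (f : M.X ≃ₗ[A] M'.X) : evM e M = evM e M' := by
  refine AddMonoidHom.ext (fun y => ?_)
  exact vd_congr _ f

/-- the functionals of the stable modules -/
def SS (k : Type) [Field k] [Algebra k A] (e : Fin n → A) (z : Fin n → ℤ) :
    Set ((Fin n → ℤ) →+ ℤ) :=
  {φ | ∃ M : FM k A, Sta k e z M.X ∧ φ = evM e M}

variable [Module.Finite k A]

theorem SS_empty (hC : Crd k e) {z : Fin n → ℤ} (h : SS k e z = ∅) (M : Type) [AddCommGroup M]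
    [Module A M] [Module k M] [IsScalarTower k A M] [Module.Finite k M] (hM : Ws k e z M) :
    Subsingleton M := by
  by_contra hcon
  have hn : Nontrivial M := not_subsingleton_iff_nontrivial.mp hcon
  obtain ⟨U, hU, hU1, -⟩ := hM.exists_sub hC
  have hf := finite_sub (k := k) U
  have : evM e (⟨U⟩ : FM k A) ∈ SS k e z := ⟨⟨U⟩, hU1, rfl⟩
  rw [h] at this
  exact this

theorem SS_filt (hC : Crd k e) {z : Fin n → ℤ} : ∀ (d : ℕ) (M : FM k A), finrank k M.X = d →
    Ws k e z M.X → evM e M ∈ AddSubmonoid.closure (SS k e z) := by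
  intro d
  induction d using Nat.strong_induction_on with
  | _ d ih =>
    intro M hd hM
    by_cases hn : Nontrivial M.X
    · obtain ⟨U, hU, hU1, hU2⟩ := hM.exists_sub hC
      have hf := finite_sub (k := k) U
      have hf2 : Module.Finite k (M.X ⧸ U) := finite_quot _
      have h1 : evM e M = evM e (⟨U⟩ : FM k A) + evM e (⟨M.X ⧸ U⟩ : FM k A) := by
        refine AddMonoidHom.ext (fun y => ?_)
        exact vd_quot hC y U
      have e1 := dim_ses (k := k) U.subtype U.mkQ Subtype.val_injective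
        (Submodule.mkQ_surjective U) (by rw [Submodule.range_subtype, Submodule.ker_mkQ])
      have hUn : Nontrivial U := Submodule.nontrivial_iff_ne_bot.mpr hU
      have hpos : 0 < finrank k U := Module.finrank_pos
      rw [h1]
      refine add_mem (AddSubmonoid.subset_closure ⟨⟨U⟩, hU1, rfl⟩) ?_
      exact ih (finrank k (M.X ⧸ U)) (by omega) (⟨M.X ⧸ U⟩ : FM k A) rfl hU2
    · have hs : Subsingleton M.X := not_nontrivial_iff_subsingleton.mp hn
      have h0 : evM e M = 0 := by
        refine AddMonoidHom.ext (fun y => ?_)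
        exact vd_of_subsingleton M.X y
      rw [h0]
      exact zero_mem _

/-- the combinatorial structure -/
theorem exists_cf [IsAlgClosed k] (hC : Crd k e) (hR : RR k A) :
    ∃ F : CF n, (∀ x y, F.E x y = 0 ↔ Cmp k e x y) ∧ ∀ z, F.S z = SS k e z := by
  classical
  have hinf : Infinite k := IsAlgClosed.instInfinite
  choose P hP hPs using exists_pr hC hR
  let E : (Fin n → ℤ) → (Fin n → ℤ) → ℕ := fun x y => ee (P x) (P y) + ee (P y) (P x)
  have hE : ∀ x y, E x y = 0 ↔ Cmp k e x y := by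
    intro x y
    rw [cmp_iff hC (hP x) (hP y)]
    exact Nat.add_eq_zero_iff
  have hcomm : ∀ x y, E x y = E y x := fun x y => add_comm _ _
  have hind : ∀ u, (u ≠ 0 ∧ ∀ a b, E a b = 0 → a + b = u → a = 0 ∨ b = 0) → Ind k e u := by
    rintro u ⟨h1, h2⟩
    exact ⟨h1, fun x y hxy h => h2 x y ((hE x y).mpr hxy) h⟩
  refine ⟨{ E := E
            S := SS k e
            E_comm := hcomm
            E_self := fun x => (hE x x).mpr (Cmp.self x)
            E_add := ?_
            E_dir := ?_
            drop := ?_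
            coh := fun x y h i => Cmp.coh hC ((hE x y).mp h) i
            star := ?_
            prime := ?_
            cham := ?_
            S_add := ?_
            S_sep := ?_
            S_one := ?_
            S_filt := ?_
            pos := ?_
            neg := ?_ }, hE, fun z => rfl⟩
  · intro z x y
    have h1 := ee_add_right_le hC (hP z) (hP x) (hP y) (hP (x + y))
    have h2 := ee_add_left_le hC (hP x) (hP y) (hP z) (hP (x + y))
    change ee (P z) (P (x + y)) + ee (P (x + y)) (P z) ≤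
      (ee (P z) (P x) + ee (P x) (P z)) + (ee (P z) (P y) + ee (P y) (P z))
    omega
  · intro x y w h
    have hc := (hE x y).mp h
    obtain ⟨h1, h2⟩ := Cmp.EE hC (hP x) (hP y) hc
    have hw := HW.add h1 h2 (hP x) (hP y)
    have e1 := ee_congr hC (hP (x + y)) hw (hP w) (hP w)
    have e2 := ee_congr hC (hP w) (hP w) (hP (x + y)) hw
    rw [ee_add_left] at e1
    rw [ee_add_right] at e2
    change ee (P (x + y)) (P w) + ee (P w) (P (x + y)) =
      (ee (P x) (P w) + ee (P w) (P x)) + (ee (P y) (P w) + ee (P w) (P y))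
    omega
  · intro x y h
    have h1 := ee_drop_right hC (hP x) (hP y) (hP (x + y))
    have h2 := ee_drop_left hC (hP y) (hP x) (Z := P (x + y)) (by
      rw [add_comm y x]
      exact hP (x + y))
    change ee (P x) (P (x + y)) + ee (P (x + y)) (P x) < ee (P x) (P y) + ee (P y) (P x)
    change ee (P x) (P y) + ee (P y) (P x) ≠ 0 at h
    omega
  · intro z w
    obtain ⟨N0, hN0⟩ := star hC hR z w
    exact ⟨N0, fun N hN => (hE _ _).mpr (hN0 N hN)⟩
  · intro u w x y hu huw hxy h
    rcases prime hC hR (hind u hu) ((hE u w).mp huw) ((hE x y).mp hxy) h with h1 | h1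
    · exact Or.inl ⟨x - u, (hE _ _).mpr h1, by abel⟩
    · exact Or.inr ⟨y - u, (hE _ _).mpr h1, by abel⟩
  · intro z hz y y' h h'
    exact (hE _ _).mpr (cham hC (fun M _ _ _ _ _ hM => SS_empty hC hz M hM)
      ((hE _ _).mp h) ((hE _ _).mp h'))
  · rintro x y h β ⟨M, hM, rfl⟩
    have hw := (Cmp.Ws_add M.X hC hR ((hE x y).mp h)).mp (hM.ws hC)
    exact ⟨hw.1.val, hw.2.val⟩
  · rintro z β ⟨M, hM, rfl⟩
    obtain ⟨y, hy, hy'⟩ := exists_sep hC hR hM
    refine ⟨y, hy, ?_⟩
    rintro β' ⟨M', hM', rfl⟩ hne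
    refine hy' M'.X hM' ?_
    rintro ⟨f⟩
    exact hne (evM_congr f).symm
  · rintro z β ⟨M, hM, rfl⟩
    have := hM.1
    exact vd_one_pos M.X hC
  · rintro x y h β ⟨M, hM, rfl⟩
    have hw := (Cmp.Ws_add M.X hC hR ((hE x y).mp h)).mp (hM.ws hC)
    exact SS_filt hC _ M rfl hw.1
  · intro z
    obtain ⟨N0, hN0⟩ := plus hC hR z
    refine ⟨N0, fun N hN => ?_⟩
    obtain ⟨h1, h2⟩ := hN0 N hN
    refine ⟨?_, (hE _ _).mpr h1, ?_⟩
    · by_contra hne
      obtain ⟨φ, M, hM, -⟩ := Set.nonempty_iff_ne_empty.mpr hne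
      have := hM.1
      have h3 := ((h2 M.X).1.mpr ((h2 M.X).2.1.mp (hM.ws hC).1)).val
      rw [hM.2.1] at h3
      exact lt_irrefl _ h3
    · rintro v hv β ⟨M, hM, rfl⟩
      have hv' := (hE _ _).mp hv
      exact ((hv' M.X).2 ((h2 M.X).1.mpr (hM.ws hC).1)).val
  · intro z
    obtain ⟨N0, hN0⟩ := minus hC hR z
    refine ⟨N0, fun N hN => ?_⟩
    obtain ⟨h1, h2⟩ := hN0 N hN
    refine ⟨?_, (hE _ _).mpr h1, ?_⟩
    · by_contra hne
      obtain ⟨φ, M, hM, -⟩ := Set.nonempty_iff_ne_empty.mpr hne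
      have := hM.1
      have h3 := ((h2 M.X).1.mpr ((h2 M.X).2.1.mp (hM.ws hC).1)).val
      rw [hM.2.1] at h3
      exact lt_irrefl _ h3
    · rintro v hv β ⟨M, hM, rfl⟩
      have hv' := (hE _ _).mp hv
      have h3 : Fb k e v M.X := by
        by_contra hcon
        obtain ⟨U, hU, hU1⟩ := exists_Tt_sub hC hcon
        have hf := finite_sub (k := k) U
        have hUn : Nontrivial U := Submodule.nontrivial_iff_ne_bot.mpr hU
        have h4 : Tt k e z U := (h2 U).2.1.mp ((hv' U).1 hU1)
        have h5 := h4.val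
        have h6 := (hM.ws hC).2 U
        omega
      exact h3.val

/-- the key property in the absence of self-extensions -/
theorem key_cf [IsAlgClosed k] (hC : Crd k e) (hR : RR k A)
    (hN : ∀ (z : Fin n → ℤ) (β : Type) [AddCommGroup β] [Module A β] [Module k β]
      [IsScalarTower k A β] [Module.Finite k β], Sta k e z β → NSE k A β)
    {F : CF n} (hFE : ∀ x y, F.E x y = 0 ↔ Cmp k e x y) (hFS : ∀ z, F.S z = SS k e z) :
    F.Key := by
  intro x y hxy a b hab hS β hβ
  rw [hFS] at hS hβ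
  obtain ⟨M, hM, rfl⟩ := hβ
  have ha : a ∈ SS k e x := by rw [hS]; exact Set.mem_insert _ _
  have hb : b ∈ SS k e x := by rw [hS]; exact Set.mem_insert_of_mem _ rfl
  obtain ⟨Ma, hMa, rfl⟩ := ha
  obtain ⟨Mb, hMb, rfl⟩ := hb
  have hne : ¬ Nonempty (Ma.X ≃ₗ[A] Mb.X) := fun ⟨f⟩ => hab (evM_congr f)
  have hiso : ∀ (L M : FM k A), Sta k e x L.X → Sta k e x M.X → evM e L = evM e M →
      Nonempty (L.X ≃ₗ[A] M.X) := by
    intro L M hL hM' h
    by_contra hcon
    obtain ⟨t, ht, ht'⟩ := exists_sep hC hR hL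
    have h1 := ht' M.X hM' hcon
    have h2 : vd k e t L.X = vd k e t M.X := DFunLike.congr_fun h t
    omega
  have hall : ∀ (L : Type) [AddCommGroup L] [Module A L] [Module k L] [IsScalarTower k A L]
      [Module.Finite k L], Sta k e x L → Nonempty (L ≃ₗ[A] Ma.X) ∨
        Nonempty (L ≃ₗ[A] Mb.X) := by
    intro L _ _ _ _ _ hL
    have h1 : evM e (⟨L⟩ : FM k A) ∈ SS k e x := ⟨⟨L⟩, hL, rfl⟩
    rw [hS] at h1
    rcases h1 with h1 | h1
    · exact Or.inl (hiso ⟨L⟩ Ma hL hMa h1)
    · exact Or.inr (hiso ⟨L⟩ Mb hL hMb h1)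
  rcases key_alg hC hR ((hFE x y).mp hxy) hMa hMb hne hall (hN x Ma.X hMa) (hN x Mb.X hMb) hM
    with h | h | h
  · exact Or.inl (AddMonoidHom.ext h)
  · exact Or.inr (Or.inl (AddMonoidHom.ext h))
  · exact Or.inr (Or.inr (AddMonoidHom.ext h))

/-- in rank three without self-extensions of stable modules there are finitely many indecomposable
weights -/
theorem ind_finite [IsAlgClosed k] {e : Fin 3 → A} (hC : Crd k e) (hR : RR k A)
    (hN : ∀ (z : Fin 3 → ℤ) (β : Type) [AddCommGroup β] [Module A β] [Module k β]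
      [IsScalarTower k A β] [Module.Finite k β], Sta k e z β → NSE k A β) :
    {u | Ind k e u}.Finite := by
  obtain ⟨F, hFE, hFS⟩ := exists_cf hC hR
  have hK := key_cf hC hR hN hFE hFS
  refine (CF.finite_ind hK).subset ?_
  rintro u ⟨h1, h2⟩
  exact ⟨h1, fun a b hab h => h2 a b ((hFE a b).mp hab) h⟩

end BT3
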