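import Mathlib
import Pool.Agent.BT3.Asm

/-!
BT3.BrkA: a nonzero map from a member of a finite family of modules with local endomorphism rings to `M`
can be replaced by a nonzero map from a member of the family which kills the images of all
nonbijective maps between members.
-/

namespace BT3

open Module Function BT

section fam

variable {A : Type} [Ring A]

theorem loc_bij {X Y : Type} [AddCommGroup X] [Module A X] [AddCommGroup Y] [Module A Y]
    (hX : Loc A X) [Nontrivial Y] {ρ : X →ₗ[A] Y} {a : Y →ₗ[A] X} (hb : Bijective (ρ ∘ₗ a)) :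
    Bijective ρ := by
  let σ : Y ≃ₗ[A] Y := LinearEquiv.ofBijective (ρ ∘ₗ a) hb
  let ε : Module.End A X := a ∘ₗ (σ.symm : Y →ₗ[A] Y) ∘ₗ ρ
  have hε : ∀ x, ρ (ε x) = ρ x := by
    intro x
    change ρ (a (σ.symm (ρ x))) = ρ x
    exact σ.apply_symm_apply (ρ x)
  refine ⟨?_, fun y => ?_⟩
  · rcases hX.2 ε with h | ⟨m, hm⟩
    · intro x y hxy
      refine h.1 ?_
      change a (σ.symm (ρ x)) = a (σ.symm (ρ y))
      rw [hxy]
    · exfalso
      have h1 : ∀ (m : ℕ) (x : X), ρ ((ε ^ m) x) = ρ x := by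
        intro m
        induction m with
        | zero => intro x; rfl
        | succ m ih =>
          intro x
          rw [pow_succ']
          change ρ (ε ((ε ^ m) x)) = ρ x
          rw [hε, ih]
      obtain ⟨y, hy⟩ := exists_ne (0 : Y)
      obtain ⟨z, hz⟩ := hb.2 y
      have h2 := h1 m (a z)
      rw [hm] at h2
      change ρ 0 = ρ (a z) at h2
      rw [map_zero] at h2
      exact hy (by rw [← hz]; exact h2.symm)
  · obtain ⟨z, hz⟩ := hb.2 y
    exact ⟨a z, hz⟩

variable {ι : Type} [Fintype ι] [DecidableEq ι] {C : ι → Type} [∀ i, AddCommGroup (C i)]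
  [∀ i, Module A (C i)]

omit [Fintype ι] in
theorem fam_nil (hC : ∀ i, Loc A (C i)) {i j : ι} {ρ : C j →ₗ[A] C i} (hρ : ¬ Bijective ρ)
    (y : Module.End A (∀ i, C i)) :
    IsNilpotent (y * (LinearMap.single A C i ∘ₗ ρ ∘ₗ LinearMap.proj j)) := by
  have hn := (hC i).1
  let a : C i →ₗ[A] C j := LinearMap.proj j ∘ₗ y ∘ₗ LinearMap.single A C i
  have h1 : ¬ Bijective (ρ ∘ₗ a) := fun h => hρ (loc_bij (hC j) h)
  obtain ⟨m, hm⟩ := ((hC i).2 (ρ ∘ₗ a)).resolve_left h1
  refine ⟨m + 1, ?_⟩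
  have h2 : ∀ (m : ℕ) (x : ∀ i, C i),
      ((y * (LinearMap.single A C i ∘ₗ ρ ∘ₗ LinearMap.proj j)) ^ (m + 1)) x =
        y (LinearMap.single A C i (((ρ ∘ₗ a : Module.End A (C i)) ^ m) (ρ (x j)))) := by
    intro m
    induction m with
    | zero => intro x; rfl
    | succ m ih =>
      intro x
      rw [pow_succ']
      change (y * (LinearMap.single A C i ∘ₗ ρ ∘ₗ LinearMap.proj j))
        (((y * (LinearMap.single A C i ∘ₗ ρ ∘ₗ LinearMap.proj j)) ^ (m + 1)) x) = _
      rw [ih, pow_succ']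
      rfl
  refine LinearMap.ext (fun x => ?_)
  rw [h2, hm]
  simp

omit [Fintype ι] in
theorem fam_jac (hC : ∀ i, Loc A (C i)) {i j : ι} {ρ : C j →ₗ[A] C i} (hρ : ¬ Bijective ρ) :
    (LinearMap.single A C i ∘ₗ ρ ∘ₗ LinearMap.proj j : Module.End A (∀ i, C i)) ∈
      Ring.jacobson (Module.End A (∀ i, C i)) := by
  rw [← Ideal.jacobson_bot, Ideal.mem_jacobson_iff]
  intro y
  obtain ⟨w, hw⟩ := (fam_nil hC hρ y).isUnit_one_add
  refine ⟨((w⁻¹ : (Module.End A (∀ i, C i))ˣ) : Module.End A (∀ i, C i)), ?_⟩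
  rw [Ideal.mem_bot, mul_assoc]
  have h2 : ((w⁻¹ : (Module.End A (∀ i, C i))ˣ) : Module.End A (∀ i, C i)) *
      (1 + y * (LinearMap.single A C i ∘ₗ ρ ∘ₗ LinearMap.proj j)) = 1 := by
    rw [← hw]
    exact w.inv_mul
  rw [mul_add, mul_one] at h2
  rw [add_comm, h2, sub_self]

variable (k : Type) [Field k] [Algebra k A] [∀ i, Module k (C i)] [∀ i, IsScalarTower k A (C i)]
  [∀ i, Module.Finite k (C i)]

include k in
theorem kill_fam (hC : ∀ i, Loc A (C i)) {M : Type} [AddCommGroup M] [Module A M] {i0 : ι}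
    (g0 : C i0 →ₗ[A] M) (hg0 : g0 ≠ 0) :
    ∃ (i : ι) (g : C i →ₗ[A] M), g ≠ 0 ∧
      ∀ (j : ι) (ρ : C j →ₗ[A] C i), ¬ Bijective ρ → g ∘ₗ ρ = 0 := by
  obtain ⟨n, hn⟩ := Loc.exists_nil k A (∀ i, C i)
  let φ : (∀ i, C i) →ₗ[A] M := g0 ∘ₗ LinearMap.proj i0
  let S : ℕ → Prop := fun j => ∃ σ ∈ (Ring.jacobson (Module.End A (∀ i, C i))) ^ j, φ ∘ₗ σ ≠ 0
  have h0 : S 0 := by
    refine ⟨1, one_mem_pow_zero, ?_⟩
    intro h
    apply hg0
    refine LinearMap.ext (fun c => ?_)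
    have h1 := LinearMap.congr_fun h (LinearMap.single A C i0 c)
    change g0 (LinearMap.single A C i0 c i0) = 0 at h1
    rw [LinearMap.coe_single, Pi.single_eq_same] at h1
    exact h1
  have hn' : ¬ S n := by
    rintro ⟨σ, hσ, hne⟩
    rw [hn] at hσ
    have : σ = 0 := hσ
    subst this
    apply hne
    rw [LinearMap.comp_zero]
  obtain ⟨m, hm1, hm2⟩ : ∃ m, S m ∧ ¬ S (m + 1) := by
    by_contra hcon
    push Not at hcon
    have : ∀ j, S j := by
      intro j
      induction j with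
      | zero => exact h0
      | succ j ih => exact hcon j ih
    exact hn' (this n)
  obtain ⟨σ, hσ, hne⟩ := hm1
  obtain ⟨i, hi⟩ : ∃ i, (φ ∘ₗ σ) ∘ₗ LinearMap.single A C i ≠ 0 := by
    by_contra hcon
    push Not at hcon
    apply hne
    refine LinearMap.pi_ext' (fun i => ?_)
    rw [hcon i, LinearMap.zero_comp]
  refine ⟨i, _, hi, fun j ρ hρ => ?_⟩
  by_contra hcon
  apply hm2
  refine ⟨σ * (LinearMap.single A C i ∘ₗ ρ ∘ₗ LinearMap.proj j), ?_, ?_⟩
  · rw [Submodule.pow_succ]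
    exact Ideal.mul_mem_mul hσ (fam_jac hC hρ)
  · intro h
    apply hcon
    refine LinearMap.ext (fun c => ?_)
    have h1 := LinearMap.congr_fun h (LinearMap.single A C j c)
    change φ (σ (LinearMap.single A C i (ρ (LinearMap.single A C j c j)))) = 0 at h1
    have h3 : LinearMap.single A C j c j = c := by
      rw [LinearMap.coe_single, Pi.single_eq_same]
    rw [h3] at h1
    exact h1

end fam

end BT3
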