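import Mathlib
import Pool.Agent.BT3.Bridge

/-!
BT3.BrkD: if there are finitely many indecomposable weights and every brick is stable for a sum of
distinct indecomposable weights then there are finitely many bricks.
-/

namespace BT3

open Module Function BT

variable {k A : Type} [Field k] [Ring A] [Algebra k A] {n : ℕ} {e : Fin n → A}
  [Module.Finite k A]

/-- finitely many stable modules of one weight -/
theorem bd_sta [IsAlgClosed k] (hC : Crd k e) (hR : RR k A) (z : Fin n → ℤ) :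
    ∃ N, BT.Bd (fun M : FM k A => Sta k e z M.X) N := by
  obtain ⟨X, hX, -⟩ := exists_pr hC hR z
  obtain ⟨m, hm⟩ := BT.bound (k := k) X.rig
  refine ⟨m, ?_⟩
  intro ι _ M _ hM hne
  let F := Fintype.equivFin ι
  refine hm (Fintype.card ι) (fun j => (M (F.symm j)).X) (fun j => ?_) (fun j j' h => ?_)
  · exact (St_iff hX).mpr (hM (F.symm j))
  · exact F.symm.injective (hne _ _ h)

/-- finitely many stable modules for finitely many weights -/
theorem bd_fin [IsAlgClosed k] (hC : Crd k e) (hR : RR k A) (W : Finset (Fin n → ℤ)) :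
    ∃ N, BT.Bd (fun M : FM k A => ∃ z ∈ W, Sta k e z M.X) N := by
  classical
  induction W using Finset.induction_on with
  | empty =>
    refine ⟨0, ?_⟩
    intro ι _ M _ hM _
    have h : IsEmpty ι := ⟨fun i => by
      obtain ⟨z, hz, -⟩ := hM i
      exact absurd hz (Finset.notMem_empty z)⟩
    rw [Fintype.card_eq_zero_iff.mpr h]
  | insert z W hz ih =>
    obtain ⟨N1, h1⟩ := bd_sta hC hR z
    obtain ⟨N2, h2⟩ := ih
    refine ⟨N1 + N2, h1.union h2 ?_⟩
    rintro M - ⟨w, hw, hM⟩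
    rcases Finset.mem_insert.mp hw with rfl | hw'
    · exact Or.inl hM
    · exact Or.inr ⟨w, hw', hM⟩

theorem bricks_of_stable [IsAlgClosed k] (hC : Crd k e) (hR : RR k A)
    (hfin : {u | Ind k e u}.Finite)
    (h : ∀ M : FM k A, BT.Brick M → ∃ Z : Finset (Fin n → ℤ), (∀ v ∈ Z, Ind k e v) ∧
      Sta k e (∑ v ∈ Z, v) M.X) :
    ∃ N, BT.Bd (fun _ : FM k A => True) N := by
  classical
  obtain ⟨N, hN⟩ := bd_fin hC hR (hfin.toFinset.powerset.image (fun Z => ∑ v ∈ Z, v))
  refine ⟨N, ?_⟩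
  intro ι _ M hM _ hne
  refine hN ι M hM (fun i => ?_) hne
  obtain ⟨Z, hZ, hs⟩ := h (M i) (hM i)
  refine ⟨∑ v ∈ Z, v, Finset.mem_image.mpr ⟨Z, Finset.mem_powerset.mpr ?_, rfl⟩, hs⟩
  intro v hv
  exact (Set.Finite.mem_toFinset hfin).mpr (hZ v hv)

end BT3
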