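import Mathlib
import Pool.Agent.BT3.Asm
import Pool.Agent.BT3.BrkA
import Pool.Agent.BT3.BrkD

/-!
BT3.Brk: if there are finitely many indecomposable weights then there are finitely many bricks.

Let `X` be a brick.  Among the classes `Tt c` of chamber weights `c` which contain `X` (there are finitely
many, as `Tt c` depends only on the basis of the chamber) take a minimal one.
* `soc`: every nonzero module `M` in `Tt c` has a nonzero map from a module `D` in `Tt c` which is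
  semistable for `z_u = ∑ v ∈ B.erase u, v`, for some `u` in the basis `B` of `c`.
* All `z_u`-stable modules are isomorphic, and `D` has a stable quotient, so the stable module `β` lies in
  `Tt c`, and there is a nonzero map `β → M` (`dev`).
* If there is a nonzero map `X → β` then it is onto and the composite `X → β → X` is nonzero, so injective,
  and `X` is `z_u`-stable.  Otherwise `X` is in `Tt z_u = Tt c'` with `c'` the chamber weight
  `N • z_u - 1`, and `Tt c'` is strictly smaller than `Tt c`.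
-/

namespace BT3

open Module Function BT

variable {k A : Type} [Field k] [Ring A] [Algebra k A] {n : ℕ} {e : Fin n → A}

section sums

variable {M : Type} [AddCommGroup M] [Module A M] [Module k M] [IsScalarTower k A M]

theorem vd_sum (s : Finset (Fin n → ℤ)) (M : Type) [AddCommGroup M] [Module A M] [Module k M]
    [IsScalarTower k A M] : vd k e (∑ v ∈ s, v) M = ∑ v ∈ s, vd k e v M := by
  classical
  induction s using Finset.induction_on with
  | empty =>
    rw [Finset.sum_empty, Finset.sum_empty]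
    exact vd_zero M
  | insert a s ha ih => rw [Finset.sum_insert ha, Finset.sum_insert ha, vd_add, ih]

theorem Ws_sum {s : Finset (Fin n → ℤ)} (h : ∀ v ∈ s, Ws k e v M) :
    Ws k e (∑ v ∈ s, v) M := by
  refine ⟨fun N => ?_, fun N => ?_⟩
  · rw [vd_sum]
    exact Finset.sum_nonneg (fun v hv => (h v hv).1 N)
  · rw [vd_sum]
    exact Finset.sum_nonpos (fun v hv => (h v hv).2 N)

end sums

variable [Module.Finite k A]

section sup

variable {x : Fin n → ℤ}
variable {M : Type} [AddCommGroup M] [Module A M] [Module k M] [IsScalarTower k A M]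
  [Module.Finite k M]

theorem Tb.iSup (hC : Crd k e) {ι : Type} (U : ι → Submodule A M) (h : ∀ i, Tb k e x (U i)) :
    Tb k e x (⨆ i, U i : Submodule A M) := by
  have hf := finite_sub (k := k) (⨆ i, U i)
  by_contra hcon
  obtain ⟨V, hV, hV1⟩ := exists_Ff_quot hC hcon
  apply hV
  have hfV : Module.Finite k ((⨆ i, U i : Submodule A M) ⧸ V) := finite_quot _
  have h1 : ∀ i, U i ≤ Submodule.map (⨆ i, U i).subtype V := by
    intro i y hy
    have hfi := finite_sub (k := k) (U i)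
    have h2 := hom_zero' hC (h i) hV1 (V.mkQ ∘ₗ Submodule.inclusion (le_iSup U i))
    have h3 : V.mkQ ⟨y, le_iSup U i hy⟩ = 0 := LinearMap.congr_fun h2 ⟨y, hy⟩
    rw [Submodule.mkQ_apply, Submodule.Quotient.mk_eq_zero] at h3
    exact ⟨_, h3, rfl⟩
  have h2 : (⨆ i, U i) ≤ Submodule.map (⨆ i, U i).subtype V := iSup_le h1
  rw [eq_top_iff]
  rintro ⟨y, hy⟩ -
  obtain ⟨z, hz, hz'⟩ := h2 hy
  have : z = ⟨y, hy⟩ := Subtype.ext hz'
  rw [← this]
  exact hz

theorem Tb_Tt (hC : Crd k e) (hz : SS k e x = ∅) (h : Tb k e x M) : Tt k e x M := by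
  obtain ⟨t, ht, ht'⟩ := exists_tors hC x M
  have hf := finite_sub (k := k) t
  have hf2 : Module.Finite k (M ⧸ t) := finite_quot t
  have h1 : Subsingleton (M ⧸ t) := SS_empty hC hz (M ⧸ t)
    ⟨h.of_surj hC t.mkQ (Submodule.mkQ_surjective t), ht'⟩
  have h2 : t = ⊤ := Submodule.Quotient.subsingleton_iff.mp h1
  refine Tt.of_surj hC ht t.subtype ?_
  intro y
  have hy : y ∈ t := by
    rw [h2]
    exact Submodule.mem_top
  exact ⟨⟨y, hy⟩, rfl⟩

end sup

theorem CF.E_sum_zero (F : CF n) {c : Fin n → ℤ} (h0 : F.E c 0 = 0) (s : Finset (Fin n → ℤ))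
    (h : ∀ v ∈ s, F.E c v = 0) : F.E c (∑ v ∈ s, v) = 0 := by
  classical
  induction s using Finset.induction_on with
  | empty =>
    rw [Finset.sum_empty]
    exact h0
  | insert a s ha ih =>
    rw [Finset.sum_insert ha]
    have h1 := F.E_add c a (∑ v ∈ s, v)
    have h2 := h a (Finset.mem_insert_self a s)
    have h3 := ih (fun v hv => h v (Finset.mem_insert_of_mem hv))
    omega

theorem dev (hC : Crd k e) {z : Fin n → ℤ} {M : Type} [AddCommGroup M] [Module A M] :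
    ∀ (d : ℕ) (D : FM k A), finrank k D.X = d → Ws k e z D.X → ∀ g : D.X →ₗ[A] M, g ≠ 0 →
      ∃ β : FM k A, Sta k e z β.X ∧ ∃ h : β.X →ₗ[A] M, h ≠ 0 := by
  intro d
  induction d using Nat.strong_induction_on with
  | _ d ih =>
    intro D hd hD g hg
    have hn : Nontrivial D.X := by
      by_contra hcon
      have hs : Subsingleton D.X := not_nontrivial_iff_subsingleton.mp hcon
      apply hg
      refine LinearMap.ext (fun x => ?_)
      rw [Subsingleton.elim x 0, map_zero, map_zero]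
    obtain ⟨U, hU, hU1, hU2⟩ := hD.exists_sub hC
    have hf := finite_sub (k := k) U
    have hf2 : Module.Finite k (D.X ⧸ U) := finite_quot _
    by_cases h : g ∘ₗ U.subtype = 0
    · have e1 := dim_ses (k := k) U.subtype U.mkQ Subtype.val_injective
        (Submodule.mkQ_surjective U) (by rw [Submodule.range_subtype, Submodule.ker_mkQ])
      have hUn : Nontrivial U := Submodule.nontrivial_iff_ne_bot.mpr hU
      have hpos : 0 < finrank k U := Module.finrank_pos
      have hle : U ≤ LinearMap.ker g := by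
        intro y hy
        exact LinearMap.congr_fun h ⟨y, hy⟩
      refine ih (finrank k (D.X ⧸ U)) (by omega) (⟨D.X ⧸ U⟩ : FM k A) rfl hU2 (U.liftQ g hle) ?_
      intro h0
      apply hg
      refine LinearMap.ext (fun x => ?_)
      exact LinearMap.congr_fun h0 (Submodule.Quotient.mk x)
    · exact ⟨⟨U⟩, hU1, _, h⟩

section cf

variable [IsAlgClosed k] (hC : Crd k e) (hR : RR k A) {F : CF n}
  (hFE : ∀ x y, F.E x y = 0 ↔ Cmp k e x y) (hFS : ∀ z, F.S z = SS k e z)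

include hFE in
omit [Module.Finite k A] [IsAlgClosed k] in
theorem F_ind (u : Fin n → ℤ) : F.Ind u ↔ Ind k e u := by
  constructor
  · rintro ⟨h1, h2⟩
    exact ⟨h1, fun x y hxy h => h2 x y ((hFE x y).mpr hxy) h⟩
  · rintro ⟨h1, h2⟩
    exact ⟨h1, fun x y hxy h => h2 x y ((hFE x y).mp hxy) h⟩

include hC hR hFE in
omit [IsAlgClosed k] in
theorem soc {c : Fin n → ℤ} (hc : SS k e c = ∅) {B : Finset (Fin n → ℤ)} (hB : F.IsCham c B)
    (M : Type) [AddCommGroup M] [Module A M] [Module k M] [IsScalarTower k A M]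
    [Module.Finite k M] [Nontrivial M] (hM : Tt k e c M) :
    ∃ u ∈ B, ∃ D : FM k A, Ws k e (∑ v ∈ B.erase u, v) D.X ∧ Tt k e c D.X ∧
      ∃ g : D.X →ₗ[A] M, g ≠ 0 := by
  classical
  have hmem : ∀ u, u ∈ B ↔ Ind k e u ∧ Cmp k e u c := by
    intro u
    rw [hB.mem, F_ind hFE, hFE]
  have hface : ∀ u ∈ B, ∀ v ∈ B, Cmp k e u v := by
    intro u hu v hv
    exact (hFE _ _).mp (hB.face.2 u hu v hv)
  choose P hP hPs using exists_pr hC hR
  obtain ⟨u, w, hu, huw, hcw, hpos⟩ := exists_ind_pos hC hR c M hM.val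
  have huB : u ∈ B := by
    rw [hmem]
    refine ⟨hu, ?_⟩
    rw [hcw]
    exact ((Cmp.add_iff hC hR huw).mpr ⟨Cmp.self u, huw.symm⟩).symm
  obtain ⟨g0, hg0⟩ := exists_hom (hP u) hpos
  have hnu : Nontrivial (P u).C := by
    by_contra hcon
    have hs : Subsingleton (P u).C := not_nontrivial_iff_subsingleton.mp hcon
    apply hg0
    refine LinearMap.ext (fun x => ?_)
    rw [Subsingleton.elim x 0, map_zero, map_zero]
  let ι : Type := {v : B // Nontrivial (P (v : Fin n → ℤ)).C}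
  have hι : Finite ι := Subtype.finite
  have hιF : Fintype ι := Fintype.ofFinite ι
  have hloc : ∀ i : ι, Loc A (P (i.1 : Fin n → ℤ)).C := by
    intro i
    refine ⟨i.2, fun φ => ?_⟩
    rcases loc_ind_C hC ((hmem _).mp i.1.2).1 (hP _) φ with h | ⟨m, hm⟩
    · exact Or.inl h
    · exact Or.inr ⟨m, LinearMap.ext hm⟩
  obtain ⟨i, g, hg, hkill⟩ := kill_fam (ι := ι) (C := fun i : ι => (P (i.1 : Fin n → ℤ)).C) k hloc
    (i0 := ⟨⟨u, huB⟩, hnu⟩) g0 hg0
  let K : Submodule A (P (i.1 : Fin n → ℤ)).C :=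
    ⨆ p : (Σ j : ι, {ρ : (P (j.1 : Fin n → ℤ)).C →ₗ[A] (P (i.1 : Fin n → ℤ)).C //
      ¬ Bijective ρ}), LinearMap.range p.2.1
  have hKg : K ≤ LinearMap.ker g := by
    refine iSup_le ?_
    rintro ⟨j, ρ, hρ⟩
    rintro _ ⟨x, rfl⟩
    exact LinearMap.congr_fun (hkill j ρ hρ) x
  have hKT : ∀ w ∈ B, Tb k e w K := by
    intro w hw
    refine Tb.iSup hC _ ?_
    rintro ⟨j, ρ, hρ⟩
    have h1 : Tb k e w (P (j.1 : Fin n → ℤ)).C :=
      (hface _ j.1.2 w hw (P (j.1 : Fin n → ℤ)).C).1 (C_Tt hC (hP _))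
    have hf := finite_sub (k := k) (LinearMap.range ρ)
    exact h1.of_surj hC ρ.rangeRestrict (LinearMap.surjective_rangeRestrict ρ)
  have hfD : Module.Finite k ((P (i.1 : Fin n → ℤ)).C ⧸ K) := finite_quot K
  have hDF : ∀ w ∈ B.erase (i.1 : Fin n → ℤ), Fb k e w ((P (i.1 : Fin n → ℤ)).C ⧸ K) := by
    intro w hw
    have hwB : w ∈ B := Finset.mem_of_mem_erase hw
    rw [← H0_iff hC (hP w), H0_iff_hom]
    intro h
    obtain ⟨φ, hφ⟩ := lift (P w) K.mkQ (Submodule.mkQ_surjective K)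
      (by
        rw [Submodule.ker_mkQ]
        have hf := finite_sub (k := k) K
        exact (E0_iff hC (hP w)).mpr (hKT w hwB)) h
    by_cases hnw : Nontrivial (P w).C
    · have hnb : ¬ Bijective φ := by
        intro hb
        have h1 := ind_coker_inj hC ((hmem w).mp hwB).1 ((hmem _).mp i.1.2).1 (hP w) (hP _)
          (LinearEquiv.ofBijective φ hb)
        exact Finset.ne_of_mem_erase hw h1
      rw [← hφ]
      refine LinearMap.ext (fun x => ?_)
      change K.mkQ (φ x) = 0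
      rw [Submodule.mkQ_apply, Submodule.Quotient.mk_eq_zero]
      exact (le_iSup (fun p : (Σ j : ι, {ρ : (P (j.1 : Fin n → ℤ)).C →ₗ[A]
        (P (i.1 : Fin n → ℤ)).C // ¬ Bijective ρ}) => LinearMap.range p.2.1)
        ⟨⟨⟨w, hwB⟩, hnw⟩, φ, hnb⟩) (LinearMap.mem_range_self φ x)
    · have hs : Subsingleton (P w).C := not_nontrivial_iff_subsingleton.mp hnw
      refine LinearMap.ext (fun x => ?_)
      rw [Subsingleton.elim x 0, map_zero, map_zero]
  have hui : (i.1 : Fin n → ℤ) ∈ B := i.1.2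
  have hCT := C_Tt hC (hP (i.1 : Fin n → ℤ))
  have hDT : ∀ w ∈ B, Tb k e w ((P (i.1 : Fin n → ℤ)).C ⧸ K) := by
    intro w hw
    exact ((hface _ hui w hw _).1 hCT).of_surj hC K.mkQ (Submodule.mkQ_surjective K)
  refine ⟨i.1, hui, ⟨(P (i.1 : Fin n → ℤ)).C ⧸ K⟩, ?_, ?_, K.liftQ g hKg, ?_⟩
  · exact Ws_sum (fun v hv => ⟨hDT v (Finset.mem_of_mem_erase hv), hDF v hv⟩)
  · have h1 : Tb k e c (P (i.1 : Fin n → ℤ)).C := (((hmem _).mp hui).2 _).1 hCT
    exact (Tb_Tt hC hc h1).of_surj hC K.mkQ (Submodule.mkQ_surjective K)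
  · intro h0
    apply hg
    refine LinearMap.ext (fun x => ?_)
    exact LinearMap.congr_fun h0 (Submodule.Quotient.mk x)

include hC hR hFS in
theorem facet_unique {c : Fin n → ℤ} {B : Finset (Fin n → ℤ)} (hB : F.IsCham c B)
    {u : Fin n → ℤ} (hu : u ∈ B) (L M : FM k A) (hL : Sta k e (∑ v ∈ B.erase u, v) L.X)
    (hM : Sta k e (∑ v ∈ B.erase u, v) M.X) : Nonempty (L.X ≃ₗ[A] M.X) := by
  obtain ⟨β, hβ, -⟩ := hB.facet hu
  rw [hFS] at hβ
  have h1 : evM e L ∈ SS k e (∑ v ∈ B.erase u, v) := ⟨L, hL, rfl⟩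
  have h2 : evM e M ∈ SS k e (∑ v ∈ B.erase u, v) := ⟨M, hM, rfl⟩
  rw [hβ] at h1 h2
  have h3 : evM e L = evM e M := by
    rw [Set.mem_singleton_iff.mp h1, Set.mem_singleton_iff.mp h2]
  by_contra hcon
  obtain ⟨t, ht, ht'⟩ := exists_sep hC hR hL
  have h4 := ht' M.X hM hcon
  have h5 : vd k e t L.X = vd k e t M.X := DFunLike.congr_fun h3 t
  omega

include hC hR hFE hFS in
/-- the dichotomy for a brick in the class of a chamber -/
theorem brick_step {c : Fin n → ℤ} (hc : SS k e c = ∅) {B : Finset (Fin n → ℤ)}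
    (hB : F.IsCham c B) (X : FM k A) (hX : BT.Brick X) (hXc : Tt k e c X.X) :
    ∃ u ∈ B, Sta k e (∑ v ∈ B.erase u, v) X.X ∨
      (Tt k e (∑ v ∈ B.erase u, v) X.X ∧ Cmp k e c (∑ v ∈ B.erase u, v) ∧
        ∃ β : FM k A, Tt k e c β.X ∧ Sta k e (∑ v ∈ B.erase u, v) β.X) := by
  have hXn := hX.1
  obtain ⟨u, hu, D, hD1, hD2, g, hg⟩ := soc hC hR hFE hc hB X.X hXc
  refine ⟨u, hu, ?_⟩
  obtain ⟨β, hβ, h, hh⟩ := dev hC _ D rfl hD1 g hg
  have hDn : Nontrivial D.X := by
    by_contra hcon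
    have hs : Subsingleton D.X := not_nontrivial_iff_subsingleton.mp hcon
    apply hg
    refine LinearMap.ext (fun x => ?_)
    rw [Subsingleton.elim x 0, map_zero, map_zero]
  have hβc : Tt k e c β.X := by
    obtain ⟨U, hU, hU1, -⟩ := hD1.exists_quot hC
    have hf2 : Module.Finite k (D.X ⧸ U) := finite_quot _
    obtain ⟨ψ⟩ := facet_unique hC hR hFS hB hu (⟨D.X ⧸ U⟩ : FM k A) β hU1 hβ
    exact (hD2.of_surj hC U.mkQ (Submodule.mkQ_surjective U)).of_surj hC
      (ψ : (D.X ⧸ U) →ₗ[A] β.X) ψ.surjective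
  have hcz : Cmp k e c (∑ v ∈ B.erase u, v) := by
    rw [← hFE]
    refine F.E_sum_zero ?_ _ ?_
    · rw [hFE]
      exact Cmp.zero hC c
    · intro v hv
      rw [F.E_comm]
      exact ((hB.mem v).mp (Finset.mem_of_mem_erase hv)).2
  have hXz : Tb k e (∑ v ∈ B.erase u, v) X.X := (hcz X.X).1 hXc
  by_cases hq : ∃ q : X.X →ₗ[A] β.X, q ≠ 0
  · left
    obtain ⟨q, hq⟩ := hq
    have hqs := Sta.surj hC hXz hβ q hq
    have h1 : h ∘ₗ q ≠ 0 := by
      intro h0
      apply hh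
      refine LinearMap.ext (fun y => ?_)
      obtain ⟨x, rfl⟩ := hqs y
      exact LinearMap.congr_fun h0 x
    have h2 : Injective (h ∘ₗ q) := hX.2 (h ∘ₗ q) h1
    have h3 : Injective q := by
      intro x y hxy
      refine h2 ?_
      change h (q x) = h (q y)
      rw [hxy]
    exact hβ.congr hC (LinearEquiv.ofBijective q ⟨h3, hqs⟩).symm
  · right
    push Not at hq
    refine ⟨Tt_of hC (fun N hN => ?_), hcz, β, hβc, hβ⟩
    have hf2 : Module.Finite k (X.X ⧸ N) := finite_quot _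
    by_contra hNt
    have hNn : Nontrivial (X.X ⧸ N) := Submodule.Quotient.nontrivial_iff.mpr hNt
    have hW : Ws k e (∑ v ∈ B.erase u, v) (X.X ⧸ N) :=
      ⟨hXz.of_surj hC N.mkQ (Submodule.mkQ_surjective N), hN⟩
    obtain ⟨U, hU, hU1, -⟩ := hW.exists_quot hC
    have hf3 : Module.Finite k ((X.X ⧸ N) ⧸ U) := finite_quot _
    obtain ⟨ψ⟩ := facet_unique hC hR hFS hB hu (⟨(X.X ⧸ N) ⧸ U⟩ : FM k A) β hU1 hβ
    have h1 := hq ((ψ : ((X.X ⧸ N) ⧸ U) →ₗ[A] β.X) ∘ₗ U.mkQ ∘ₗ N.mkQ)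
    have hβn := hβ.1
    obtain ⟨y, hy⟩ := exists_ne (0 : β.X)
    obtain ⟨a, ha⟩ := ψ.surjective y
    obtain ⟨b, hb⟩ := Submodule.mkQ_surjective U a
    obtain ⟨x, hx⟩ := Submodule.mkQ_surjective N b
    apply hy
    have h2 : ψ (U.mkQ (N.mkQ x)) = 0 := LinearMap.congr_fun h1 x
    rw [hx, hb, ha] at h2
    exact h2

end cf

theorem brick_stable [IsAlgClosed k] (hC : Crd k e) (hR : RR k A)
    (hfin : {u | Ind k e u}.Finite) (X : FM k A) (hX : BT.Brick X) :
    ∃ Z : Finset (Fin n → ℤ), (∀ v ∈ Z, Ind k e v) ∧ Sta k e (∑ v ∈ Z, v) X.X := by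
  classical
  obtain ⟨F, hFE, hFS⟩ := exists_cf hC hR
  let TC : (Fin n → ℤ) → Set (FM k A) := fun c => {M | Tt k e c M.X}
  -- classes depend only on the basis
  have hdep : ∀ c c' : Fin n → ℤ, SS k e c = ∅ → SS k e c' = ∅ → Cmp k e c c' → TC c ⊆ TC c' := by
    intro c c' h h' hcc M hM
    exact Tb_Tt hC h' ((hcc M.X).1 hM)
  have hbas : ∀ (c c' : Fin n → ℤ) (B : Finset (Fin n → ℤ)), F.IsCham c B → F.IsCham c' B →
      Cmp k e c c' := by
    intro c c' B h h'
    obtain ⟨a, ha⟩ := h.coef c (F.E_self c)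
    rw [← hFE, ha]
    exact h'.cmp a
  let 𝒯 : Set (Set (FM k A)) := {T | ∃ c, SS k e c = ∅ ∧ T = TC c ∧ X ∈ T}
  have h𝒯 : 𝒯.Finite := by
    let f : Finset (Fin n → ℤ) → Set (FM k A) := fun B =>
      if h : ∃ c, SS k e c = ∅ ∧ F.IsCham c B then TC h.choose else ∅
    refine ((hfin.toFinset.powerset.image f).finite_toSet).subset ?_
    rintro T ⟨c, hc, rfl, hXc⟩
    obtain ⟨B, hB⟩ := F.exists_cham (z := c) (by rw [hFS]; exact hc)
    have hex : ∃ c, SS k e c = ∅ ∧ F.IsCham c B := ⟨c, hc, hB⟩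
    rw [Finset.mem_coe, Finset.mem_image]
    refine ⟨B, Finset.mem_powerset.mpr ?_, ?_⟩
    · intro v hv
      exact (Set.Finite.mem_toFinset hfin).mpr ((F_ind hFE v).mp ((hB.mem v).mp hv).1)
    · have h1 : f B = TC hex.choose := dif_pos hex
      rw [h1]
      have h2 := hex.choose_spec
      exact Set.Subset.antisymm (hdep _ _ h2.1 hc (hbas _ _ B h2.2 hB))
        (hdep _ _ hc h2.1 (hbas _ _ B hB h2.2))
  have hne : 𝒯.Nonempty := by
    obtain ⟨N1, hN1⟩ := plus hC hR (0 : Fin n → ℤ)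
    obtain ⟨N2, hN2⟩ := F.pos (0 : Fin n → ℤ)
    have h1 := (hN1 (N1 + N2) (by omega)).2 X.X
    have h2 := (hN2 (N1 + N2) (by omega)).1
    rw [hFS] at h2
    refine ⟨_, (N1 + N2) • (0 : Fin n → ℤ) + 1, h2, rfl, ?_⟩
    refine h1.1.mpr (fun N => ?_)
    rw [vd_zero]
  obtain ⟨T, hT⟩ := h𝒯.exists_minimal hne
  obtain ⟨c, hc, rfl, hXc⟩ := hT.prop
  obtain ⟨B, hB⟩ := F.exists_cham (z := c) (by rw [hFS]; exact hc)
  obtain ⟨u, hu, h | ⟨h1, h2, β, hβ1, hβ2⟩⟩ := brick_step hC hR hFE hFS hc hB X hX hXc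
  · exact ⟨B.erase u, fun v hv =>
      (F_ind hFE v).mp ((hB.mem v).mp (Finset.mem_of_mem_erase hv)).1, h⟩
  · exfalso
    obtain ⟨N1, hN1⟩ := minus hC hR (∑ v ∈ B.erase u, v)
    obtain ⟨N2, hN2⟩ := F.neg (∑ v ∈ B.erase u, v)
    have h3 := (hN1 (N1 + N2) (by omega)).2
    have h4 := (hN2 (N1 + N2) (by omega)).1
    rw [hFS] at h4
    have h5 : TC ((N1 + N2) • (∑ v ∈ B.erase u, v) - 1) ∈ 𝒯 :=
      ⟨_, h4, rfl, (h3 X.X).1.mpr h1⟩
    have h6 : TC ((N1 + N2) • (∑ v ∈ B.erase u, v) - 1) ⊆ TC c := by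
      intro M hM
      exact Tb_Tt hC hc ((h2 M.X).2 ((h3 M.X).1.mp hM))
    have h7 : TC c ⊆ TC ((N1 + N2) • (∑ v ∈ B.erase u, v) - 1) := hT.le_of_le h5 h6
    have h8 : Tt k e (∑ v ∈ B.erase u, v) β.X := (h3 β.X).1.mp (h7 hβ1)
    have hβn := hβ2.1
    have h9 := h8.val
    rw [hβ2.2.1] at h9
    exact lt_irrefl _ h9

/-- finitely many indecomposable weights imply finitely many bricks -/
theorem bricks_fin [IsAlgClosed k] (hC : Crd k e) (hR : RR k A)
    (hfin : {u | Ind k e u}.Finite) : ∃ N, BT.Bd (fun _ : FM k A => True) N :=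
  bricks_of_stable hC hR hfin (fun M hM => brick_stable hC hR hfin M hM)

end BT3
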