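import Mathlib

/-!
BT3.Ctr: the epsilon part of the trace over the dual numbers, in terms of ordinary traces.

`V` is a finite dimensional space with an endomorphism `ε`, `ε ε = 0`; a contraction is an endomorphism
`s` with `ε s + s ε = 1` (it exists iff `ker ε = range ε`, i.e. `V` is free over `k[ε]`).  For an endomorphism
`T` commuting with `ε` the number `trace (s T)` is the epsilon part of the trace of `T` over `k[ε]`.

* `exists_ctr`: choose a complement `V0` of `range ε = ker ε`; `ε : V0 → range ε` is bijective; `s` is its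
  inverse on `range ε` and `0` on `V0`.
* `tr_anti`: `r : V → W` with `ε r + r ε = 0`, `U : W → V` with `ε U = U ε`, `s` a contraction of `V`:
  `tr(U r) = tr(U r (ε s + s ε)) = tr(U r ε s) + tr(U r s ε) = - tr(U ε r s) + tr(ε U r s)
  = - tr(ε U r s) + tr(ε U r s) = 0`.
* `tr_comm`: `T : V → W`, `U : W → V` commuting with `ε`.  `r = T s_V - s_W T` satisfies
  `ε r + r ε = T (ε s_V + s_V ε) - (ε s_W + s_W ε) T = 0`, so `tr(U r) = 0`; and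
  `tr(U T s_V) = tr(s_V U T)`, `tr(U s_W T) = tr(s_W T U)` (cyclicity).
* `tr_idem`: `T` with `T T = T`, `ε T = T ε`.  Let `q = T s T`; `ε q + q ε = T`, `T q = q = q T`.  Then
  `tr q = tr(q T) = tr(q ε q) + tr(q q ε) = 2 tr(ε q q)`.  And `r = q - q ε q` satisfies `ε r + r ε = 0`
  (`ε q ε = ε T`, because `q ε = T - ε q` and `ε ε = 0`; so `ε (q ε q) = ε q`, `(q ε q) ε = q ε`), and
  `r = r T`, so `tr r = tr(T r) = 0` by `tr_anti` (`U = T`), so `tr q = tr(q ε q) = tr(ε q q)`.  So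
  `tr(ε q q) = 2 tr(ε q q)`, `tr(ε q q) = 0`, `tr q = 0`; and `tr(s T) = tr(s T T) = tr(T s T) = tr q`.
* `tr_ses`: `σ0` a linear section of `p`; `σ = ε σ0 s'' + σ0 s'' ε''` satisfies `p σ = ε'' s'' + s'' ε'' = 1`
  and `ε σ = ε σ0 s'' ε'' = σ ε''`.  `1 - σ p` has values in `ker p = range i`, so it is `i ρ` with
  `ρ : V → V'`, `ρ i = 1`, `ρ ε = ε' ρ` (as `i` is injective).  `T = T i ρ + T σ p`.
  `tr(s T i ρ) = tr(s (i T') ρ) = tr(s' ρ i T') = tr(s' T')` (`tr_comm`), and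
  `tr(s (T σ) p) = tr(s'' p T σ) = tr(s'' T'' p σ) = tr(s'' T'')`.
-/

namespace BT3

open Module Function

variable {k : Type} [Field k]
variable {V : Type} [AddCommGroup V] [Module k V] [Module.Finite k V]
variable {W : Type} [AddCommGroup W] [Module k W] [Module.Finite k W]

/-- contractions -/
def Ctr (ε s : V →ₗ[k] V) : Prop := ∀ v, ε (s v) + s (ε v) = v

theorem exists_ctr (ε : V →ₗ[k] V) (h0 : ∀ v, ε (ε v) = 0) (h : ∀ v, ε v = 0 → ∃ w, ε w = v) :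
    ∃ s, Ctr ε s := by
  obtain ⟨σ, hσ⟩ := LinearMap.exists_rightInverse_of_surjective ε.rangeRestrict
    ε.range_rangeRestrict
  have hσ' : ∀ w : LinearMap.range ε, ε (σ w) = w := by
    intro w
    have h1 := LinearMap.congr_fun hσ w
    have h2 := congrArg Subtype.val h1
    exact h2
  have hP : ∀ v, (LinearMap.id - σ ∘ₗ ε.rangeRestrict : V →ₗ[k] V) v ∈ LinearMap.range ε := by
    intro v
    have h1 : ε ((LinearMap.id - σ ∘ₗ ε.rangeRestrict : V →ₗ[k] V) v) = 0 := by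
      change ε (v - σ (ε.rangeRestrict v)) = 0
      rw [map_sub, hσ']
      change ε v - ε v = 0
      exact sub_self _
    obtain ⟨w, hw⟩ := h _ h1
    exact ⟨w, hw⟩
  refine ⟨σ ∘ₗ LinearMap.codRestrict (LinearMap.range ε)
    (LinearMap.id - σ ∘ₗ ε.rangeRestrict) hP, fun v => ?_⟩
  have e1 : ε ((σ ∘ₗ LinearMap.codRestrict (LinearMap.range ε)
      (LinearMap.id - σ ∘ₗ ε.rangeRestrict) hP) v) = v - σ (ε.rangeRestrict v) := by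
    change ε (σ _) = _
    rw [hσ']
    rfl
  have e2 : (σ ∘ₗ LinearMap.codRestrict (LinearMap.range ε)
      (LinearMap.id - σ ∘ₗ ε.rangeRestrict) hP) (ε v) = σ (ε.rangeRestrict v) := by
    change σ _ = _
    congr 1
    refine Subtype.ext ?_
    change ε v - σ (ε.rangeRestrict (ε v)) = ε v
    have h3 : ε.rangeRestrict (ε v) = 0 := by
      refine Subtype.ext ?_
      exact h0 v
    rw [h3, map_zero, sub_zero]
  rw [e1, e2, sub_add_cancel]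

theorem tr_anti {εV sV : V →ₗ[k] V} {εW : W →ₗ[k] W} (hs : Ctr εV sV) (r : V →ₗ[k] W)
    (hr : ∀ v, εW (r v) + r (εV v) = 0) (U : W →ₗ[k] V) (hU : ∀ w, εV (U w) = U (εW w)) :
    LinearMap.trace k V (U ∘ₗ r) = 0 := by
  have e0 : U ∘ₗ r = -(εV ∘ₗ (U ∘ₗ r ∘ₗ sV)) + (U ∘ₗ r ∘ₗ sV) ∘ₗ εV := by
    refine LinearMap.ext (fun v => ?_)
    change U (r v) = -(εV (U (r (sV v)))) + U (r (sV (εV v)))
    have h1 : r (εV (sV v)) = - εW (r (sV v)) := by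
      have := hr (sV v)
      rw [add_comm] at this
      exact eq_neg_of_add_eq_zero_left this
    conv_lhs => rw [← hs v]
    rw [map_add, map_add, h1, map_neg, hU]
  have e1 : LinearMap.trace k V ((U ∘ₗ r ∘ₗ sV) ∘ₗ εV) =
      LinearMap.trace k V (εV ∘ₗ (U ∘ₗ r ∘ₗ sV)) :=
    LinearMap.trace_mul_comm k (U ∘ₗ r ∘ₗ sV) εV
  rw [e0, map_add, map_neg, e1, neg_add_cancel]

theorem tr_comm {εV sV : V →ₗ[k] V} {εW sW : W →ₗ[k] W} (hV : Ctr εV sV) (hW : Ctr εW sW)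
    (T : V →ₗ[k] W) (hT : ∀ v, εW (T v) = T (εV v)) (U : W →ₗ[k] V)
    (hU : ∀ w, εV (U w) = U (εW w)) :
    LinearMap.trace k V (sV ∘ₗ U ∘ₗ T) = LinearMap.trace k W (sW ∘ₗ T ∘ₗ U) := by
  have hr : ∀ v, εW ((T ∘ₗ sV - sW ∘ₗ T) v) + (T ∘ₗ sV - sW ∘ₗ T) (εV v) = 0 := by
    intro v
    change εW (T (sV v) - sW (T v)) + (T (sV (εV v)) - sW (T (εV v))) = 0
    rw [map_sub, hT, ← hT v]
    have h1 : T (εV (sV v)) + T (sV (εV v)) = T v := by rw [← map_add, hV v]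
    have h2 : εW (sW (T v)) + sW (εW (T v)) = T v := hW (T v)
    have h3 : T (εV (sV v)) - εW (sW (T v)) + (T (sV (εV v)) - sW (εW (T v))) =
        (T (εV (sV v)) + T (sV (εV v))) - (εW (sW (T v)) + sW (εW (T v))) := by abel
    rw [h3, h1, h2, sub_self]
  have h0 := tr_anti hV (T ∘ₗ sV - sW ∘ₗ T) hr U hU
  rw [LinearMap.comp_sub, map_sub, sub_eq_zero] at h0
  have h1 : LinearMap.trace k V (sV ∘ₗ U ∘ₗ T) = LinearMap.trace k V (U ∘ₗ T ∘ₗ sV) :=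
    LinearMap.trace_mul_comm k sV (U ∘ₗ T)
  have h2 : LinearMap.trace k W ((sW ∘ₗ T) ∘ₗ U) = LinearMap.trace k V (U ∘ₗ (sW ∘ₗ T)) :=
    LinearMap.trace_comp_comm' U (sW ∘ₗ T)
  rw [h1, h0, ← h2]
  rfl

theorem tr_idem {ε s : V →ₗ[k] V} (h0 : ∀ v, ε (ε v) = 0) (hs : Ctr ε s) (T : V →ₗ[k] V)
    (hT : ∀ v, ε (T v) = T (ε v)) (hTT : ∀ v, T (T v) = T v) :
    LinearMap.trace k V (s ∘ₗ T) = 0 := by
  have hsv : ∀ v, ε (s v) = v - s (ε v) := fun v => eq_sub_of_add_eq (hs v)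
  -- q = T s T
  have hq1 : ∀ v, ε (T (s (T v))) + T (s (T (ε v))) = T v := by
    intro v
    rw [hT, ← hT v, ← map_add, hs, hTT]
  have hq2 : ∀ v, T (s (T (ε v))) = T v - ε (T (s (T v))) := by
    intro v
    rw [eq_sub_iff_add_eq, add_comm]
    exact hq1 v
  have hq3 : ∀ v, ε (T (s (T (ε v)))) = ε (T v) := by
    intro v
    rw [hq2, map_sub, h0, sub_zero]
  -- r = q - q ε q
  have hr : ∀ v, ε ((T ∘ₗ s ∘ₗ T - (T ∘ₗ s ∘ₗ T) ∘ₗ ε ∘ₗ (T ∘ₗ s ∘ₗ T)) v) +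
      (T ∘ₗ s ∘ₗ T - (T ∘ₗ s ∘ₗ T) ∘ₗ ε ∘ₗ (T ∘ₗ s ∘ₗ T)) (ε v) = 0 := by
    intro v
    change ε (T (s (T v)) - T (s (T (ε (T (s (T v))))))) +
      (T (s (T (ε v))) - T (s (T (ε (T (s (T (ε v)))))))) = 0
    rw [map_sub, hq3 (T (s (T v))), hTT, hq3 v]
    have h1 : T (s (T (ε (T v)))) = T (s (T (ε v))) := by
      rw [hT v, hTT]
    rw [h1]
    abel
  have h1 := tr_anti hs _ hr T hT
  have h2 : T ∘ₗ (T ∘ₗ s ∘ₗ T - (T ∘ₗ s ∘ₗ T) ∘ₗ ε ∘ₗ (T ∘ₗ s ∘ₗ T)) =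
      T ∘ₗ s ∘ₗ T - (T ∘ₗ s ∘ₗ T) ∘ₗ ε ∘ₗ (T ∘ₗ s ∘ₗ T) := by
    refine LinearMap.ext (fun v => ?_)
    change T (T (s (T v)) - T (s (T (ε (T (s (T v))))))) =
      T (s (T v)) - T (s (T (ε (T (s (T v))))))
    rw [map_sub, hTT, hTT]
  rw [h2, map_sub, sub_eq_zero] at h1
  -- tr (q ε q) = tr (ε q q)
  have h3 : LinearMap.trace k V ((T ∘ₗ s ∘ₗ T) ∘ₗ ε ∘ₗ (T ∘ₗ s ∘ₗ T)) =
      LinearMap.trace k V ((ε ∘ₗ (T ∘ₗ s ∘ₗ T)) ∘ₗ (T ∘ₗ s ∘ₗ T)) :=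
    LinearMap.trace_mul_comm k (T ∘ₗ s ∘ₗ T) (ε ∘ₗ (T ∘ₗ s ∘ₗ T))
  have h4 : LinearMap.trace k V (((T ∘ₗ s ∘ₗ T) ∘ₗ (T ∘ₗ s ∘ₗ T)) ∘ₗ ε) =
      LinearMap.trace k V (ε ∘ₗ ((T ∘ₗ s ∘ₗ T) ∘ₗ (T ∘ₗ s ∘ₗ T))) :=
    LinearMap.trace_mul_comm k ((T ∘ₗ s ∘ₗ T) ∘ₗ (T ∘ₗ s ∘ₗ T)) ε
  have h5 : T ∘ₗ s ∘ₗ T = (T ∘ₗ s ∘ₗ T) ∘ₗ ε ∘ₗ (T ∘ₗ s ∘ₗ T) +
      ((T ∘ₗ s ∘ₗ T) ∘ₗ (T ∘ₗ s ∘ₗ T)) ∘ₗ ε := by
    refine LinearMap.ext (fun v => ?_)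
    change T (s (T v)) = T (s (T (ε (T (s (T v)))))) + T (s (T (T (s (T (ε v))))))
    rw [hTT, ← map_add, ← map_add]
    have h6 : T (ε (T (s (T v)))) + T (s (T (ε v))) = T v := by
      rw [← hT, hTT]
      exact hq1 v
    rw [h6]
  have h7 : LinearMap.trace k V (T ∘ₗ s ∘ₗ T) =
      LinearMap.trace k V ((T ∘ₗ s ∘ₗ T) ∘ₗ ε ∘ₗ (T ∘ₗ s ∘ₗ T)) +
      LinearMap.trace k V (((T ∘ₗ s ∘ₗ T) ∘ₗ (T ∘ₗ s ∘ₗ T)) ∘ₗ ε) := by
    conv_lhs => rw [h5]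
    rw [map_add]
  have h8 : LinearMap.trace k V (ε ∘ₗ ((T ∘ₗ s ∘ₗ T) ∘ₗ (T ∘ₗ s ∘ₗ T))) =
      LinearMap.trace k V (T ∘ₗ s ∘ₗ T) := by
    rw [h1, h3]
    rfl
  have h9 : LinearMap.trace k V (T ∘ₗ s ∘ₗ T) = 0 := by
    rw [h4, h8, ← h1] at h7
    have h10 : LinearMap.trace k V (T ∘ₗ s ∘ₗ T) + 0 =
        LinearMap.trace k V (T ∘ₗ s ∘ₗ T) + LinearMap.trace k V (T ∘ₗ s ∘ₗ T) := by
      rw [add_zero]
      exact h7
    exact (add_left_cancel h10).symm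
  have h11 : LinearMap.trace k V ((s ∘ₗ T) ∘ₗ T) = LinearMap.trace k V (T ∘ₗ (s ∘ₗ T)) :=
    LinearMap.trace_mul_comm k (s ∘ₗ T) T
  have h12 : (s ∘ₗ T) ∘ₗ T = s ∘ₗ T := by
    refine LinearMap.ext (fun v => ?_)
    change s (T (T v)) = s (T v)
    rw [hTT]
  rw [h12] at h11
  rw [h11]
  exact h9

theorem tr_ses {V' V'' : Type} [AddCommGroup V'] [Module k V'] [Module.Finite k V']
    [AddCommGroup V''] [Module k V''] [Module.Finite k V'']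
    {ε' s' : V' →ₗ[k] V'} {ε s : V →ₗ[k] V} {ε'' s'' : V'' →ₗ[k] V''}
    (h0 : ∀ v, ε (ε v) = 0) (h0'' : ∀ v, ε'' (ε'' v) = 0)
    (hs' : Ctr ε' s') (hs : Ctr ε s) (hs'' : Ctr ε'' s'')
    (i : V' →ₗ[k] V) (p : V →ₗ[k] V'') (hi : Injective i) (hp : Surjective p)
    (hex : LinearMap.range i = LinearMap.ker p)
    (hiε : ∀ v, i (ε' v) = ε (i v)) (hpε : ∀ v, p (ε v) = ε'' (p v))
    (T' : V' →ₗ[k] V') (T : V →ₗ[k] V) (T'' : V'' →ₗ[k] V'')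
    (hT' : ∀ v, ε' (T' v) = T' (ε' v)) (hT : ∀ v, ε (T v) = T (ε v))
    (hT'' : ∀ v, ε'' (T'' v) = T'' (ε'' v))
    (hiT : ∀ v, i (T' v) = T (i v)) (hpT : ∀ v, p (T v) = T'' (p v)) :
    LinearMap.trace k V (s ∘ₗ T) =
      LinearMap.trace k V' (s' ∘ₗ T') + LinearMap.trace k V'' (s'' ∘ₗ T'') := by
  obtain ⟨σ0, hσ0⟩ := LinearMap.exists_rightInverse_of_surjective p
    (LinearMap.range_eq_top.mpr hp)
  have hσ0' : ∀ w, p (σ0 w) = w := fun w => LinearMap.congr_fun hσ0 w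
  obtain ⟨σ, hσ⟩ : ∃ σ : V'' →ₗ[k] V, ∀ w, σ w = ε (σ0 (s'' w)) + σ0 (s'' (ε'' w)) :=
    ⟨ε ∘ₗ σ0 ∘ₗ s'' + σ0 ∘ₗ s'' ∘ₗ ε'', fun w => rfl⟩
  have hpσ : ∀ w, p (σ w) = w := by
    intro w
    rw [hσ, map_add, hpε, hσ0', hσ0']
    exact hs'' w
  have hεσ : ∀ w, ε (σ w) = σ (ε'' w) := by
    intro w
    rw [hσ, hσ, map_add, h0, h0'', map_zero, map_zero, zero_add, add_zero]
  have hran : ∀ v, (LinearMap.id - σ ∘ₗ p : V →ₗ[k] V) v ∈ LinearMap.range i := by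
    intro v
    rw [hex, LinearMap.mem_ker]
    change p (v - σ (p v)) = 0
    rw [map_sub, hpσ, sub_self]
  obtain ⟨ρ, hρ⟩ : ∃ ρ : V →ₗ[k] V', ∀ v, i (ρ v) = v - σ (p v) := by
    refine ⟨(LinearEquiv.ofInjective i hi).symm.toLinearMap ∘ₗ
      LinearMap.codRestrict (LinearMap.range i) (LinearMap.id - σ ∘ₗ p) hran, fun v => ?_⟩
    change i ((LinearEquiv.ofInjective i hi).symm _) = _
    have h1 := LinearEquiv.ofInjective_apply (f := i) (h := hi)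
      ((LinearEquiv.ofInjective i hi).symm
        (LinearMap.codRestrict (LinearMap.range i) (LinearMap.id - σ ∘ₗ p) hran v))
    rw [← h1, LinearEquiv.apply_symm_apply]
    rfl
  have hpi : ∀ v, p (i v) = 0 := by
    intro v
    have : i v ∈ LinearMap.ker p := hex ▸ LinearMap.mem_range_self i v
    exact this
  have hρi : ∀ v, ρ (i v) = v := by
    intro v
    apply hi
    rw [hρ, hpi, map_zero, sub_zero]
  have hρε : ∀ v, ε' (ρ v) = ρ (ε v) := by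
    intro v
    apply hi
    rw [hiε, hρ, hρ, map_sub, hεσ, hpε]
  have hT1 := tr_comm hs hs' ρ hρε (i ∘ₗ T') (by
    intro w
    change ε (i (T' w)) = i (T' (ε' w))
    rw [← hiε, hT'])
  have hT2 := tr_comm hs hs'' p (fun v => (hpε v).symm) (T ∘ₗ σ) (by
    intro w
    change ε (T (σ w)) = T (σ (ε'' w))
    rw [hT, hεσ])
  have e1 : s' ∘ₗ ρ ∘ₗ i ∘ₗ T' = s' ∘ₗ T' := by
    refine LinearMap.ext (fun v => ?_)
    change s' (ρ (i (T' v))) = s' (T' v)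
    rw [hρi]
  have e2 : s'' ∘ₗ p ∘ₗ T ∘ₗ σ = s'' ∘ₗ T'' := by
    refine LinearMap.ext (fun v => ?_)
    change s'' (p (T (σ v))) = s'' (T'' v)
    rw [hpT, hpσ]
  have e3 : s ∘ₗ T = s ∘ₗ (i ∘ₗ T') ∘ₗ ρ + s ∘ₗ (T ∘ₗ σ) ∘ₗ p := by
    refine LinearMap.ext (fun v => ?_)
    change s (T v) = s (i (T' (ρ v))) + s (T (σ (p v)))
    rw [hiT, hρ, ← map_add, ← map_add, sub_add_cancel]
  rw [e3, map_add, hT1, hT2, e1, e2]

end BT3
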