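import Mathlib
import Pool.Agent.BT3.Ctr
import Pool.Agent.BT3.Def

/-!
BT3.Tau: for algebras with `rad A ≤ [A, A]` the derivative of the character of a self-extension
vanishes.

`E` is a finite dimensional `A`-module with an `A`-linear `ε : E → E`, `ε ε = 0`, and a `k`-linear
contraction `s` (`Ctr`).  `tau a = trace (s ∘ (a · ))`.
* `tau (x y) = tau (y x)`: `tr_comm` for `T = (y ·)`, `U = (x ·)` on `V = W = E`, which commute with `ε`.
* `tau c = 0` for an idempotent `c`: `tr_idem`.
* `tau r = 0` for `r ∈ rad A`: `r` is a linear combination of commutators.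
* `tau = 0`: `a = ∑_{i, j} e i * a * e j` (`D : Dat`, complete orthogonal idempotents).  For `i ≠ j`:
  `tau (e i * (a * e j)) = tau ((a * e j) * e i) = 0` since `e j * e i = 0`.  For `i = j`: `D.h1`:
  `e i * a * e i = l • e i + r`, `r ∈ rad A`, so `tau = l * tau (e i) + tau r = 0`.
* `tau_mat`: for a matrix `B : Fin r → Fin r → A` the endomorphism `T` of `Fin r → E`,
  `(T g) i = ∑ j, B i j • g j`, satisfies `trace (s^r ∘ T) = ∑ i, tau (B i i) = 0`, where `s^r` is `s` in each
  component.  (`LinearMap.trace` of an endomorphism `F` of `Fin r → E` is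
  `∑ i, trace (proj i ∘ F ∘ single i)`: write `F = ∑ i, F ∘ single i ∘ proj i` and use
  `LinearMap.trace_comp_comm'`.)
-/

namespace BT3

open Module Function BT

variable {k A : Type} [Field k] [Ring A] [Algebra k A]

/-- the radical is contained in the span of the commutators -/
def RadCom (k A : Type) [Field k] [Ring A] [Algebra k A] : Prop :=
  ∀ a ∈ Ring.jacobson A, a ∈ Submodule.span k {c : A | ∃ x y : A, c = x * y - y * x}

/-- the action of `a` as a `k`-linear map -/
def act (k : Type) [Field k] [Algebra k A] (a : A) (E : Type) [AddCommGroup E] [Module A E]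
    [Module k E] [IsScalarTower k A E] : E →ₗ[k] E where
  toFun v := a • v
  map_add' v w := smul_add a v w
  map_smul' c v := by
    change a • (c • v) = c • (a • v)
    rw [← algebraMap_smul A c v, ← algebraMap_smul A c (a • v), ← mul_smul, ← mul_smul,
      Algebra.commutes]

variable {E : Type} [AddCommGroup E] [Module A E] [Module k E] [IsScalarTower k A E]
  [Module.Finite k E]

omit [Module.Finite k E] in
private theorem act_mul42 (a b : A) : act k (a * b) E = act k a E ∘ₗ act k b E := by
  ext v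
  exact mul_smul a b v

/-- the functional `tau` as a linear map -/
private noncomputable def tauL42 (s : E →ₗ[k] E) : A →ₗ[k] k where
  toFun a := LinearMap.trace k E (s ∘ₗ act k a E)
  map_add' a b := by
    have h : act k (a + b) E = act k a E + act k b E := by
      ext v
      exact add_smul a b v
    rw [h, LinearMap.comp_add, map_add]
  map_smul' c a := by
    have h : act k (c • a) E = c • act k a E := by
      ext v
      exact smul_assoc c a v
    rw [h, LinearMap.comp_smul, map_smul]
    rfl

private theorem tauL42_comm (ε : E →ₗ[A] E) (s : E →ₗ[k] E) (hs : ∀ v, ε (s v) + s (ε v) = v)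
    (x y : A) : tauL42 (A := A) s (x * y) = tauL42 (A := A) s (y * x) := by
  have hc : Ctr (ε.restrictScalars k) s := hs
  have h := tr_comm hc hc (act k y E) (fun v => map_smul ε y v) (act k x E)
    (fun v => map_smul ε x v)
  change LinearMap.trace k E (s ∘ₗ act k (x * y) E) = LinearMap.trace k E (s ∘ₗ act k (y * x) E)
  rw [act_mul42, act_mul42]
  exact h

private theorem tauL42_idem (ε : E →ₗ[A] E) (h0 : ∀ v, ε (ε v) = 0) (s : E →ₗ[k] E)
    (hs : ∀ v, ε (s v) + s (ε v) = v) {c : A} (hcc : c * c = c) : tauL42 (A := A) s c = 0 := by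
  have hc : Ctr (ε.restrictScalars k) s := hs
  refine tr_idem (ε := ε.restrictScalars k) h0 hc (act k c E) (fun v => map_smul ε c v)
    (fun v => ?_)
  change c • (c • v) = c • v
  rw [← mul_smul, hcc]

private theorem tauL42_rad (hA : RadCom k A) (ε : E →ₗ[A] E) (s : E →ₗ[k] E)
    (hs : ∀ v, ε (s v) + s (ε v) = v) {r : A} (hr : r ∈ Ring.jacobson A) :
    tauL42 (A := A) s r = 0 := by
  have h1 : Submodule.span k {c : A | ∃ x y : A, c = x * y - y * x} ≤
      LinearMap.ker (tauL42 (A := A) s) := by
    rw [Submodule.span_le]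
    rintro c ⟨x, y, rfl⟩
    change tauL42 (A := A) s (x * y - y * x) = 0
    rw [map_sub, tauL42_comm ε s hs, sub_self]
  exact h1 (hA r hr)

theorem tau_zero {ι : Type} [Fintype ι] {t : ℕ} (D : Dat k A ι t) (hA : RadCom k A)
    (ε : E →ₗ[A] E) (h0 : ∀ v, ε (ε v) = 0) (s : E →ₗ[k] E) (hs : ∀ v, ε (s v) + s (ε v) = v)
    (a : A) : LinearMap.trace k E (s ∘ₗ act k a E) = 0 := by
  classical
  change tauL42 (A := A) s a = 0
  have ha : a = ∑ i, ∑ j, D.e i * (a * D.e j) := by
    have h1 : ∀ i, ∑ j, D.e i * (a * D.e j) = D.e i * a := by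
      intro i
      rw [← Finset.mul_sum, ← Finset.mul_sum, D.he.complete, mul_one]
    simp only [h1]
    rw [← Finset.sum_mul, D.he.complete, one_mul]
  rw [ha, map_sum]
  refine Finset.sum_eq_zero fun i _ => ?_
  rw [map_sum]
  refine Finset.sum_eq_zero fun j _ => ?_
  by_cases hij : i = j
  · subst hij
    obtain ⟨l, hl⟩ := D.h1 i a
    have h2 := tauL42_rad hA ε s hs hl
    rw [map_sub, map_smul, tauL42_idem ε h0 s hs (D.he.idem i), smul_zero, sub_zero] at h2
    rw [← mul_assoc]
    exact h2
  · rw [tauL42_comm ε s hs, mul_assoc, D.he.ortho (Ne.symm hij), mul_zero, map_zero]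

theorem tau_mat {ι : Type} [Fintype ι] {t : ℕ} (D : Dat k A ι t) (hA : RadCom k A)
    (ε : E →ₗ[A] E) (h0 : ∀ v, ε (ε v) = 0) (s : E →ₗ[k] E) (hs : ∀ v, ε (s v) + s (ε v) = v)
    (r : ℕ) (B : Fin r → Fin r → A) (S T : (Fin r → E) →ₗ[k] (Fin r → E))
    (hS : ∀ g i, S g i = s (g i)) (hT : ∀ g i, T g i = ∑ j, B i j • g j) :
    LinearMap.trace k (Fin r → E) (S ∘ₗ T) = 0 := by
  have hF : S ∘ₗ T = ∑ i, (S ∘ₗ T ∘ₗ LinearMap.single k (fun _ : Fin r => E) i) ∘ₗ
      LinearMap.proj (R := k) (φ := fun _ : Fin r => E) i := by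
    refine LinearMap.ext fun g => ?_
    rw [LinearMap.sum_apply]
    change S (T g) = ∑ i, S (T (Pi.single i (g i)))
    rw [← map_sum, ← map_sum, Finset.univ_sum_single]
  rw [hF, map_sum]
  refine Finset.sum_eq_zero fun i _ => ?_
  rw [LinearMap.trace_comp_comm']
  have h1 : LinearMap.proj (R := k) (φ := fun _ : Fin r => E) i ∘ₗ
      (S ∘ₗ T ∘ₗ LinearMap.single k (fun _ : Fin r => E) i) = s ∘ₗ act k (B i i) E := by
    refine LinearMap.ext fun v => ?_
    change (S (T (Pi.single i v))) i = s (B i i • v)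
    rw [hS, hT]
    congr 1
    rw [Finset.sum_eq_single i]
    · rw [Pi.single_eq_same]
    · intro j _ hj
      rw [Pi.single_eq_of_ne hj, smul_zero]
    · intro h
      exact absurd (Finset.mem_univ i) h
  rw [h1]
  exact tau_zero D hA ε h0 s hs (B i i)

end BT3
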