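import Mathlib
import Pool.Agent.BT3.Tau

/-!
BT3.Hst: the epsilon part of the trace of `b^*` on `Hom(R, E)` vanishes for `R` projective, `b : R → R`.

Proof.  `R` is a finite dimensional projective module: there are `q : (Fin r → A) → R` onto and
`j : R → (Fin r → A)` with `q j = id`.  Let `V = Hom_A(R, E)` with `ε_* = post k R ε` and the contraction `S`,
`W = (Fin r → E)` with `ε` and `s` in each component (`s : E → E` a `k`-linear contraction of `E`, hypothesis).
`T : V → W`, `(T h) i = h (b (q e_i))`, `e_i` the unit vectors; `U : W → V`, `(U g) x = ∑ i, (j x) i • g i`.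
Both commute with `ε` and `U T h = h ∘ b ∘ q ∘ j = h ∘ b` (as `y = ∑ y i • e_i`), i.e. `U T = pre k b E`.
`(T U g) i = (U g)(b (q e_i)) = ∑ l, (j (b (q e_i))) l • g l`, so `T U` is the operator of the matrix
`B i l = (j (b (q e_i))) l`.  By `tr_comm` `trace (S ∘ U ∘ T) = trace (s^r ∘ T ∘ U)`, which is zero by
`tau_mat`.
-/

namespace BT3

open Module Function BT

variable {k A : Type} [Field k] [Ring A] [Algebra k A]
variable {E : Type} [AddCommGroup E] [Module A E] [Module k E] [IsScalarTower k A E]
  [Module.Finite k E]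

theorem hst {ι : Type} [Fintype ι] {t : ℕ} (D : Dat k A ι t) (hA : RadCom k A)
    (ε : E →ₗ[A] E) (h0 : ∀ v, ε (ε v) = 0) (s : E →ₗ[k] E) (hs : ∀ v, ε (s v) + s (ε v) = v)
    (R : Type) [AddCommGroup R] [Module A R] [Module k R] [IsScalarTower k A R]
    [Module.Finite k R] [Module.Projective A R] (b : R →ₗ[A] R)
    (S : (R →ₗ[A] E) →ₗ[k] (R →ₗ[A] E)) (hS : Ctr (post k R ε) S) :
    LinearMap.trace k (R →ₗ[A] E) (S ∘ₗ pre k b E) = 0 := by
  have hfA : Module.Finite A R := Module.Finite.of_restrictScalars_finite k A R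
  obtain ⟨r, q, hq⟩ := Module.Finite.exists_fin' A R
  obtain ⟨j, hj⟩ := Module.projective_lifting_property q LinearMap.id hq
  have hfh : Module.Finite k (R →ₗ[A] E) := finite_hom
  let T : (R →ₗ[A] E) →ₗ[k] (Fin r → E) :=
    { toFun := fun h i => h (b (q (Pi.single i 1)))
      map_add' := fun _ _ => rfl
      map_smul' := fun _ _ => rfl }
  let U : (Fin r → E) →ₗ[k] (R →ₗ[A] E) :=
    { toFun := fun g => Fintype.linearCombination A g ∘ₗ j
      map_add' := fun g g' => by
        refine LinearMap.ext fun x => ?_
        simp only [LinearMap.comp_apply, Fintype.linearCombination_apply, LinearMap.add_apply,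
          Pi.add_apply, smul_add, Finset.sum_add_distrib]
      map_smul' := fun c g => by
        refine LinearMap.ext fun x => ?_
        simp only [LinearMap.comp_apply, Fintype.linearCombination_apply, LinearMap.smul_apply,
          Pi.smul_apply, RingHom.id_apply, Finset.smul_sum]
        refine Finset.sum_congr rfl fun i _ => ?_
        rw [← algebraMap_smul A c (g i), ← algebraMap_smul A c (j x i • g i), ← mul_smul,
          ← mul_smul, Algebra.commutes] }
  have hUT : U ∘ₗ T = pre k b E := by
    refine LinearMap.ext fun h => LinearMap.ext fun x => ?_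
    change ∑ i, (j x) i • h (b (q (Pi.single i 1))) = h (b x)
    have h1 : ∑ i, (j x) i • (Pi.single i 1 : Fin r → A) = j x := by
      ext l
      simp [Finset.sum_apply, Pi.single_apply]
    have h2 : q (j x) = x := LinearMap.congr_fun hj x
    calc ∑ i, (j x) i • h (b (q (Pi.single i 1)))
        = h (b (q (∑ i, (j x) i • (Pi.single i 1 : Fin r → A)))) := by
          simp only [map_sum, map_smul]
      _ = h (b x) := by rw [h1, h2]
  let sW : (Fin r → E) →ₗ[k] (Fin r → E) := s.compLeft (Fin r)
  let εW : (Fin r → E) →ₗ[k] (Fin r → E) := (ε.restrictScalars k).compLeft (Fin r)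
  have hW : Ctr εW sW := fun g => funext fun i => hs (g i)
  have hT : ∀ v, εW (T v) = T (post k R ε v) := fun v => rfl
  have hU : ∀ w, post k R ε (U w) = U (εW w) := by
    intro w
    refine LinearMap.ext fun x => ?_
    change ε (∑ i, (j x) i • w i) = ∑ i, (j x) i • ε (w i)
    simp only [map_sum, map_smul]
  have h1 := tr_comm hS hW T hT U hU
  have h2 := tau_mat D hA ε h0 s hs r (fun i l => (j (b (q (Pi.single i 1)))) l) sW (T ∘ₗ U)
    (fun g i => rfl) (fun g i => rfl)
  rw [← hUT, h1]
  exact h2

end BT3
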