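import Mathlib
import Pool.Agent.BT3.Hst
import Pool.Agent.BT3.Vst

/-!
BT3.Nse: if `rad A` is contained in the span of the commutators then stable modules have no nonsplit
self-extensions.

Proof.  Let `β` be `z`-stable, `0 → β → E → β → 0` (`i`, `p`) exact and assume that it does not split.
`ε = i ∘ p : E → E` is `A`-linear, `ε ε = 0`, and `ε v = 0` implies `p v = 0`, so `v = i b = ε v'`.  Let `s` be a
`k`-linear contraction of `E` (`exists_ctr`).  `E` is `z`-semistable.
Let `X` be a presentation of weight `c = N z + 1` as in `plus` (`Tb c M ↔ Tb z M`), `C = X.C`, `f : P → Q`.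
So `Tb z C` (`C_Tt` and `Tt c C → Tb c C → Tb z C`), `E0 X.f M` for all `M` with `Tb z M`, and maps `C → M'`
lift along surjections `M → M'` whose kernel satisfies `Tb z` (`lift`).
1. `hom_trace`: for `φ : C → C` and a contraction `S` of `V_C = Hom(C, E)` (w.r.t. `ε_*`)
   `trace (S ∘ φ^*) = 0`.  Lift `φ` to a morphism `(a, b)` of `X` (`exists_cok`).  `V_Q = Hom(Q, E)`,
   `V_P = Hom(P, E)`, `V_C` have contractions (`exists_ctr`): if `ε h = 0` then `h` has values in
   `ker p = range i`; `h = i h'`, and `h'` lifts along `p` (`Q`, `P` projective, for `C` use `lift`,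
   `ker p ≅ β`), `h' = p h''`, `h = ε h''`.  The sequence `0 → V_C → V_Q → V_P → 0` (`g ↦ g ∘ mkQ`,
   `h ↦ h ∘ f`) is exact (`E0 X.f E`), compatible with `ε_*` and with `φ^*`, `b^*`, `a^*`.  `tr_ses` and `hst`
   for `Q` and `P` give the claim.
2. Let `g_1, ..., g_m ∈ Hom(C, E)` be such that `p g_1, ..., p g_m` is a basis of `Hom(C, β)` (every map
   `C → β` lifts along `p`); `m = hd C β = vd c β + ex = vd 1 β > 0`.  `Π = (g_j) : C → E^m` is onto:
   let `I` be its range and suppose `I ≠ ⊤`.  `E^m` is semistable and `vd z I = 0` (`range_val`), so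
   `E^m ⧸ I` is semistable and nonzero, it has a stable quotient, `h : E^m → L` onto with `h Π = 0`, `L`
   stable.  The maps `(g_j) : C → E^m → β^m` (compose with `p`) are onto (`indep_surj` below), so
   `E^m = I + i(β)^m` and `h` is nonzero on `i(β)^m`, so `L ≅ β`, we may assume `L = β`.  Write
   `h = (h_j)`, `h_j : E → β`.  `h_j i : β → β` is zero: otherwise it is an isomorphism, and the sequence
   splits.  So `h_j = l_j p` with a scalar `l_j` (`h_j` factors through `p`, `Sta.schur`).
   `0 = h Π = ∑ l_j p g_j`, so all `l_j = 0` and `h = 0`: contradiction.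
3. `indep_surj`: if `u_1, ..., u_m : C → β` are linearly independent over `k` and `Tb z C` then
   `(u_j) : C → β^m` is onto.  Induction on `m`: `K` = kernel of `(u_1, ..., u_m)`, `Tb z K` (`ker_Tb`);
   `u_{m+1}` is zero or onto on `K`; if it is onto we are done; if it is zero then
   `u_{m+1} = h (u_1, ..., u_m)` with `h : β^m → β`, a linear combination of the projections
   (`Sta.schur`), contradicting independence.
4. The kernel of `Π` satisfies `Tb z` (`ker_Tb`), so `(ε g_1, 0, ..., 0) : C → E^m` lifts: there is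
   `φ : C → C` with `g_1 φ = ε g_1`, `g_j φ = 0` for `j ≥ 2`.  The elements `g_j` and `ε g_j` form a basis of
   `V_C` (`h ∈ V_C`: `p h = ∑ l_j p g_j`, so `h - ∑ l_j g_j = i h'`, `h' = ∑ l'_j p g_j`,
   `i h' = ∑ l'_j ε g_j`; independence in the same way).  Let `S (g_j) = 0`, `S (ε g_j) = g_j`, a
   contraction.  `S φ^*` maps `g_1` to `S (ε g_1) = g_1` and all other basis elements to `0`
   (`(ε g_j) φ = ε (g_j φ)` is `ε ε g_1 = 0` or `0`), so its trace is `1`, contradicting 1.
   (If convenient, avoid the basis: let `S` be any contraction; or compute the trace by `tr_comm`.)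
-/

namespace BT3

open Module Function BT

variable {k A : Type} [Field k] [Ring A] [Algebra k A] {n : ℕ} {e : Fin n → A}
  [Module.Finite k A]

section aux

variable {z c : Fin n → ℤ}
variable {β : Type} [AddCommGroup β] [Module A β] [Module k β] [IsScalarTower k A β]
  [Module.Finite k β]
variable {E : Type} [AddCommGroup E] [Module A E] [Module k E] [IsScalarTower k A E]
  [Module.Finite k E]
variable {C : Type} [AddCommGroup C] [Module A C] [Module k C] [IsScalarTower k A C]
  [Module.Finite k C]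

theorem indep_surj [IsAlgClosed k] (hC : Crd k e) (hβ : Sta k e z β) (hTC : Tb k e z C)
    {m : ℕ} (u : Fin m → (C →ₗ[A] β)) (hu : LinearIndependent k u) :
    Surjective (LinearMap.pi u : C →ₗ[A] (Fin m → β)) := by
  induction m with
  | zero =>
    intro b
    exact ⟨0, Subsingleton.elim _ _⟩
  | succ m ih =>
    obtain ⟨hv, hnot⟩ := linearIndependent_finSucc.1 hu
    have hs : Surjective (LinearMap.pi (Fin.tail u) : C →ₗ[A] (Fin m → β)) := ih _ hv
    have hK : Tb k e z (LinearMap.ker (LinearMap.pi (Fin.tail u) : C →ₗ[A] (Fin m → β))) :=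
      ker_Tb hC hTC (Ws.pi hC (hβ.ws hC) m).2 _
    have hfK := finite_sub (k := k)
      (LinearMap.ker (LinearMap.pi (Fin.tail u) : C →ₗ[A] (Fin m → β)))
    by_cases hw : (u 0) ∘ₗ (LinearMap.ker
        (LinearMap.pi (Fin.tail u) : C →ₗ[A] (Fin m → β))).subtype = 0
    · exfalso
      apply hnot
      have hle : LinearMap.ker (LinearMap.pi (Fin.tail u) : C →ₗ[A] (Fin m → β)) ≤
          LinearMap.ker (u 0) := by
        intro x hx
        exact LinearMap.congr_fun hw ⟨x, hx⟩
      let h : (Fin m → β) →ₗ[A] β :=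
        (LinearMap.ker (LinearMap.pi (Fin.tail u) : C →ₗ[A] (Fin m → β))).liftQ (u 0) hle ∘ₗ
          (LinearMap.quotKerEquivOfSurjective _ hs).symm.toLinearMap
      have hh : ∀ x, h (LinearMap.pi (Fin.tail u) x) = u 0 x := by
        intro x
        have h1 : (LinearMap.quotKerEquivOfSurjective _ hs).symm
            ((LinearMap.pi (Fin.tail u) : C →ₗ[A] (Fin m → β)) x) =
            (LinearMap.ker (LinearMap.pi (Fin.tail u) : C →ₗ[A] (Fin m → β))).mkQ x := by
          rw [LinearEquiv.symm_apply_eq]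
          rfl
        change (LinearMap.ker (LinearMap.pi (Fin.tail u) : C →ₗ[A] (Fin m → β))).liftQ (u 0) hle
          ((LinearMap.quotKerEquivOfSurjective _ hs).symm
            ((LinearMap.pi (Fin.tail u) : C →ₗ[A] (Fin m → β)) x)) = u 0 x
        rw [h1]
        rfl
      choose l hl using fun j : Fin m =>
        Sta.schur hC hβ (h ∘ₗ LinearMap.single A (fun _ : Fin m => β) j)
      have h2 : u 0 = ∑ j, l j • Fin.tail u j := by
        refine LinearMap.ext fun x => ?_
        rw [← hh x, LinearMap.sum_apply]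
        have h3 : (LinearMap.pi (Fin.tail u) : C →ₗ[A] (Fin m → β)) x =
            ∑ j, Pi.single j (Fin.tail u j x) := (Finset.univ_sum_single _).symm
        rw [h3, map_sum]
        refine Finset.sum_congr rfl fun j _ => ?_
        exact hl j (Fin.tail u j x)
      rw [h2]
      exact Submodule.sum_mem _ fun j _ => Submodule.smul_mem _ _
        (Submodule.subset_span ⟨j, rfl⟩)
    · have hs0 := Sta.surj hC hK hβ _ hw
      intro b
      obtain ⟨x, hx⟩ := hs (Fin.tail b)
      obtain ⟨y, hy⟩ := hs0 (b 0 - u 0 x)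
      have hy' : u 0 (y : C) = b 0 - u 0 x := hy
      have hy2 : (LinearMap.pi (Fin.tail u) : C →ₗ[A] (Fin m → β)) (y : C) = 0 := y.2
      refine ⟨x + y, ?_⟩
      funext j
      change u j (x + y) = b j
      rw [map_add]
      refine Fin.cases ?_ (fun j => ?_) j
      · rw [hy']
        abel
      · have h3 : u j.succ x = b j.succ := congrFun hx j
        have h4 : u j.succ (y : C) = 0 := congrFun hy2 j
        rw [h3, h4, add_zero]

omit [Module.Finite k A] [Module.Finite k β] [Module.Finite k E] in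
/-- `ε h = 0` implies `h = ε h'` on maps out of a projective module -/
private theorem proj_ctr (R : Type) [AddCommGroup R] [Module A R] [Module.Projective A R]
    (i : β →ₗ[A] E) (p : E →ₗ[A] β) (hi : Injective i) (hp : Surjective p)
    (hex : LinearMap.range i = LinearMap.ker p) (h : R →ₗ[A] E) (hh : (i ∘ₗ p) ∘ₗ h = 0) :
    ∃ h' : R →ₗ[A] E, (i ∘ₗ p) ∘ₗ h' = h := by
  have h1 : ∀ y, h y ∈ LinearMap.range i := by
    intro y
    rw [hex, LinearMap.mem_ker]
    apply hi
    rw [map_zero]
    exact LinearMap.congr_fun hh y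
  obtain ⟨g, hg⟩ := Module.projective_lifting_property p
    ((LinearEquiv.ofInjective i hi).symm.toLinearMap ∘ₗ h.codRestrict _ h1) hp
  refine ⟨g, LinearMap.ext fun y => ?_⟩
  have h2 := LinearMap.congr_fun hg y
  change p (g y) = (LinearEquiv.ofInjective i hi).symm (h.codRestrict _ h1 y) at h2
  change i (p (g y)) = h y
  rw [h2]
  have h3 := (LinearEquiv.ofInjective i hi).apply_symm_apply (h.codRestrict _ h1 y)
  exact congrArg Subtype.val h3

omit [Module.Finite k A] [Module.Finite k β] [Module k β] [IsScalarTower k A β] in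
private theorem exists_ctr_hom (R : Type) [AddCommGroup R] [Module A R] [Module k R]
    [IsScalarTower k A R] [Module.Finite k R] [Module.Projective A R]
    (i : β →ₗ[A] E) (p : E →ₗ[A] β) (hi : Injective i) (hp : Surjective p)
    (hex : LinearMap.range i = LinearMap.ker p) :
    ∃ S, Ctr (post k R (i ∘ₗ p)) S := by
  have hf : Module.Finite k (R →ₗ[A] E) := finite_hom
  have hpi : ∀ b, p (i b) = 0 := fun b => by
    have h : i b ∈ LinearMap.ker p := hex ▸ LinearMap.mem_range_self i b
    exact h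
  refine exists_ctr _ (fun h => LinearMap.ext fun y => ?_) (fun h hh => ?_)
  · change i (p (i (p (h y)))) = 0
    rw [hpi, map_zero]
  · exact proj_ctr R i p hi hp hex h hh

theorem hom_trace {ι : Type} [Fintype ι] {t : ℕ} (D : Dat k A ι t) (hA : RadCom k A)
    (hC : Crd k e) {X : Pr k A} (hX : HW e X c)
    (hc : ∀ (M : Type) [AddCommGroup M] [Module A M] [Module k M] [IsScalarTower k A M]
      [Module.Finite k M], Tb k e c M ↔ Tb k e z M)
    (hβ : Ws k e z β) (i : β →ₗ[A] E) (p : E →ₗ[A] β) (hi : Injective i) (hp : Surjective p)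
    (hex : LinearMap.range i = LinearMap.ker p) (φ : X.C →ₗ[A] X.C)
    (S : (X.C →ₗ[A] E) →ₗ[k] (X.C →ₗ[A] E)) (hS : Ctr (post k X.C (i ∘ₗ p)) S) :
    LinearMap.trace k (X.C →ₗ[A] E) (S ∘ₗ pre k φ E) = 0 := by
  have hfC : Module.Finite k (X.C →ₗ[A] E) := finite_hom
  have hfQ : Module.Finite k (X.Q →ₗ[A] E) := finite_hom
  have hfP : Module.Finite k (X.P →ₗ[A] E) := finite_hom
  have hpi : ∀ b, p (i b) = 0 := fun b => by
    have h : i b ∈ LinearMap.ker p := hex ▸ LinearMap.mem_range_self i b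
    exact h
  have h0 : ∀ v, (i ∘ₗ p) ((i ∘ₗ p) v) = 0 := fun v => by
    change i (p (i (p v))) = 0
    rw [hpi, map_zero]
  -- a contraction of `E`
  obtain ⟨s, hs⟩ : ∃ s : E →ₗ[k] E, Ctr ((i ∘ₗ p).restrictScalars k) s := by
    refine exists_ctr _ (fun v => h0 v) (fun v hv => ?_)
    have h1 : v ∈ LinearMap.range i := by
      rw [hex, LinearMap.mem_ker]
      apply hi
      rw [map_zero]
      exact hv
    obtain ⟨b, rfl⟩ := h1
    obtain ⟨w, rfl⟩ := hp b
    exact ⟨w, rfl⟩
  obtain ⟨sQ, hsQ⟩ := exists_ctr_hom (k := k) X.Q i p hi hp hex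
  obtain ⟨sP, hsP⟩ := exists_ctr_hom (k := k) X.P i p hi hp hex
  obtain ⟨a, b, hab, hb⟩ := exists_lift_end X.f φ
  have hTE : Tb k e z E := (Ws.ses hC i p hi hp hex hβ hβ).1
  have hE0 : E0 X.f E := (E0_iff hC hX).2 ((hc E).2 hTE)
  have tQ := hst D hA (i ∘ₗ p) h0 s hs X.Q b sQ hsQ
  have tP := hst D hA (i ∘ₗ p) h0 s hs X.P a sP hsP
  have h00 : ∀ (R : Type) [AddCommGroup R] [Module A R] (v : R →ₗ[A] E),
      post k R (i ∘ₗ p) (post k R (i ∘ₗ p) v) = 0 := by
    intro R _ _ v
    exact LinearMap.ext fun y => h0 (v y)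
  have key := tr_ses (h00 X.Q) (h00 X.P) hS hsQ hsP
    (pre k (LinearMap.range X.f).mkQ E) (pre k X.f E) ?_ ?_ ?_ (fun v => rfl) (fun v => rfl)
    (pre k φ E) (pre k b E) (pre k a E) (fun v => rfl) (fun v => rfl) (fun v => rfl) ?_ ?_
  · rw [tQ, tP, add_zero] at key
    exact key.symm
  · intro g g' h
    refine LinearMap.ext fun y => ?_
    obtain ⟨y, rfl⟩ := Submodule.mkQ_surjective _ y
    exact LinearMap.congr_fun h y
  · intro g
    obtain ⟨ψ, hψ⟩ := hE0 g
    exact ⟨ψ, hψ.symm⟩
  · ext h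
    rw [LinearMap.mem_ker, LinearMap.mem_range]
    constructor
    · rintro ⟨g, rfl⟩
      change (g ∘ₗ (LinearMap.range X.f).mkQ) ∘ₗ X.f = 0
      rw [LinearMap.comp_assoc, mkQ_comp, LinearMap.comp_zero]
    · intro hh
      exact exists_bar h hh
  · intro g
    refine LinearMap.ext fun y => ?_
    change g (φ ((LinearMap.range X.f).mkQ y)) = g ((LinearMap.range X.f).mkQ (b y))
    rw [hb]
  · intro h
    refine LinearMap.ext fun x => ?_
    change h (b (X.f x)) = h (X.f (a x))
    rw [hab]

end aux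

omit [Module.Finite k A] in
/-- factoring through a surjection -/
private theorem nse_ind {B C R : Type} [AddCommGroup B] [Module A B] [AddCommGroup C] [Module A C]
    [AddCommGroup R] [Module A R] (π : C →ₗ[A] B) (hπ : Surjective π) (ψ : C →ₗ[A] R)
    (h : ∀ x, π x = 0 → ψ x = 0) : ∃ s : B →ₗ[A] R, ∀ x, s (π x) = ψ x := by
  have hk : LinearMap.ker π ≤ LinearMap.ker ψ := fun x hx => h x hx
  refine ⟨(LinearMap.ker π).liftQ ψ hk ∘ₗ
    (π.quotKerEquivOfSurjective hπ).symm.toLinearMap, fun x => ?_⟩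
  have h1 : (π.quotKerEquivOfSurjective hπ).symm (π x) = Submodule.Quotient.mk x := by
    rw [LinearEquiv.symm_apply_eq]
    rfl
  change (LinearMap.ker π).liftQ ψ hk ((π.quotKerEquivOfSurjective hπ).symm (π x)) = ψ x
  rw [h1]
  exact Submodule.liftQ_apply _ _ _

omit [Module.Finite k A] in
/-- a map with values in the range of an injection -/
private theorem nse_fac {B K R : Type} [AddCommGroup B] [Module A B] [AddCommGroup K] [Module A K]
    [AddCommGroup R] [Module A R] (i : B →ₗ[A] R) (hi : Injective i) (g : K →ₗ[A] R)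
    (h : ∀ x, g x ∈ LinearMap.range i) : ∃ ξ : K →ₗ[A] B, ∀ x, i (ξ x) = g x := by
  refine ⟨(LinearEquiv.ofInjective i hi).symm.toLinearMap ∘ₗ g.codRestrict (LinearMap.range i) h,
    fun x => ?_⟩
  have h1 := (LinearEquiv.ofInjective i hi).apply_symm_apply (g.codRestrict (LinearMap.range i) h x)
  exact congrArg Subtype.val h1

omit [Module.Finite k A] in
/-- a retraction gives a section -/
private theorem nse_sect {B E : Type} [AddCommGroup B] [Module A B] [AddCommGroup E] [Module A E]
    (i : B →ₗ[A] E) (p : E →ₗ[A] B) (hp : Surjective p)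
    (hex : LinearMap.range i = LinearMap.ker p) (r : E →ₗ[A] B) (hr : ∀ b, r (i b) = b) :
    ∃ s : B →ₗ[A] E, p ∘ₗ s = LinearMap.id := by
  have hpi : ∀ b, p (i b) = 0 := fun b => by
    have h1 : i b ∈ LinearMap.ker p := hex ▸ LinearMap.mem_range_self i b
    exact h1
  obtain ⟨s, hs⟩ := nse_ind p hp (LinearMap.id - i ∘ₗ r) (by
    intro x hx
    have h1 : x ∈ LinearMap.range i := by
      rw [hex]
      exact hx
    obtain ⟨b, rfl⟩ := h1
    change i b - i (r (i b)) = 0
    rw [hr, sub_self])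
  refine ⟨s, ?_⟩
  refine LinearMap.ext fun b => ?_
  obtain ⟨x, rfl⟩ := hp b
  change p (s (p x)) = p x
  rw [hs x]
  change p (x - i (r x)) = p x
  rw [map_sub, hpi, sub_zero]

theorem nse_of_radCom [IsAlgClosed k] {ι : Type} [Fintype ι] {t : ℕ} (D : Dat k A ι t)
    (hA : RadCom k A) (hC : Crd k e) (hR : RR k A) {z : Fin n → ℤ} {β : Type}
    [AddCommGroup β] [Module A β] [Module k β] [IsScalarTower k A β] [Module.Finite k β]
    (hβ : Sta k e z β) : NSE k A β := by
  intro E _ _ _ _ _ i p hi hp hex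
  by_contra hns
  have hpi : ∀ b, p (i b) = 0 := fun b => by
    have h1 : i b ∈ LinearMap.ker p := hex ▸ LinearMap.mem_range_self i b
    exact h1
  -- the presentation
  obtain ⟨N, hN⟩ := plus hC hR z
  obtain ⟨-, hc⟩ := hN N le_rfl
  obtain ⟨X, hX, -⟩ := exists_pr hC hR (N • z + 1)
  have hβw := hβ.ws hC
  have hE : Ws k e z E := Ws.ses hC i p hi hp hex hβw hβw
  have hTC : Tb k e z X.C := (hc X.C).1.1 (C_Tt hC hX)
  have hcc : ∀ (M : Type) [AddCommGroup M] [Module A M] [Module k M] [IsScalarTower k A M]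
      [Module.Finite k M], Tb k e (N • z + 1) M ↔ Tb k e z M := fun M => (hc M).2.1
  -- lifting
  have hkp : Tb k e z (LinearMap.ker p) := by
    have _ := finite_sub (k := k) (LinearMap.ker p)
    refine Tb.of_surj hC hβw.1
      ((LinearEquiv.ofEq _ _ hex).toLinearMap ∘ₗ i.rangeRestrict) ?_
    exact (LinearEquiv.ofEq _ _ hex).surjective.comp i.surjective_rangeRestrict
  have hlp : ∀ g : X.C →ₗ[A] β, ∃ φ : X.C →ₗ[A] E, p ∘ₗ φ = g := by
    intro g
    have _ := finite_sub (k := k) (LinearMap.ker p)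
    exact lift X p hp ((E0_iff hC hX).2 ((hcc _).2 hkp)) g
  -- a basis of the maps to `β`
  have hfV : Module.Finite k (X.C →ₗ[A] β) := finite_hom (k := k) (A := A) (P := X.C) (X := β)
  have hfE : Module.Finite k (X.C →ₗ[A] E) := finite_hom (k := k) (A := A) (P := X.C) (X := E)
  have hβn : Nontrivial β := hβ.1
  have hpos : 0 < vd k e (N • z + 1) β := by
    rw [vd_add, vd_nsmul, hβ.2.1, mul_zero, zero_add]
    exact vd_one_pos β hC
  obtain ⟨g0, hg0⟩ := exists_hom hX hpos
  have hVn : Nontrivial (X.C →ₗ[A] β) := ⟨⟨g0, 0, hg0⟩⟩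
  obtain ⟨m, b, hm⟩ : ∃ (m : ℕ) (_ : Module.Basis (Fin m) k (X.C →ₗ[A] β)), 0 < m :=
    ⟨_, Module.finBasis k (X.C →ₗ[A] β), Module.finrank_pos⟩
  let j0 : Fin m := ⟨0, hm⟩
  choose g hg using fun j => hlp (b j)
  -- the map to the power of `E` is onto
  have hus : Surjective (LinearMap.pi (fun j => b j) : X.C →ₗ[A] (Fin m → β)) :=
    indep_surj hC hβ hTC (fun j => b j) b.linearIndependent
  let Pm : X.C →ₗ[A] (Fin m → E) := LinearMap.pi g
  have hEm : Ws k e z (Fin m → E) := Ws.pi hC hE m
  have hPm : Surjective Pm := by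
    rw [← LinearMap.range_eq_top]
    by_contra hI
    have h1 := range_val hC hTC hEm.2 Pm
    have h2 := Ws.quot hC hEm (LinearMap.range Pm) h1
    have hfQ := finite_quot (k := k) (LinearMap.range Pm)
    have h3 : Nontrivial ((Fin m → E) ⧸ LinearMap.range Pm) :=
      Submodule.Quotient.nontrivial_iff.2 hI
    obtain ⟨U, -, hU2, -⟩ := Ws.exists_quot hC h2
    have hfL := finite_quot (k := k) U
    let h : (Fin m → E) →ₗ[A] (((Fin m → E) ⧸ LinearMap.range Pm) ⧸ U) :=
      U.mkQ ∘ₗ (LinearMap.range Pm).mkQ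
    have hs : Surjective h := U.mkQ_surjective.comp (LinearMap.range Pm).mkQ_surjective
    have hPm0 : ∀ c, h (Pm c) = 0 := by
      intro c
      change U.mkQ ((LinearMap.range Pm).mkQ (Pm c)) = 0
      have h4 : (LinearMap.range Pm).mkQ (Pm c) = 0 :=
        (Submodule.Quotient.mk_eq_zero _).2 (LinearMap.mem_range_self Pm c)
      rw [h4, map_zero]
    by_cases hall : ∀ j : Fin m, h ∘ₗ LinearMap.single A (fun _ => E) j ∘ₗ i = 0
    · have h5 : ∀ w, h w = 0 := by
        intro w
        obtain ⟨c, hcw⟩ := hus (fun j => p (w j))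
        have h6 : ∀ j, w j - g j c ∈ LinearMap.range i := by
          intro j
          rw [hex, LinearMap.mem_ker, map_sub]
          have h7 : p (g j c) = b j c := LinearMap.congr_fun (hg j) c
          have h8 : b j c = p (w j) := congrFun hcw j
          rw [h7, h8, sub_self]
        choose v hv using h6
        have h7 : w = Pm c + ∑ j, LinearMap.single A (fun _ => E) j (i (v j)) := by
          funext l
          rw [Pi.add_apply, Finset.sum_apply]
          have h8 : ∑ j, (LinearMap.single A (fun _ => E) j (i (v j)) : Fin m → E) l = i (v l) := by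
            rw [Finset.sum_eq_single l]
            · rw [LinearMap.coe_single, Pi.single_eq_same]
            · intro j _ hj
              rw [LinearMap.coe_single, Pi.single_eq_of_ne (Ne.symm hj)]
            · intro hl
              exact absurd (Finset.mem_univ l) hl
          rw [h8, hv l]
          change w l = g l c + (w l - g l c)
          abel
        rw [h7, map_add, hPm0, zero_add, map_sum]
        refine Finset.sum_eq_zero fun j _ => ?_
        exact LinearMap.congr_fun (hall j) (v j)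
      obtain ⟨x, y, hxy⟩ := hU2.1
      obtain ⟨x', rfl⟩ := hs x
      obtain ⟨y', rfl⟩ := hs y
      exact hxy (by rw [h5, h5])
    · push Not at hall
      obtain ⟨j, hj⟩ := hall
      have hbij := Sta.bij hC hβ hU2 _ hj
      let θ := LinearEquiv.ofBijective _ hbij
      refine hns (nse_sect i p hp hex
        (θ.symm.toLinearMap ∘ₗ h ∘ₗ LinearMap.single A (fun _ => E) j) fun x => ?_)
      change θ.symm (h (LinearMap.single A (fun _ => E) j (i x))) = x
      rw [LinearEquiv.symm_apply_eq]
      rfl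
  -- the endomorphism
  have hfK := finite_sub (k := k) (LinearMap.ker Pm)
  have hkPm := ker_Tb hC hTC hEm.2 Pm
  obtain ⟨φ, hφ⟩ := lift X Pm hPm ((E0_iff hC hX).2 ((hcc _).2 hkPm))
    (LinearMap.single A (fun _ => E) j0 ∘ₗ (i ∘ₗ p) ∘ₗ g j0)
  have hφ0 : ∀ c, g j0 (φ c) = i (p (g j0 c)) := by
    intro c
    have h1 := congrFun (LinearMap.congr_fun hφ c) j0
    change g j0 (φ c) = (LinearMap.single A (fun _ => E) j0 (i (p (g j0 c))) : Fin m → E) j0 at h1
    rw [h1, LinearMap.coe_single, Pi.single_eq_same]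
  have hφ1 : ∀ j, j ≠ j0 → ∀ c, g j (φ c) = 0 := by
    intro j hj c
    have h1 := congrFun (LinearMap.congr_fun hφ c) j
    change g j (φ c) = (LinearMap.single A (fun _ => E) j0 (i (p (g j0 c))) : Fin m → E) j at h1
    rw [h1, LinearMap.coe_single, Pi.single_eq_of_ne hj]
  -- the functional
  let lam : (X.C →ₗ[A] E) →ₗ[k] k := b.coord j0 ∘ₗ post k X.C p
  have hexp : ∀ u : X.C →ₗ[A] β, ∀ c, u c = ∑ j, b.repr u j • b j c := by
    intro u c
    have h1 := b.sum_repr u
    have h2 := LinearMap.congr_fun h1 c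
    rw [← h2, LinearMap.sum_apply]
    rfl
  have hgexp : ∀ (u : X.C →ₗ[A] β) (c : X.C), p (∑ j, b.repr u j • g j c) = u c := by
    intro u c
    rw [map_sum, hexp u c]
    refine Finset.sum_congr rfl fun j _ => ?_
    have h1 : p (g j c) = b j c := LinearMap.congr_fun (hg j) c
    rw [← algebraMap_smul A (b.repr u j) (g j c), map_smul, algebraMap_smul, h1]
  have hsum0 : ∀ (l : Fin m → k) (c : X.C), ∑ j, l j • g j (φ c) = l j0 • i (p (g j0 c)) := by
    intro l c
    rw [Finset.sum_eq_single j0]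
    · rw [hφ0]
    · intro j _ hj
      rw [hφ1 j hj, smul_zero]
    · intro hl
      exact absurd (Finset.mem_univ j0) hl
  have hpre : pre k φ E = lam.smulRight ((i ∘ₗ p) ∘ₗ g j0) := by
    refine LinearMap.ext fun h => ?_
    refine LinearMap.ext fun c => ?_
    have e1 : lam h = b.repr (p ∘ₗ h) j0 := rfl
    change h (φ c) = lam h • i (p (g j0 c))
    obtain ⟨h', hh'⟩ := nse_fac i hi (h - ∑ j, b.repr (p ∘ₗ h) j • g j) (by
      intro x
      rw [hex, LinearMap.mem_ker, LinearMap.sub_apply, map_sub, LinearMap.sum_apply]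
      have h1 := hgexp (p ∘ₗ h) x
      change p (h x) - p (∑ j, b.repr (p ∘ₗ h) j • g j x) = 0
      rw [h1]
      exact sub_self _)
    have h2 := hh' (φ c)
    rw [LinearMap.sub_apply, LinearMap.sum_apply] at h2
    have h3 : h (φ c) = i (h' (φ c)) + ∑ j, b.repr (p ∘ₗ h) j • g j (φ c) := by
      rw [h2]
      change h (φ c) = h (φ c) - ∑ j, b.repr (p ∘ₗ h) j • g j (φ c) + _
      abel
    have h4 : i (h' (φ c)) = 0 := by
      rw [← hgexp h' (φ c), hsum0]
      have h5 : p ((b.repr h') j0 • i (p (g j0 c))) = 0 := by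
        rw [← algebraMap_smul A ((b.repr h') j0) (i (p (g j0 c))), map_smul, hpi, smul_zero]
      rw [h5, map_zero]
    rw [h3, h4, zero_add, hsum0, e1]
  -- the contraction
  obtain ⟨S, hS⟩ := exists_ctr (post k X.C (i ∘ₗ p)) (by
    intro v
    refine LinearMap.ext fun c => ?_
    change i (p (i (p (v c)))) = 0
    rw [hpi, map_zero]) (by
    intro v hv
    have h1 : ∀ c, p (v c) = 0 := by
      intro c
      have h2 : i (p (v c)) = 0 := LinearMap.congr_fun hv c
      exact hi (by rw [h2, map_zero])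
    obtain ⟨v', hv'⟩ := nse_fac i hi v (fun x => by
      rw [hex, LinearMap.mem_ker]
      exact h1 x)
    obtain ⟨w, hw⟩ := hlp v'
    refine ⟨w, LinearMap.ext fun c => ?_⟩
    change i (p (w c)) = v c
    have h2 : p (w c) = v' c := LinearMap.congr_fun hw c
    rw [h2, hv'])
  have htr := hom_trace D hA hC hX hcc hβw i p hi hp hex φ S hS
  have hlam0 : ∀ v : X.C →ₗ[A] E, lam ((i ∘ₗ p) ∘ₗ v) = 0 := by
    intro v
    have h1 : post k X.C p ((i ∘ₗ p) ∘ₗ v) = 0 := by
      refine LinearMap.ext fun c => ?_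
      change p (i (p (v c))) = 0
      rw [hpi]
    change b.coord j0 (post k X.C p ((i ∘ₗ p) ∘ₗ v)) = 0
    rw [h1, map_zero]
  have hlam1 : lam (g j0) = 1 := by
    have h1 : post k X.C p (g j0) = b j0 := hg j0
    change b.coord j0 (post k X.C p (g j0)) = 1
    rw [h1, Module.Basis.coord_apply, Module.Basis.repr_self, Finsupp.single_eq_same]
  have hcomp : S ∘ₗ pre k φ E = lam.smulRight (S ((i ∘ₗ p) ∘ₗ g j0)) := by
    rw [hpre]
    refine LinearMap.ext fun h => ?_
    change S (lam h • ((i ∘ₗ p) ∘ₗ g j0)) = lam h • S ((i ∘ₗ p) ∘ₗ g j0)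
    rw [map_smul]
  rw [hcomp, LinearMap.trace_smulRight] at htr
  have hfin : S ((i ∘ₗ p) ∘ₗ g j0) = g j0 - (i ∘ₗ p) ∘ₗ (S (g j0)) := by
    have h1 := hS (g j0)
    rw [eq_sub_iff_add_eq']
    exact h1
  rw [hfin, map_sub, hlam0, sub_zero, hlam1] at htr
  exact one_ne_zero htr

end BT3
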