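import Mathlib
import Pool.Agent.BT3.Asm
import Pool.Agent.BT3.Nse
import Pool.Agent.BT3.Brk
import Pool.Agent.Helper16.BT.Quot

/-!
BT3.Fin: the final statements.
-/

namespace BT3

open Module Function BT

section crd

variable {k : Type} [Field k] {B : Type} [Ring B] [Algebra k B] [Module.Finite k B]
  {ι : Type} [Fintype ι] {s : ℕ}

/-- coordinates from the idempotent data, when exactly three classes are nonzero -/
theorem crd_of_dat (D : Dat k B ι s) (t : Fin 3 → Fin s) (ht : Injective t)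
    (h1 : ∀ i, D.e (D.r (t i)) ≠ 0) (h2 : ∀ u, (∀ i, u ≠ t i) → D.e (D.r u) = 0) :
    Crd k (fun i => D.e (D.r (t i))) where
  idem i := D.he.idem _
  zero M _ _ _ _ _ h := D.subsingleton M (fun u => by
    by_cases hu : ∃ i, u = t i
    · obtain ⟨i, rfl⟩ := hu
      exact h i
    · push Not at hu
      rw [h2 u hu]
      exact ed_zero_elt M)
  wt P Q _ _ _ _ _ _ _ _ _ _ _ _ := by
    classical
    obtain ⟨z, hz⟩ := D.weight' P Q
    refine ⟨fun i => z (t i), fun M _ _ _ _ _ => ?_⟩
    rw [hz M]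
    unfold vd
    have h3 : ∑ u, z u * (ed k (D.e (D.r u)) M : ℤ) =
        ∑ u ∈ Finset.univ.image t, z u * (ed k (D.e (D.r u)) M : ℤ) := by
      symm
      refine Finset.sum_subset (Finset.subset_univ _) ?_
      intro u _ hu
      have hu' : ∀ i, u ≠ t i := by
        intro i hi
        apply hu
        rw [hi]
        exact Finset.mem_image_of_mem t (Finset.mem_univ i)
      rw [h2 u hu', ed_zero_elt]
      simp
    rw [h3, Finset.sum_image (fun i _ j _ hij => ht hij)]
  simple i := by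
    obtain ⟨S, hS, x, hx⟩ := D.exists_simple (t i) (h1 i)
    refine ⟨S, fun j => ?_⟩
    by_cases hji : j = i
    · subst hji
      rw [if_pos rfl, D.ed_one hx]
    · rw [if_neg hji]
      apply D.ed_zero
      intro y
      by_contra hy
      exact hji (ht (D.class_unique hy hx))

end crd

/-- at most three classes -/
theorem no_four {k : Type} [Field k] {B : Type} [Ring B] [Algebra k B] [Module.Finite k B]
    {ι : Type} [Fintype ι] {s : ℕ} (D : Dat k B ι s)
    (h : ∀ (S : Fin 4 → Type) [∀ i, AddCommGroup (S i)] [∀ i, Module B (S i)],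
      (∀ i, IsSimpleModule B (S i)) → ∃ i j, i ≠ j ∧ Nonempty (S i ≃ₗ[B] S j))
    (t : Fin 4 → Fin s) (ht : Injective t) (he : ∀ i, D.e (D.r (t i)) ≠ 0) : False := by
  choose S hS x hx using fun i => D.exists_simple (t i) (he i)
  obtain ⟨i, j, hij, ⟨g⟩⟩ := h (fun i => (S i).X) hS
  have hi := hS i
  have hj := hS j
  have h1 : D.e (D.r (t i)) • g (x i) ≠ 0 := by
    rw [← map_smul]
    intro h
    exact hx i ((map_eq_zero_iff g g.injective).mp h)
  exact hij (ht (D.class_unique h1 (hx j)))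

/-- a stable module with a nonsplit self-extension gives `SelfExt` -/
theorem selfExt_of {k : Type} [Field k] {B : Type} [Ring B] [Algebra k B] [Module.Finite k B]
    {ι : Type} [Fintype ι] {s : ℕ} (D : Dat k B ι s) (t : Fin 3 → Fin s) (z : Fin 3 → ℤ)
    (β : Type) [AddCommGroup β] [Module B β] [Module k β] [IsScalarTower k B β]
    [Module.Finite k β] (hβ : Sta k (fun i => D.e (D.r (t i))) z β) (hn : ¬ NSE k B β) :
    SelfExt k B := by
  classical
  unfold NSE at hn
  push Not at hn
  obtain ⟨X, _, _, _, _, _, i, p, hi, hp, hex, hs⟩ := hn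
  let F := Fintype.equivFin ι
  let θ' : ι → ℤ := fun j => - ∑ i, if D.r (t i) = j then z i else 0
  have hθ : ∀ (M : Type) [AddCommGroup M] [Module B M] [Module k M] [IsScalarTower k B M],
      ∑ j, (θ' ∘ F.symm) j * (ed k ((D.e ∘ F.symm) j) M : ℤ) =
        - vd k (fun i => D.e (D.r (t i))) z M := by
    intro M _ _ _ _
    have h1 := Equiv.sum_comp F.symm (fun j => θ' j * (ed k (D.e j) M : ℤ))
    change ∑ j, θ' (F.symm j) * (ed k (D.e (F.symm j)) M : ℤ) = _
    rw [h1]
    unfold vd
    simp only [θ', neg_mul, Finset.sum_neg_distrib, Finset.sum_mul, neg_inj]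
    rw [Finset.sum_comm]
    refine Finset.sum_congr rfl (fun i _ => ?_)
    rw [Finset.sum_eq_single (D.r (t i))]
    · rw [if_pos rfl]
    · intro j _ hj
      rw [if_neg hj.symm, zero_mul]
    · intro h
      exact absurd (Finset.mem_univ _) h
  refine ⟨_, D.e ∘ F.symm, θ' ∘ F.symm, ⟨β⟩, ⟨X⟩, i, p,
    (CompleteOrthogonalIdempotents.equiv F.symm).mpr D.he, hβ.1, ?_, ?_, hi, hp, hex, ?_⟩
  · have h1 := hθ β
    rw [hβ.2.1, neg_zero] at h1
    exact h1
  · intro U hU hU'
    have h1 := hθ U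
    have h2 := hβ.2.2 U hU hU'
    have h3 : ∑ j, (θ' ∘ F.symm) j * (finrank k (Submodule.map
        (DistribMulAction.toLinearMap k β ((D.e ∘ F.symm) j)) (U.restrictScalars k)) : ℤ) =
        ∑ j, (θ' ∘ F.symm) j * (ed k ((D.e ∘ F.symm) j) U : ℤ) := by
      refine Finset.sum_congr rfl (fun j _ => ?_)
      rw [ed_sub]
    have h4 := h3.trans h1
    have h5 : (0 : ℤ) < - vd k (fun i => D.e (D.r (t i))) z U := by
      exact neg_pos.mpr h2
    rw [← h4] at h5
    exact h5
  · rintro ⟨σ, hσ⟩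
    exact hs σ hσ

/-- the main theorem -/
theorem main (k : Type) [Field k] [IsAlgClosed k] (A : Type) [Ring A] [Algebra k A]
    [Module.Finite k A] (B : Type) [Ring B] [Algebra k B] (π : A →ₐ[k] B) (hπ : Surjective π)
    (h4 : ∀ (S : Fin 4 → Type) [∀ i, AddCommGroup (S i)] [∀ i, Module B (S i)],
      (∀ i, IsSimpleModule B (S i)) → ∃ i j, i ≠ j ∧ Nonempty (S i ≃ₗ[B] S j))
    (hbr : ∀ N : ℕ, ∃ (M : Fin N → Type) (_ : ∀ i, AddCommGroup (M i)) (_ : ∀ i, Module B (M i))
          (_ : ∀ i, Module k (M i)) (_ : ∀ i, IsScalarTower k B (M i)),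
          (∀ i, Module.Finite k (M i)) ∧ (∀ i, Nontrivial (M i)) ∧
          (∀ i, ∀ f : M i →ₗ[B] M i, ∃ c : k, ∀ x : M i, f x = c • x) ∧
          (∀ i j, Nonempty (M i ≃ₗ[B] M j) → i = j)) :
    HasStableFamily k A ∨ (SelfExt k B ∧ ¬ RadCom k B) := by
  classical
  have hfB : Module.Finite k B := Module.Finite.of_surjective π.toLinearMap hπ
  obtain ⟨s, d, ⟨D⟩⟩ := exists_dat k A
  let E := Fintype.equivFin (Σ t : Fin s, Fin (d t))
  by_contra hcon'
  rw [not_or] at hcon'
  obtain ⟨hcon, hcon2⟩ := hcon'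
  obtain ⟨D', hD'e, hD'r⟩ := D.exists_map π hπ
  have he : CompleteOrthogonalIdempotents (D.e ∘ E.symm) :=
    (CompleteOrthogonalIdempotents.equiv E.symm).mpr D.he
  have he' : CompleteOrthogonalIdempotents (π ∘ (D.e ∘ E.symm)) := by
    have := (CompleteOrthogonalIdempotents.equiv E.symm).mpr D'.he
    rw [hD'e] at this
    exact this
  have hSA : ¬ SF k A (D.e ∘ E.symm) := by
    rintro ⟨d, θ, h0, h1⟩
    exact hcon ⟨_, D.e ∘ E.symm, d, θ, he, h0, h1⟩
  have hSB : ¬ SF k B (π ∘ (D.e ∘ E.symm)) := fun h => hSA (SF.of_quot π hπ h)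
  have hwB : HasWt k B (π ∘ (D.e ∘ E.symm)) := by
    intro P Q _ _ _ _ _ _ _ _ _ _ _ _
    obtain ⟨w, hw⟩ := D'.weight P Q
    refine ⟨w ∘ E.symm, ?_⟩
    intro X _ _ _ _ _
    rw [hw X, hD'e]
    exact (Equiv.sum_comp E.symm (fun i => w i * (ed k ((π ∘ D.e) i) X : ℤ))).symm
  have _ : Infinite k := IsAlgClosed.instInfinite
  have hR := exists_rigid_rel k B _ he' hwB hSB
  have hfinal : ∃ N, Bd (fun _ : FM k B => True) N := by
    by_cases h3 : ∃ t : Fin 3 → Fin s, Injective t ∧ ∀ i, D'.e (D'.r (t i)) ≠ 0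
    · obtain ⟨t, ht, hne⟩ := h3
      have h2 : ∀ u, (∀ i, u ≠ t i) → D'.e (D'.r u) = 0 := by
        intro u hu
        by_contra hu0
        refine no_four D' h4 (Fin.cons u t) ?_ ?_
        · rw [Fin.cons_injective_iff]
          refine ⟨?_, ht⟩
          rintro ⟨i, hi⟩
          exact hu i hi.symm
        · intro i
          refine Fin.cases ?_ ?_ i
          · exact hu0
          · intro j
            exact hne j
      have hC := crd_of_dat D' t ht hne h2
      have hN : ∀ (z : Fin 3 → ℤ) (β : Type) [AddCommGroup β] [Module B β] [Module k β]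
          [IsScalarTower k B β] [Module.Finite k β],
          Sta k (fun i => D'.e (D'.r (t i))) z β → NSE k B β := by
        intro z β _ _ _ _ _ hβ
        by_contra hn
        have h5 := selfExt_of D' t z β hβ hn
        by_cases hr : RadCom k B
        · exact hn (nse_of_radCom D' hr hC hR hβ)
        · exact hcon2 ⟨h5, hr⟩
      exact bricks_fin hC hR (ind_finite hC hR hN)
    · refine bricks_le_two hR D' (fun t1 t2 t3 h12 h13 h23 e1 e2 e3 => h3 ⟨![t1, t2, t3], ?_, ?_⟩)
      · intro i j hij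
        fin_cases i <;> fin_cases j
        · rfl
        · exact absurd hij h12
        · exact absurd hij h13
        · exact absurd hij.symm h12
        · rfl
        · exact absurd hij h23
        · exact absurd hij.symm h13
        · exact absurd hij.symm h23
        · rfl
      · intro i
        fin_cases i
        · exact e1
        · exact e2
        · exact e3
  obtain ⟨N, hN⟩ := hfinal
  obtain ⟨M, i1, i2, i3, i4, f1, f2, f3, f4⟩ := hbr (N + 1)
  have h := hN (Fin (N + 1)) (fun i => ⟨M i⟩) (fun i => ⟨f2 i, fun φ hφ => by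
    obtain ⟨c, hc⟩ := f3 i φ
    have hc0 : c ≠ 0 := by
      intro h0
      apply hφ
      ext x
      rw [hc, h0, zero_smul]
      rfl
    intro x y hxy
    rw [hc, hc] at hxy
    have h4 : c⁻¹ • (c • x) = c⁻¹ • (c • y) := congrArg (fun z => c⁻¹ • z) hxy
    rwa [smul_smul, smul_smul, inv_mul_cancel₀ hc0, one_smul, one_smul] at h4⟩)
    (fun _ => trivial) f4
  simp at h

end BT3
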