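import Mathlib

/-!
BT3, pure part A. The interface `PF`: a length function `L` (number of indecomposable summands of the
rigid presentation with a given weight), the symmetrised `E`-invariant and the faces of the fan.
First consequences; local convexity (`Good`) implies subadditivity along the descent of `E`.
-/

namespace BT3

open Finset

variable {n : ℕ}

/-- local convexity of `L` at `z` -/
def Good (L : (Fin n → ℤ) → ℕ) (E : (Fin n → ℤ) → (Fin n → ℤ) → ℕ) (z : Fin n → ℤ) : Prop :=
  ∀ (w : Fin n → ℤ) (k : ℕ), E z (k • z + w) = 0 → E z (k • z - w) = 0 →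
    2 * k * L z ≤ L (k • z + w) + L (k • z - w)

/-- Interface. `L x` = number of indecomposable summands of the rigid presentation of weight `x`,
`E x y = e(x, y) + e(y, x)`, `Face F`: the elements of `F` are the weights of pairwise
non-isomorphic, pairwise compatible indecomposable rigid presentations. -/
structure PF (n : ℕ) (L : (Fin n → ℤ) → ℕ) (E : (Fin n → ℤ) → (Fin n → ℤ) → ℕ)
    (Face : Finset (Fin n → ℤ) → Prop) : Prop where
  /-- the zero weight -/
  L_zero : L 0 = 0
  L_pos : ∀ x, L x = 0 → x = 0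
  L_unit : ∃ C : ℕ, ∀ i, L (Pi.single i 1) ≤ C ∧ L (-Pi.single i 1) ≤ C
  E_symm : ∀ x y, E x y = E y x
  E_self : ∀ x, E x x = 0
  /-- convexity of `E z` -/
  E_add : ∀ z x y, E z x = 0 → E z y = 0 → E z (x + y) = 0
  /-- additivity on the direct sum over a face -/
  E_face : ∀ F, Face F → ∀ (c : (Fin n → ℤ) → ℕ) (y : Fin n → ℤ),
    E (∑ v ∈ F, c v • v) y = ∑ v ∈ F, c v * E v y
  /-- the descent -/
  E_desc : ∀ x y, 0 < E x y → E x (x + y) < E x y
  L_add : ∀ x y, E x y = 0 → L (x + y) = L x + L y
  face_sub : ∀ F F', Face F → F' ⊆ F → Face F'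
  face_E : ∀ F, Face F → ∀ v ∈ F, ∀ u ∈ F, E v u = 0
  face_L : ∀ F, Face F → ∀ v ∈ F, L v = 1
  /-- decomposition of a weight compatible with a face (for the empty face: of any weight) -/
  face_dec : Face ∅ ∧ ∀ F, Face F → ∀ y, (∀ v ∈ F, E v y = 0) → ∃ F', Face F' ∧ F ⊆ F' ∧
    ∃ c : (Fin n → ℤ) → ℕ, y = ∑ v ∈ F', c v • v
  /-- every face is contained in a basis -/
  face_max : ∀ F, Face F → ∃ F', Face F' ∧ F ⊆ F' ∧ F'.card = n ∧
    LinearIndependent ℤ (fun v : F' => (v : Fin n → ℤ)) ∧
    ⊤ ≤ Submodule.span ℤ (Set.range (fun v : F' => (v : Fin n → ℤ)))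
  /-- the wall relations: `p + q = ∑ b v • v` with `∑ b v ≤ 2` -/
  wall : ∀ F, Face F → F.card + 1 = n → ∃ (p q : Fin n → ℤ) (b : (Fin n → ℤ) → ℤ),
    p ∉ F ∧ q ∉ F ∧ Face (insert p F) ∧ Face (insert q F) ∧
      p + q = ∑ v ∈ F, b v • v ∧ ∑ v ∈ F, b v ≤ 2

variable {L : (Fin n → ℤ) → ℕ} {E : (Fin n → ℤ) → (Fin n → ℤ) → ℕ}
  {Face : Finset (Fin n → ℤ) → Prop}

namespace PF

variable (h : PF n L E Face)

include h

/-- every weight is a sum over a face with positive coefficients -/
theorem exists_face (x : Fin n → ℤ) : ∃ F, Face F ∧ ∃ c : (Fin n → ℤ) → ℕ, (∀ v ∈ F, 1 ≤ c v) ∧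
    x = ∑ v ∈ F, c v • v := by
  classical
  obtain ⟨F, hF, -, c, hc⟩ := h.face_dec.2 ∅ h.face_dec.1 x (by simp)
  refine ⟨F.filter (fun v => 1 ≤ c v), h.face_sub _ _ hF (filter_subset _ _), c, ?_, ?_⟩
  · intro v hv
    exact (mem_filter.1 hv).2
  · rw [hc]
    symm
    refine Finset.sum_filter_of_ne ?_
    intro v _ hv
    by_contra hcon
    apply hv
    have : c v = 0 := by omega
    rw [this, zero_smul]

theorem E_nsmul (m : ℕ) (x y : Fin n → ℤ) : E (m • x) y = m * E x y := by
  obtain ⟨F, hF, c, -, hx⟩ := h.exists_face x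
  have h1 : m • x = ∑ v ∈ F, (m * c v) • v := by
    rw [hx, Finset.smul_sum]
    exact Finset.sum_congr rfl fun v _ => (mul_smul m (c v) v).symm
  rw [h1, h.E_face F hF (fun v => m * c v) y, hx, h.E_face F hF c y, Finset.mul_sum]
  exact Finset.sum_congr rfl fun v _ => mul_assoc _ _ _

theorem E_nsmul' (m : ℕ) (x y : Fin n → ℤ) : E x (m • y) = m * E x y := by
  rw [h.E_symm, h.E_nsmul, h.E_symm]

theorem E_zero (y : Fin n → ℤ) : E 0 y = 0 := by
  have := h.E_nsmul 0 0 y
  rwa [zero_smul, zero_mul] at this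

theorem L_nsmul (m : ℕ) (x : Fin n → ℤ) : L (m • x) = m * L x := by
  induction m with
  | zero => rw [zero_smul, zero_mul, h.L_zero]
  | succ m ih =>
    rw [succ_nsmul, h.L_add _ _ (by rw [h.E_nsmul, h.E_self, mul_zero]), ih]
    ring

theorem E_sum {z : Fin n → ℤ} (F : Finset (Fin n → ℤ)) (c : (Fin n → ℤ) → ℕ)
    (hz : ∀ v ∈ F, E z v = 0) : E z (∑ v ∈ F, c v • v) = 0 := by
  classical
  induction F using Finset.induction_on with
  | empty =>
    rw [Finset.sum_empty, h.E_symm, h.E_zero]
  | insert a F ha ih =>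
    rw [Finset.sum_insert ha]
    refine h.E_add _ _ _ ?_ (ih fun v hv => hz v (mem_insert_of_mem hv))
    rw [h.E_nsmul', hz a (mem_insert_self a F), mul_zero]

/-- `L` on the cone over a face -/
theorem L_sum {F : Finset (Fin n → ℤ)} (hF : Face F) (c : (Fin n → ℤ) → ℕ) :
    L (∑ v ∈ F, c v • v) = ∑ v ∈ F, c v := by
  classical
  have key : ∀ F' ⊆ F, L (∑ v ∈ F', c v • v) = ∑ v ∈ F', c v := by
    intro F'
    induction F' using Finset.induction_on with
    | empty =>
      intro _
      rw [Finset.sum_empty, Finset.sum_empty, h.L_zero]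
    | insert a F' ha ih =>
      intro hsub
      have haF : a ∈ F := hsub (mem_insert_self a F')
      have hsub' : F' ⊆ F := fun v hv => hsub (mem_insert_of_mem hv)
      rw [Finset.sum_insert ha, Finset.sum_insert ha, h.L_add, ih hsub', h.L_nsmul,
        h.face_L F hF a haF, mul_one]
      refine h.E_sum F' c fun v hv => ?_
      rw [h.E_nsmul, h.face_E F hF a haF v (hsub' hv), mul_zero]
  exact key F (Finset.Subset.refl F)

/-- The value of `L` from coefficients with respect to a larger face. -/
theorem L_of_coef {F F' : Finset (Fin n → ℤ)} (hF' : Face F') (hsub : F ⊆ F')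
    {c : (Fin n → ℤ) → ℕ} (hc : ∀ v ∈ F, 1 ≤ c v) {x : Fin n → ℤ}
    (hx : E (∑ v ∈ F, c v • v) x = 0) {a : ℕ} {d : (Fin n → ℤ) → ℤ}
    (hax : a • x = ∑ v ∈ F', d v • v) (hd : ∀ v ∈ F', v ∉ F → 0 ≤ d v) :
    (a : ℤ) * L x = ∑ v ∈ F', d v := by
  classical
  obtain ⟨M, hM⟩ : ∃ M : ℕ, ∀ v ∈ F', -(M : ℤ) ≤ d v := by
    refine ⟨∑ v ∈ F', (d v).natAbs, ?_⟩
    intro v hv
    have h1 : (d v).natAbs ≤ ∑ v ∈ F', (d v).natAbs :=
      Finset.single_le_sum (f := fun v => (d v).natAbs) (fun _ _ => Nat.zero_le _) hv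
    omega
  obtain ⟨c', hc'⟩ : ∃ c' : (Fin n → ℤ) → ℕ, c' = fun v => if v ∈ F then c v else 0 := ⟨_, rfl⟩
  have hz' : ∑ v ∈ F', c' v • v = ∑ v ∈ F, c v • v := by
    rw [← Finset.sum_subset hsub (f := fun v => c' v • v)]
    · refine Finset.sum_congr rfl fun v hv => ?_
      rw [hc']
      simp only
      rw [if_pos hv]
    · intro v _ hv
      rw [hc']
      simp only
      rw [if_neg hv, zero_smul]
  obtain ⟨e, he⟩ : ∃ e : (Fin n → ℤ) → ℕ, e = fun v => ((M : ℤ) * c' v + d v).toNat := ⟨_, rfl⟩
  have he2 : ∀ v ∈ F', (e v : ℤ) = M * c' v + d v := by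
    intro v hv
    rw [he]
    simp only
    rw [Int.toNat_of_nonneg]
    by_cases hvF : v ∈ F
    · have h1 := hM v hv
      have h2 := hc v hvF
      have h3 : c' v = c v := by
        rw [hc']
        simp only
        rw [if_pos hvF]
      rw [h3]
      have h4 : (M : ℤ) * 1 ≤ M * c v := mul_le_mul_of_nonneg_left (by exact_mod_cast h2)
        (Int.natCast_nonneg M)
      linarith
    · have h1 := hd v hv hvF
      positivity
  have h5 : M • (∑ v ∈ F, c v • v) + a • x = ∑ v ∈ F', e v • v := by
    rw [hax, ← hz', Finset.smul_sum, ← Finset.sum_add_distrib]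
    refine Finset.sum_congr rfl fun v hv => ?_
    rw [← natCast_zsmul v (e v), he2 v hv, add_smul, mul_smul, natCast_zsmul, natCast_zsmul]
  have h6 : L (M • (∑ v ∈ F, c v • v) + a • x) = M * (∑ v ∈ F, c v) + a * L x := by
    rw [h.L_add, h.L_nsmul, h.L_nsmul, h.L_sum (h.face_sub _ _ hF' hsub)]
    rw [h.E_nsmul, h.E_nsmul', hx, mul_zero, mul_zero]
  rw [h5, h.L_sum hF'] at h6
  have h7 : ((∑ v ∈ F', e v : ℕ) : ℤ) = ((M * (∑ v ∈ F, c v) + a * L x : ℕ) : ℤ) := by rw [h6]
  push_cast at h7
  rw [Finset.sum_congr rfl he2, Finset.sum_add_distrib, ← Finset.mul_sum] at h7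
  have h8 : ∑ v ∈ F', (c' v : ℤ) = ∑ v ∈ F, (c v : ℤ) := by
    rw [← Finset.sum_subset hsub (f := fun v => (c' v : ℤ))]
    · refine Finset.sum_congr rfl fun v hv => ?_
      rw [hc']
      simp only
      rw [if_pos hv]
    · intro v _ hv
      rw [hc']
      simp only
      rw [if_neg hv, Nat.cast_zero]
  rw [h8] at h7
  linarith

/-- Subadditivity along the descent, all mediants being good. -/
theorem tree (S : (Fin n → ℤ) → (Fin n → ℤ) → Prop)
    (hS : ∀ x y, S x y → S x (x + y) ∧ S (x + y) y ∧ Good L E (x + y)) {x y : Fin n → ℤ}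
    (hxy : S x y) : L (x + y) ≤ L x + L y := by
  have key : ∀ m : ℕ, ∀ x y : Fin n → ℤ, S x y → E x y = m → L (x + y) ≤ L x + L y ∧
      (∀ k : ℕ, E x (k • x + y) = 0 → L (k • x + y) ≤ k * L x + L y) ∧
      ∀ k : ℕ, E y (k • y + x) = 0 → L (k • y + x) ≤ k * L y + L x := by
    intro m
    induction m using Nat.strong_induction_on with
    | _ m ih =>
      intro x y hxy hm
      rcases Nat.eq_zero_or_pos m with h0 | hpos
      · have h1 : E x y = 0 := by rw [hm, h0]
        refine ⟨(h.L_add x y h1).le, ?_, ?_⟩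
        · intro k _
          rw [h.L_add _ _ (by rw [h.E_nsmul, h1, mul_zero]), h.L_nsmul]
        · intro k _
          rw [h.L_add _ _ (by rw [h.E_nsmul, h.E_symm, h1, mul_zero]), h.L_nsmul]
      · obtain ⟨hs1, hs2, hgood⟩ := hS x y hxy
        have hd1 : E x (x + y) < m := by
          rw [← hm]
          exact h.E_desc x y (by omega)
        have hd2 : E (x + y) y < m := by
          rw [h.E_symm (x + y) y, add_comm x y, ← hm, h.E_symm x y]
          exact h.E_desc y x (by rw [h.E_symm]; omega)
        obtain ⟨-, a2, a3⟩ := ih _ hd1 x (x + y) hs1 rfl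
        obtain ⟨-, b2, b3⟩ := ih _ hd2 (x + y) y hs2 rfl
        -- a large number
        obtain ⟨K, hK1, hK2⟩ : ∃ K : ℕ, E (x + y) (K • (x + y) + x) = 0 ∧
            E (x + y) (K • (x + y) + y) = 0 := by
          have hex : ∀ w : Fin n → ℤ, ∀ j : ℕ, E (x + y) (j • (x + y) + w) ≤ E (x + y) w - j := by
            intro w j
            induction j with
            | zero => rw [zero_smul, zero_add, Nat.sub_zero]
            | succ j ihj =>
              have e1 : (j + 1) • (x + y) + w = (x + y) + (j • (x + y) + w) := by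
                rw [succ_nsmul]
                abel
              rw [e1]
              rcases Nat.eq_zero_or_pos (E (x + y) (j • (x + y) + w)) with h2 | h2
              · rw [h.E_add _ _ _ (h.E_self _) h2]
                exact Nat.zero_le _
              · have h3 := h.E_desc (x + y) (j • (x + y) + w) h2
                omega
          refine ⟨E (x + y) x + E (x + y) y, ?_, ?_⟩
          · have := hex x (E (x + y) x + E (x + y) y)
            omega
          · have := hex y (E (x + y) x + E (x + y) y)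
            omega
        have hA := a3 K hK1
        have hB := b2 K hK2
        have hz1 : (K + 1) • (x + y) + x = (x + y) + (K • (x + y) + x) := by
          rw [succ_nsmul]
          abel
        have hz2 : (K + 1) • (x + y) - x = K • (x + y) + y := by
          rw [succ_nsmul]
          abel
        have hg := hgood x (K + 1) (by
          rw [hz1]
          exact h.E_add _ _ _ (h.E_self _) hK1) (by
          rw [hz2]
          exact hK2)
        rw [hz2, hz1, h.L_add (x + y) (K • (x + y) + x) hK1] at hg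
        have hmain : L (x + y) ≤ L x + L y := by
          have e2 : 2 * (K + 1) * L (x + y) = 2 * (K * L (x + y)) + 2 * L (x + y) := by ring
          rw [e2] at hg
          omega
        refine ⟨hmain, ?_, ?_⟩
        · intro k hk
          rcases Nat.eq_zero_or_pos k with hk0 | hk0
          · rw [hk0, zero_smul, zero_add, zero_mul, zero_add]
          · obtain ⟨j, rfl⟩ : ∃ j, k = j + 1 := ⟨k - 1, by omega⟩
            have e3 : (j + 1) • x + y = j • x + (x + y) := by
              rw [succ_nsmul]
              abel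
            rw [e3] at hk ⊢
            have := a2 j hk
            have e4 : (j + 1) * L x = j * L x + L x := by ring
            omega
        · intro k hk
          rcases Nat.eq_zero_or_pos k with hk0 | hk0
          · rw [hk0, zero_smul, zero_add, zero_mul, zero_add]
          · obtain ⟨j, rfl⟩ : ∃ j, k = j + 1 := ⟨k - 1, by omega⟩
            have e3 : (j + 1) • y + x = j • y + (x + y) := by
              rw [succ_nsmul]
              abel
            rw [e3] at hk ⊢
            have := b3 j hk
            have e4 : (j + 1) * L y = j * L y + L y := by ring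
            omega
  exact (key _ x y hxy rfl).1

/-- enough multiples of `z` make `w` compatible with `z` -/
theorem exists_compat (z w : Fin n → ℤ) : ∀ j : ℕ, E z w ≤ j → E z (j • z + w) = 0 := by
  have hex : ∀ j : ℕ, E z (j • z + w) ≤ E z w - j := by
    intro j
    induction j with
    | zero => rw [zero_smul, zero_add, Nat.sub_zero]
    | succ j ihj =>
      have e1 : (j + 1) • z + w = z + (j • z + w) := by
        rw [succ_nsmul]
        abel
      rw [e1]
      rcases Nat.eq_zero_or_pos (E z (j • z + w)) with h2 | h2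
      · rw [h.E_add _ _ _ (h.E_self _) h2]
        exact Nat.zero_le _
      · have h3 := h.E_desc z (j • z + w) h2
        omega
  intro j hj
  have := hex j
  omega

end PF

end BT3
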