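import Pool.Agent.BT3.PureA

/-!
BT3, pure part B. Under the interface `PF` (in particular the wall relations with `∑ b ≤ 2`) every
weight is good, and the length function is subadditive.
-/

namespace BT3

open Finset

variable {n : ℕ} {L : (Fin n → ℤ) → ℕ} {E : (Fin n → ℤ) → (Fin n → ℤ) → ℕ}
  {Face : Finset (Fin n → ℤ) → Prop}

namespace PF

variable (h : PF n L E Face)

include h

theorem max_basis {F : Finset (Fin n → ℤ)} (hF : Face F) (hcard : F.card = n) :
    LinearIndependent ℤ (fun v : F => (v : Fin n → ℤ)) ∧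
      ⊤ ≤ Submodule.span ℤ (Set.range (fun v : F => (v : Fin n → ℤ))) := by
  obtain ⟨F', -, hsub, hc, h1, h2⟩ := h.face_max F hF
  have : F = F' := Finset.eq_of_subset_of_card_le hsub (by omega)
  subst this
  exact ⟨h1, h2⟩

theorem exists_coef {F : Finset (Fin n → ℤ)} (hF : Face F) (hcard : F.card = n)
    (x : Fin n → ℤ) : ∃ d : (Fin n → ℤ) → ℤ, x = ∑ v ∈ F, d v • v := by
  classical
  obtain ⟨-, h2⟩ := h.max_basis hF hcard
  have h3 : x ∈ Submodule.span ℤ (Set.range (fun v : F => (v : Fin n → ℤ))) :=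
    h2 Submodule.mem_top
  rw [Submodule.mem_span_range_iff_exists_fun] at h3
  obtain ⟨c, hc⟩ := h3
  refine ⟨fun v => if hv : v ∈ F then c ⟨v, hv⟩ else 0, ?_⟩
  rw [← hc, ← Finset.sum_coe_sort F]
  refine Finset.sum_congr rfl fun v _ => ?_
  beta_reduce
  rw [dif_pos v.2]

/-- the basis of a maximal face -/
noncomputable def bas {F : Finset (Fin n → ℤ)} (hF : Face F) (hcard : F.card = n) :
    Module.Basis F ℤ (Fin n → ℤ) :=
  Module.Basis.mk (h.max_basis hF hcard).1 (h.max_basis hF hcard).2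

theorem bas_apply {F : Finset (Fin n → ℤ)} (hF : Face F) (hcard : F.card = n) (v : F) :
    h.bas hF hcard v = v := by
  unfold bas
  rw [Module.Basis.mk_apply]

theorem coord_self {F : Finset (Fin n → ℤ)} (hF : Face F) (hcard : F.card = n) (v : F) :
    (h.bas hF hcard).coord v (v : Fin n → ℤ) = 1 := by
  have := h.bas_apply hF hcard v
  rw [← this, Module.Basis.coord_apply, Module.Basis.repr_self, Finsupp.single_eq_same]

theorem coord_ne {F : Finset (Fin n → ℤ)} (hF : Face F) (hcard : F.card = n) {v u : F}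
    (hvu : u ≠ v) : (h.bas hF hcard).coord v (u : Fin n → ℤ) = 0 := by
  have := h.bas_apply hF hcard u
  rw [← this, Module.Basis.coord_apply, Module.Basis.repr_self, Finsupp.single_eq_of_ne hvu.symm]

/-- interior of a chamber -/
theorem good_max {F : Finset (Fin n → ℤ)} (hF : Face F) (hcard : F.card = n)
    {c : (Fin n → ℤ) → ℕ} (hc : ∀ v ∈ F, 1 ≤ c v) : Good L E (∑ v ∈ F, c v • v) := by
  intro w k h1 h2
  obtain ⟨d, hd⟩ := h.exists_coef hF hcard w
  have e1 : (1 : ℕ) • (k • (∑ v ∈ F, c v • v) + w) = ∑ v ∈ F, ((k * c v : ℤ) + d v) • v := by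
    rw [one_smul]
    conv_lhs => rw [hd]
    rw [Finset.smul_sum, ← Finset.sum_add_distrib]
    refine Finset.sum_congr rfl fun v _ => ?_
    rw [add_smul, mul_smul, natCast_zsmul, natCast_zsmul]
  have e2 : (1 : ℕ) • (k • (∑ v ∈ F, c v • v) - w) = ∑ v ∈ F, ((k * c v : ℤ) - d v) • v := by
    rw [one_smul]
    conv_lhs => rw [hd]
    rw [Finset.smul_sum, ← Finset.sum_sub_distrib]
    refine Finset.sum_congr rfl fun v _ => ?_
    rw [sub_smul, mul_smul, natCast_zsmul, natCast_zsmul]
  have f1 := h.L_of_coef hF (Finset.Subset.refl F) hc h1 e1 (fun v hv hv' => absurd hv hv')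
  have f2 := h.L_of_coef hF (Finset.Subset.refl F) hc h2 e2 (fun v hv hv' => absurd hv hv')
  rw [Finset.sum_add_distrib, ← Finset.mul_sum] at f1
  rw [Finset.sum_sub_distrib, ← Finset.mul_sum] at f2
  have f3 : ((2 * k * L (∑ v ∈ F, c v • v) : ℕ) : ℤ) = 2 * (k * ∑ v ∈ F, (c v : ℤ)) := by
    rw [h.L_sum hF]
    push_cast
    ring
  push_cast at f1 f2
  have f4 : ((2 * k * L (∑ v ∈ F, c v • v) : ℕ) : ℤ) ≤
      ((L (k • (∑ v ∈ F, c v • v) + w) + L (k • (∑ v ∈ F, c v • v) - w) : ℕ) : ℤ) := by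
    rw [f3]
    push_cast
    linarith
  exact_mod_cast f4

/-- interior of a wall, one side -/
private theorem wall_half {F : Finset (Fin n → ℤ)} (hF : Face F) {c : (Fin n → ℤ) → ℕ}
    (hc : ∀ v ∈ F, 1 ≤ c v) {p q : Fin n → ℤ} {b : (Fin n → ℤ) → ℤ} (hp : p ∉ F) (hq : q ∉ F)
    (hFp : Face (insert p F)) (hFq : Face (insert q F)) (hpq : p + q = ∑ v ∈ F, b v • v)
    (hb : ∑ v ∈ F, b v ≤ 2) {w : Fin n → ℤ} {d : (Fin n → ℤ) → ℤ} {γ : ℤ} (hγ : 0 ≤ γ)
    (hw : w = γ • p + ∑ v ∈ F, d v • v) {k : ℕ}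
    (h1 : E (∑ v ∈ F, c v • v) (k • (∑ v ∈ F, c v • v) + w) = 0)
    (h2 : E (∑ v ∈ F, c v • v) (k • (∑ v ∈ F, c v • v) - w) = 0) :
    2 * k * L (∑ v ∈ F, c v • v) ≤
      L (k • (∑ v ∈ F, c v • v) + w) + L (k • (∑ v ∈ F, c v • v) - w) := by
  classical
  have hne : ∀ v ∈ F, v ≠ p := fun v hv hvp => hp (hvp ▸ hv)
  have hne' : ∀ v ∈ F, v ≠ q := fun v hv hvq => hq (hvq ▸ hv)
  have e1 : (1 : ℕ) • (k • (∑ v ∈ F, c v • v) + w) =
      ∑ v ∈ insert p F, (if v = p then γ else (k * c v : ℤ) + d v) • v := by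
    rw [one_smul, Finset.sum_insert hp, if_pos rfl]
    have e3 : ∑ v ∈ F, (if v = p then γ else (k * c v : ℤ) + d v) • v =
        k • (∑ v ∈ F, c v • v) + ∑ v ∈ F, d v • v := by
      rw [Finset.smul_sum, ← Finset.sum_add_distrib]
      refine Finset.sum_congr rfl fun v hv => ?_
      rw [if_neg (hne v hv), add_smul, mul_smul, natCast_zsmul, natCast_zsmul]
    rw [e3, hw]
    abel
  have e2 : (1 : ℕ) • (k • (∑ v ∈ F, c v • v) - w) =
      ∑ v ∈ insert q F, (if v = q then γ else (k * c v : ℤ) - d v - γ * b v) • v := by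
    rw [one_smul, Finset.sum_insert hq, if_pos rfl]
    have e3 : ∑ v ∈ F, (if v = q then γ else (k * c v : ℤ) - d v - γ * b v) • v =
        k • (∑ v ∈ F, c v • v) - ∑ v ∈ F, d v • v - γ • ∑ v ∈ F, b v • v := by
      rw [Finset.smul_sum, Finset.smul_sum, ← Finset.sum_sub_distrib, ← Finset.sum_sub_distrib]
      refine Finset.sum_congr rfl fun v hv => ?_
      rw [if_neg (hne' v hv), sub_smul, sub_smul, mul_smul, mul_smul, natCast_zsmul,
        natCast_zsmul]
    rw [e3, hw, ← hpq, smul_add]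
    abel
  have hsub : ∀ r : Fin n → ℤ, F ⊆ insert r F := fun r => Finset.subset_insert r F
  have f1 := h.L_of_coef hFp (hsub p) hc h1 e1 (by
    intro v hv hv'
    rcases mem_insert.1 hv with rfl | hvF
    · rw [if_pos rfl]
      exact hγ
    · exact absurd hvF hv')
  have f2 := h.L_of_coef hFq (hsub q) hc h2 e2 (by
    intro v hv hv'
    rcases mem_insert.1 hv with rfl | hvF
    · rw [if_pos rfl]
      exact hγ
    · exact absurd hvF hv')
  rw [Finset.sum_insert hp, if_pos rfl] at f1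
  rw [Finset.sum_insert hq, if_pos rfl] at f2
  have g1 : ∑ v ∈ F, (if v = p then γ else (k * c v : ℤ) + d v) =
      k * ∑ v ∈ F, (c v : ℤ) + ∑ v ∈ F, d v := by
    rw [Finset.mul_sum, ← Finset.sum_add_distrib]
    exact Finset.sum_congr rfl fun v hv => if_neg (hne v hv)
  have g2 : ∑ v ∈ F, (if v = q then γ else (k * c v : ℤ) - d v - γ * b v) =
      k * ∑ v ∈ F, (c v : ℤ) - ∑ v ∈ F, d v - γ * ∑ v ∈ F, b v := by
    rw [Finset.mul_sum, Finset.mul_sum, ← Finset.sum_sub_distrib, ← Finset.sum_sub_distrib]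
    exact Finset.sum_congr rfl fun v hv => if_neg (hne' v hv)
  rw [g1] at f1
  rw [g2] at f2
  have f3 : ((2 * k * L (∑ v ∈ F, c v • v) : ℕ) : ℤ) = 2 * (k * ∑ v ∈ F, (c v : ℤ)) := by
    rw [h.L_sum hF]
    push_cast
    ring
  push_cast at f1 f2
  have f5 : γ * ∑ v ∈ F, b v ≤ γ * 2 := mul_le_mul_of_nonneg_left hb hγ
  have f4 : ((2 * k * L (∑ v ∈ F, c v • v) : ℕ) : ℤ) ≤
      ((L (k • (∑ v ∈ F, c v • v) + w) + L (k • (∑ v ∈ F, c v • v) - w) : ℕ) : ℤ) := by
    rw [f3]
    push_cast
    linarith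
  exact_mod_cast f4

/-- interior of a wall -/
theorem good_wall {F : Finset (Fin n → ℤ)} (hF : Face F) (hcard : F.card + 1 = n)
    {c : (Fin n → ℤ) → ℕ} (hc : ∀ v ∈ F, 1 ≤ c v) : Good L E (∑ v ∈ F, c v • v) := by
  classical
  intro w k h1 h2
  obtain ⟨p, q, b, hp, hq, hFp, hFq, hpq, hb⟩ := h.wall F hF hcard
  have hcp : (insert p F).card = n := by rw [Finset.card_insert_of_notMem hp, hcard]
  obtain ⟨d, hd⟩ := h.exists_coef hFp hcp w
  rw [Finset.sum_insert hp] at hd
  rcases le_total 0 (d p) with h0 | h0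
  · exact h.wall_half hF hc hp hq hFp hFq hpq hb h0 hd h1 h2
  · have h3 := h.wall_half (w := -w) (d := fun v => - d v) (γ := - d p) (k := k) hF hc hp hq hFp
      hFq hpq hb (by linarith) (by
        rw [hd, neg_add, neg_smul, ← Finset.sum_neg_distrib]
        simp only [neg_smul]) (by rwa [← sub_eq_add_neg]) (by rwa [sub_neg_eq_add])
    rw [← sub_eq_add_neg, sub_neg_eq_add] at h3
    omega

/-- smaller faces -/
private theorem good_step {F : Finset (Fin n → ℤ)} (hF : Face F) (hcard : F.card + 2 ≤ n)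
    (ih : ∀ F' : Finset (Fin n → ℤ), Face F' → F.card < F'.card → ∀ c : (Fin n → ℤ) → ℕ,
      (∀ v ∈ F', 1 ≤ c v) → Good L E (∑ v ∈ F', c v • v))
    {c : (Fin n → ℤ) → ℕ} (hc : ∀ v ∈ F, 1 ≤ c v) : Good L E (∑ v ∈ F, c v • v) := by
  classical
  intro w k h1 h2
  obtain ⟨F', hF', hsub, hcard', -, -⟩ := h.face_max F hF
  obtain ⟨d, hd⟩ := h.exists_coef hF' hcard' w
  by_cases hA : ∀ v ∈ F', v ∉ F → d v = 0
  · have hd2 : w = ∑ v ∈ F, d v • v := by
      rw [hd]
      symm
      refine Finset.sum_subset hsub ?_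
      intro v hv hvF
      rw [hA v hv hvF, zero_smul]
    have e1 : (1 : ℕ) • (k • (∑ v ∈ F, c v • v) + w) = ∑ v ∈ F, ((k * c v : ℤ) + d v) • v := by
      rw [one_smul]
      conv_lhs => rw [hd2]
      rw [Finset.smul_sum, ← Finset.sum_add_distrib]
      refine Finset.sum_congr rfl fun v _ => ?_
      rw [add_smul, mul_smul, natCast_zsmul, natCast_zsmul]
    have e2 : (1 : ℕ) • (k • (∑ v ∈ F, c v • v) - w) = ∑ v ∈ F, ((k * c v : ℤ) - d v) • v := by
      rw [one_smul]
      conv_lhs => rw [hd2]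
      rw [Finset.smul_sum, ← Finset.sum_sub_distrib]
      refine Finset.sum_congr rfl fun v _ => ?_
      rw [sub_smul, mul_smul, natCast_zsmul, natCast_zsmul]
    have f1 := h.L_of_coef hF (Finset.Subset.refl F) hc h1 e1 (fun v hv hv' => absurd hv hv')
    have f2 := h.L_of_coef hF (Finset.Subset.refl F) hc h2 e2 (fun v hv hv' => absurd hv hv')
    rw [Finset.sum_add_distrib, ← Finset.mul_sum] at f1
    rw [Finset.sum_sub_distrib, ← Finset.mul_sum] at f2
    have f3 : ((2 * k * L (∑ v ∈ F, c v • v) : ℕ) : ℤ) = 2 * (k * ∑ v ∈ F, (c v : ℤ)) := by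
      rw [h.L_sum hF]
      push_cast
      ring
    push_cast at f1 f2
    have f4 : ((2 * k * L (∑ v ∈ F, c v • v) : ℕ) : ℤ) ≤
        ((L (k • (∑ v ∈ F, c v • v) + w) + L (k • (∑ v ∈ F, c v • v) - w) : ℕ) : ℤ) := by
      rw [f3]
      push_cast
      linarith
    exact_mod_cast f4
  · push Not at hA
    obtain ⟨v1, hv1, hv1F, hdv1⟩ := hA
    obtain ⟨v2, hv2, hv2F, hv21⟩ : ∃ v2 ∈ F', v2 ∉ F ∧ v2 ≠ v1 := by
      by_contra hcon
      push Not at hcon
      have h3 : F' ⊆ insert v1 F := by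
        intro v hv
        by_cases hvF : v ∈ F
        · exact mem_insert_of_mem hvF
        · rw [hcon v hv hvF]
          exact mem_insert_self _ _
      have h4 := Finset.card_le_card h3
      have h5 := Finset.card_insert_le v1 F
      omega
    obtain ⟨z, hz⟩ : ∃ z, z = ∑ v ∈ F, c v • v := ⟨_, rfl⟩
    rw [← hz] at h1 h2 ⊢
    -- coordinates
    obtain ⟨φ1, hφ1⟩ : ∃ φ : (Fin n → ℤ) →ₗ[ℤ] ℤ, φ = (h.bas hF' hcard').coord ⟨v1, hv1⟩ :=
      ⟨_, rfl⟩
    obtain ⟨φ2, hφ2⟩ : ∃ φ : (Fin n → ℤ) →ₗ[ℤ] ℤ, φ = (h.bas hF' hcard').coord ⟨v2, hv2⟩ :=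
      ⟨_, rfl⟩
    have hφ1F : ∀ v ∈ F, φ1 v = 0 := by
      intro v hv
      rw [hφ1]
      exact h.coord_ne hF' hcard' (v := ⟨v1, hv1⟩) (u := ⟨v, hsub hv⟩) (fun hh => by
        have : v = v1 := congrArg Subtype.val hh
        exact hv1F (this ▸ hv))
    have hφ2F : ∀ v ∈ F, φ2 v = 0 := by
      intro v hv
      rw [hφ2]
      exact h.coord_ne hF' hcard' (v := ⟨v2, hv2⟩) (u := ⟨v, hsub hv⟩) (fun hh => by
        have : v = v2 := congrArg Subtype.val hh
        exact hv2F (this ▸ hv))
    have hφ1v2 : φ1 v2 = 0 := by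
      rw [hφ1]
      exact h.coord_ne hF' hcard' (v := ⟨v1, hv1⟩) (u := ⟨v2, hv2⟩) (fun hh => by
        exact hv21 (congrArg Subtype.val hh))
    have hφ2v2 : φ2 v2 = 1 := by
      rw [hφ2]
      exact h.coord_self hF' hcard' ⟨v2, hv2⟩
    have hφ1w : φ1 w = d v1 := by
      rw [hd, map_sum, Finset.sum_eq_single v1]
      · rw [map_smul, hφ1, h.coord_self hF' hcard' ⟨v1, hv1⟩, smul_eq_mul, mul_one]
      · intro v hv hne
        rw [map_smul, hφ1, h.coord_ne hF' hcard' (v := ⟨v1, hv1⟩) (u := ⟨v, hv⟩) (fun hh =>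
          hne (congrArg Subtype.val hh)), smul_zero]
      · intro hh
        exact absurd hv1 hh
    have hφz : ∀ φ : (Fin n → ℤ) →ₗ[ℤ] ℤ, (∀ v ∈ F, φ v = 0) → φ z = 0 := by
      intro φ hφ
      rw [hz, map_sum]
      refine Finset.sum_eq_zero fun v hv => ?_
      rw [map_nsmul, hφ v hv, smul_zero]
    have hφ1z := hφz φ1 hφ1F
    have hφ2z := hφz φ2 hφ2F
    -- the mediants are good
    have node : ∀ (m : ℕ) (y : Fin n → ℤ), 1 ≤ m → E z y = 0 →
        (φ1 (m • z + y) ≠ 0 ∨ φ2 (m • z + y) ≠ 0) → Good L E (m • z + y) := by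
      intro m y hm hy hφ
      have hEy : ∀ v ∈ F, E v y = 0 := by
        rw [hz, h.E_face F hF c y] at hy
        intro v hv
        have h3 := Finset.sum_eq_zero_iff.1 hy v hv
        rcases Nat.mul_eq_zero.1 h3 with h4 | h4
        · have := hc v hv
          omega
        · exact h4
      obtain ⟨F2, hF2, hsub2, e, he⟩ := h.face_dec.2 F hF y hEy
      obtain ⟨c', hc'⟩ : ∃ c' : (Fin n → ℤ) → ℕ, c' = fun v => if v ∈ F then m * c v + e v
        else e v := ⟨_, rfl⟩
      obtain ⟨F3, hF3⟩ : ∃ F3 : Finset (Fin n → ℤ), F3 = F2.filter (fun v => 1 ≤ c' v) :=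
        ⟨_, rfl⟩
      have hsum : m • z + y = ∑ v ∈ F3, c' v • v := by
        have h3 : ∑ v ∈ F3, c' v • v = ∑ v ∈ F2, c' v • v := by
          rw [hF3]
          refine Finset.sum_filter_of_ne ?_
          intro v _ hv
          by_contra hcon
          apply hv
          have : c' v = 0 := by omega
          rw [this, zero_smul]
        have h4 : m • z = ∑ v ∈ F2, (if v ∈ F then m * c v else 0) • v := by
          rw [hz, Finset.smul_sum, ← Finset.sum_subset hsub2
            (f := fun v => (if v ∈ F then m * c v else 0) • v)]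
          · refine Finset.sum_congr rfl fun v hv => ?_
            rw [if_pos hv, mul_smul]
          · intro v _ hv
            rw [if_neg hv, zero_smul]
        rw [h3, h4]
        conv_lhs => rw [he]
        rw [← Finset.sum_add_distrib]
        refine Finset.sum_congr rfl fun v _ => ?_
        rw [← add_smul, hc']
        simp only
        by_cases hv : v ∈ F
        · rw [if_pos hv, if_pos hv]
        · rw [if_neg hv, if_neg hv, zero_add]
      have hFF3 : F ⊆ F3 := by
        intro v hv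
        rw [hF3, mem_filter]
        refine ⟨hsub2 hv, ?_⟩
        rw [hc']
        simp only
        rw [if_pos hv]
        have h5 := hc v hv
        have h6 : 1 ≤ m * c v := Nat.mul_pos hm h5
        omega
      have hne : F ≠ F3 := by
        intro hh
        have h7 : ∀ φ : (Fin n → ℤ) →ₗ[ℤ] ℤ, (∀ v ∈ F, φ v = 0) → φ (m • z + y) = 0 := by
          intro φ hφ0
          rw [hsum, ← hh, map_sum]
          refine Finset.sum_eq_zero fun v hv => ?_
          rw [map_nsmul, hφ0 v hv, smul_zero]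
        rcases hφ with h8 | h8
        · exact h8 (h7 φ1 hφ1F)
        · exact h8 (h7 φ2 hφ2F)
      have hlt : F.card < F3.card := Finset.card_lt_card (hFF3.ssubset_of_ne hne)
      have hF3f : Face F3 := by
        rw [hF3]
        exact h.face_sub _ _ hF2 (filter_subset _ _)
      rw [hsum]
      refine ih F3 hF3f hlt c' fun v hv => ?_
      rw [hF3] at hv
      exact (mem_filter.1 hv).2
    -- the relation for the descent
    have hpair : ∀ x0 y0 : Fin n → ℤ, E z x0 = 0 → E z y0 = 0 →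
        (∀ p q : ℕ, 1 ≤ p → 1 ≤ q → (φ1 (p • x0 + q • y0) ≠ 0 ∨ φ2 (p • x0 + q • y0) ≠ 0)) →
        L ((z + x0) + (z + y0)) ≤ L (z + x0) + L (z + y0) := by
      intro x0 y0 hx0 hy0 hφ
      refine h.tree (fun x y => ∃ (x' y' : Fin n → ℤ) (a b : ℕ), 1 ≤ a ∧ 1 ≤ b ∧
        x = a • z + x' ∧ y = b • z + y' ∧ E z x' = 0 ∧ E z y' = 0 ∧
        ∀ p q : ℕ, 1 ≤ p → 1 ≤ q → (φ1 (p • x + q • y) ≠ 0 ∨ φ2 (p • x + q • y) ≠ 0)) ?_ ?_
      · rintro x y ⟨x', y', a, b, ha, hb, hx, hy, hx', hy', hφ'⟩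
        have hxy : x + y = (a + b) • z + (x' + y') := by
          rw [hx, hy, add_smul]
          abel
        have hxy' : E z (x' + y') = 0 := h.E_add _ _ _ hx' hy'
        refine ⟨⟨x', x' + y', a, a + b, ha, by omega, hx, hxy, hx', hxy', ?_⟩,
          ⟨x' + y', y', a + b, b, by omega, hb, hxy, hy, hxy', hy', ?_⟩, ?_⟩
        · intro p q hp hq
          have := hφ' (p + q) q (by omega) hq
          rwa [show (p + q) • x + q • y = p • x + q • (x + y) by
            rw [add_smul, smul_add]; abel] at this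
        · intro p q hp hq
          have := hφ' p (p + q) hp (by omega)
          rwa [show p • x + (p + q) • y = p • (x + y) + q • y by
            rw [add_smul, smul_add]; abel] at this
        · rw [hxy]
          refine node (a + b) (x' + y') (by omega) hxy' ?_
          have := hφ' 1 1 le_rfl le_rfl
          rw [one_smul, one_smul, hxy] at this
          exact this
      · refine ⟨x0, y0, 1, 1, le_rfl, le_rfl, by rw [one_smul], by rw [one_smul], hx0, hy0, ?_⟩
        intro p q hp hq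
        have h3 := hφ p q hp hq
        have h4 : ∀ φ : (Fin n → ℤ) →ₗ[ℤ] ℤ, φ z = 0 →
            φ (p • (z + x0) + q • (z + y0)) = φ (p • x0 + q • y0) := by
          intro φ hφ0
          simp only [map_add, map_nsmul, hφ0, smul_add, smul_zero, zero_add]
        rw [h4 φ1 hφ1z, h4 φ2 hφ2z]
        exact h3
    obtain ⟨N, hN⟩ : ∃ N : ℕ, N = E z w + E z v2 + E z (-w) + E z (w + v2) + k := ⟨_, rfl⟩
    have c1 := h.exists_compat z w N (by omega)
    have c2 := h.exists_compat z v2 N (by omega)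
    have c3 := h.exists_compat z (-w) N (by omega)
    have c4 := h.exists_compat z (w + v2) N (by omega)
    have p1 := hpair _ _ c1 c2 (by
      intro p q hp hq
      left
      simp only [map_add, map_nsmul, smul_add, hφ1z, hφ1v2, smul_zero, zero_add, add_zero]
      rw [hφ1w, nsmul_eq_mul]
      exact mul_ne_zero (by exact_mod_cast (by omega : p ≠ 0)) hdv1)
    have p2 := hpair _ _ c3 c4 (by
      intro p q hp hq
      by_cases hpq : p = q
      · right
        subst hpq
        simp only [map_add, map_nsmul, map_neg, smul_add, hφ2z, hφ2v2, smul_zero, zero_add]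
        simp only [nsmul_eq_mul, mul_one, mul_neg]
        have : (p : ℤ) ≠ 0 := by exact_mod_cast (by omega : p ≠ 0)
        intro hh
        apply this
        linarith
      · left
        simp only [map_add, map_nsmul, map_neg, smul_add, hφ1z, hφ1v2, smul_zero, zero_add,
          add_zero]
        rw [hφ1w]
        simp only [nsmul_eq_mul, mul_neg]
        intro hh
        have h9 : ((q : ℤ) - p) * d v1 = 0 := by linarith
        rcases mul_eq_zero.1 h9 with h10 | h10
        · apply hpq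
          have : (p : ℤ) = q := by linarith
          exact_mod_cast this
        · exact hdv1 h10)
    have a1 : L (z + (N • z + w)) = L z + L (N • z + w) := h.L_add _ _ c1
    have a2 : L (z + (N • z + v2)) = L z + L (N • z + v2) := h.L_add _ _ c2
    have a3 : L (z + (N • z + -w)) = L z + L (N • z + -w) := h.L_add _ _ c3
    have a4 : L (z + (N • z + (w + v2))) = L z + L (N • z + (w + v2)) := h.L_add _ _ c4
    have b1 : (z + (N • z + w)) + (z + (N • z + v2)) =
        (N + 2) • z + (N • z + (w + v2)) := by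
      rw [add_smul, two_smul]
      abel
    have b2 : (z + (N • z + -w)) + (z + (N • z + (w + v2))) =
        (N + 2) • z + (N • z + v2) := by
      rw [add_smul, two_smul]
      abel
    rw [b1, a1, a2, h.L_add _ _ (by rw [h.E_nsmul, c4, mul_zero]), h.L_nsmul] at p1
    rw [b2, a3, a4, h.L_add _ _ (by rw [h.E_nsmul, c2, mul_zero]), h.L_nsmul] at p2
    have d1 : N • z + w = (N - k) • z + (k • z + w) := by
      rw [← add_assoc, ← add_smul, Nat.sub_add_cancel (by omega)]
    have d2 : N • z + -w = (N - k) • z + (k • z - w) := by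
      rw [sub_eq_add_neg, ← add_assoc, ← add_smul, Nat.sub_add_cancel (by omega)]
    have g1 : L (N • z + w) = (N - k) * L z + L (k • z + w) := by
      rw [d1, h.L_add _ _ (by rw [h.E_nsmul, h1, mul_zero]), h.L_nsmul]
    have g2 : L (N • z + -w) = (N - k) * L z + L (k • z - w) := by
      rw [d2, h.L_add _ _ (by rw [h.E_nsmul, h2, mul_zero]), h.L_nsmul]
    have g3 : N * L z = (N - k) * L z + k * L z := by
      rw [← add_mul, Nat.sub_add_cancel (by omega)]
    have g4 : (N + 2) * L z = N * L z + 2 * L z := by ring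
    have g5 : 2 * k * L z = 2 * (k * L z) := by ring
    rw [g5]
    omega

theorem good_all (m : ℕ) : ∀ F : Finset (Fin n → ℤ), Face F → n ≤ F.card + m →
    ∀ c : (Fin n → ℤ) → ℕ, (∀ v ∈ F, 1 ≤ c v) → Good L E (∑ v ∈ F, c v • v) := by
  induction m with
  | zero =>
    intro F hF hcard c hc
    have : F.card = n := by
      obtain ⟨F', -, hsub, hc', -, -⟩ := h.face_max F hF
      have := Finset.card_le_card hsub
      omega
    exact h.good_max hF this hc
  | succ m ih =>
    intro F hF hcard c hc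
    have hle : F.card ≤ n := by
      obtain ⟨F', -, hsub, hc', -, -⟩ := h.face_max F hF
      have := Finset.card_le_card hsub
      omega
    rcases Nat.lt_or_ge (F.card + 1) n with h1 | h1
    · refine h.good_step hF (by omega) ?_ hc
      intro F' hF' hlt c' hc'
      exact ih F' hF' (by omega) c' hc'
    · rcases Nat.lt_or_ge F.card n with h2 | h2
      · exact h.good_wall hF (by omega) hc
      · exact h.good_max hF (by omega) hc

theorem good (z : Fin n → ℤ) : Good L E z := by
  obtain ⟨F, hF, c, hc, hz⟩ := h.exists_face z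
  rw [hz]
  exact h.good_all n F hF (by omega) c hc

/-- The length function is subadditive. -/
theorem L_add_le (x y : Fin n → ℤ) : L (x + y) ≤ L x + L y :=
  h.tree (fun _ _ => True) (fun x y _ => ⟨trivial, trivial, h.good (x + y)⟩) trivial

end PF

end BT3
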